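import Mathlib

-- part Pool.Agent.Lib.MP_04ab3e_co.X.Base
section

/-! Hamilton paths of finite sets as an inductive predicate, with a cut and paste interface. -/

namespace Pool.Agent.Lib.MP_04ab3e_co.X

open Finset

variable {V : Type} [DecidableEq V]

/-- `HP H U a b`: the set `U` is spanned by a path of the graph `H` from `a` to `b`. -/
inductive HP (H : V → V → Prop) : Finset V → V → V → Prop
  | single (a : V) : HP H {a} a a
  | cons {U : Finset V} {a a' b : V} : H a a' → a ∉ U → HP H U a' b → HP H (insert a U) a b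

/-- Symmetric relation. -/
def Sy (H : V → V → Prop) : Prop := ∀ a b, H a b → H b a

variable {H : V → V → Prop} {U W : Finset V} {a b c d : V}

theorem HP.mem_left (h : HP H U a b) : a ∈ U := by
  cases h <;> simp

theorem HP.mem_right (h : HP H U a b) : b ∈ U := by
  induction h with
  | single a => simp
  | cons _ _ _ ih => simp [ih]

theorem HP.nonempty (h : HP H U a b) : U.Nonempty := ⟨a, h.mem_left⟩

theorem HP.cast {U' : Finset V} (h : HP H U a b) (e : U = U') : HP H U' a b := e ▸ h

theorem HP.mono {H' : V → V → Prop} (h : HP H U a b)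
    (hm : ∀ x ∈ U, ∀ y ∈ U, H x y → H' x y) : HP H' U a b := by
  induction h with
  | single a => exact HP.single a
  | cons h1 h2 h3 ih =>
    refine HP.cons (hm _ (by simp) _ (by simp [h3.mem_left]) h1) h2 (ih ?_)
    intro x hx y hy
    exact hm x (by simp [hx]) y (by simp [hy])

theorem HP.append (h1 : HP H U a b) (h2 : HP H W c d) (hd : Disjoint U W) (e : H b c) :
    HP H (U ∪ W) a d := by
  induction h1 with
  | single a =>
    have : a ∉ W := by simpa using hd
    simpa using HP.cons e this h2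
  | @cons U a a' b h3 h4 h5 ih =>
    rw [disjoint_insert_left] at hd
    rw [insert_union]
    exact HP.cons h3 (by simp [h4, hd.1]) (ih hd.2 e)

theorem HP.snoc (h : HP H U a b) (hc : c ∉ U) (e : H b c) : HP H (insert c U) a c := by
  have := h.append (HP.single c) (by simpa using hc) e
  refine this.cast ?_
  ext x; simp [or_comm]

theorem HP.symm (hs : Sy H) (h : HP H U a b) : HP H U b a := by
  induction h with
  | single a => exact HP.single a
  | cons h3 h4 _ ih => exact ih.snoc h4 (hs _ _ h3)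

theorem HP.eq_single (h : HP H U a a) : U = {a} := by
  generalize hb : a = b at h
  rw [← hb]
  have : ∀ {U a b}, HP H U a b → a = b → U = {a} := by
    intro U a b h
    cases h with
    | single a => intro _; rfl
    | cons h3 h4 h5 => intro e; subst e; exact absurd h5.mem_right h4
  subst hb
  exact this h rfl

/-- Remove the first vertex. -/
theorem HP.tail (h : HP H U a b) (hab : a ≠ b) : ∃ a', H a a' ∧ HP H (U.erase a) a' b := by
  cases h with
  | single a => exact absurd rfl hab
  | cons h3 h4 h5 => exact ⟨_, h3, by rwa [erase_insert h4]⟩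

/-- Cut after the vertex `v`. -/
theorem HP.split (h : HP H U a b) {v : V} (hv : v ∈ U) (hvb : v ≠ b) :
    ∃ U1 U2 v', HP H U1 a v ∧ HP H U2 v' b ∧ H v v' ∧ Disjoint U1 U2 ∧ U1 ∪ U2 = U := by
  induction h with
  | single a => exact absurd (by simpa using hv) hvb
  | @cons U a a' b h3 h4 h5 ih =>
    by_cases e : v = a
    · subst e
      exact ⟨{v}, U, a', HP.single v, h5, h3, by simpa using h4, by simp⟩
    · obtain ⟨U1, U2, v', p1, p2, p3, p4, p5⟩ := ih (by simpa [e] using hv) hvb
      subst p5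
      simp only [mem_union, not_or] at h4
      exact ⟨insert a U1, U2, v', HP.cons h3 h4.1 p1, p2, p3, by simp [h4.2, p4], by simp⟩

/-- Cut before the vertex `v`. -/
theorem HP.split' (h : HP H U a b) {v : V} (hv : v ∈ U) (hva : v ≠ a) :
    ∃ U1 U2 v', HP H U1 a v' ∧ HP H U2 v b ∧ H v' v ∧ Disjoint U1 U2 ∧ U1 ∪ U2 = U := by
  induction h with
  | single a => exact absurd (by simpa using hv) hva
  | @cons U a a' b h3 h4 h5 ih =>
    by_cases e : v = a'
    · subst e
      exact ⟨{a}, U, a, HP.single a, h5, h3, by simpa using h4, by simp⟩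
    · obtain ⟨U1, U2, v', p1, p2, p3, p4, p5⟩ := ih (by simpa [hva] using hv) e
      subst p5
      simp only [mem_union, not_or] at h4
      exact ⟨insert a U1, U2, v', HP.cons h3 h4.1 p1, p2, p3, by simp [h4.2, p4], by simp⟩

/-- Remove the last vertex. -/
theorem HP.init (h : HP H U a b) (hab : a ≠ b) : ∃ b', H b' b ∧ HP H (U.erase b) a b' := by
  obtain ⟨U1, U2, v', p1, p2, p3, p4, p5⟩ := h.split' h.mem_right hab.symm
  have := p2.eq_single
  subst this
  refine ⟨v', p3, p1.cast ?_⟩
  rw [← p5]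
  have : b ∉ U1 := by simpa using p4
  ext x; simp only [mem_erase, mem_union, mem_singleton]
  constructor
  · intro hx; exact ⟨fun e => this (e ▸ hx), Or.inl hx⟩
  · rintro ⟨h1, h2 | h2⟩
    · exact h2
    · exact absurd h2 h1

/-- Remove an interior vertex. -/
theorem HP.remove (h : HP H U a b) {w : V} (hw : w ∈ U) (hwa : w ≠ a) (hwb : w ≠ b) :
    ∃ U1 U2 p q, HP H U1 a p ∧ HP H U2 q b ∧ H p w ∧ H w q ∧ Disjoint U1 U2 ∧
      U1 ∪ U2 = U.erase w := by
  obtain ⟨U1, U2, p, p1, p2, p3, p4, p5⟩ := h.split' hw hwa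
  obtain ⟨q, q1, q2⟩ := p2.tail hwb
  refine ⟨U1, U2.erase w, p, q, p1, q2, p3, q1, p4.mono_right (erase_subset _ _), ?_⟩
  have : w ∉ U1 := fun hx => disjoint_left.1 p4 hx p2.mem_left
  rw [← p5, erase_union_distrib, erase_eq_of_notMem this]

theorem HP.ne_of_two_le (h : HP H U a b) (h2 : 2 ≤ U.card) : a ≠ b := by
  rintro rfl
  rw [h.eq_single] at h2
  simp at h2

theorem HP.two_le (h : HP H U a b) (hab : a ≠ b) : 2 ≤ U.card := by
  have : ({a, b} : Finset V) ⊆ U := by
    intro x hx
    rcases mem_insert.1 hx with rfl | hx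
    · exact h.mem_left
    · rw [mem_singleton.1 hx]; exact h.mem_right
  simpa [card_pair hab] using card_le_card this

/-- Initial segments of every length. -/
theorem HP.trunc (h : HP H U a b) (n : ℕ) (h1 : 1 ≤ n) (hn : n ≤ U.card) :
    ∃ U' a', HP H U' a' b ∧ U' ⊆ U ∧ U'.card = n := by
  induction h with
  | single a =>
    have : n = 1 := by simp at hn; omega
    exact ⟨{a}, a, HP.single a, Subset.refl _, by simp [this]⟩
  | @cons U a a' b h3 h4 h5 ih =>
    rw [card_insert_of_notMem h4] at hn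
    by_cases e : n = U.card + 1
    · exact ⟨_, a, HP.cons h3 h4 h5, Subset.refl _, by rw [card_insert_of_notMem h4, e]⟩
    · obtain ⟨U', a', p1, p2, p3⟩ := ih (by omega)
      exact ⟨U', a', p1, p2.trans (subset_insert _ _), p3⟩

/-- The first vertex of the path with property `p`. -/
theorem HP.first (h : HP H U a b) (p : V → Prop) (hb : p b) :
    p a ∨ ∃ U1 U2 t f, HP H U1 a t ∧ HP H U2 f b ∧ H t f ∧ Disjoint U1 U2 ∧ U1 ∪ U2 = U ∧
      p f ∧ ∀ v ∈ U1, ¬ p v := by
  induction h with
  | single a => exact Or.inl hb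
  | @cons U a a' b h3 h4 h5 ih =>
    by_cases e : p a
    · exact Or.inl e
    · right
      rcases ih hb with h | ⟨U1, U2, t, f, p1, p2, p3, p4, p5, p6, p7⟩
      · exact ⟨{a}, U, a, a', HP.single a, h5, h3, by simpa using h4, by simp, h, by simpa using e⟩
      · subst p5
        simp only [mem_union, not_or] at h4
        refine ⟨insert a U1, U2, t, f, HP.cons h3 h4.1 p1, p2, p3, by simp [h4.2, p4], by simp,
          p6, ?_⟩
        intro v hv
        rcases mem_insert.1 hv with rfl | hv
        · exact e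
        · exact p7 v hv

/-- A path that meets a set and its complement has an edge between them. -/
theorem HP.cross (hs : Sy H) (h : HP H U a b) (p : V → Prop) {x y : V} (hx : x ∈ U) (hy : y ∈ U)
    (px : p x) (py : ¬ p y) : ∃ u ∈ U, ∃ v ∈ U, p u ∧ ¬ p v ∧ H u v := by
  induction h generalizing x y with
  | single a =>
    rw [mem_singleton] at hx hy
    subst hx; subst hy; exact absurd px py
  | @cons U a a' b h3 h4 h5 ih =>
    have ha' := h5.mem_left
    by_cases e : p a <;> by_cases e' : p a'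
    · have hy' : y ∈ U := by
        rcases mem_insert.1 hy with rfl | hy
        · exact absurd e py
        · exact hy
      obtain ⟨u, hu, v, hv, q⟩ := ih ha' hy' e' py
      exact ⟨u, by simp [hu], v, by simp [hv], q⟩
    · exact ⟨a, by simp, a', by simp [ha'], e, e', h3⟩
    · exact ⟨a', by simp [ha'], a, by simp, e', e, hs _ _ h3⟩
    · have hx' : x ∈ U := by
        rcases mem_insert.1 hx with rfl | hx
        · exact absurd px e
        · exact hx
      obtain ⟨u, hu, v, hv, q⟩ := ih hx' ha' px e'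
      exact ⟨u, by simp [hu], v, by simp [hv], q⟩

/-- There is an edge of `H` between `U` and `W`. -/
def Lk (H : V → V → Prop) (U W : Finset V) : Prop := ∃ x ∈ U, ∃ y ∈ W, H x y

theorem Lk.symm (hs : Sy H) (h : Lk H U W) : Lk H W U := by
  obtain ⟨x, hx, y, hy, e⟩ := h
  exact ⟨y, hy, x, hx, hs _ _ e⟩

/-- If two linked paths cover a set, every splitting of the set into two nonempty parts is
linked. -/
theorem Lk.of_cover (hs : Sy H) (h1 : HP H U a b) (h2 : HP H W c d) (hl : Lk H U W)
    {U' W' : Finset V} (hd : Disjoint U' W') (he : U' ∪ W' = U ∪ W) (n1 : U'.Nonempty)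
    (n2 : W'.Nonempty) : Lk H U' W' := by
  by_contra hn
  have key : ∀ {Z : Finset V} {a b : V}, HP H Z a b → Z ⊆ U ∪ W → ∀ x ∈ Z, ∀ y ∈ Z,
      x ∈ U' → y ∈ U' := by
    intro Z a b h hz x hx y hy px
    by_contra py
    obtain ⟨u, hu, v, hv, q1, q2, q3⟩ := h.cross hs (· ∈ U') hx hy px py
    have : v ∈ U' ∪ W' := he ▸ hz hv
    exact hn ⟨u, q1, v, (mem_union.1 this).resolve_left q2, q3⟩
  obtain ⟨x, hx, y, hy, e⟩ := hl
  have hxy : x ∈ U' ↔ y ∈ U' := by
    constructor
    · intro px
      by_contra py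
      have : y ∈ U' ∪ W' := he ▸ mem_union_right _ hy
      exact hn ⟨x, px, y, (mem_union.1 this).resolve_left py, e⟩
    · intro py
      by_contra px
      have : x ∈ U' ∪ W' := he ▸ mem_union_left _ hx
      exact hn ⟨y, py, x, (mem_union.1 this).resolve_left px, hs _ _ e⟩
  obtain ⟨u, hu⟩ := n1
  obtain ⟨v, hv⟩ := n2
  have hx' : x ∈ U' := by
    have : u ∈ U ∪ W := he ▸ mem_union_left _ hu
    rcases mem_union.1 this with q | q
    · exact key h1 subset_union_left u q x hx hu
    · exact hxy.2 (key h2 subset_union_right u q y hy hu)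
  have hv' : v ∈ U' := by
    have : v ∈ U ∪ W := he ▸ mem_union_right _ hv
    rcases mem_union.1 this with q | q
    · exact key h1 subset_union_left x hx v q hx'
    · exact key h2 subset_union_right y hy v q (hxy.1 hx')
  exact disjoint_left.1 hd hv' hv

/-- A cycle can be opened at every vertex. -/
theorem HP.rotate (h : HP H U a b) (e : H b a) {v : V} (hv : v ∈ U) :
    ∃ v', HP H U v v' ∧ H v' v := by
  by_cases hva : v = a
  · subst hva; exact ⟨b, h, e⟩
  · obtain ⟨U1, U2, v', p1, p2, p3, p4, p5⟩ := h.split' hv hva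
    exact ⟨v', (p2.append p1 p4.symm e).cast (by rw [union_comm, p5]), p3⟩

/-- `H` with one more edge `A D`. -/
def Dum (H : V → V → Prop) (A D : V) (x y : V) : Prop :=
  H x y ∨ (x = A ∧ y = D) ∨ (x = D ∧ y = A)

theorem Dum.sy (hs : Sy H) (A D : V) : Sy (Dum H A D) := by
  rintro x y (h | h | h)
  · exact Or.inl (hs _ _ h)
  · exact Or.inr (Or.inr ⟨h.2, h.1⟩)
  · exact Or.inr (Or.inl ⟨h.2, h.1⟩)

theorem HP.dum (h : HP H U a b) (A D : V) : HP (Dum H A D) U a b :=
  h.mono fun _ _ _ _ e => Or.inl e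

theorem HP.undum {A D : V} (h : HP (Dum H A D) U a b) (hn : A ∉ U ∨ D ∉ U) : HP H U a b := by
  refine h.mono ?_
  rintro x hx y hy (e | ⟨rfl, rfl⟩ | ⟨rfl, rfl⟩)
  · exact e
  · rcases hn with q | q <;> contradiction
  · rcases hn with q | q <;> contradiction

/-- A path that may use the extra edge is a path of `H` or splits at the extra edge. -/
theorem HP.dum_split {A D : V} (h : HP (Dum H A D) U a b) :
    HP H U a b ∨ ∃ U1 U2, Disjoint U1 U2 ∧ U1 ∪ U2 = U ∧
      ((HP H U1 a A ∧ HP H U2 D b) ∨ (HP H U1 a D ∧ HP H U2 A b)) := by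
  induction h with
  | single a => exact Or.inl (HP.single a)
  | @cons U a a' b h3 h4 h5 ih =>
    rcases h3 with e | ⟨rfl, rfl⟩ | ⟨rfl, rfl⟩
    · rcases ih with h | ⟨U1, U2, p4, p5, p⟩
      · exact Or.inl (HP.cons e h4 h)
      · subst p5
        simp only [mem_union, not_or] at h4
        refine Or.inr ⟨insert a U1, U2, by simp [h4.2, p4], by simp, ?_⟩
        rcases p with p | p
        · exact Or.inl ⟨HP.cons e h4.1 p.1, p.2⟩
        · exact Or.inr ⟨HP.cons e h4.1 p.1, p.2⟩
    · exact Or.inr ⟨{a}, U, by simpa using h4, by simp,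
        Or.inl ⟨HP.single a, h5.undum (Or.inl h4)⟩⟩
    · exact Or.inr ⟨{a}, U, by simpa using h4, by simp,
        Or.inr ⟨HP.single a, h5.undum (Or.inr h4)⟩⟩

/-! ### Successor maps and rotations -/

/-- `f` is the successor map of a path from `r` to `s` on `U`. -/
def SuccF (H : V → V → Prop) (U : Finset V) (r s : V) (f : V → V) : Prop :=
  Set.InjOn f (U.erase s : Finset V) ∧ ∀ t ∈ U, t ≠ s → f t ≠ r ∧ ∃ U1 U2, HP H U1 r t ∧
    HP H U2 (f t) s ∧ H t (f t) ∧ Disjoint U1 U2 ∧ U1 ∪ U2 = U

theorem SuccF.cons {a' : V} {f : V → V} (h3 : H a a') (h4 : a ∉ U) (h5 : HP H U a' b)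
    (hf : SuccF H U a' b f) : SuccF H (insert a U) a b (Function.update f a a') := by
  have hne : ∀ t ∈ U, t ≠ a := fun t ht e => h4 (e ▸ ht)
  constructor
  · intro x hx y hy e
    simp only [coe_erase, coe_insert, Set.mem_diff, Set.mem_insert_iff, mem_coe,
      Set.mem_singleton_iff] at hx hy
    rcases hx with ⟨rfl | hx, hx'⟩ <;> rcases hy with ⟨rfl | hy, hy'⟩
    · rfl
    · rw [Function.update_self, Function.update_of_ne (hne y hy)] at e
      exact absurd e.symm (hf.2 y hy hy').1
    · rw [Function.update_self, Function.update_of_ne (hne x hx)] at e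
      exact absurd e (hf.2 x hx hx').1
    · rw [Function.update_of_ne (hne x hx), Function.update_of_ne (hne y hy)] at e
      exact hf.1 (by simp [hx, hx']) (by simp [hy, hy']) e
  · intro t ht hts
    rcases mem_insert.1 ht with rfl | ht
    · rw [Function.update_self]
      exact ⟨hne _ h5.mem_left, {t}, U, HP.single t, h5, h3, by simpa using h4, by simp⟩
    · rw [Function.update_of_ne (hne t ht)]
      obtain ⟨-, U1, U2, p1, p2, p3, p4, p5⟩ := hf.2 t ht hts
      subst p5
      refine ⟨hne _ (mem_union_right _ p2.mem_left), insert a U1, U2, ?_⟩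
      simp only [mem_union, not_or] at h4
      exact ⟨HP.cons h3 h4.1 p1, p2, p3, by simp [h4.2, p4], by simp⟩

theorem HP.succF (h : HP H U a b) : ∃ f, SuccF H U a b f := by
  induction h with
  | single a =>
    refine ⟨id, by simp, ?_⟩
    intro t ht hts
    exact absurd (by simpa using ht) hts
  | cons h3 h4 h5 ih =>
    obtain ⟨f, hf⟩ := ih
    exact ⟨_, hf.cons h3 h4 h5⟩

theorem HP.succF_split (h1 : HP H U a b) (h2 : HP H W c d) (hd : Disjoint U W) (e : H b c) :
    ∃ f, SuccF H (U ∪ W) a d f ∧ f b = c := by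
  induction h1 with
  | single a =>
    have : a ∉ W := by simpa using hd
    obtain ⟨f, hf⟩ := h2.succF
    exact ⟨_, by simpa using hf.cons e this h2, by simp⟩
  | @cons U a a' b h3 h4 h5 ih =>
    rw [disjoint_insert_left] at hd
    obtain ⟨f, hf, hb⟩ := ih hd.2 e
    rw [insert_union]
    refine ⟨_, hf.cons h3 (by simp [h4, hd.1]) (h5.append h2 hd.2 e), ?_⟩
    have : b ≠ a := fun q => h4 (q ▸ h5.mem_right)
    rw [Function.update_of_ne this, hb]

open Classical in
/-- Neighbours of `s` in `U`. -/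
noncomputable def nb (H : V → V → Prop) (U : Finset V) (s : V) : Finset V := U.filter (H s ·)

open Classical in
/-- Partners of `r`: the other ends of Hamilton paths of `U` that start at `r`. -/
noncomputable def prt (H : V → V → Prop) (U : Finset V) (r : V) : Finset V :=
  U.filter (HP H U r ·)

open Classical in
/-- Ends of Hamilton paths of `U`. -/
noncomputable def ends (H : V → V → Prop) (U : Finset V) : Finset V :=
  U.filter (fun a => ∃ b, HP H U a b)

theorem mem_nb {s t : V} : t ∈ nb H U s ↔ t ∈ U ∧ H s t := by simp [nb]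

theorem mem_prt {r s : V} : s ∈ prt H U r ↔ HP H U r s := by
  simp only [prt, mem_filter]
  exact ⟨fun h => h.2, fun h => ⟨h.mem_right, h⟩⟩

theorem mem_ends : a ∈ ends H U ↔ ∃ b, HP H U a b := by
  simp only [ends, mem_filter]
  exact ⟨fun h => h.2, fun ⟨b, h⟩ => ⟨h.mem_left, b, h⟩⟩

theorem prt_subset_ends (hs : Sy H) (r : V) : prt H U r ⊆ ends H U :=
  fun _ h => mem_ends.2 ⟨r, (mem_prt.1 h).symm hs⟩

theorem ends_subset : ends H U ⊆ U := fun _ h => by
  obtain ⟨b, h⟩ := mem_ends.1 h; exact h.mem_left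

theorem SuccF.rot (hs : Sy H) {r s t : V} {f : V → V} (hf : SuccF H U r s f) (ht : t ∈ U)
    (hts : t ≠ s) (e : H s t) : HP H U r (f t) := by
  obtain ⟨-, U1, U2, p1, p2, p3, p4, p5⟩ := hf.2 t ht hts
  exact (p1.append (p2.symm hs) p4 (hs _ _ e)).cast p5

/-- Rotations: every neighbour of the end `s` gives a partner of `r`. -/
theorem posa (hs : Sy H) {r s : V} (h : HP H U r s) (hi : ¬ H s s) :
    (nb H U s).card ≤ (prt H U r).card := by
  obtain ⟨f, hf⟩ := h.succF
  have hne : ∀ t ∈ nb H U s, t ≠ s := fun t ht e => hi (e ▸ (mem_nb.1 ht).2)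
  refine card_le_card_of_injOn f ?_ ?_
  · intro t ht
    have ht' := mem_nb.1 (mem_coe.1 ht)
    exact mem_coe.2 (mem_prt.2 (hf.rot hs ht'.1 (hne t ht) ht'.2))
  · intro x hx y hy e
    exact hf.1 (by simp [hne x hx, (mem_nb.1 hx).1]) (by simp [hne y hy, (mem_nb.1 hy).1]) e

/-- If the path is `r .. t f .. s`, the vertex `f` is a partner of `r` and `s` does not see `t`,
then the rotation bound is strict. -/
theorem posa_strict (hs : Sy H) {r s t f : V} (h1 : HP H U r t) (h2 : HP H W f s)
    (hd : Disjoint U W) (e : H t f) (hi : ¬ H s s) (hf : HP H (U ∪ W) r f) (hn : ¬ H s t) :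
    (nb H (U ∪ W) s).card < (prt H (U ∪ W) r).card := by
  obtain ⟨g, hg, hb⟩ := h1.succF_split h2 hd e
  have hts : t ≠ s := fun q => disjoint_left.1 hd h1.mem_right (q ▸ h2.mem_right)
  have hne : ∀ x ∈ insert t (nb H (U ∪ W) s), x ≠ s ∧ x ∈ U ∪ W := by
    intro x hx
    rcases mem_insert.1 hx with rfl | hx
    · exact ⟨hts, mem_union_left _ h1.mem_right⟩
    · exact ⟨fun q => hi (q ▸ (mem_nb.1 hx).2), (mem_nb.1 hx).1⟩
  have : (insert t (nb H (U ∪ W) s)).card ≤ (prt H (U ∪ W) r).card := by
    refine card_le_card_of_injOn g ?_ ?_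
    · intro x hx
      rcases mem_insert.1 (mem_coe.1 hx) with rfl | hx'
      · exact mem_coe.2 (mem_prt.2 (hb ▸ hf))
      · exact mem_coe.2 (mem_prt.2 (hg.rot hs (mem_nb.1 hx').1 (hne x hx).1 (mem_nb.1 hx').2))
    · intro x hx y hy q
      exact hg.1 (mem_coe.2 (mem_erase.2 (hne x hx))) (mem_coe.2 (mem_erase.2 (hne y hy))) q
  rw [card_insert_of_notMem (fun q => hn (mem_nb.1 q).2)] at this
  omega

open Classical in
/-- A set of vertices of a path that avoids the last vertex has at least as many neighbours on the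
path. -/
theorem HP.hall (h : HP H U a b) (A : Finset V) (hA : A ⊆ U) (hb : b ∉ A) :
    A.card ≤ (U.filter (fun t => ∃ s ∈ A, H s t)).card := by
  obtain ⟨f, hf⟩ := h.succF
  have hne : ∀ t ∈ A, t ≠ b := fun t ht e => hb (e ▸ ht)
  refine card_le_card_of_injOn f ?_ ?_
  · intro t ht
    obtain ⟨-, U1, U2, p1, p2, p3, p4, p5⟩ := hf.2 t (hA ht) (hne t ht)
    exact mem_coe.2 (mem_filter.2 ⟨p5 ▸ mem_union_right _ p2.mem_left, t, ht, p3⟩)
  · intro x hx y hy e
    exact hf.1 (by simp [hne x hx, hA hx]) (by simp [hne y hy, hA hy]) e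

end Pool.Agent.Lib.MP_04ab3e_co.X
end

-- part Pool.Agent.Lib.MP_04ab3e_co.X.Role
section

/-! Role graphs of a digraph, degrees, flips and the weighted count. -/

namespace Pool.Agent.Lib.MP_04ab3e_co.X

open Finset

variable {V : Type} [DecidableEq V]

/-- The role graph: `σ v = true` means that `v` is a source, `σ v = false` that it is a sink; the
edges are the arcs from sources to sinks. Paths of `RA R σ` are antidirected paths. -/
def RA (R : V → V → Prop) (σ : V → Bool) (u v : V) : Prop :=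
  (σ u = true ∧ σ v = false ∧ R u v) ∨ (σ u = false ∧ σ v = true ∧ R v u)

/-- Reverse all roles. -/
def neg (σ : V → Bool) : V → Bool := fun v => !σ v

/-- Sources in `U`. -/
def src (σ : V → Bool) (U : Finset V) : Finset V := U.filter (σ · = true)

/-- Sinks in `U`. -/
def snk (σ : V → Bool) (U : Finset V) : Finset V := U.filter (σ · = false)

open Classical in
/-- Out-degree into `U`. -/
noncomputable def od (R : V → V → Prop) (U : Finset V) (a : V) : ℕ := (U.filter (R a ·)).card

/-- Degree of `a` into `U` in its role: out-degree of a source, in-degree of a sink. -/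
noncomputable def deg (R : V → V → Prop) (σ : V → Bool) (U : Finset V) (a : V) : ℕ :=
  if σ a = true then od R U a else od (flip R) U a

open Classical in
/-- The vertices of `Z` other than `s` that `s` misses. -/
noncomputable def mis (R : V → V → Prop) (Z : Finset V) (s : V) : Finset V :=
  Z.filter (fun v => v ≠ s ∧ ¬ R s v)

open Classical in
/-- The rows in `Rw` other than `c` that miss the column `c`. -/
noncomputable def col (R : V → V → Prop) (Rw : Finset V) (c : V) : Finset V :=
  Rw.filter (fun s => c ≠ s ∧ ¬ R s c)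

/-- Number of role neighbours of `s` in `U`. -/
noncomputable def xd (R : V → V → Prop) (σ : V → Bool) (U : Finset V) (s : V) : ℕ :=
  (nb (RA R σ) U s).card

/-- No antidirected path spans `V0`. -/
def NW (R : V → V → Prop) (V0 : Finset V) : Prop := ∀ σ a b, ¬ HP (RA R σ) V0 a b

/-- Two disjoint linked paths, from `a` to `b` on `U` and from `c` to `d` on `W`. -/
structure LP (R : V → V → Prop) (σ : V → Bool) (U W : Finset V) (a b c d : V) : Prop where
  h1 : HP (RA R σ) U a b
  h2 : HP (RA R σ) W c d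
  dj : Disjoint U W
  lk : Lk (RA R σ) U W

/-- Every end of a linked pair that covers `V0` has degree at least `m` inside `V0`. -/
def CL (R : V → V → Prop) (V0 : Finset V) (m : ℕ) : Prop :=
  ∀ σ U W a b c d, LP R σ U W a b c d → U ∪ W = V0 → m ≤ deg R σ V0 a

/-- No loops. -/
def Irr (R : V → V → Prop) : Prop := ∀ v, ¬ R v v

variable {R : V → V → Prop} {σ : V → Bool} {U W V0 : Finset V} {a b c d : V}

theorem RA.sy (R : V → V → Prop) (σ : V → Bool) : Sy (RA R σ) := by
  rintro a b (h | h)
  · exact Or.inr ⟨h.2.1, h.1, h.2.2⟩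
  · exact Or.inl ⟨h.2.1, h.1, h.2.2⟩

theorem RA.irr (R : V → V → Prop) (σ : V → Bool) (a : V) : ¬ RA R σ a a := by
  rintro (⟨h1, h2, -⟩ | ⟨h1, h2, -⟩) <;> simp [h1] at h2

theorem RA.mk (ha : σ a = true) (hb : σ b = false) (e : R a b) : RA R σ a b := Or.inl ⟨ha, hb, e⟩

theorem RA.mk' (ha : σ a = false) (hb : σ b = true) (e : R b a) : RA R σ a b := Or.inr ⟨ha, hb, e⟩

theorem RA.of_src (h : RA R σ a b) (ha : σ a = true) : σ b = false ∧ R a b := by
  rcases h with h | h
  · exact h.2
  · simp_all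

theorem RA.of_snk (h : RA R σ a b) (ha : σ a = false) : σ b = true ∧ R b a := by
  rcases h with h | h
  · simp_all
  · exact h.2

theorem RA.to_src (h : RA R σ a b) (hb : σ b = true) : σ a = false ∧ R b a :=
  (RA.sy R σ _ _ h).of_src hb

theorem RA.to_snk (h : RA R σ a b) (hb : σ b = false) : σ a = true ∧ R a b :=
  (RA.sy R σ _ _ h).of_snk hb

theorem HP.rev (h : HP (RA R σ) U a b) : HP (RA R σ) U b a := h.symm (RA.sy R σ)

theorem mem_src : a ∈ src σ U ↔ a ∈ U ∧ σ a = true := by simp [src]

theorem mem_snk : a ∈ snk σ U ↔ a ∈ U ∧ σ a = false := by simp [snk]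

theorem mem_mis {Z : Finset V} {s v : V} : v ∈ mis R Z s ↔ v ∈ Z ∧ v ≠ s ∧ ¬ R s v := by
  simp [mis]

theorem mem_col {Rw : Finset V} {s : V} : s ∈ col R Rw c ↔ s ∈ Rw ∧ c ≠ s ∧ ¬ R s c := by
  simp [col]

theorem src_union : src σ (U ∪ W) = src σ U ∪ src σ W := filter_union _ _ _

theorem snk_union : snk σ (U ∪ W) = snk σ U ∪ snk σ W := filter_union _ _ _

theorem card_src_union (hd : Disjoint U W) :
    (src σ (U ∪ W)).card = (src σ U).card + (src σ W).card := by
  rw [src_union]; exact card_union_of_disjoint (disjoint_filter_filter hd)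

theorem card_snk_union (hd : Disjoint U W) :
    (snk σ (U ∪ W)).card = (snk σ U).card + (snk σ W).card := by
  rw [snk_union]; exact card_union_of_disjoint (disjoint_filter_filter hd)

theorem card_src_add_snk (σ : V → Bool) (U : Finset V) :
    (src σ U).card + (snk σ U).card = U.card := by
  have := card_filter_add_card_filter_not (s := U) (fun v => σ v = true)
  simpa [src, snk] using this

theorem HP.parity (h : HP (RA R σ) U a b) :
    (src σ U).card + 1 = (snk σ U).card + (σ a).toNat + (σ b).toNat := by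
  induction h with
  | single a => cases e : σ a <;> simp [src, snk, filter_singleton, e]
  | @cons U a a' b h3 h4 h5 ih =>
    have n1 : a ∉ src σ U := fun q => h4 (mem_src.1 q).1
    have n2 : a ∉ snk σ U := fun q => h4 (mem_snk.1 q).1
    rcases h3 with ⟨e1, e2, -⟩ | ⟨e1, e2, -⟩
    · have q1 : src σ (insert a U) = insert a (src σ U) := by simp [src, filter_insert, e1]
      have q2 : snk σ (insert a U) = snk σ U := by simp [snk, filter_insert, e1]
      rw [q1, q2, card_insert_of_notMem n1, e1]; rw [e2] at ih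
      simp at ih ⊢; omega
    · have q1 : src σ (insert a U) = src σ U := by simp [src, filter_insert, e1]
      have q2 : snk σ (insert a U) = insert a (snk σ U) := by simp [snk, filter_insert, e1]
      rw [q1, q2, card_insert_of_notMem n2, e1]; rw [e2] at ih
      simp at ih ⊢; omega

theorem HP.card_SS (h : HP (RA R σ) U a b) (ha : σ a = true) (hb : σ b = true) :
    (src σ U).card = (snk σ U).card + 1 := by
  have := h.parity; rw [ha, hb] at this; simp at this; omega

theorem HP.card_TT (h : HP (RA R σ) U a b) (ha : σ a = false) (hb : σ b = false) :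
    (snk σ U).card = (src σ U).card + 1 := by
  have := h.parity; rw [ha, hb] at this; simp at this; omega

theorem HP.card_ST (h : HP (RA R σ) U a b) (ha : σ a = true) (hb : σ b = false) :
    (src σ U).card = (snk σ U).card := by
  have := h.parity; rw [ha, hb] at this; simp at this; omega

theorem HP.card_TS (h : HP (RA R σ) U a b) (ha : σ a = false) (hb : σ b = true) :
    (src σ U).card = (snk σ U).card := by
  have := h.parity; rw [ha, hb] at this; simp at this; omega

/-- If there is one more source, both ends are sources. -/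
theorem HP.SS_of_card (h : HP (RA R σ) U a b) (e : (src σ U).card = (snk σ U).card + 1) :
    σ a = true ∧ σ b = true := by
  have := h.parity
  cases e1 : σ a <;> cases e2 : σ b <;> simp [e1, e2] at this ⊢ <;> omega

theorem HP.TT_of_card (h : HP (RA R σ) U a b) (e : (snk σ U).card = (src σ U).card + 1) :
    σ a = false ∧ σ b = false := by
  have := h.parity
  cases e1 : σ a <;> cases e2 : σ b <;> simp [e1, e2] at this ⊢ <;> omega

theorem HP.ST_of_card (h : HP (RA R σ) U a b) (e : (src σ U).card = (snk σ U).card) :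
    σ b = !σ a := by
  have := h.parity
  cases e1 : σ a <;> cases e2 : σ b <;> simp [e1, e2] at this ⊢ <;> omega

/-- Two paths on the same set in the same roles have the same type. -/
theorem HP.same_type (h : HP (RA R σ) U a b) (h' : HP (RA R σ) U c d) :
    (σ a).toNat + (σ b).toNat = (σ c).toNat + (σ d).toNat := by
  have := h.parity; have := h'.parity; omega

/-! ### Changing roles -/

theorem RA.congr {τ : V → Bool} (h : RA R σ a b) (ha : τ a = σ a) (hb : τ b = σ b) :
    RA R τ a b := by
  unfold RA at *; rw [ha, hb]; exact h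

theorem HP.congr {τ : V → Bool} (h : HP (RA R σ) U a b) (e : ∀ v ∈ U, τ v = σ v) :
    HP (RA R τ) U a b :=
  h.mono fun x hx y hy q => q.congr (e x hx) (e y hy)

theorem HP.upd (h : HP (RA R σ) U a b) {w : V} (hw : w ∉ U) (β : Bool) :
    HP (RA R (Function.update σ w β)) U a b :=
  h.congr fun v hv => Function.update_of_ne (fun (q : v = w) => hw (q ▸ hv)) _ _

theorem RA.upd (h : RA R σ a b) {w : V} (ha : a ≠ w) (hb : b ≠ w) (β : Bool) :
    RA R (Function.update σ w β) a b :=
  h.congr (Function.update_of_ne ha _ _) (Function.update_of_ne hb _ _)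

/-- Append a vertex outside the path as a new sink. -/
theorem HP.snoc_snk (h : HP (RA R σ) U a b) (hb : σ b = true) {w : V} (hw : w ∉ U) (e : R b w) :
    HP (RA R (Function.update σ w false)) (insert w U) a w := by
  have hbw : b ≠ w := fun q => hw (q ▸ h.mem_right)
  exact (h.upd hw false).snoc hw
    (RA.mk (by rw [Function.update_of_ne hbw, hb]) (by simp) e)

/-- Append a vertex outside the path as a new source. -/
theorem HP.snoc_src (h : HP (RA R σ) U a b) (hb : σ b = false) {w : V} (hw : w ∉ U) (e : R w b) :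
    HP (RA R (Function.update σ w true)) (insert w U) a w := by
  have hbw : b ≠ w := fun q => hw (q ▸ h.mem_right)
  exact (h.upd hw true).snoc hw
    (RA.mk' (by rw [Function.update_of_ne hbw, hb]) (by simp) e)

/-- Join two paths through an outside vertex that becomes a sink. -/
theorem HP.join_snk (h1 : HP (RA R σ) U a b) (h2 : HP (RA R σ) W c d) (hd : Disjoint U W)
    (hb : σ b = true) (hc : σ c = true) {w : V} (hw : w ∉ U) (hw' : w ∉ W) (e1 : R b w)
    (e2 : R c w) : HP (RA R (Function.update σ w false)) (insert w (U ∪ W)) a d := by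
  have hcw : c ≠ w := fun q => hw' (q ▸ h2.mem_left)
  have := (h1.snoc_snk hb hw e1).append (h2.upd hw' false) (by simp [hw', hd])
    (RA.mk' (by simp) (by rw [Function.update_of_ne hcw, hc]) e2)
  exact this.cast (by simp)

/-- Flip the source end `a` that is hit by the other end `b`: a path from a role neighbour `t` of
`a` to the new sink `a`. -/
theorem HP.flip_end (h : HP (RA R σ) U a b) (hb : σ b = true) (hab : a ≠ b) (e : R b a) :
    ∃ t, RA R σ a t ∧ t ∈ U ∧ HP (RA R (Function.update σ a false)) U t a := by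
  obtain ⟨t, h1, h2⟩ := h.tail hab
  refine ⟨t, h1, mem_of_mem_erase h2.mem_left, ?_⟩
  exact (h2.snoc_snk hb (notMem_erase _ _) e).cast (insert_erase h.mem_left)

/-- Flip an interior vertex `w` that is hit by both source ends. -/
theorem HP.flip_mid (h : HP (RA R σ) U a b) (ha : σ a = true) (hb : σ b = true) {w : V}
    (hw : w ∈ U) (hwa : w ≠ a) (hwb : w ≠ b) (e1 : R a w) (e2 : R b w) :
    ∃ p q, RA R σ p w ∧ RA R σ w q ∧ p ∈ U ∧ q ∈ U ∧
      HP (RA R (Function.update σ w false)) U p q := by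
  obtain ⟨U1, U2, p, q, p1, p2, p3, p4, p5, p6⟩ := h.remove hw hwa hwb
  have n : w ∉ U1 ∪ U2 := p6 ▸ notMem_erase _ _
  simp only [mem_union, not_or] at n
  have hp : p ∈ U := mem_of_mem_erase (p6 ▸ mem_union_left _ p1.mem_right)
  have hq : q ∈ U := mem_of_mem_erase (p6 ▸ mem_union_right _ p2.mem_left)
  refine ⟨p, q, p3, p4, hp, hq, (p1.rev.join_snk p2.rev p5 ha hb n.1 n.2 e1 e2).cast ?_⟩
  rw [p6, insert_erase hw]

/-! ### Duality -/

@[simp] theorem neg_true : neg σ a = true ↔ σ a = false := by simp [neg]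

@[simp] theorem neg_false : neg σ a = false ↔ σ a = true := by simp [neg]

@[simp] theorem neg_neg (σ : V → Bool) : neg (neg σ) = σ := by funext v; simp [neg]

@[simp] theorem RA_dual (R : V → V → Prop) (σ : V → Bool) : RA (flip R) (neg σ) = RA R σ := by
  funext u v
  simp only [RA, neg_true, neg_false, flip, eq_iff_iff]
  tauto

theorem RA_dual' (R : V → V → Prop) (σ : V → Bool) : RA (flip R) σ = RA R (neg σ) := by
  rw [← RA_dual R (neg σ), neg_neg]

@[simp] theorem src_neg (σ : V → Bool) (U : Finset V) : src (neg σ) U = snk σ U := by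
  simp [src, snk]

@[simp] theorem snk_neg (σ : V → Bool) (U : Finset V) : snk (neg σ) U = src σ U := by
  simp [src, snk]

@[simp] theorem deg_dual (R : V → V → Prop) (σ : V → Bool) (U : Finset V) (a : V) :
    deg (flip R) (neg σ) U a = deg R σ U a := by
  unfold deg
  cases e : σ a <;> simp [neg, e] <;> rfl

@[simp] theorem xd_dual (R : V → V → Prop) (σ : V → Bool) (U : Finset V) (a : V) :
    xd (flip R) (neg σ) U a = xd R σ U a := by
  unfold xd; rw [RA_dual]

theorem neg_update (σ : V → Bool) (w : V) (β : Bool) :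
    neg (Function.update σ w β) = Function.update (neg σ) w (!β) := by
  funext v
  by_cases e : v = w
  · subst e; simp [neg]
  · simp [neg, Function.update_of_ne e]

theorem Irr.dual (h : Irr R) : Irr (flip R) := h

theorem NW.dual (h : NW R V0) : NW (flip R) V0 := by
  intro σ a b q
  rw [RA_dual'] at q
  exact h _ _ _ q

theorem LP.dual (h : LP R σ U W a b c d) : LP (flip R) (neg σ) U W a b c d :=
  ⟨by rw [RA_dual]; exact h.h1, by rw [RA_dual]; exact h.h2, h.dj, by rw [RA_dual]; exact h.lk⟩

theorem CL.dual {m : ℕ} (h : CL R V0 m) : CL (flip R) V0 m := by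
  intro σ U W a b c d q e
  have := h (neg σ) U W a b c d q.dual e
  rw [← deg_dual, neg_neg] at this
  exact this

theorem CL.mono {m m' : ℕ} (h : CL R V0 m) (hm : m' ≤ m) : CL R V0 m' :=
  fun σ U W a b c d q e => hm.trans (h σ U W a b c d q e)

theorem LP.swap (h : LP R σ U W a b c d) : LP R σ W U c d a b :=
  ⟨h.h2, h.h1, h.dj.symm, h.lk.symm (RA.sy R σ)⟩

theorem LP.rev1 (h : LP R σ U W a b c d) : LP R σ U W b a c d := ⟨h.h1.rev, h.h2, h.dj, h.lk⟩

theorem LP.rev2 (h : LP R σ U W a b c d) : LP R σ U W a b d c := ⟨h.h1, h.h2.rev, h.dj, h.lk⟩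

/-- In the roles of a linked pair every cover of the same set by two paths is linked. -/
theorem LP.recover (h : LP R σ U W a b c d) {U' W' : Finset V} {a' b' c' d' : V}
    (h1 : HP (RA R σ) U' a' b') (h2 : HP (RA R σ) W' c' d') (hd : Disjoint U' W')
    (he : U' ∪ W' = U ∪ W) : LP R σ U' W' a' b' c' d' :=
  ⟨h1, h2, hd, Lk.of_cover (RA.sy R σ) h.h1 h.h2 h.lk hd he h1.nonempty h2.nonempty⟩

/-- Every vertex of a Hamilton path on at least two vertices is an end of a linked pair. -/
theorem HP.lp_of_mem (h : HP (RA R σ) U a b) (h2 : 2 ≤ U.card) {v : V} (hv : v ∈ U) :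
    ∃ U1 U2 b' c' d', LP R σ U1 U2 v b' c' d' ∧ U1 ∪ U2 = U := by
  by_cases e : v = b
  · subst e
    obtain ⟨U1, U2, v', p1, p2, p3, p4, p5⟩ := h.split' hv (h.ne_of_two_le h2).symm
    exact ⟨U2, U1, v, a, v', ⟨p2, p1, p4.symm, v, p2.mem_left, v', p1.mem_right,
      RA.sy R σ _ _ p3⟩, by rw [union_comm, p5]⟩
  · obtain ⟨U1, U2, v', p1, p2, p3, p4, p5⟩ := h.split hv e
    exact ⟨U1, U2, a, v', b, ⟨p1.rev, p2, p4, v, p1.mem_right, v', p2.mem_left, p3⟩, p5⟩

theorem CL.of_path {m : ℕ} (hc : CL R V0 m) (h : HP (RA R σ) V0 a b) (h2 : 2 ≤ V0.card) {v : V}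
    (hv : v ∈ V0) : m ≤ deg R σ V0 v := by
  obtain ⟨U1, U2, b', c', d', p, e⟩ := h.lp_of_mem h2 hv
  exact hc _ _ _ _ _ _ _ p e

/-! ### Degrees -/

theorem deg_src (ha : σ a = true) : deg R σ U a = od R U a := by simp [deg, ha]

theorem deg_snk (ha : σ a = false) : deg R σ U a = od (flip R) U a := by simp [deg, ha]

theorem od_union (hd : Disjoint U W) : od R (U ∪ W) a = od R U a + od R W a := by
  classical
  unfold od
  rw [filter_union, card_union_of_disjoint (disjoint_filter_filter hd)]

theorem od_mono (h : U ⊆ W) : od R U a ≤ od R W a := by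
  classical exact card_le_card (filter_subset_filter _ h)

theorem od_le_card : od R U a ≤ U.card := by
  classical exact card_filter_le _ _

theorem od_eq_zero (h : ∀ v ∈ U, ¬ R a v) : od R U a = 0 := by
  classical
  unfold od; rw [card_eq_zero, filter_eq_empty_iff]; exact h

/-- Bound on the degree by a set that contains all out-neighbours. -/
theorem od_le_of_subset (h : ∀ v ∈ U, R a v → v ∈ W) : od R U a ≤ W.card := by
  classical
  exact card_le_card fun v hv => h v (mem_filter.1 hv).1 (mem_filter.1 hv).2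

theorem exists_of_lt_od (h : W.card < od R U a) : ∃ v ∈ U, v ∉ W ∧ R a v := by
  by_contra hn
  push Not at hn
  have : od R U a ≤ W.card := od_le_of_subset fun v hv e => by
    by_contra q; exact hn v hv q e
  omega

theorem od_erase_le (v : V) : od R U a ≤ od R (U.erase v) a + 1 := by
  classical
  unfold od
  rw [filter_erase]
  have := pred_card_le_card_erase (s := U.filter (R a ·)) (a := v)
  omega

theorem od_erase_eq {v : V} (h : ¬ R a v) : od R (U.erase v) a = od R U a := by
  classical
  unfold od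
  rw [filter_erase, erase_eq_of_notMem (by simp [h])]

theorem od_add_mis (ha : a ∉ U) : od R U a + (mis R U a).card = U.card := by
  classical
  have := card_filter_add_card_filter_not (s := U) (fun v => R a v)
  have e : mis R U a = U.filter (fun v => ¬ R a v) := by
    ext v
    simp only [mem_mis, mem_filter]
    exact ⟨fun h => ⟨h.1, h.2.2⟩, fun h => ⟨h.1, fun q => ha (q ▸ h.1), h.2⟩⟩
  rw [← this, e]
  rfl

theorem od_add_mis' (hi : Irr R) (ha : a ∈ U) : od R U a + (mis R U a).card + 1 = U.card := by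
  have h1 := od_add_mis (R := R) (notMem_erase a U)
  rw [od_erase_eq (hi a), card_erase_of_mem ha] at h1
  have h2 : mis R (U.erase a) a = mis R U a := by
    ext v; simp only [mem_mis, mem_erase]; tauto
  have := card_pos.2 ⟨a, ha⟩
  rw [h2] at h1; omega

theorem xd_src (ha : σ a = true) : xd R σ U a = od R (snk σ U) a := by
  classical
  unfold xd od
  congr 1
  ext v
  simp only [mem_nb, mem_filter, mem_snk]
  exact ⟨fun h => ⟨⟨h.1, (h.2.of_src ha).1⟩, (h.2.of_src ha).2⟩,
    fun h => ⟨h.1.1, RA.mk ha h.1.2 h.2⟩⟩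

theorem od_split (σ : V → Bool) : od R U a = od R (src σ U) a + od R (snk σ U) a := by
  rw [← od_union]
  · congr 1
    ext v; simp only [mem_union, mem_src, mem_snk]
    cases σ v <;> simp
  · rw [disjoint_left]
    intro v h1 h2
    have := (mem_src.1 h1).2; have := (mem_snk.1 h2).2; simp_all

/-- The basic row identity for a source `a` of `U`. -/
theorem row_eq (hi : Irr R) (ha : σ a = true) (hU : a ∈ U) :
    od R U a + (mis R (src σ U) a).card + 1 = xd R σ U a + (src σ U).card := by
  have := od_add_mis' hi (mem_src.2 ⟨hU, ha⟩)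
  rw [od_split σ, xd_src ha]; omega

theorem xd_union (hd : Disjoint U W) : xd R σ (U ∪ W) a = xd R σ U a + xd R σ W a := by
  classical
  unfold xd nb
  rw [filter_union, card_union_of_disjoint (disjoint_filter_filter hd)]

theorem xd_eq_zero (h : ∀ v ∈ U, ¬ RA R σ a v) : xd R σ U a = 0 := by
  unfold xd; rw [card_eq_zero, eq_empty_iff_forall_notMem]
  intro v hv; exact h v (mem_nb.1 hv).1 (mem_nb.1 hv).2

theorem mis_mono {Z Z' : Finset V} (h : Z ⊆ Z') : mis R Z a ⊆ mis R Z' a := fun v hv => by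
  rw [mem_mis] at *; exact ⟨h hv.1, hv.2⟩

theorem posa_xd {r s : V} (h : HP (RA R σ) U r s) : xd R σ U s ≤ (prt (RA R σ) U r).card :=
  posa (RA.sy R σ) h (RA.irr R σ s)

/-! ### Weights -/

/-- Total weight of `P` when `s` has weight `1 / x s`. -/
noncomputable def wt (x : V → ℕ) (P : Finset V) : ℚ := ∑ s ∈ P, (1 : ℚ) / x s

theorem wt_nonneg (x : V → ℕ) (P : Finset V) : 0 ≤ wt x P :=
  sum_nonneg fun _ _ => by positivity

theorem wt_mono (x : V → ℕ) {P Q : Finset V} (h : P ⊆ Q) : wt x P ≤ wt x Q :=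
  sum_le_sum_of_subset_of_nonneg h fun _ _ _ => by positivity

theorem wt_insert (x : V → ℕ) {P : Finset V} {s : V} (h : s ∉ P) :
    wt x (insert s P) = 1 / x s + wt x P := sum_insert h

theorem wt_lt (x : V → ℕ) {P Q : Finset V} (h : P ⊆ Q) {s : V} (h1 : s ∈ Q) (h2 : s ∉ P)
    (hx : 0 < x s) : wt x P < wt x Q := by
  have := wt_mono x (insert_subset h1 h)
  rw [wt_insert x h2] at this
  have : (0 : ℚ) < 1 / x s := by positivity
  linarith

theorem one_le_wt (x : V → ℕ) {P : Finset V} (hn : P.Nonempty)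
    (h : ∀ s ∈ P, 0 < x s ∧ x s ≤ P.card) : 1 ≤ wt x P := by
  have hp : (0 : ℚ) < P.card := by exact_mod_cast hn.card_pos
  calc (1 : ℚ) = ∑ _s ∈ P, (1 : ℚ) / P.card := by
        rw [sum_const, nsmul_eq_mul]; field_simp
    _ ≤ _ := sum_le_sum fun s hs =>
        one_div_le_one_div_of_le (by exact_mod_cast (h s hs).1) (by exact_mod_cast (h s hs).2)

theorem one_lt_wt (x : V → ℕ) {P : Finset V} (h : ∀ s ∈ P, 0 < x s ∧ x s ≤ P.card) {q : V}
    (hq : q ∈ P) (hx : x q < P.card) : 1 < wt x P := by
  have hp : (0 : ℚ) < P.card := by exact_mod_cast card_pos.2 ⟨q, hq⟩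
  calc (1 : ℚ) = ∑ _s ∈ P, (1 : ℚ) / P.card := by
        rw [sum_const, nsmul_eq_mul]; field_simp
    _ < _ := sum_lt_sum (fun s hs =>
        one_div_le_one_div_of_le (by exact_mod_cast (h s hs).1) (by exact_mod_cast (h s hs).2))
        ⟨q, hq, one_div_lt_one_div_of_lt (by exact_mod_cast (h q hq).1) (by exact_mod_cast hx)⟩

/-- Double counting of the weighted misses. -/
theorem sum_wt_col (R : V → V → Prop) (x : V → ℕ) (Rw Cs : Finset V) :
    ∑ c ∈ Cs, wt x (col R Rw c) = ∑ s ∈ Rw, ((mis R Cs s).card : ℚ) / x s := by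
  classical
  unfold wt col mis
  simp only [sum_filter, card_filter]
  rw [sum_comm]
  refine sum_congr rfl fun s _ => ?_
  push_cast
  rw [sum_div]
  refine sum_congr rfl fun c _ => ?_
  split_ifs <;> simp

/-- The weighted count. Every column weighs at least one and row `s` misses at most `x s - k`
columns. -/
theorem count_le (R : V → V → Prop) (x : V → ℕ) (Rw Cs : Finset V) (k : ℕ)
    (hc : ∀ c ∈ Cs, 1 ≤ wt x (col R Rw c))
    (hr : ∀ s ∈ Rw, (mis R Cs s).card + k ≤ x s) :
    (Cs.card : ℚ) + k * wt x Rw ≤ Rw.card := by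
  have h1 : (Cs.card : ℚ) ≤ ∑ c ∈ Cs, wt x (col R Rw c) := by
    simpa using sum_le_sum hc
  rw [sum_wt_col] at h1
  have h2 : ∑ s ∈ Rw, (((mis R Cs s).card : ℚ) / x s + k * (1 / x s)) ≤ ∑ _s ∈ Rw, (1 : ℚ) := by
    refine sum_le_sum fun s hs => ?_
    rw [mul_one_div, ← add_div]
    refine div_le_one_of_le₀ (by exact_mod_cast hr s hs) (by positivity)
  rw [sum_add_distrib, ← mul_sum] at h2
  simp only [sum_const, nsmul_eq_mul, mul_one] at h2
  unfold wt; linarith

end Pool.Agent.Lib.MP_04ab3e_co.X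
end

-- part Pool.Agent.Lib.MP_04ab3e_co.X.Glob
section

/-! Global notions: minimum degree, sizes of paths and of linked pairs. -/

namespace Pool.Agent.Lib.MP_04ab3e_co.X

open Finset

variable {V : Type} [DecidableEq V]

/-- All out- and in-degrees are at least `m`. -/
def MinDeg [Fintype V] (R : V → V → Prop) (m : ℕ) : Prop :=
  ∀ v, m ≤ od R univ v ∧ m ≤ od (flip R) univ v

/-- There is an antidirected path on `n` vertices. -/
def HasP (R : V → V → Prop) (n : ℕ) : Prop := ∃ σ U a b, HP (RA R σ) U a b ∧ U.card = n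

/-- There is a linked pair on `n` vertices. -/
def HasL (R : V → V → Prop) (n : ℕ) : Prop :=
  ∃ σ U W a b c d, LP R σ U W a b c d ∧ (U ∪ W).card = n

/-- Any two vertices are joined by an antidirected path. -/
def AC (R : V → V → Prop) : Prop := ∀ u v, u ≠ v → ∃ σ U, HP (RA R σ) U u v

variable {R : V → V → Prop} {σ : V → Bool} {U W : Finset V} {a b c d : V} {m n : ℕ}

theorem MinDeg.dual [Fintype V] (h : MinDeg R m) : MinDeg (flip R) m := fun v => ⟨(h v).2, (h v).1⟩

theorem MinDeg.mono [Fintype V] (h : MinDeg R m) (hn : n ≤ m) : MinDeg R n :=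
  fun v => ⟨hn.trans (h v).1, hn.trans (h v).2⟩

theorem MinDeg.deg [Fintype V] (h : MinDeg R m) (σ : V → Bool) (v : V) : m ≤ deg R σ univ v := by
  unfold X.deg; split_ifs
  · exact (h v).1
  · exact (h v).2

theorem HasP.dual (h : HasP R n) : HasP (flip R) n := by
  obtain ⟨σ, U, a, b, h, e⟩ := h
  exact ⟨neg σ, U, a, b, by simpa using h, e⟩

theorem HasL.dual (h : HasL R n) : HasL (flip R) n := by
  obtain ⟨σ, U, W, a, b, c, d, h, e⟩ := h
  exact ⟨neg σ, U, W, a, b, c, d, h.dual, e⟩

theorem AC.dual (h : AC R) : AC (flip R) := fun u v e => by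
  obtain ⟨σ, U, h⟩ := h u v e
  exact ⟨neg σ, U, by simpa using h⟩

theorem HasP.hasL (h : HasP R n) (h2 : 2 ≤ n) : HasL R n := by
  obtain ⟨σ, U, a, b, h, e⟩ := h
  obtain ⟨U1, U2, b', c', d', p, q⟩ := h.lp_of_mem (e ▸ h2) h.mem_left
  exact ⟨σ, U1, U2, a, b', c', d', p, q ▸ e⟩

theorem LP.congr {τ : V → Bool} (h : LP R σ U W a b c d) (e : ∀ v ∈ U ∪ W, τ v = σ v) :
    LP R τ U W a b c d := by
  refine ⟨h.h1.congr fun v hv => e v (mem_union_left _ hv),
    h.h2.congr fun v hv => e v (mem_union_right _ hv), h.dj, ?_⟩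
  obtain ⟨x, hx, y, hy, q⟩ := h.lk
  exact ⟨x, hx, y, hy, q.congr (e x (mem_union_left _ hx)) (e y (mem_union_right _ hy))⟩

/-- Extend a linked pair at the source end `a` by an outside out-neighbour. -/
theorem LP.extend_src (h : LP R σ U W a b c d) (ha : σ a = true) {y : V} (hy : y ∉ U ∪ W)
    (e : R a y) : LP R (Function.update σ y false) (insert y U) W y b c d := by
  have h' := h.congr (τ := Function.update σ y false) fun v hv =>
    Function.update_of_ne (fun (q : v = y) => hy (q ▸ hv)) _ _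
  simp only [mem_union, not_or] at hy
  refine ⟨(h.h1.rev.snoc_snk ha hy.1 e).rev, h'.h2, by simp [hy.2, h.dj], ?_⟩
  obtain ⟨x, hx, z, hz, q⟩ := h'.lk
  exact ⟨x, mem_insert_of_mem hx, z, hz, q⟩

/-- Extend a linked pair at the sink end `a` by an outside in-neighbour. -/
theorem LP.extend_snk (h : LP R σ U W a b c d) (ha : σ a = false) {y : V} (hy : y ∉ U ∪ W)
    (e : R y a) : LP R (Function.update σ y true) (insert y U) W y b c d := by
  have h' := h.congr (τ := Function.update σ y true) fun v hv =>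
    Function.update_of_ne (fun (q : v = y) => hy (q ▸ hv)) _ _
  simp only [mem_union, not_or] at hy
  refine ⟨(h.h1.rev.snoc_src ha hy.1 e).rev, h'.h2, by simp [hy.2, h.dj], ?_⟩
  obtain ⟨x, hx, z, hz, q⟩ := h'.lk
  exact ⟨x, mem_insert_of_mem hx, z, hz, q⟩

theorem card_insert_union {y : V} (hy : y ∉ U ∪ W) :
    (insert y U ∪ W).card = (U ∪ W).card + 1 := by
  rw [insert_union, card_insert_of_notMem hy]

/-- A path and an outside out-neighbour of one of its sources form a linked pair. -/
theorem HP.hang_snk (h : HP (RA R σ) U a b) {s y : V} (hs : s ∈ U) (hσ : σ s = true) (hy : y ∉ U)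
    (e : R s y) : LP R (Function.update σ y false) {y} U y y a b := by
  have hsy : s ≠ y := fun q => hy (q ▸ hs)
  exact ⟨HP.single y, h.upd hy false, by simpa using hy, y, by simp, s, hs,
    RA.mk' (by simp) (by rw [Function.update_of_ne hsy, hσ]) e⟩

/-- A path and an outside in-neighbour of one of its sinks form a linked pair. -/
theorem HP.hang_src (h : HP (RA R σ) U a b) {s y : V} (hs : s ∈ U) (hσ : σ s = false) (hy : y ∉ U)
    (e : R y s) : LP R (Function.update σ y true) {y} U y y a b := by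
  have hsy : s ≠ y := fun q => hy (q ▸ hs)
  exact ⟨HP.single y, h.upd hy true, by simpa using hy, y, by simp, s, hs,
    RA.mk (by simp) (by rw [Function.update_of_ne hsy, hσ]) e⟩

theorem od_eq_of_closed [Fintype V] (h : ∀ y, R a y → y ∈ U) : od R U a = od R univ a := by
  classical
  unfold od
  congr 1
  ext v
  simp only [mem_filter, mem_univ, true_and]
  exact ⟨fun q => q.2, fun q => ⟨h v q, q⟩⟩

/-- The ends of a largest linked pair are closed. -/
theorem cl_of_max [Fintype V] (hdeg : MinDeg R m) {V0 : Finset V}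
    (hmax : ∀ k, HasL R k → k ≤ V0.card) : CL R V0 m := by
  intro σ U W a b c d h e
  subst e
  cases ha : σ a
  · rw [deg_snk ha, od_eq_of_closed]
    · exact (hdeg a).2
    · intro y hy
      by_contra q
      have := hmax _ ⟨_, _, _, _, _, _, _, h.extend_snk ha q hy, rfl⟩
      rw [card_insert_union q] at this; omega
  · rw [deg_src ha, od_eq_of_closed]
    · exact (hdeg a).1
    · intro y hy
      by_contra q
      have := hmax _ ⟨_, _, _, _, _, _, _, h.extend_src ha q hy, rfl⟩
      rw [card_insert_union q] at this; omega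

end Pool.Agent.Lib.MP_04ab3e_co.X
end

-- part Pool.Agent.Lib.MP_04ab3e_co.X.Moe
section

/-! The basic weighted count on a set with a Hamilton path between two sources. -/

namespace Pool.Agent.Lib.MP_04ab3e_co.X

open Finset

variable {V : Type} [DecidableEq V]

open Classical in
/-- Ends that are hit by one of their partners. -/
noncomputable def good (R : V → V → Prop) (σ : V → Bool) (Q : Finset V) : Finset V :=
  Q.filter (fun g => ∃ s, HP (RA R σ) Q g s ∧ R s g)

variable {R : V → V → Prop} {σ : V → Bool} {Q : Finset V} {a b : V}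

theorem mem_good {g : V} : g ∈ good R σ Q ↔ ∃ s, HP (RA R σ) Q g s ∧ R s g := by
  simp only [good, mem_filter]
  exact ⟨fun h => h.2, fun ⟨s, h⟩ => ⟨h.1.mem_left, s, h⟩⟩

theorem good_subset : good R σ Q ⊆ ends (RA R σ) Q := fun _ h => by
  obtain ⟨s, h, -⟩ := mem_good.1 h; exact mem_ends.2 ⟨s, h⟩

theorem ends_src (h : HP (RA R σ) Q a b) (ha : σ a = true) (hb : σ b = true) {s : V}
    (hs : s ∈ ends (RA R σ) Q) : σ s = true := by
  obtain ⟨t, ht⟩ := mem_ends.1 hs
  exact (ht.SS_of_card (h.card_SS ha hb)).1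

/-- A column that is missed by an end of every Hamilton path weighs at least one. -/
theorem one_le_col_of_cover (h : HP (RA R σ) Q a b) {c : V} (hc : c ∉ ends (RA R σ) Q)
    (hx : ∀ s ∈ ends (RA R σ) Q, 0 < xd R σ Q s)
    (hcov : ∀ A B, HP (RA R σ) Q A B → ¬ (R A c ∧ R B c)) :
    1 ≤ wt (xd R σ Q) (col R (ends (RA R σ) Q) c) := by
  have key : ∀ r s, HP (RA R σ) Q r s → (∀ s, HP (RA R σ) Q r s → ¬ R s c) →
      1 ≤ wt (xd R σ Q) (col R (ends (RA R σ) Q) c) := by
    intro r s h1 h2
    refine (one_le_wt _ ⟨s, mem_prt.2 h1⟩ fun t ht => ?_).trans (wt_mono _ fun t ht => ?_)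
    · exact ⟨hx t (prt_subset_ends (RA.sy R σ) r ht), posa_xd (mem_prt.1 ht)⟩
    · have ht' := prt_subset_ends (RA.sy R σ) r ht
      exact mem_col.2 ⟨ht', fun e => hc (e ▸ ht'), h2 t (mem_prt.1 ht)⟩
  by_cases e : ∃ r s, HP (RA R σ) Q r s ∧ R r c
  · obtain ⟨r, s, h1, h2⟩ := e
    exact key r s h1 fun t ht q => hcov r t ht ⟨h2, q⟩
  · exact key a b h fun t ht q => e ⟨t, a, ht.rev, q⟩

/-- The count: `Z` is a set of outside columns, none of which is hit by both ends of a Hamilton
path of `Q`. -/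
theorem moe (h : HP (RA R σ) Q a b) (ha : σ a = true) (hb : σ b = true) (Z : Finset V)
    (hZ : Disjoint Z Q) (hcov : ∀ c ∈ Z, ∀ A B, HP (RA R σ) Q A B → ¬ (R A c ∧ R B c))
    (hrow : ∀ s ∈ ends (RA R σ) Q,
      (mis R (src σ Q) s).card + (mis R Z s).card + 1 ≤ xd R σ Q s) :
    Z.card < (good R σ Q).card := by
  set E := ends (RA R σ) Q with hE
  have hx : ∀ s ∈ E, 0 < xd R σ Q s := fun s hs => by have := hrow s hs; omega
  have hd : Disjoint (E \ good R σ Q) Z :=
    (hZ.symm.mono_left (sdiff_subset.trans ends_subset))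
  have hc := count_le R (xd R σ Q) E ((E \ good R σ Q) ∪ Z) 1 ?_ ?_
  · rw [card_union_of_disjoint hd, card_sdiff_of_subset good_subset] at hc
    have h1 : (good R σ Q).card ≤ E.card := card_le_card good_subset
    have h2 : 0 < wt (xd R σ Q) E := by
      have := wt_lt (xd R σ Q) (empty_subset E) (mem_ends.2 ⟨b, h⟩) (notMem_empty a)
        (hx a (mem_ends.2 ⟨b, h⟩))
      simpa [wt] using this
    rw [← hE] at hc
    push_cast [Nat.cast_sub h1] at hc
    have : (Z.card : ℚ) < (good R σ Q).card := by linarith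
    exact_mod_cast this
  · intro c hc
    rcases mem_union.1 hc with hc | hc
    · obtain ⟨hc1, hc2⟩ := mem_sdiff.1 hc
      obtain ⟨s, hs⟩ := mem_ends.1 hc1
      refine (one_le_wt _ ⟨s, mem_prt.2 hs⟩ fun t ht => ?_).trans (wt_mono _ fun t ht => ?_)
      · exact ⟨hx t (prt_subset_ends (RA.sy R σ) c ht), posa_xd (mem_prt.1 ht)⟩
      · have ht' := prt_subset_ends (RA.sy R σ) c ht
        refine mem_col.2 ⟨ht', fun e => ?_, fun e => hc2 (mem_good.2 ⟨t, mem_prt.1 ht, e⟩)⟩
        subst e
        have h1 := (mem_prt.1 ht).eq_single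
        have h2 := hx c ht'
        rw [xd_eq_zero] at h2
        · omega
        · intro v hv
          rw [h1, mem_singleton] at hv
          rw [hv]; exact RA.irr R σ c
    · exact one_le_col_of_cover h (fun q => disjoint_left.1 hZ hc (ends_subset q)) hx (hcov c hc)
  · intro s hs
    have h1 : mis R ((E \ good R σ Q) ∪ Z) s ⊆ mis R (src σ Q) s ∪ mis R Z s := by
      intro v hv
      obtain ⟨h1, h2⟩ := mem_mis.1 hv
      rcases mem_union.1 h1 with q | q
      · have := (mem_sdiff.1 q).1
        exact mem_union_left _ (mem_mis.2 ⟨mem_src.2 ⟨ends_subset this, ends_src h ha hb this⟩, h2⟩)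
      · exact mem_union_right _ (mem_mis.2 ⟨q, h2⟩)
    have := (card_le_card h1).trans (card_union_le _ _)
    have := hrow s hs
    omega

/-- Change of type: some end `g` is hit by a partner, and flipping it gives a path between two
sinks that ends at `g`. -/
theorem moe_flip (hi : Irr R) (h : HP (RA R σ) Q a b) (ha : σ a = true) (hb : σ b = true)
    (hrow : ∀ s ∈ ends (RA R σ) Q, (mis R (src σ Q) s).card + 1 ≤ xd R σ Q s) :
    ∃ g t, g ∈ ends (RA R σ) Q ∧ σ g = true ∧ σ t = false ∧ t ∈ Q ∧
      HP (RA R (Function.update σ g false)) Q t g := by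
  have := moe h ha hb ∅ (by simp) (by simp) (by simpa [mis] using hrow)
  obtain ⟨g, hg⟩ := card_pos.1 (by simpa using this : 0 < (good R σ Q).card)
  have hg' := good_subset hg
  obtain ⟨s, h1, h2⟩ := mem_good.1 hg
  have hs : σ s = true := ends_src h ha hb (mem_ends.2 ⟨g, h1.rev⟩)
  obtain ⟨t, p1, p2, p3⟩ := h1.flip_end hs (fun e => hi s (e ▸ h2)) h2
  exact ⟨g, t, hg', ends_src h ha hb hg', (p1.of_src (ends_src h ha hb hg')).1, p2, p3⟩

/-- Change of type from a degree bound: all ends have more than half of `Q` as out-neighbours. -/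
theorem moe_deg (hi : Irr R) (h : HP (RA R σ) Q a b) (ha : σ a = true) (hb : σ b = true)
    (hrow : ∀ s ∈ ends (RA R σ) Q, Q.card + 1 ≤ 2 * od R Q s) :
    ∃ g t, g ∈ ends (RA R σ) Q ∧ σ g = true ∧ σ t = false ∧ t ∈ Q ∧
      HP (RA R (Function.update σ g false)) Q t g := by
  refine moe_flip hi h ha hb fun s hs => ?_
  have h1 := row_eq hi (ends_src h ha hb hs) (ends_subset hs)
  have h2 := card_src_add_snk σ Q
  have h3 := h.card_SS ha hb
  have := hrow s hs
  omega

/-- Dual form of `moe_flip`. -/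
theorem moe_flip' (hi : Irr R) (h : HP (RA R σ) Q a b) (ha : σ a = false) (hb : σ b = false)
    (hrow : ∀ s ∈ ends (RA R σ) Q, (mis (flip R) (snk σ Q) s).card + 1 ≤ xd R σ Q s) :
    ∃ g t, g ∈ ends (RA R σ) Q ∧ σ g = false ∧ σ t = true ∧ t ∈ Q ∧
      HP (RA R (Function.update σ g true)) Q t g := by
  have := moe_flip (R := flip R) (σ := neg σ) (Q := Q) (a := a) (b := b) hi.dual
    (by simpa using h) (by simpa using ha) (by simpa using hb) (by simpa using hrow)
  obtain ⟨g, t, p1, p2, p3, p4, p5⟩ := this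
  rw [RA_dual', neg_update, neg_neg] at p5
  exact ⟨g, t, by simpa using p1, by simpa using p2, by simpa using p3, p4, p5⟩

/-- Dual form of `moe_deg`. -/
theorem moe_deg' (hi : Irr R) (h : HP (RA R σ) Q a b) (ha : σ a = false) (hb : σ b = false)
    (hrow : ∀ s ∈ ends (RA R σ) Q, Q.card + 1 ≤ 2 * od (flip R) Q s) :
    ∃ g t, g ∈ ends (RA R σ) Q ∧ σ g = false ∧ σ t = true ∧ t ∈ Q ∧
      HP (RA R (Function.update σ g true)) Q t g := by
  have := moe_deg (R := flip R) (σ := neg σ) (Q := Q) (a := a) (b := b) hi.dual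
    (by simpa using h) (by simpa using ha) (by simpa using hb) (by simpa using hrow)
  obtain ⟨g, t, p1, p2, p3, p4, p5⟩ := this
  rw [RA_dual', neg_update, neg_neg] at p5
  exact ⟨g, t, by simpa using p1, by simpa using p2, by simpa using p3, p4, p5⟩

end Pool.Agent.Lib.MP_04ab3e_co.X
end

-- part Pool.Agent.Lib.MP_04ab3e_co.X.AllEnds
section

/-! Tight rotation counts force every source to be an end. -/

namespace Pool.Agent.Lib.MP_04ab3e_co.X

open Finset

variable {V : Type} [DecidableEq V]

namespace AllEnds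

variable {H : V → V → Prop} {U : Finset V}

/-- In the tight situation the last vertex sees the predecessor of every end. -/
theorem tight (hs : Sy H) (hi : ∀ v, ¬ H v v)
    (hp : ∀ r ∈ ends H U, ∀ s ∈ ends H U, s ≠ r → HP H U r s)
    (hx : ∀ s ∈ ends H U, (nb H U s).card + 1 = (ends H U).card)
    {A B : Finset V} {r t f s : V} (h1 : HP H A r t) (h2 : HP H B f s) (hd : Disjoint A B)
    (e : H t f) (he : A ∪ B = U) (hf : f ∈ ends H U) : H s t := by
  by_contra hn
  subst he
  have h := h1.append h2 hd e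
  have hr : r ∈ ends H (A ∪ B) := mem_ends.2 ⟨s, h⟩
  have hs' : s ∈ ends H (A ∪ B) := mem_ends.2 ⟨r, h.symm hs⟩
  have hne : ∀ v ∈ B, v ≠ r := fun v hv q => disjoint_left.1 hd h1.mem_left (q ▸ hv)
  have k1 := posa_strict hs h1 h2 hd e (hi s) (hp r hr f hf (hne f h2.mem_left)) hn
  have k2 : prt H (A ∪ B) r ⊆ (ends H (A ∪ B)).erase r := fun v hv =>
    mem_erase.2 ⟨fun q => by
      subst q
      have k3 := (mem_prt.1 hv).eq_single
      have k4 : s ∈ A ∪ B := h.mem_right
      rw [k3, mem_singleton] at k4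
      exact hne s h2.mem_right k4, prt_subset_ends hs r hv⟩
  have k3 := card_le_card k2
  rw [card_erase_of_mem hr] at k3
  have k4 := hx s hs'
  omega

/-- The case where an inner end lies before the vertex `s₀`. -/
theorem core (hs : Sy H) (hi : ∀ v, ¬ H v v)
    (hp : ∀ r ∈ ends H U, ∀ s ∈ ends H U, s ≠ r → HP H U r s)
    (hx : ∀ s ∈ ends H U, (nb H U s).card + 1 = (ends H U).card)
    {U1 U2 : Finset V} {a p s₀ a' e : V} (h1 : HP H U1 a p) (h2 : HP H U2 s₀ a')
    (hd : Disjoint U1 U2) (hps : H p s₀) (he : U1 ∪ U2 = U) (e1 : e ∈ U1) (e2 : e ≠ a)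
    (e3 : e ∈ ends H U) (s1 : s₀ ∉ ends H U) (s2 : ∀ f ∈ ends H U, ¬ H s₀ f) : False := by
  have h := (h1.append h2 hd hps).cast he
  have ha' : a' ∈ ends H U := mem_ends.2 ⟨a, h.symm hs⟩
  obtain ⟨A, B, pe, p1, p2, p3, p4, p5⟩ := h1.split' e1 e2
  rcases h2.first (· ∈ ends H U) ha' with q | ⟨C, D, τ, f, q1, q2, q3, q4, q5, q6, q7⟩
  · exact s1 q
  subst p5 q5
  rw [disjoint_union_left, disjoint_union_right, disjoint_union_right] at hd
  obtain ⟨⟨dAC, dAD⟩, dBC, dBD⟩ := hd
  have k1 : H a' pe := by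
    refine tight hs hi hp hx p1 (p2.append h2 (disjoint_union_right.2 ⟨dBC, dBD⟩) hps)
      (disjoint_union_right.2 ⟨p4, disjoint_union_right.2 ⟨dAC, dAD⟩⟩) p3 ?_ e3
    rw [← he, union_assoc]
  have k2 : H a τ := by
    refine tight hs hi hp hx (p2.append q1 dBC hps) (q2.append (p1.symm hs) dAD.symm k1)
      ?_ q3 ?_ q6
    · rw [disjoint_union_left, disjoint_union_right, disjoint_union_right]
      exact ⟨⟨dBD, p4.symm⟩, q4, dAC.symm⟩
    · rw [← he]
      ext x
      simp only [mem_union]
      tauto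
  have hτ : s₀ ≠ τ := fun q => s2 f q6 (q ▸ q3)
  obtain ⟨C1, C2, τ', r1, r2, r3, r4, r5⟩ := q1.split' q1.mem_right hτ.symm
  subst r5
  rw [disjoint_union_right] at dAC dBC
  rw [disjoint_union_left] at q4
  have k3 : HP H ((A ∪ B ∪ C1) ∪ (C2 ∪ D)) τ' a' := by
    refine ((h1.append r1 (disjoint_union_left.2 ⟨dAC.1, dBC.1⟩) hps).symm hs).append
      (r2.append q2 q4.2 q3) ?_ k2
    simp only [disjoint_union_left, disjoint_union_right]
    exact ⟨⟨⟨dAC.2, dBC.2⟩, r4⟩, ⟨dAD, dBD⟩, q4.1⟩
  refine q7 τ' (mem_union_left _ r1.mem_right) (mem_ends.2 ⟨a', k3.cast ?_⟩)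
  rw [← he]
  ext x
  simp only [mem_union]
  tauto

end AllEnds

variable {R : V → V → Prop} {σ : V → Bool} {U : Finset V}

/-- If every two ends are partners and every end has `k ≥ 2` neighbours, where `k + 1` is the
number of ends, then every source is an end. -/
theorem all_ends {a a' : V} (h : HP (RA R σ) U a a') (ha : σ a = true) (ha' : σ a' = true)
    (hp : ∀ r ∈ ends (RA R σ) U, ∀ s ∈ ends (RA R σ) U, s ≠ r → HP (RA R σ) U r s)
    (hx : ∀ s ∈ ends (RA R σ) U, xd R σ U s + 1 = (ends (RA R σ) U).card)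
    (h3 : 3 ≤ (ends (RA R σ) U).card) : ∀ s ∈ U, σ s = true → s ∈ ends (RA R σ) U := by
  intro s hs hσ
  by_contra hn
  have ea : a ∈ ends (RA R σ) U := mem_ends.2 ⟨a', h⟩
  have ea' : a' ∈ ends (RA R σ) U := mem_ends.2 ⟨a, h.rev⟩
  have s2 : ∀ f ∈ ends (RA R σ) U, ¬ RA R σ s f := fun f hf q => by
    obtain ⟨b, hb⟩ := mem_ends.1 hf
    have k1 := (hb.SS_of_card (h.card_SS ha ha')).1
    rw [(q.of_src hσ).1] at k1
    exact Bool.noConfusion k1
  obtain ⟨e, e1, e2⟩ : ∃ e ∈ ends (RA R σ) U, e ∉ ({a, a'} : Finset V) :=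
    exists_mem_notMem_of_card_lt_card (lt_of_le_of_lt card_le_two (by omega))
  simp only [mem_insert, mem_singleton, not_or] at e2
  have sa : s ≠ a := fun q => hn (q ▸ ea)
  have sa' : s ≠ a' := fun q => hn (q ▸ ea')
  obtain ⟨U1, U2, p, p1, p2, p3, p4, p5⟩ := h.split' hs sa
  by_cases c : e ∈ U1
  · exact AllEnds.core (RA.sy R σ) (RA.irr R σ) hp hx p1 p2 p4 p3 p5 c e2.1 e1 hn s2
  · obtain ⟨q, q1, q2⟩ := p2.tail sa'
    have sU : s ∉ U1 := fun k => disjoint_left.1 p4 k p2.mem_left
    have e3 : e ∈ U2 := (mem_union.1 (p5 ▸ ends_subset e1)).resolve_left c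
    refine AllEnds.core (RA.sy R σ) (RA.irr R σ) hp hx q2.rev
      (HP.cons (RA.sy R σ _ _ p3) sU p1.rev) ?_ (RA.sy R σ _ _ q1) ?_
      (mem_erase.2 ⟨fun k => hn (k ▸ e1), e3⟩) e2.2 e1 hn s2
    · rw [disjoint_insert_right]
      exact ⟨notMem_erase _ _, (p4.mono_right (erase_subset _ _)).symm⟩
    · rw [union_insert, ← insert_union, insert_erase p2.mem_left, union_comm, p5]

end Pool.Agent.Lib.MP_04ab3e_co.X
end
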