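import Pool.Agent.Lib.MP_04ab3e_co.X.Win
import Pool.Agent.Lib.MP_04ab3e_co.X.AllEnds

-- part Pool.Agent.Lib.MP_04ab3e_co.X.SCb
section

/-! The spider count: the tail and the totals. -/

namespace Pool.Agent.Lib.MP_04ab3e_co.X

open Finset

variable {R : ℕ → ℕ → Prop} {m h ε p e r2 x u v w a b k : ℕ}

/-- The source end `b` of a path on `0, …, k` sees no sink of the tail. -/
theorem SCG.endT (F : SCG R m h ε p e r2 x)
    (U : Sg R (fun v => 0 ≤ v ∧ v ≤ k) (fun v => 0 ≤ v ∧ v ≤ k ∧ v % 2 = 0) (k + 1 - 0) a b)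
    (hb : b ≤ k ∧ b % 2 = 0 ∧ 2 * h ≤ k ∧ k < p ∧ 2 * m + p ≤ e + k + 1)
    (hw : p ≤ w ∧ w ≤ e ∧ w % 2 ≠ r2) (e1 : R b w) : False := by
  have hn := F.num
  have hf := F.far
  have A := F.a1
  have B := F.a2
  have W := B.sg p e (by omega)
  have q := U.out (B.sg w e (by omega)) e1 (by intro v; omega)
  by_cases z : w = p
  · have := F.noP _ q.hasP; omega
  · have := F.maxp _ _ (q.hasS (B.sg p (w - 1) (by omega)) F.lk (by intro v; omega)) (by omega)
    omega

theorem SCG.endE (F : SCG R m h ε p e r2 x)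
    (U : Sg R (fun v => 0 ≤ v ∧ v ≤ k) (fun v => 0 ≤ v ∧ v ≤ k ∧ v % 2 = 0) (k + 1 - 0) a b)
    (hb : b ≤ k ∧ b % 2 = 0 ∧ 2 * h ≤ k ∧ k < p ∧ 2 * m + p ≤ e + k + 1)
    (hw : p ≤ w ∧ w ≤ e ∧ w % 2 = r2) (e1 : R b w) (e2 : R e w) : False := by
  have hn := F.num
  have hf := F.far
  have A := F.a1
  have B := F.a2
  have W := B.sg p e (by omega)
  have c : w ≠ e := fun z => F.irr e (z ▸ e2)
  have q := (U.out (Sg.ot R w) e1 (by intro v; omega)).inn (B.sg (w + 1) e (by omega)).rev e2
    (by intro v; omega)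
  by_cases z : w = p
  · have := F.noP _ q.hasP; omega
  · have := F.maxp _ _ (q.hasS (B.sg p (w - 1) (by omega)) F.lk (by intro v; omega)) (by omega)
    omega

theorem SCG.ende (F : SCG R m h ε p e r2 x)
    (U : Sg R (fun v => 0 ≤ v ∧ v ≤ k) (fun v => 0 ≤ v ∧ v ≤ k ∧ v % 2 = 0) (k + 1 - 0) a b)
    (hb : b ≤ k ∧ b % 2 = 0 ∧ k + 1 = p) (e1 : R b e) : False := by
  have hn := F.num
  have hf := F.far
  have A := F.a1
  have B := F.a2
  have W := B.sg p e (by omega)
  have := F.maxp _ _ ((U.out (Sg.ot R e) e1 (by intro v; omega)).hasS (B.sg p (e - 1) (by omega))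
    F.lk (by intro v; omega)) (by omega)
  omega

theorem SCG.endM (F : SCG R m h ε p e r2 x)
    (U : Sg R (fun v => 0 ≤ v ∧ v ≤ k) (fun v => 0 ≤ v ∧ v ≤ k ∧ v % 2 = 0) (k + 1 - 0) a b)
    (hb : b ≤ k ∧ b % 2 = 0 ∧ k + 1 = p) (hw : p ≤ w ∧ w ≤ e ∧ w % 2 = r2)
    (hu : (w = p ∧ u = x) ∨ (p < w ∧ u + 1 = w)) (e1 : R b w) (e2 : R e u) : False := by
  have hn := F.num
  have hf := F.far
  have A := F.a1
  have B := F.a2
  have W := B.sg p e (by omega)
  by_cases c : w = e
  · exact F.ende U hb (c ▸ e1)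
  have q := U.out (Sg.ot R w) e1 (by intro v; omega)
  rcases hu with ⟨z, rfl⟩ | ⟨z, z'⟩
  · have := F.maxp _ _ (q.hasS (B.sg (w + 1) e (by omega)).rev (Ar.inn e2) (by intro v; omega))
      (by omega)
    omega
  · have := F.maxp _ _ (q.hasS ((B.sg p u (by omega)).inn (B.sg (w + 1) e (by omega)).rev e2
      (by intro v; omega)) F.lk (by intro v; omega)) (by omega)
    omega

theorem SCG.cross (F : SCG R m h ε p e r2 x) (hw : p ≤ w ∧ w < e ∧ w % 2 = r2)
    (hu : (w = p ∧ u = x) ∨ (p < w ∧ u + 1 = w)) (e1 : R e u) (e2 : R (2 * h) (w + 1)) :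
    False := by
  have hn := F.num
  have hf := F.far
  have A := F.a1
  have B := F.a2
  have W := B.sg p e (by omega)
  rcases hu with ⟨z, rfl⟩ | ⟨z, z'⟩
  · have := F.pure (((A.sg 0 u (by omega)).inn (B.sg (w + 1) e (by omega)).rev e1
      (by intro v; omega)).inn (A.sg (u + 1) (2 * h) (by omega)).rev e2 (by intro v; omega))
      (by omega)
    omega
  · have := F.pure ((((A.sg 0 x (by omega)).jn (B.sg p u (by omega)) F.lk
      (by intro v; omega)).inn (B.sg (w + 1) e (by omega)).rev e1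
      (by intro v; omega)).inn (A.sg (x + 1) (2 * h) (by omega)).rev e2 (by intro v; omega))
      (by omega)
    omega

/-- The weight of the cell of the source `w` of the tail; `u` is its neighbour toward the root. -/
noncomputable def cT (R : ℕ → ℕ → Prop) (h e u w : ℕ) : ℕ :=
  ind (R e u) + ind (R e w) + ind (R 0 w) + ind (R (2 * h) w) + ind (w < e ∧ R (2 * h) (w + 1))

theorem SCG.t3 (F : SCG R m h ε p e r2 x) (hw : p ≤ w ∧ w ≤ e ∧ w % 2 = r2)
    (hu : (w = p ∧ u = x) ∨ (p < w ∧ u + 1 = w)) : cT R h e u w + ind (w = e) ≤ 3 := by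
  have hn := F.num
  have hf := F.far
  have A := F.a1
  have B := F.a2
  have W := B.sg p e (by omega)
  have U := (A.sg 0 (2 * h + ε) (by omega)).rev
  have h1 := ind2 (p := R 0 w) (q := R e w) (F.endE U (by omega) hw)
  have h2 := ind2 (p := R e u) (q := w < e ∧ R (2 * h) (w + 1)) fun e1 e2 =>
    F.cross (by omega) hu e1 e2.2
  have h3 := ind_le (R (2 * h) w)
  unfold cT
  rcases ind_cases (w = e) with ⟨rfl, z⟩ | z
  · have := ind_eq_zero (F.irr w)
    have := ind_eq_zero (F.ende U (by omega))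
    omega
  · omega

theorem SCG.t0 (F : SCG R m h 0 p e r2 x) (hw : p ≤ w ∧ w ≤ e ∧ w % 2 = r2)
    (hu : (w = p ∧ u = x) ∨ (p < w ∧ u + 1 = w)) : cT R h e u w + ind (w = e) ≤ 2 := by
  have hn := F.num
  have hf := F.far
  have A := F.a1
  have B := F.a2
  have W := B.sg p e (by omega)
  have U := (A.sg 0 (2 * h) (by omega))
  have h1 := ind2 (p := R 0 w) (q := R e w) (F.endE U.rev (by omega) hw)
  have h2 := ind2 (p := R 0 w) (q := R e u) (F.endM U.rev (by omega) hw hu)
  have h3 := ind2 (p := R (2 * h) w) (q := R e w) (F.endE U (by omega) hw)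
  have h4 := ind2 (p := R (2 * h) w) (q := R e u) (F.endM U (by omega) hw hu)
  have h5 := ind_eq_zero (p := w < e ∧ R (2 * h) (w + 1)) fun q => F.endT U (by omega) (by omega) q.2
  unfold cT
  rcases ind_cases (w = e) with ⟨rfl, z⟩ | z
  · have := ind_eq_zero (F.irr w)
    have := ind_eq_zero (F.ende U (by omega))
    have := ind_eq_zero (F.ende U.rev (by omega))
    omega
  · omega

theorem SCG.t1 (F : SCG R m h 1 p e r2 x) (he : 2 * m + 1 ≤ e) (hw : p ≤ w ∧ w ≤ e ∧ w % 2 = r2)
    (hu : (w = p ∧ u = x) ∨ (p < w ∧ u + 1 = w)) : cT R h e u w ≤ 2 := by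
  have hn := F.num
  have hf := F.far
  have A := F.a1
  have B := F.a2
  have W := B.sg p e (by omega)
  have U := (A.sg 0 (2 * h) (by omega))
  have h2 := ind2 (p := R 0 w) (q := R e u)
    (F.endM (A.sg 0 (2 * h + 1) (by omega)).rev (by omega) hw hu)
  have h1 := ind2 (p := R 0 w) (q := R e w)
    (F.endE (A.sg 0 (2 * h + 1) (by omega)).rev (by omega) hw)
  have h3 := ind2 (p := R (2 * h) w) (q := R e w) (F.endE U (by omega) hw)
  have h5 := ind_eq_zero (p := w < e ∧ R (2 * h) (w + 1)) fun q => F.endT U (by omega) (by omega) q.2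
  unfold cT
  omega

/-- The three rows on the tail. -/
noncomputable def sT (R : ℕ → ℕ → Prop) (h p e x t : ℕ) : ℕ :=
  ∑ j ∈ range t, ind (R 0 (p + j)) + ∑ j ∈ range t, ind (R (2 * h) (p + j)) +
    ∑ j ∈ range t, ind (R e (p + j)) + ind (x % 2 = 1 ∧ R e x)

theorem SCG.sumT (F : SCG R m h ε p e r2 x) {t c δ : ℕ} (ht : p + t = e + 1)
    (H : ∀ u w, p ≤ w ∧ w ≤ e ∧ w % 2 = r2 → (w = p ∧ u = x) ∨ (p < w ∧ u + 1 = w) →
      cT R h e u w + δ * ind (w = e) ≤ c) : sT R h p e x t + δ ≤ c * ((t + 1) / 2) := by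
  have hn := F.num
  have hf := F.far
  have A := F.a1
  have B := F.a2
  have W := B.sg p e (by omega)
  have U := (A.sg 0 (2 * h + ε) (by omega)).rev
  have last : ∀ (f : ℕ → ℕ) (n : ℕ), f n = e → δ ≤ ∑ j ∈ range (n + 1), δ * ind (f j = e) :=
    fun f n q => by rw [sum_range_succ, ind_eq_one q]; omega
  unfold sT
  rcases Nat.even_or_odd' t with ⟨n, rfl | rfl⟩
  · obtain ⟨n, rfl⟩ : ∃ n', n = n' + 1 := ⟨n - 1, by omega⟩
    have s1 := sum_le_mul (h := n + 1) fun j hj =>
      H (p + 2 * j) (p + (2 * j + 1)) (by omega) (by omega)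
    have z1 := sum_zero (q := fun j => R 0 (p + 2 * j)) (k := n + 1) fun j hj =>
      F.endT U (by omega) (by omega)
    have z2 := ind_eq_zero (p := x % 2 = 1 ∧ R e x) (by omega)
    have z3 : ∑ j ∈ range (n + 1), ind (R (2 * h) (p + 2 * j)) ≤ ∑ j ∈ range (n + 1),
        ind (p + (2 * j + 1) < e ∧ R (2 * h) (p + (2 * j + 1) + 1)) := by
      rw [sum_range_succ', sum_range_succ, ind_eq_zero (p := R (2 * h) (p + 2 * 0)) fun q => by
        have := F.noP _ ((A.sg 0 (2 * h) (by omega)).out W q (by intro v; omega)).hasP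
        omega]
      refine add_le_add (sum_le_sum fun j hj => ind_mono fun q => ⟨?_, q⟩) (Nat.zero_le _)
      have := mem_range.1 hj
      omega
    have z4 := last (fun j => p + (2 * j + 1)) n (by omega)
    simp only [cT, sum_add_distrib] at s1
    rw [sum_par, sum_par, sum_par, show (2 * (n + 1) + 1) / 2 = n + 1 by omega]
    omega
  · have s1 := sum_le_mul (h := n + 1) fun j hj =>
      H (if j = 0 then x else p + (2 * (j - 1) + 1)) (p + 2 * j) (by omega)
        (by split_ifs <;> omega)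
    have z1 := sum_zero (q := fun j => R 0 (p + (2 * j + 1))) (k := n) fun j hj =>
      F.endT U (by omega) (by omega)
    have z2 := ind_mono (A := x % 2 = 1 ∧ R e x) (B := R e x) fun q => q.2
    have z3 : ∑ j ∈ range n, ind (R (2 * h) (p + (2 * j + 1))) ≤ ∑ j ∈ range (n + 1),
        ind (p + 2 * j < e ∧ R (2 * h) (p + 2 * j + 1)) := by
      rw [sum_range_succ]
      refine le_trans (sum_le_sum fun j hj => ind_mono fun q => ⟨?_, q⟩) (Nat.le_add_right _ _)
      have := mem_range.1 hj
      omega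
    have z4 := last (fun j => p + 2 * j) n (by omega)
    have z5 : ∑ j ∈ range (n + 1), ind (R e (if j = 0 then x else p + (2 * (j - 1) + 1))) =
        ∑ j ∈ range n, ind (R e (p + (2 * j + 1))) + ind (R e x) := by
      rw [sum_range_succ']; simp
    simp only [cT, sum_add_distrib] at s1
    rw [sum_par', sum_par', sum_par', show (2 * n + 1 + 1) / 2 = n + 1 by omega]
    omega

/-- The three rows on the first path without its last sink and on the tail. -/
noncomputable def sQ (R : ℕ → ℕ → Prop) (h p t a : ℕ) : ℕ :=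
  ∑ j ∈ range (2 * h + 1), ind (R a j) + ∑ j ∈ range t, ind (R a (p + j))

theorem SCG.tot0 (F : SCG R m h 0 p e r2 x) {t : ℕ} (ht : p + t = e + 1) :
    sQ R h p t 0 + sQ R h p t (2 * h) + sQ R h p t e ≤ h + 2 * m := by
  have hn := F.num
  have hf := F.far
  have s1 := F.sumQ
  have s2 := F.sumT (c := 2) (δ := 1) ht fun u w q1 q2 => by have := F.t0 q1 q2; omega
  unfold sQ
  unfold sT at s2
  omega

theorem SCG.tot1 (F : SCG R m h 1 p e r2 x) {t : ℕ} (ht : p + t = e + 1) (he : 2 * m + 1 ≤ e) :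
    sQ R h p t 0 + sQ R h p t (2 * h) + sQ R h p t e + 1 ≤ h + 2 * m := by
  have hn := F.num
  have hf := F.far
  have s1 := F.sumQ
  have s2 := F.sumT (c := 2) (δ := 0) ht fun u w q1 q2 => by have := F.t1 he q1 q2; omega
  unfold sQ
  unfold sT at s2
  omega

theorem SCG.tot2 (F : SCG R m h 1 p e r2 x) {t : ℕ} (ht : p + t = e + 1) (he : e = 2 * m) :
    sQ R h p t 0 + sQ R h p t (2 * h) + sQ R h p t e + 2 ≤ 3 * m := by
  have hn := F.num
  have hf := F.far
  have s1 := F.sumQ
  have s2 := F.sumT (c := 3) (δ := 1) ht fun u w q1 q2 => by have := F.t3 q1 q2; omega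
  unfold sQ
  unfold sT at s2
  omega

/-- The first end misses the last sink, and so does the end of the tail. -/
theorem SCG.miss (F : SCG R m h 1 p e r2 x) : ¬ R 0 (2 * h + 1) ∧ ¬ R e (2 * h + 1) := by
  have hn := F.num
  have hf := F.far
  have A := F.a1
  have B := F.a2
  have W := B.sg p e (by omega)
  refine ⟨fun q => ?_, fun q => ?_⟩
  · have := F.noP _ (((A.sg (x + 1) (2 * h + 1) (by omega)).inn (A.sg 0 x (by omega)) q
      (by intro v; omega)).jn W F.lk (by intro v; omega)).hasP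
    omega
  · have := F.noP _ ((A.sg 0 (2 * h + 1) (by omega)).inn W.rev q (by intro v; omega)).hasP
    omega

theorem od_sQ (R : ℕ → ℕ → Prop) (h ε t a : ℕ) : od R (range (2 * h + ε + t + 1)) a =
    sQ R h (2 * h + 1 + ε) t a + ∑ j ∈ range ε, ind (R a (2 * h + 1 + j)) := by
  rw [od_sum, show 2 * h + ε + t + 1 = 2 * h + 1 + ε + t by omega, sum_range_add, sum_range_add]
  unfold sQ
  omega

theorem SCF.odd {t : ℕ} (F : SCF R m h 0 t r2 x e) :
    od R (range (e + 1)) 0 + od R (range (e + 1)) (2 * h) + od R (range (e + 1)) e < 3 * m := by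
  have hn := F.num
  have hf := F.g.far
  have q := F.g.tot0 (t := t) (by omega)
  have s := fun a => od_sQ R h 0 t a
  rw [← hn.2.1] at s
  simp only [s, sum_range_zero]
  omega

/-- The degrees are taken into the whole spider, the last sink `2 h + 1` included. -/
theorem SCF.even {t : ℕ} (F : SCF R m h 1 t r2 x e) :
    od R (range (e + 1)) 0 + od R (range (e + 1)) (2 * h) + od R (range (e + 1)) e < 3 * m ∧
    (2 * m < 2 * h + 1 + t → od R (range (e + 1)) 0 + od R (range (e + 1)) (2 * h) +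
      od R (range (e + 1)) e ≤ h + 2 * m) := by
  have hn := F.num
  have hg := F.g.num
  have hf := F.g.far
  have q1 := F.g.tot1 (t := t) (by omega)
  have q2 := F.g.tot2 (t := t) (by omega)
  have s := fun a => od_sQ R h 1 t a
  rw [← hn.2.1] at s
  have z1 := ind_eq_zero F.g.miss.1
  have z2 := ind_eq_zero F.g.miss.2
  have z3 := ind_le (R (2 * h) (2 * h + 1))
  simp only [s, sum_range_one, add_zero]
  omega

end Pool.Agent.Lib.MP_04ab3e_co.X
end

-- part Pool.Agent.Lib.MP_04ab3e_co.X.SC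
section

/-! The spider count: totals. -/

namespace Pool.Agent.Lib.MP_04ab3e_co.X

open Finset

variable {V : Type} [DecidableEq V]

variable {R : V → V → Prop} {σ : V → Bool} {U W : Finset V} {a b r c d : V} {m : ℕ}

theorem Fr.mono {R R' : ℕ → ℕ → Prop} {p t r1 r2 x y : ℕ} (F : Fr R' p t r1 r2 x y) (hi : Irr R)
    (h : ∀ u v, R' u v → R u v) : Fr R p t r1 r2 x y :=
  ⟨hi, fun i h1 h2 => ⟨fun q => h _ _ ((F.a1 i h1 h2).1 q), fun q => h _ _ ((F.a1 i h1 h2).2 q)⟩,
    fun i h1 h2 => ⟨fun q => h _ _ ((F.a2 i h1 h2).1 q), fun q => h _ _ ((F.a2 i h1 h2).2 q)⟩,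
    ⟨fun q => h _ _ (F.lk.1 q), fun q => h _ _ (F.lk.2 q)⟩, F.num⟩

/-- Numbering of a spider whose first end and tail end are sources. -/
theorem Spd.number (hi : Irr R) (h : Spd R σ U W a b r c d) (ha : σ a = true) (hd : σ d = true)
    {p t : ℕ} (e1 : U.card = p) (e2 : W.card = t) :
    ∃ (f : ℕ → V) (x : ℕ), Inj f (p + t) ∧ Fr (Pb R f (p + t)) p t 0 ((p + t - 1) % 2) x p ∧
      (range (p + t)).image f = U ∪ W ∧ f 0 = a ∧ f (p - 1) = b ∧ f (p + t - 1) = d := by
  have p1 := h.h2.parity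
  have p2 := card_src_add_snk σ W
  have p3 := h.h2.nonempty.card_pos
  obtain ⟨f, x, y, k1, k2, k3, k4, k5, k6, k7, -, k9, -⟩ := LP.number hi h.h1 h.h2 h.dj h.hr
    h.h2.mem_left h.lk e1 e2 (r1 := 0) (r2 := (p + t - 1) % 2) (by omega) (by omega) (by simp [ha])
    (by
      rw [hd] at p1
      cases q : σ c <;> rw [q] at p1 <;> simp only [Bool.toNat_false, Bool.toNat_true] at p1 <;>
        simp <;> omega)
  have hn := k2.num
  obtain rfl : y = p := k1 _ (by omega) _ (by omega) (k9.trans k6.symm)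
  exact ⟨f, x, k1, k2, k3, k4, k5, k7⟩

theorem sc_odd (hi : Irr R) (h : Spd R σ U W a b r c d) (O : Opt R m U.card W.card)
    (ha : σ a = true) (hb : σ b = true) (hd : σ d = true) :
    od R (U ∪ W) a + od R (U ∪ W) b + od R (U ∪ W) d < 3 * m := by
  have p1 := h.h1.card_SS ha hb
  have p2 := card_src_add_snk σ U
  have p3 := h.h2.nonempty.card_pos
  obtain ⟨k, hk⟩ : ∃ k, U.card = 2 * k + 1 + 0 := ⟨(snk σ U).card, by omega⟩
  obtain ⟨f, x, k1, k2, k3, k4, k5, k6⟩ := h.number hi ha hd hk rfl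
  rw [hk] at O
  have F : SCF _ m k 0 W.card _ x (2 * k + 0 + W.card) := ⟨k2, O.pb k1, by omega, fun n j q => by
    obtain ⟨_, _, _, _, _, _, _, _, z, rfl, -⟩ := (q.pb k1).spd
    exact O.noP _ z.h1.hasP⟩
  have q := F.odd
  rw [show 2 * k + 0 + W.card + 1 = 2 * k + 1 + 0 + W.card by omega, od_pb k1 (by omega),
    od_pb k1 (by omega), od_pb k1 (by omega), k3, k4] at q
  rw [show 2 * k + 1 + 0 - 1 = 2 * k by omega] at k5
  rw [show 2 * k + 1 + 0 + W.card - 1 = 2 * k + 0 + W.card by omega] at k6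
  rwa [k5, k6] at q

/-- The path is `a, …, s, y` on `insert y U`. -/
theorem sc_even (hi : Irr R) {s y : V} (h : Spd R σ U W a s r c d) (hy : y ∉ U ∪ W)
    (hσ : σ y = false) (e : R s y) (O : Opt R m (U.card + 1) W.card)
    (hW : ∀ n k, HasS R n k → n + 1 < 2 * m) (ha : σ a = true) (hs : σ s = true)
    (hd : σ d = true) :
    od R (insert y (U ∪ W)) a + od R (insert y (U ∪ W)) s + od R (insert y (U ∪ W)) d < 3 * m ∧
    (2 * m < U.card + W.card → 2 * (od R (insert y (U ∪ W)) a + od R (insert y (U ∪ W)) s +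
      od R (insert y (U ∪ W)) d) + 1 ≤ U.card + 4 * m) := by
  have p1 := h.h1.card_SS ha hs
  have p2 := card_src_add_snk σ U
  have p3 := h.h2.nonempty.card_pos
  rw [mem_union, not_or] at hy
  obtain ⟨k, hk⟩ : ∃ k, U.card = 2 * k + 1 := ⟨(snk σ U).card, by omega⟩
  have mo : ∀ u v, u ≠ y → v ≠ y → RA R σ u v → RA (fun u v => R u v ∧ (v = y → u = s)) σ u v :=
    fun u v hu hv q => q.imp (fun z => ⟨z.1, z.2.1, z.2.2, fun w => absurd w hv⟩)
      fun z => ⟨z.1, z.2.1, z.2.2, fun w => absurd w hu⟩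
  have h' : Spd (fun u v => R u v ∧ (v = y → u = s)) σ (insert y U) W a y r c d :=
    ⟨(h.h1.mono fun u hu v hv => mo u v (ne_of_mem_of_not_mem hu hy.1)
      (ne_of_mem_of_not_mem hv hy.1)).snoc hy.1 (RA.mk hs hσ ⟨e, fun _ => rfl⟩),
      h.h2.mono fun u hu v hv => mo u v (ne_of_mem_of_not_mem hu hy.2)
        (ne_of_mem_of_not_mem hv hy.2), disjoint_insert_left.2 ⟨hy.2, h.dj⟩,
      mem_insert_of_mem h.hr, mo _ _ (ne_of_mem_of_not_mem h.hr hy.1)
        (ne_of_mem_of_not_mem h.h2.mem_left hy.2) h.lk⟩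
  obtain ⟨f, x, k1, k2, k3, k4, k5, k6⟩ := h'.number (fun v q => hi v q.1) ha hd
    (p := 2 * k + 1 + 1) (by rw [card_insert_of_notMem hy.1, hk]) rfl
  rw [hk] at O
  have k7 : f (2 * k) = s := ((k2.a1 (2 * k) (by omega) (by omega)).1 (by omega)).2.2.2 k5
  have F : SCF (Pb R f _) m k 1 W.card _ x (2 * k + 1 + W.card) :=
    ⟨k2.mono hi.pb fun u v q => ⟨q.1, q.2.1, q.2.2.1⟩, O.pb k1, by omega,
      fun n j q => hW n j (q.pb k1)⟩
  have q := F.even
  rw [show 2 * k + 1 + W.card + 1 = 2 * k + 1 + 1 + W.card by omega, od_pb k1 (by omega),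
    od_pb k1 (by omega), od_pb k1 (by omega), k3, k4, insert_union, k7] at q
  rw [show 2 * k + 1 + 1 + W.card - 1 = 2 * k + 1 + W.card by omega] at k6
  rw [k6] at q
  omega

end Pool.Agent.Lib.MP_04ab3e_co.X
end

-- part Pool.Agent.Lib.MP_04ab3e_co.X.Win0
section

/-! The window of a spider and the change of type of an odd path. -/

namespace Pool.Agent.Lib.MP_04ab3e_co.X

open Finset

variable {V : Type} [DecidableEq V]

variable {R : V → V → Prop} {σ : V → Bool} {U W W1 W2 Q : Finset V} {a b r c d e1 e2 : V}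
  {m : ℕ}

/-- A source end of the path sees only the path and the sources of the window `W1`. -/
theorem window0 (S : Spd R σ U W a b r c d) (hP : NoP R (2 * m))
    (hS : NoS R U.card (2 * m + 1)) (big : 2 * m + 1 ≤ U.card + W.card)
    (h1 : HP (RA R σ) W1 c e1) (h2 : HP (RA R σ) W2 e2 d) (e : RA R σ e1 e2)
    (hd : Disjoint W1 W2) (hu : W1 ∪ W2 = W) (hk : U.card + W1.card = 2 * m)
    (hb : σ b = true) {v : V} (hv : R b v) : v ∈ U ∨ v ∈ src σ W1 := by
  by_contra hn
  obtain ⟨n1, n2⟩ := not_or.1 hn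
  have s1 : W1 ⊆ W := hu ▸ subset_union_left
  by_cases w : v ∈ W
  swap
  · have := hS _ _ _ _ _ _ _ _ (S.push hb S.h2 (Subset.refl _) hv n1 w)
      (by rw [card_insert_of_notMem n1]; omega)
    rw [card_insert_of_notMem n1] at this
    omega
  cases q : σ v
  · by_cases vc : v = c
    · subst vc
      have := hP _ _ _ _ (S.h1.append S.h2 S.dj (RA.mk hb q hv))
      rw [card_union_of_disjoint S.dj] at this
      omega
    · obtain ⟨Wa, Wb, v', p1, p2, -, p4, p5⟩ := S.h2.split' w vc
      have da : Disjoint U Wa := S.dj.mono_right (p5 ▸ subset_union_left)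
      have db : Disjoint U Wb := S.dj.mono_right (p5 ▸ subset_union_right)
      have c1 := card_union_of_disjoint db
      have c2 := card_union_of_disjoint p4
      have c3 := p2.nonempty.card_pos
      have := hS σ (U ∪ Wb) Wa a d r c v' ⟨S.h1.append p2 db (RA.mk hb q hv), p1,
        disjoint_union_left.2 ⟨da, p4.symm⟩, mem_union_left _ S.hr, S.lk⟩ (by omega)
      rw [p5] at c2
      omega
  · have v1 : v ∉ W1 := fun z => n2 (mem_src.2 ⟨z, q⟩)
    have v2 : v ∈ W2 := by
      rw [← hu] at w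
      exact (mem_union.1 w).resolve_left v1
    by_cases ve : v = e2
    · have := hS _ _ _ _ _ _ _ _ (S.push hb h1 s1 hv n1 v1)
        (by rw [card_insert_of_notMem n1]; omega)
      rw [card_insert_of_notMem n1] at this
      omega
    · obtain ⟨Wa, Wb, v', p1, p2, -, p4, p5⟩ := h2.split' v2 ve
      have sa : Wa ⊆ W2 := p5 ▸ subset_union_left
      have da : Disjoint W1 Wa := hd.mono_right sa
      have := hS _ _ _ _ _ _ _ _ (S.push hb (h1.append p1 da e)
        (hu ▸ union_subset_union (Subset.refl _) sa) hv n1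
        (fun z => (mem_union.1 z).elim v1 fun z => disjoint_left.1 p4 z p2.mem_left))
        (by rw [card_insert_of_notMem n1]; omega)
      rw [card_insert_of_notMem n1, card_union_of_disjoint da] at this
      omega

/-- The count with one more miss in every row. -/
theorem moe0 (h : HP (RA R σ) Q a b) (ha : σ a = true) (hb : σ b = true) (Z : Finset V)
    (hZ : Disjoint Z Q) (hcov : ∀ c ∈ Z, ∀ A B, HP (RA R σ) Q A B → ¬ (R A c ∧ R B c))
    (hx : ∀ s ∈ ends (RA R σ) Q, 0 < xd R σ Q s)
    (hrow : ∀ s ∈ ends (RA R σ) Q,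
      (mis R (src σ Q) s).card + (mis R Z s).card ≤ xd R σ Q s) :
    Z.card ≤ (good R σ Q).card := by
  set E := ends (RA R σ) Q with hE
  have hd : Disjoint (E \ good R σ Q) Z :=
    (hZ.symm.mono_left (sdiff_subset.trans ends_subset))
  have hc := count_le R (xd R σ Q) E ((E \ good R σ Q) ∪ Z) 0 ?_ ?_
  · rw [card_union_of_disjoint hd, card_sdiff_of_subset good_subset] at hc
    have h1 : (good R σ Q).card ≤ E.card := card_le_card good_subset
    rw [← hE] at hc
    push_cast [Nat.cast_sub h1] at hc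
    have : (Z.card : ℚ) ≤ (good R σ Q).card := by linarith
    exact_mod_cast this
  · intro c hc
    rcases mem_union.1 hc with hc | hc
    · obtain ⟨hc1, hc2⟩ := mem_sdiff.1 hc
      obtain ⟨s, hs⟩ := mem_ends.1 hc1
      refine (one_le_wt _ ⟨s, mem_prt.2 hs⟩ fun t ht => ?_).trans (wt_mono _ fun t ht => ?_)
      · exact ⟨hx t (prt_subset_ends (RA.sy R σ) c ht), posa_xd (mem_prt.1 ht)⟩
      · have ht' := prt_subset_ends (RA.sy R σ) c ht
        refine mem_col.2 ⟨ht', fun e => ?_, fun e => hc2 (mem_good.2 ⟨t, mem_prt.1 ht, e⟩)⟩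
        subst e
        have h1 := (mem_prt.1 ht).eq_single
        have h2 := hx c ht'
        rw [xd_eq_zero] at h2
        · omega
        · intro v hv
          rw [h1, mem_singleton] at hv
          rw [hv]; exact RA.irr R σ c
    · exact one_le_col_of_cover h (fun q => disjoint_left.1 hZ hc (ends_subset q)) hx (hcov c hc)
  · intro s hs
    have h1 : mis R ((E \ good R σ Q) ∪ Z) s ⊆ mis R (src σ Q) s ∪ mis R Z s := by
      intro v hv
      obtain ⟨h1, h2⟩ := mem_mis.1 hv
      rcases mem_union.1 h1 with q | q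
      · have := (mem_sdiff.1 q).1
        exact mem_union_left _ (mem_mis.2 ⟨mem_src.2 ⟨ends_subset this, ends_src h ha hb this⟩, h2⟩)
      · exact mem_union_right _ (mem_mis.2 ⟨q, h2⟩)
    have := (card_le_card h1).trans (card_union_le _ _)
    have := hrow s hs
    omega

/-- The root of a large spider is not an end of a path on the same set. -/
theorem Spd.root_ne0 (S : Spd R σ U W a b r c d) (hP : NoP R (2 * m))
    (big : 2 * m ≤ U.card + W.card) {x y : V} (h : HP (RA R σ) U x y) : r ≠ x ∧ r ≠ y := by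
  constructor
  · rintro rfl
    have := Spd.lt_of_end ⟨h.rev, S.h2, S.dj, S.hr, S.lk⟩ hP
    omega
  · rintro rfl
    have := Spd.lt_of_end ⟨h, S.h2, S.dj, S.hr, S.lk⟩ hP
    omega

/-- Change of type: a path between two sources can be replaced by a path between two sinks on the
same set, with the same root and tail. -/
theorem odd_flip0 [Fintype V] (hi : Irr R) (hdeg : MinDeg R m) (S : Spd R σ U W a b r c d)
    (hP : NoP R (2 * m)) (hS : NoS R U.card (2 * m + 1)) (big : 2 * m + 1 ≤ U.card + W.card)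
    (ha : σ a = true) (hb : σ b = true) :
    ∃ τ a' b', Spd R τ U W a' b' r c d ∧ τ a' = false ∧ τ b' = false ∧ ∀ v ∈ W, τ v = σ v := by
  have hp := hP _ _ _ _ S.h1
  obtain ⟨W1, W2, e1, e2, h1, h2, e, hd, hu, hk⟩ :=
    S.h2.cut_at (2 * m - U.card) (by omega) (by omega)
  have s1 : W1 ⊆ W := hu ▸ subset_union_left
  have d1 : Disjoint U W1 := S.dj.mono_right s1
  have c1 := card_src_add_snk σ U
  have c2 := S.h1.card_SS ha hb
  have c3 := card_src_add_snk σ W1
  have c4 := h1.parity
  have row : ∀ s ∈ ends (RA R σ) U, m ≤ od R U s + od R (src σ W1) s := fun s hs => by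
    obtain ⟨s', q⟩ := mem_ends.1 hs
    have q1 := od_eq_of_closed (R := R) (U := U ∪ src σ W1) (a := s) fun y hy => mem_union.2
      (window0 ⟨q.rev, S.h2, S.dj, S.hr, S.lk⟩ hP hS big h1 h2 e hd hu (by omega)
        (ends_src S.h1 ha hb hs) hy)
    rw [od_union (W := src σ W1) (d1.mono_right (filter_subset _ _))] at q1
    have := (hdeg s).1
    omega
  have key : ∃ g t, g ∈ ends (RA R σ) U ∧ σ g = true ∧ σ t = false ∧ t ∈ U ∧
      HP (RA R (Function.update σ g false)) U t g := by
    cases q : σ e1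
    · refine moe_deg hi S.h1 ha hb fun s hs => ?_
      have := row s hs
      have := od_le_card (R := R) (U := src σ W1) (a := s)
      rw [q] at c4
      cases q' : σ c <;> rw [q'] at c4 <;> simp only [Bool.toNat_false, Bool.toNat_true] at c4 <;>
        omega
    · have eU : e1 ∉ U := disjoint_right.1 d1 h1.mem_right
      have r2 := S.root_ne0 hP (by omega) S.h1
      have hx : ∀ s ∈ ends (RA R σ) U, 0 < xd R σ U s := fun s hs => by
        obtain ⟨s', z⟩ := mem_ends.1 hs
        have z1 : s ≠ s' := fun z1 => by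
          subst z1
          have z2 := z.eq_single
          have z3 := S.hr
          have z4 := S.h1.mem_left
          rw [z2, mem_singleton] at z3 z4
          exact r2.1 (z3.trans z4.symm)
        obtain ⟨t, t1, t2⟩ := z.tail z1
        exact card_pos.2 ⟨t, mem_nb.2 ⟨mem_of_mem_erase t2.mem_left, t1⟩⟩
      have := moe0 S.h1 ha hb {e1} (disjoint_singleton_left.2 eU) ?_ hx ?_
      · obtain ⟨g, hg⟩ := card_pos.1 (by simpa using this : 0 < (good R σ U).card)
        have hg' := good_subset hg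
        obtain ⟨s, k1, k2⟩ := mem_good.1 hg
        have hs : σ s = true := ends_src S.h1 ha hb (mem_ends.2 ⟨g, k1.rev⟩)
        obtain ⟨t, p1, p2, p3⟩ := k1.flip_end hs (fun e => hi s (e ▸ k2)) k2
        exact ⟨g, t, hg', ends_src S.h1 ha hb hg', (p1.of_src (ends_src S.h1 ha hb hg')).1, p2, p3⟩
      · rintro z hz A B k ⟨k1, k2⟩
        rw [mem_singleton.1 hz] at k1 k2
        have hA : σ A = true := ends_src S.h1 ha hb (mem_ends.2 ⟨B, k⟩)
        have hB : σ B = true := ends_src S.h1 ha hb (mem_ends.2 ⟨A, k.rev⟩)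
        have k3 := k.snoc_snk hB eU k2
        have k4 := card_insert_of_notMem eU
        by_cases ce : c = e1
        · have := hP _ _ _ _ k3
          subst ce
          rw [h1.eq_single, card_singleton] at hk
          omega
        · obtain ⟨r', k5, -⟩ := k3.rotate (RA.mk' (Function.update_self _ _ _)
            ((Function.update_of_ne (ne_of_mem_of_not_mem k.mem_left eU) _ _).trans hA) k1)
            (mem_insert_of_mem S.hr)
          obtain ⟨b', -, k6⟩ := h1.init ce
          have k7 : Disjoint (insert e1 U) (W1.erase e1) :=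
            disjoint_insert_left.2 ⟨notMem_erase _ _, d1.mono_right (erase_subset _ _)⟩
          have := hP _ _ _ _ (k5.rev.append (k6.upd (notMem_erase _ _) false) k7
            (S.lk.upd (ne_of_mem_of_not_mem S.hr eU) ce false))
          rw [card_union_of_disjoint k7, card_erase_of_mem h1.mem_right] at this
          omega
      · intro s hs
        have k1 := row s hs
        have k2 := row_eq hi (ends_src S.h1 ha hb hs) (ends_subset hs)
        have k3 := od_add_mis (R := R) (U := {e1}) (a := s)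
          (fun z => eU (mem_singleton.1 z ▸ ends_subset hs))
        have k4 : e1 ∈ src σ W1 := mem_src.2 ⟨h1.mem_right, q⟩
        have k5 := od_union (R := R) (a := s) (U := {e1}) (W := (src σ W1).erase e1)
          (disjoint_singleton_left.2 (notMem_erase _ _))
        rw [← insert_eq, insert_erase k4] at k5
        have k6 := od_le_card (R := R) (U := (src σ W1).erase e1) (a := s)
        rw [card_erase_of_mem k4] at k6
        rw [card_singleton] at k3
        rw [q] at c4
        cases q' : σ c <;> rw [q'] at c4 <;>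
          simp only [Bool.toNat_false, Bool.toNat_true] at c4 <;> omega
  obtain ⟨g, t, g1, g2, g3, g4, g5⟩ := key
  obtain ⟨g', k⟩ := mem_ends.1 g1
  have gW : g ∉ W := disjoint_left.1 S.dj (ends_subset g1)
  refine ⟨_, t, g, ⟨g5, S.h2.upd gW _, S.dj, S.hr, S.lk.upd (S.root_ne0 hP (by omega) k).1
    (ne_of_mem_of_not_mem S.h2.mem_left gW) _⟩, ?_, Function.update_self _ _ _, fun v hv =>
    Function.update_of_ne (ne_of_mem_of_not_mem hv gW) _ _⟩
  rw [Function.update_of_ne (fun z => by simp [z, g2] at g3), g3]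

end Pool.Agent.Lib.MP_04ab3e_co.X
end

-- part Pool.Agent.Lib.MP_04ab3e_co.X.Odd
section

/-! Optimal spiders with an odd path. -/

namespace Pool.Agent.Lib.MP_04ab3e_co.X

open Finset

variable {V : Type} [DecidableEq V]

variable {R : V → V → Prop} {σ : V → Bool} {U W : Finset V} {a b r c d : V} {m : ℕ}

/-- An optimal spider whose path has two source ends can be changed into one with two sink ends
and the same tail. -/
theorem odd_flip [Fintype V] (hi : Irr R) (hdeg : MinDeg R m) (h : Spd R σ U W a b r c d)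
    (O : Opt R m U.card W.card) (ha : σ a = true) (hb : σ b = true) :
    ∃ τ a' b', Spd R τ U W a' b' r c d ∧ τ a' = false ∧ τ b' = false ∧ τ d = σ d := by
  obtain ⟨τ, a', b', h1, h2, h3, h4⟩ := odd_flip0 hi hdeg h O.np O.ns O.big ha hb
  exact ⟨τ, a', b', h1, h2, h3, h4 d h.h2.mem_right⟩

theorem odd_sss [Fintype V] (hi : Irr R) (hdeg : MinDeg R m) (h : Spd R σ U W a b r c d)
    (O : Opt R m U.card W.card) (ha : σ a = true) (hb : σ b = true) (hd : σ d = true) :
    False := by
  have := sc_odd hi h O ha hb hd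
  have := h.deg_end hdeg O ha
  have := h.rev.deg_end hdeg O hb
  have := h.deg_tail hdeg O.maxt hd
  omega

theorem odd_ss [Fintype V] (hi : Irr R) (hdeg : MinDeg R m) (h : Spd R σ U W a b r c d)
    (O : Opt R m U.card W.card) (ha : σ a = true) (hb : σ b = true) : False := by
  cases hd : σ d
  · obtain ⟨τ, a', b', h1, h2, h3, h4⟩ := odd_flip hi hdeg h O ha hb
    exact odd_sss hi.dual hdeg.dual h1.dual O.dual (by simpa using h2) (by simpa using h3)
      (by simpa [h4] using hd)
  · exact odd_sss hi hdeg h O ha hb hd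

theorem odd_case [Fintype V] (hi : Irr R) (hdeg : MinDeg R m) (h : Spd R σ U W a b r c d)
    (O : Opt R m U.card W.card) (hab : σ a = σ b) : False := by
  cases ha : σ a
  · exact odd_ss hi.dual hdeg.dual h.dual O.dual (by simpa using ha) (by simpa [← hab] using ha)
  · exact odd_ss hi hdeg h O ha (hab ▸ ha)

end Pool.Agent.Lib.MP_04ab3e_co.X
end

-- part Pool.Agent.Lib.MP_04ab3e_co.X.LemR
section

/-! Some longest rooted path has a last source with few free out-neighbours. -/

namespace Pool.Agent.Lib.MP_04ab3e_co.X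

open Finset

variable {V : Type} [DecidableEq V]

theorem HP.glue {H : V → V → Prop} {P T : Finset V} {x a b : V} (h1 : HP H (insert a P) x a)
    (ha : a ∉ P) (h2 : HP H T a b) (hd : Disjoint P T) : HP H (P ∪ T) x b := by
  by_cases e : x = a
  · subst e
    have q := h1.eq_single
    have : P = ∅ := by
      rw [← erase_insert ha, q]; simp
    simpa [this] using h2
  · obtain ⟨b', e1, p⟩ := h1.init e
    rw [erase_insert ha] at p
    exact p.append h2 hd e1

open Classical in
/-- Out-neighbours of `s` in `X` that are not in `Q`. -/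
noncomputable def cls (R : V → V → Prop) (X Q : Finset V) (s : V) : Finset V :=
  (X \ Q).filter (R s ·)

/-- A path from `x` to a source `s` inside `X` through `r` and through all sources of `X`. -/
structure Mem (R : V → V → Prop) (σ : V → Bool) (X : Finset V) (x r : V) (Q : Finset V) (s : V) :
    Prop where
  p : HP (RA R σ) Q x s
  sub : Q ⊆ X
  root : r ∈ Q
  all : src σ X ⊆ Q
  hs : σ s = true

variable {R : V → V → Prop} {σ : V → Bool} {X Q P T Rs B : Finset V} {x r s a c z : V}

theorem mem_cls : z ∈ cls R X Q s ↔ z ∈ X ∧ z ∉ Q ∧ R s z := by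
  simp [cls, and_assoc]

theorem Mem.snk_of (h : Mem R σ X x r Q s) (hz : z ∈ X) (hq : z ∉ Q) : σ z = false := by
  cases e : σ z
  · rfl
  · exact absurd (h.all (mem_src.2 ⟨hz, e⟩)) hq

theorem Mem.card (h : Mem R σ X x r Q s) (hx : σ x = true) :
    Q.card + 1 = 2 * (src σ X).card := by
  have e : src σ Q = src σ X := by
    ext v
    rw [mem_src, mem_src]
    exact ⟨fun q => ⟨h.sub q.1, q.2⟩, fun q => ⟨h.all (mem_src.2 q), q.2⟩⟩
  have := h.p.card_SS hx h.hs
  have := card_src_add_snk σ Q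
  rw [← e]; omega

theorem LR.sum_insert (v : V) :
    ∑ z ∈ B, od (flip R) (insert v P) z ≤ ∑ z ∈ B, od (flip R) P z + od R B v := by
  classical
  have e : od R B v = ∑ z ∈ B, if R v z then 1 else 0 := by
    unfold od; rw [card_filter]
  rw [e, ← sum_add_distrib]
  refine sum_le_sum fun z _ => ?_
  unfold od
  rw [filter_insert]
  by_cases q : R v z
  · have q' : flip R z v := q
    rw [if_pos q', if_pos q]; exact card_insert_le _ _
  · have q' : ¬ flip R z v := q
    rw [if_neg q', if_neg q]; exact le_rfl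

theorem LR.od_add (h : ∀ z ∈ B, R a z → ¬ R c z) : od R B a + od R B c ≤ B.card := by
  classical
  unfold od
  rw [← card_union_of_disjoint (disjoint_filter.2 h)]
  exact card_le_card (union_subset (filter_subset _ _) (filter_subset _ _))

/-- Members with a fixed initial part that avoid the reserved set. -/
structure LR.FM (R : V → V → Prop) (σ : V → Bool) (X : Finset V) (r : V) (P : Finset V) (a : V)
    (Rs T : Finset V) (s : V) : Prop where
  p : HP (RA R σ) T a s
  dj : Disjoint P T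
  av : Disjoint T Rs
  sub : P ∪ T ⊆ X
  root : r ∈ P ∪ T
  all : src σ X ⊆ P ∪ T
  hs : σ s = true

theorem LR.FM.mem (h : LR.FM R σ X r P a Rs T s) (h1 : HP (RA R σ) (insert a P) x a)
    (ha : a ∉ P) : Mem R σ X x r (P ∪ T) s :=
  ⟨h1.glue ha h.p h.dj, h.sub, h.root, h.all, h.hs⟩

theorem LR.un : P ∪ insert a (insert c T) = insert c (insert a P) ∪ T := by
  ext v; simp only [mem_union, mem_insert]; tauto

theorem LR.sw {y v : V} (h : v ∈ insert c (insert a P) ∪ T) (e : v ≠ c) :
    v ∈ insert y (insert a P) ∪ T := by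
  simp only [mem_union, mem_insert] at h ⊢
  tauto

theorem LR.FM.down {a' : V} {Rs' : Finset V}
    (h : LR.FM R σ X r (insert c (insert a P)) a' Rs' T s) (e1 : RA R σ a c) (e2 : RA R σ c a')
    (ha : a ∉ P) (hc : c ∉ P) (hR : Rs ⊆ Rs') (ha' : a ∉ Rs) (hc' : c ∉ Rs) :
    LR.FM R σ X r P a Rs (insert a (insert c T)) s := by
  have hd := h.dj
  rw [disjoint_insert_left, disjoint_insert_left] at hd
  have hac : a ≠ c := fun q => RA.irr R σ a (q ▸ e1)
  refine ⟨HP.cons e1 (by simp [hac, hd.2.1]) (HP.cons e2 hd.1 h.p), by simp [ha, hc, hd.2.2], ?_,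
    by rw [LR.un]; exact h.sub, by rw [LR.un]; exact h.root, by rw [LR.un]; exact h.all, h.hs⟩
  rw [disjoint_insert_left, disjoint_insert_left]
  exact ⟨ha', hc', h.av.mono_right hR⟩

/-- The invariant of a frame. -/
def LR.Inv (R : V → V → Prop) (σ : V → Bool) (X : Finset V) (x r : V) (μ j : ℕ) : Prop :=
  ∃ P a Rs, HP (RA R σ) (insert a P) x a ∧ a ∉ P ∧ σ a = true ∧ P.card = 2 * j ∧
    (∃ T s y, LR.FM R σ X r P a Rs T s ∧ y ∈ cls R X (P ∪ T) s ∧ y ∉ Rs) ∧
    ∀ T s B, LR.FM R σ X r P a Rs T s → B ⊆ cls R X (P ∪ T) s → B.card = μ →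
      (∃ y ∈ B, y ∉ Rs) → ∑ z ∈ B, od (flip R) P z ≤ μ * j

theorem LR.two (h : LR.FM R σ X r P a Rs T s) (ha : σ a = true) (e : a ≠ s) :
    ∃ u a2 T2, RA R σ a u ∧ RA R σ u a2 ∧ HP (RA R σ) T2 a2 s ∧ T = insert a (insert u T2) ∧
      u ∉ T2 ∧ a ∉ T2 ∧ σ u = false ∧ σ a2 = true := by
  obtain ⟨u, e1, p1⟩ := h.p.tail e
  have hu := (e1.of_src ha).1
  have hus : u ≠ s := fun q => by rw [q, h.hs] at hu; cases hu
  obtain ⟨a2, e2, p2⟩ := p1.tail hus
  refine ⟨u, a2, _, e1, e2, p2, ?_, notMem_erase _ _, fun q => notMem_erase a T (mem_of_mem_erase q),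
    hu, (e2.of_snk hu).1⟩
  rw [insert_erase p1.mem_left, insert_erase h.p.mem_left]

/-- Some member has a nonempty class with fewer than `μ` elements. -/
theorem LR.main {μ : ℕ} (hμ : 2 ≤ μ) (hx : σ x = true)
    (W1 : ∀ τ U a b, HP (RA R τ) U a b → U ⊆ X → r ∈ U → τ r = σ r →
      U.card ≤ 2 * (src σ X).card)
    (W2 : ∀ U a, HP (RA R σ) U a r → U ⊆ X → U.card ≠ 2 * (src σ X).card)
    (H3 : ∀ Q s B, Mem R σ X x r Q s → B ⊆ cls R X Q s → B.card = μ →
      μ * (src σ X).card < ∑ z ∈ B, od (flip R) Q z)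
    (h0 : Mem R σ X x r Q s) (n0 : (cls R X Q s).Nonempty) :
    ∃ Q s, Mem R σ X x r Q s ∧ (cls R X Q s).Nonempty ∧ (cls R X Q s).card < μ := by
  by_contra hn
  have big : ∀ Q s, Mem R σ X x r Q s → (cls R X Q s).Nonempty → μ ≤ (cls R X Q s).card :=
    fun Q s h1 h2 => not_lt.1 fun q => hn ⟨Q, s, h1, h2, q⟩
  have ext : ∀ Q s z y, Mem R σ X x r Q s → z ∈ cls R X Q s → y ∈ X → y ∉ Q → y ≠ z → ¬ R y z := by
    intro Q s z y h hz hy hq hne e
    obtain ⟨z1, z2, z3⟩ := mem_cls.1 hz
    have hz' := h.snk_of z1 z2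
    have hy' : y ∉ insert z Q := by simp [hne, hq]
    have p := (h.p.snoc z2 (RA.mk h.hs hz' z3)).snoc_src hz' hy' e
    have := W1 _ _ _ _ p (insert_subset hy (insert_subset z1 h.sub)) (by simp [h.root])
      (Function.update_of_ne (fun (q : r = y) => hq (q ▸ h.root)) _ _)
    rw [card_insert_of_notMem hy', card_insert_of_notMem z2] at this
    have := h.card hx
    omega
  have step : ∀ j, LR.Inv R σ X x r μ j → LR.Inv R σ X x r μ (j + 1) := by
    rintro j ⟨P, a, Rs, h1, ha, hσ, hc, ⟨T, s, y, f, hy, hy'⟩, inv⟩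
    have fin : ∀ {c a' : V} {Rs' : Finset V}, RA R σ a c → RA R σ c a' → c ∉ P → a' ∉ P → a' ≠ a →
        Rs ⊆ Rs' → c ∉ Rs →
        (∃ T s y, LR.FM R σ X r (insert c (insert a P)) a' Rs' T s ∧
          y ∈ cls R X (insert c (insert a P) ∪ T) s ∧ y ∉ Rs') →
        (∀ T s B, LR.FM R σ X r (insert c (insert a P)) a' Rs' T s →
          B ⊆ cls R X (insert c (insert a P) ∪ T) s → B.card = μ → (∃ y ∈ B, y ∉ Rs') →
          od R B a + od R B c ≤ B.card) → LR.Inv R σ X x r μ (j + 1) := by
      intro c a' Rs' e1 e2 hcP haP haa hR hcR k1 k2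
      have hc0 := (e1.of_src hσ).1
      have hca : c ∉ insert a P := by
        simp only [mem_insert, not_or]
        exact ⟨fun q => RA.irr R σ a (q ▸ e1), hcP⟩
      have hac : a' ∉ insert c (insert a P) := by
        simp only [mem_insert, not_or]
        exact ⟨fun q => RA.irr R σ c (q ▸ e2), haa, haP⟩
      refine ⟨insert c (insert a P), a', Rs', (h1.snoc hca e1).snoc hac e2, hac, (e2.of_snk hc0).1,
        by rw [card_insert_of_notMem hca, card_insert_of_notMem ha]; omega, k1, ?_⟩
      rintro T' s' B f' hB hcard ⟨y', q1, q2⟩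
      have g1 := inv _ s' B (f'.down e1 e2 ha hcP hR (disjoint_left.1 f.av f.p.mem_left) hcR)
        (by rw [LR.un]; exact hB) hcard ⟨y', q1, fun q => q2 (hR q)⟩
      have g2 := k2 T' s' B f' hB hcard ⟨y', q1, q2⟩
      have g3 := LR.sum_insert (R := R) (B := B) (P := insert a P) c
      have g4 := LR.sum_insert (R := R) (B := B) (P := P) a
      rw [Nat.mul_succ]; omega
    by_cases eA : ∃ T s y w, LR.FM R σ X r P a Rs T s ∧ a ≠ s ∧ y ∈ cls R X (P ∪ T) s ∧
        w ∈ cls R X (P ∪ T) s ∧ y ≠ w ∧ y ∉ Rs ∧ R a y ∧ R a w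
    · obtain ⟨T, s, y, w, f, has, hy, hw, hyw, hyR, ay, aw⟩ := eA
      obtain ⟨u, a2, T2, e1, e2, p2, rfl, hu2, ha2, hu, hσ2⟩ := LR.two f hσ has
      have m := f.mem h1 ha
      obtain ⟨y1, y2, y3⟩ := mem_cls.1 hy
      obtain ⟨w1, w2, w3⟩ := mem_cls.1 hw
      have sy := m.snk_of y1 y2
      have sw := m.snk_of w1 w2
      have hd := f.dj
      have hv := f.av
      have hsub := f.sub
      simp only [mem_union, mem_insert, not_or] at y2 w2
      simp only [disjoint_insert_right] at hd
      simp only [disjoint_insert_left] at hv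
      simp only [union_subset_iff, insert_subset_iff] at hsub
      have hua : u ≠ a := fun q => by rw [q, hσ] at hu; cases hu
      have hya : y ∉ insert a P := by simp [y2.1, y2.2.1]
      have dj : Disjoint (insert y (insert a P)) T2 := by simp [y2.2.2.2, ha2, hd.2.2]
      have sub : insert y (insert a P) ∪ T2 ⊆ X :=
        union_subset (insert_subset y1 (insert_subset hsub.2.1 hsub.1)) hsub.2.2.2
      have hu' : u ∉ insert y (insert a P) ∪ T2 := by
        simp [hua, hd.2.1, hu2, Ne.symm y2.2.2.1]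
      have hur : u ≠ r := by
        rintro rfl
        have p := ((h1.snoc hya (RA.mk hσ sy ay)).append p2.rev dj (RA.mk' sy f.hs y3)).snoc hu'
          (RA.sy R σ _ _ e2)
        have k1 := W2 _ _ p (insert_subset hsub.2.2.1 sub)
        have k2 := m.card hx
        rw [LR.un, insert_union, card_insert_of_notMem (by simp [hua, hd.2.1, hu2])] at k2
        rw [card_insert_of_notMem hu', insert_union,
          card_insert_of_notMem (by simp [y2.1, y2.2.1, y2.2.2.2])] at k1
        omega
      refine fin (Rs' := insert w Rs) (RA.mk hσ sy ay) (RA.mk' sy f.hs y3) y2.1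
        (disjoint_right.1 hd.2.2 p2.mem_right) has.symm (subset_insert _ _) hyR
        ⟨T2, a2, u, ⟨p2.rev, dj, by simp [w2.2.2.2, hv.2.2], sub, ?_, ?_, hσ2⟩,
          mem_cls.2 ⟨hsub.2.2.1, hu', (e2.of_snk hu).2⟩, by simp [hv.2.1, Ne.symm w2.2.2.1]⟩ ?_
      · exact LR.sw (by rw [← LR.un]; exact f.root) hur.symm
      · intro v hv'
        refine LR.sw (c := u) (by rw [← LR.un]; exact f.all hv') fun q => ?_
        have := (mem_src.1 hv').2
        rw [q, hu] at this; cases this
      · intro T' s' B f' hB _ _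
        rw [od_eq_zero (a := y), add_zero]
        · exact od_le_card
        intro z hz
        obtain ⟨z1, z2, z3⟩ := mem_cls.1 (hB hz)
        by_cases ezw : z = w
        · exact ezw ▸ ext _ _ w y m hw y1 (mem_cls.1 hy).2.1 hyw
        have hd' := f'.dj
        have hsub' := f'.sub
        have hwT : w ∉ T' := fun q => disjoint_left.1 f'.av q (mem_insert_self _ _)
        simp only [disjoint_insert_left] at hd'
        simp only [union_subset_iff, insert_subset_iff] at hsub'
        simp only [mem_union, mem_insert, not_or] at z2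
        have hwa : w ∉ insert a P := by simp [w2.1, w2.2.1]
        have m' : Mem R σ X x r (insert w (insert a P) ∪ T') s' := by
          refine ⟨(h1.snoc hwa (RA.mk hσ sw aw)).append f'.p (by simp [hwT, hd'.2.1, hd'.2.2])
            (RA.mk' sw f.hs w3),
            union_subset (insert_subset w1 (insert_subset hsub.2.1 hsub.1)) hsub'.2, ?_, ?_, f'.hs⟩
          · exact LR.sw f'.root fun q => (mem_cls.1 hy).2.1 (q ▸ f.root)
          · intro v hv'
            refine LR.sw (f'.all hv') fun q => ?_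
            have := (mem_src.1 hv').2
            rw [q, sy] at this; cases this
        exact ext _ _ z y m' (mem_cls.2 ⟨z1, by simp [ezw, z2.1.2.1, z2.1.2.2, z2.2], z3⟩) y1
          (by simp [hyw, y2.1, y2.2.1, hd'.1]) (Ne.symm z2.1.1)
    have m := f.mem h1 ha
    by_cases has : a = s
    · subst has
      obtain ⟨B, b1, b2, b3⟩ := exists_subsuperset_card_eq (singleton_subset_iff.2 hy)
        (by rw [card_singleton]; omega) (big _ _ m ⟨y, hy⟩)
      have g1 := inv T a B f b2 b3 ⟨y, b1 (mem_singleton_self y), hy'⟩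
      have g2 := H3 _ _ B m b2 b3
      have g3 := m.card hx
      have e : P ∪ T = insert a P := by rw [f.p.eq_single]; ext v; simp
      rw [e] at g2 g3
      rw [card_insert_of_notMem ha] at g3
      have g4 := LR.sum_insert (R := R) (B := B) (P := P) a
      have g5 := od_le_card (R := R) (U := B) (a := a)
      rw [show (src σ X).card = j + 1 by omega, Nat.mul_succ] at g2
      omega
    obtain ⟨u, a2, T2, e1, e2, p2, rfl, hu2, ha2, hu, hσ2⟩ := LR.two f hσ has
    have hd := f.dj
    have hv := f.av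
    simp only [disjoint_insert_right] at hd
    simp only [disjoint_insert_left] at hv
    refine fin e1 e2 hd.2.1 (disjoint_right.1 hd.2.2 p2.mem_left) (fun q => ha2 (q ▸ p2.mem_left))
      (Subset.refl _) hv.2.1
      ⟨T2, s, y, ⟨p2, by simp [hu2, ha2, hd.2.2], hv.2.2, by rw [← LR.un]; exact f.sub,
        by rw [← LR.un]; exact f.root, by rw [← LR.un]; exact f.all, f.hs⟩,
        by rw [← LR.un]; exact hy, hy'⟩ ?_
    rintro T' s' B f' hB hcard ⟨y', q1, q2⟩
    have f0 := f'.down e1 e2 ha hd.2.1 (Subset.refl _) hv.1 hv.2.1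
    have m0 := f0.mem h1 ha
    rw [LR.un] at m0
    have hd' := f'.dj
    have hsub' := f'.sub
    simp only [disjoint_insert_left] at hd'
    simp only [union_subset_iff, insert_subset_iff] at hsub'
    have hua : u ≠ a := fun q => by rw [q, hσ] at hu; cases hu
    have cd := m0.card hx
    rw [insert_union, card_insert_of_notMem (by simp [hua, hd.2.1, hd'.1])] at cd
    by_cases k : od R B u ≤ 1
    · have : od R B a < B.card := by
        by_contra q
        have hall : ∀ z ∈ B, R a z := by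
          classical
          have : B.filter (R a ·) = B := eq_of_subset_of_card_le (filter_subset _ _) (by
            unfold od at q; convert not_lt.1 q)
          intro z hz
          rw [← this] at hz
          exact (mem_filter.1 hz).2
        obtain ⟨w, w1, w2⟩ := exists_mem_ne (show 1 < B.card by omega) y'
        exact eA ⟨_, s', y', w, f0, fun q => hd'.2.1 (q ▸ f'.p.mem_right),
          by rw [LR.un]; exact hB q1, by rw [LR.un]; exact hB w1, w2.symm, q2, hall _ q1, hall _ w1⟩
      omega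
    refine LR.od_add fun z hz az uz => ?_
    obtain ⟨z2, k1, k2, k3⟩ := exists_of_lt_od (R := R) (U := B) (W := {z}) (a := u)
      (by rw [card_singleton]; omega)
    rw [mem_singleton] at k2
    obtain ⟨z1, z3, z4⟩ := mem_cls.1 (hB hz)
    obtain ⟨v1, v3, v4⟩ := mem_cls.1 (hB k1)
    have sz := m0.snk_of z1 z3
    have sv := m0.snk_of v1 v3
    simp only [mem_union, mem_insert, not_or] at z3 v3
    have hza : z ∉ insert a P := by simp [z3.1.2.1, z3.1.2.2]
    have pz := h1.snoc hza (RA.mk hσ sz az)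
    have subz : insert z (insert a P) ⊆ X := insert_subset z1 (insert_subset hsub'.1.2.1 hsub'.1.2.2)
    by_cases hur : u = r
    · subst hur
      have hu' : u ∉ insert z (insert a P) ∪ T' := by simp [hua, hd.2.1, hd'.1, Ne.symm z3.1.1]
      have p := (pz.append f'.p.rev (by simp [z3.2, hd'.2.1, hd'.2.2]) (RA.mk' sz f'.hs z4)).snoc hu'
        (RA.sy R σ _ _ e2)
      have k4 := W2 _ _ p (insert_subset hsub'.1.1 (union_subset subz hsub'.2))
      rw [card_insert_of_notMem hu', insert_union,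
        card_insert_of_notMem (by simp [z3.1.2.1, z3.1.2.2, z3.2])] at k4
      omega
    have hu1 : u ∉ insert z (insert a P) := by simp [hua, hd.2.1, Ne.symm z3.1.1]
    have hu3 : u ∉ insert z2 T' := by simp [hd'.1, Ne.symm v3.1.1]
    have p3 := (f'.p.snoc v3.2 (RA.mk f'.hs sv v4)).rev
    have djj : Disjoint (insert u (insert z (insert a P))) (insert z2 T') := by
      simp [hd'.1, hd'.2.1, hd'.2.2, z3.2, k2, v3.1.1, v3.1.2.1, v3.1.2.2]
    have p := (pz.snoc_src sz hu1 uz).append (p3.upd hu3 true) djj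
      (RA.mk (Function.update_self _ _ _) (by rw [Function.update_of_ne v3.1.1, sv]) k3)
    have k4 := W1 _ _ _ _ p
      (union_subset (insert_subset hsub'.1.1 subz) (insert_subset v1 hsub'.2)) (union_subset_union (insert_subset_insert _ (subset_insert _ _)) (subset_insert _ _) f'.root)
      (Function.update_of_ne (Ne.symm hur) _ _)
    rw [card_union_of_disjoint djj, card_insert_of_notMem hu1, card_insert_of_notMem hza,
      card_insert_of_notMem v3.2] at k4
    rw [card_union_of_disjoint (by simp [hd'.2.1, hd'.2.2])] at cd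
    omega
  have all : ∀ j, LR.Inv R σ X x r μ j := by
    intro j
    induction j with
    | zero =>
      obtain ⟨y, hy⟩ := n0
      exact ⟨∅, x, ∅, by simpa using HP.single x, by simp, hx, by simp,
        ⟨Q, s, y, ⟨h0.p, by simp, by simp, by simpa using h0.sub, by simpa using h0.root,
          by simpa using h0.all, h0.hs⟩, by simpa using hy, by simp⟩,
        fun T s B _ _ _ _ => by simp [od]⟩
    | succ j ih => exact step j ih
  obtain ⟨P, a, Rs, -, -, -, hc, ⟨T, s, y, f, hy, -⟩, -⟩ := all (X.card + 1)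
  have := card_le_card (subset_union_left.trans f.sub)
  omega

theorem lemR {R : V → V → Prop} {τ : V → Bool} {X : Finset V} {x r : V} {g μ : ℕ} (hi : Irr R)
    (hμ : 2 ≤ μ) (hg : (src τ X).card = g) (hx : τ x = true)
    (hW1 : ∀ σ U a b, HP (RA R σ) U a b → U ⊆ X → r ∈ U → σ r = τ r → U.card ≤ 2 * g)
    (hW2 : ∀ U a, HP (RA R τ) U a r → U ⊆ X → U.card ≠ 2 * g)
    (hH3 : ∀ U s B, HP (RA R τ) U x s → τ s = true → U ⊆ X → src τ X ⊆ U → r ∈ U → B ⊆ X \ U →
      (∀ b ∈ B, R s b) → B.card = μ → μ * g < ∑ b ∈ B, od (flip R) U b)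
    (h0 : ∃ U s y, HP (RA R τ) U x s ∧ τ s = true ∧ U ⊆ X ∧ src τ X ⊆ U ∧ r ∈ U ∧ y ∈ X \ U ∧
      R s y) :
    ∃ U s y, HP (RA R τ) U x s ∧ τ s = true ∧ U ⊆ X ∧ src τ X ⊆ U ∧ r ∈ U ∧ y ∈ X \ U ∧ R s y ∧
      od R (X \ U) s < μ := by
  subst hg
  obtain ⟨U, s, y, p1, p2, p3, p4, p5, p6, p7⟩ := h0
  obtain ⟨Q, s', m, ⟨z, hz⟩, k⟩ := LR.main hμ hx hW1 hW2
    (fun Q s B m hB => hH3 Q s B m.p m.hs m.sub m.all m.root
      (fun z hz => mem_sdiff.2 ⟨(mem_cls.1 (hB hz)).1, (mem_cls.1 (hB hz)).2.1⟩)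
      fun z hz => (mem_cls.1 (hB hz)).2.2)
    ⟨p1, p3, p5, p4, p2⟩ ⟨y, mem_cls.2 ⟨(mem_sdiff.1 p6).1, (mem_sdiff.1 p6).2, p7⟩⟩
  obtain ⟨z1, z2, z3⟩ := mem_cls.1 hz
  exact ⟨Q, s', z, m.p, m.hs, m.sub, m.all, m.root, mem_sdiff.2 ⟨z1, z2⟩, z3, k⟩

end Pool.Agent.Lib.MP_04ab3e_co.X
end

-- part Pool.Agent.Lib.MP_04ab3e_co.X.Evn
section

/-! Optimal spiders with an even path. -/

namespace Pool.Agent.Lib.MP_04ab3e_co.X

open Finset

variable {V : Type} [DecidableEq V]

variable {R : V → V → Prop} {σ : V → Bool} {U W : Finset V} {a b r c d : V} {m : ℕ}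

/-- The in-degree bound for free out-neighbours of the last source. `U` is the path without its
last sink, `g` the number of its sources. -/
theorem even_h3 [Fintype V] (hi : Irr R) (hdeg : MinDeg R m) {s : V} {g μ : ℕ} {B : Finset V}
    (h : Spd R σ U W a s r c d) (O : Opt R m (U.card + 1) W.card) (hg : U.card + 1 = 2 * g)
    (hs : σ s = true) (hd : σ d = true)
    (hμ : (μ = 2 ∧ U.card + W.card = 2 * m) ∨ μ + g = m + 1)
    (hB : Disjoint B (U ∪ W)) (e : ∀ y ∈ B, R s y) (hc : B.card = μ) :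
    μ * g < ∑ y ∈ B, od (flip R) U y := by
  have big := O.big
  have hBU : ∀ y ∈ B, y ∉ U := fun y hy q => disjoint_left.1 hB hy (mem_union_left _ q)
  have hBW : ∀ y ∈ B, y ∉ W := fun y hy q => disjoint_left.1 hB hy (mem_union_right _ q)
  have hrc : r ∉ W := disjoint_left.1 h.dj h.hr
  have S : ∀ y ∈ B, Spd R (Function.update σ y false) (insert y U) W y a r c d := fun y hy =>
    ⟨(h.h1.snoc_snk hs (hBU y hy) (e y hy)).rev, h.h2.upd (hBW y hy) _, by simp [hBW y hy, h.dj],
      mem_insert_of_mem h.hr, h.lk.upd (w := y) (fun q => hBU y hy (q ▸ h.hr))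
        (fun q => hBW y hy (q ▸ h.h2.mem_left)) _⟩
  rcases B.eq_empty_or_nonempty with rfl | ⟨y0, hy0⟩
  · have := O.noP _ h.h1.hasP
    rw [card_empty] at hc
    omega
  have hgm := O.noP _ (S y0 hy0).h1.hasP
  rw [card_insert_of_notMem (hBU y0 hy0)] at hgm
  obtain ⟨W1, W2, c', d', w1, w2, e', dj, hu, hk⟩ := h.h2.split_card (k := 2 * m - 2 * g)
    (by omega) (by omega)
  have s1 : W1 ⊆ W := hu ▸ subset_union_left
  have s2 : W2 ⊆ W := hu ▸ subset_union_right
  have hZ : (snk σ W1).card + g = m := by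
    have := w1.parity
    have := card_src_add_snk σ W1
    have := Bool.toNat_le (σ c)
    have := Bool.toNat_le (σ c')
    omega
  have row : ∀ y ∈ B, m ≤ od (flip R) U y + od (flip R) (snk σ W1) y := fun y hy => by
    have n1 : y ∉ W1 := fun q => hBW y hy (s1 q)
    have n2 : y ∉ W2 := fun q => hBW y hy (s2 q)
    rw [← od_union (disjoint_left.2 fun v q1 q2 => disjoint_left.1 h.dj q1 (s1 (mem_snk.1 q2).1)),
      od_eq_of_closed fun v hv => ?_]
    · exact (hdeg y).2
    rcases window' (S y hy) (by rw [card_insert_of_notMem (hBU y hy)]; exact O) (w1.upd n1 _)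
      (w2.upd n2 _) (e'.upd (w := y) (fun q => n1 (q ▸ w1.mem_right))
        (fun q => n2 (q ▸ w2.mem_left)) _) dj hu
      (by rw [card_insert_of_notMem (hBU y hy)]; omega) (by simp) hv with q | q
    · exact mem_union_left _ ((mem_insert.1 q).resolve_left fun z => hi y (z ▸ hv))
    · obtain ⟨q1, q2⟩ := mem_snk.1 q
      rw [Function.update_of_ne fun (z : v = y) => n1 (z ▸ q1)] at q2
      exact mem_union_right _ (mem_snk.2 ⟨q1, q2⟩)
  have miss : ∃ y ∈ B, ∃ z ∈ snk σ W1, ¬ R z y := by
    by_contra hn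
    push Not at hn
    rcases hμ with ⟨rfl, h2⟩ | h2
    · obtain ⟨y, w, hyw, rfl⟩ := card_eq_two.1 hc
      have hy : y ∈ ({y, w} : Finset V) := by simp
      have hw : w ∈ ({y, w} : Finset V) := by simp
      have hW2 : W2.card = 1 := by
        have := card_union_of_disjoint dj
        rw [hu] at this; omega
      obtain rfl : d' = d := by
        by_contra q
        have := w2.two_le q; omega
      have hc' := (e'.to_src hd).1
      have hz := mem_snk.2 ⟨w1.mem_right, hc'⟩
      have hcc : c ≠ c' := w1.ne_of_two_le (by omega)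
      obtain ⟨c2, -, t⟩ := w1.init hcc
      have m1 : c' ∉ insert y U := by
        simp only [mem_insert, not_or]
        exact ⟨fun q => hBW y hy (q ▸ s1 w1.mem_right), disjoint_right.1 h.dj (s1 w1.mem_right)⟩
      have m2 : w ∉ insert c' (insert y U) := by
        simp only [mem_insert, not_or]
        exact ⟨fun q => hBW w hw (q ▸ s1 w1.mem_right), hyw.symm, hBU w hw⟩
      have p := ((S y hy).h1.rev.snoc_src (by simp) m1 (hn y hy c' hz)).snoc_snk (by simp) m2
        (hn w hw c' hz)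
      have n1 : y ∉ W1.erase c' := fun q => hBW y hy (s1 (mem_of_mem_erase q))
      have n2 : w ∉ W1.erase c' := fun q => hBW w hw (s1 (mem_of_mem_erase q))
      have T : Spd R _ _ _ a w r c c2 := ⟨p, ((t.upd n1 _).upd (notMem_erase _ _) _).upd n2 _, by
        simp only [disjoint_insert_left]
        exact ⟨n2, notMem_erase _ _, n1, h.dj.mono_right ((erase_subset _ _).trans s1)⟩,
        by simp [h.hr], ((S y hy).lk.upd (fun q => hrc (q ▸ s1 w1.mem_right)) hcc _).upd (w := w)
          (fun q => hBU w hw (q ▸ h.hr)) (fun q => hBW w hw (q ▸ h.h2.mem_left)) _⟩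
      have := O.maxp _ _ T.hasS
      rw [card_insert_of_notMem m2, card_insert_of_notMem m1, card_insert_of_notMem (hBU y hy),
        card_erase_of_mem w1.mem_right] at this
      omega
    · have := O.noP _ (zigzag (B := B) (Z := snk σ W1) h.h1 hs (disjoint_right.2 hBU)
        (h.dj.mono_right fun v q => s1 (mem_snk.1 q).1)
        (disjoint_left.2 fun v q1 q2 => hBW v q1 (s1 (mem_snk.1 q2).1)) (by omega) e
        fun z hz y hy => hn y hy z hz)
      omega
  obtain ⟨y, hy, z, hz, q⟩ := miss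
  have := sum_lt_sum (s := B) (f := fun _ => g) (g := fun y => od (flip R) U y)
    (fun y hy => by
      have := row y hy
      have := od_le_card (R := flip R) (U := snk σ W1) (a := y)
      omega)
    ⟨y, hy, by
      have := row y hy
      have h1 := od_erase_eq (R := flip R) (U := snk σ W1) (a := y) (v := z) q
      have h2 := od_le_card (R := flip R) (U := (snk σ W1).erase z) (a := y)
      have := card_erase_add_one hz
      omega⟩
  rwa [sum_const, hc, smul_eq_mul] at this

theorem even_src [Fintype V] (hi : Irr R) (hdeg : MinDeg R m) (h : Spd R σ U W a b r c d)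
    (O : Opt R m U.card W.card) (hW : ∀ n k, HasS R n k → n + 1 < 2 * m) (ha : σ a = true)
    (hb : σ b = false) (hd : σ d = true) : False := by
  obtain ⟨τ, hτ, hτ'⟩ : ∃ τ : V → Bool, (∀ v ∈ U ∪ W, τ v = σ v) ∧ ∀ v, τ v = true → v ∈ U ∪ W :=
    ⟨fun v => if v ∈ U ∪ W then σ v else false, fun v hv => if_pos hv, fun v hv => by
      by_contra q; simp only [if_neg q] at hv; exact absurd hv (by simp)⟩
  have h' := h.congr hτ
  rw [← hτ a (mem_union_left _ h.h1.mem_left)] at ha
  rw [← hτ b (mem_union_left _ h.h1.mem_right)] at hb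
  rw [← hτ d (mem_union_right _ h.h2.mem_right)] at hd
  clear hτ h
  have hX : ∀ {Z : Finset V}, Z ⊆ univ \ W ↔ Disjoint Z W := by
    intro Z; rw [subset_sdiff]; simp
  have hS : src τ (univ \ W) = src τ U := by
    ext v
    simp only [mem_src, mem_sdiff, mem_univ, true_and]
    exact ⟨fun q => ⟨(mem_union.1 (hτ' v q.2)).resolve_right q.1, q.2⟩,
      fun q => ⟨disjoint_left.1 h'.dj q.1, q.2⟩⟩
  obtain ⟨g, hg⟩ : ∃ g, (src τ U).card = g := ⟨_, rfl⟩
  have hU : U.card = 2 * g := by
    have := h'.h1.card_ST ha hb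
    have := card_src_add_snk τ U
    omega
  have big := O.big
  have hgm := O.noP _ h'.h1.hasP
  have size : ∀ {Z s}, HP (RA R τ) Z a s → τ s = true → Z ⊆ univ \ W → src τ (univ \ W) ⊆ Z →
      Z.card + 1 = U.card := fun {Z s} p hs h1 h2 => by
    have e : src τ Z = src τ (univ \ W) := by
      ext v
      exact ⟨fun q => mem_src.2 ⟨h1 (mem_src.1 q).1, (mem_src.1 q).2⟩,
        fun q => mem_src.2 ⟨h2 q, (mem_src.1 q).2⟩⟩
    have := p.card_SS ha hs
    have := card_src_add_snk τ Z
    rw [e, hS] at *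
    omega
  obtain ⟨μ, hμ⟩ : ∃ μ, (μ = 2 ∧ U.card + W.card = 2 * m + 1) ∨
      (μ + g = m + 1 ∧ 2 * m + 1 < U.card + W.card) := by
    by_cases q : U.card + W.card = 2 * m + 1
    · exact ⟨2, Or.inl ⟨rfl, q⟩⟩
    · exact ⟨m + 1 - g, Or.inr (by omega)⟩
  have hab : a ≠ b := fun q => by rw [q, hb] at ha; exact absurd ha (by simp)
  obtain ⟨s0, e0, p0⟩ := h'.h1.init hab
  obtain ⟨Z, s, y, p, hs, h1, h2, h3, h4, e, h5⟩ := lemR (R := R) (τ := τ) (X := univ \ W) (x := a)
    (r := r) (g := g) (μ := μ) hi (by omega) (by rw [hS, hg]) ha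
    (fun σ' Z a' b' p h1 h2 h3 => by
      by_contra q
      have := O.maxp _ _ (h'.glue p (hX.1 h1) h2 h3).hasS (by omega)
      omega)
    (fun Z a' p h1 q => by
      have := O.noP _ (h'.change p (hX.1 h1) p.mem_right).hasP_of_end
      omega)
    (fun Z s B p hs h1 h2 h3 h4 e hc => by
      have z := size p hs h1 h2
      refine even_h3 hi hdeg (h'.change p (hX.1 h1) h3) (z ▸ O) (by omega) hs hd (by omega) ?_ e hc
      rw [disjoint_union_right]
      exact ⟨(subset_sdiff.1 h4).2, hX.1 (subset_sdiff.1 h4).1⟩)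
    ⟨U.erase b, s0, b, p0, (e0.to_snk hb).1, (erase_subset _ _).trans (hX.2 h'.dj),
      fun v hv => by
        rw [hS, mem_src] at hv
        exact mem_erase.2 ⟨fun q => by rw [q, hb] at hv; exact absurd hv.2 (by simp), hv.1⟩,
      mem_erase.2 ⟨(h'.root_ne O).2, h'.hr⟩,
      mem_sdiff.2 ⟨hX.2 h'.dj h'.h1.mem_right, notMem_erase _ _⟩, (e0.to_snk hb).2⟩
  have z := size p hs h1 h2
  obtain ⟨y1, y2⟩ := mem_sdiff.1 h4
  have y3 : y ∉ W := (mem_sdiff.1 y1).2
  have y4 : y ∉ Z ∪ W := by simp [y2, y3]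
  have y5 : τ y = false := Bool.eq_false_iff.2 fun q => y2 (h2 (mem_src.2 ⟨y1, q⟩))
  have k := sc_even hi (h'.change p (hX.1 h1) h3) y4 y5 e (z ▸ O) hW ha hs hd
  have S := h'.change (p.snoc y2 (RA.mk hs y5 e)) (by simp [y3, hX.1 h1])
    (mem_insert_of_mem h3)
  have O' : Opt R m (insert y Z).card W.card := by rw [card_insert_of_notMem y2, z]; exact O
  have d1 := S.deg_end hdeg O' ha
  have d2 := S.deg_tail hdeg O'.maxt hd
  rw [insert_union] at d1 d2
  have d3 := (hdeg s).1
  have u : (univ : Finset V) = (Z ∪ W) ∪ ((univ \ W) \ Z) := by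
    ext v; simp only [mem_univ, mem_union, mem_sdiff]; tauto
  rw [u, od_union (by simp [disjoint_left]; tauto)] at d3
  have d4 : od R (insert y (Z ∪ W)) s = od R (Z ∪ W) s + 1 := by
    classical
    unfold od
    rw [filter_insert, if_pos e, card_insert_of_notMem (fun q => y4 (mem_filter.1 q).1)]
  omega

theorem even_case [Fintype V] (hi : Irr R) (hdeg : MinDeg R m) (h : Spd R σ U W a b r c d)
    (O : Opt R m U.card W.card) (hW : ∀ n k, HasS R n k → n + 1 < 2 * m) (hab : σ a ≠ σ b) :
    False := by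
  cases ha : σ a <;> cases hb : σ b
  · exact hab (ha.trans hb.symm)
  · cases hd : σ d
    · exact even_src hi.dual hdeg.dual h.dual O.dual (fun n k q => hW n k q.dual) (by simp [ha])
        (by simp [hb]) (by simp [hd])
    · exact even_src hi hdeg h.rev O hW hb ha hd
  · cases hd : σ d
    · exact even_src hi.dual hdeg.dual h.dual.rev O.dual (fun n k q => hW n k q.dual)
        (by simp [hb]) (by simp [ha]) (by simp [hd])
    · exact even_src hi hdeg h O hW ha hb hd
  · exact hab (ha.trans hb.symm)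

end Pool.Agent.Lib.MP_04ab3e_co.X
end
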