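import Pool.Agent.Lib.MP_04ab3e_co.X.Win

-- part Pool.Agent.Lib.MP_04ab3e_co.X.Hos
section

/-! No spider: an even path linked to a path with two source ends. -/

namespace Pool.Agent.Lib.MP_04ab3e_co.X

open Finset

variable {R : ℕ → ℕ → Prop} {m p t x y h k e j : ℕ}

/-- Cells of the even path. -/
theorem Hos.cellF (F : HF R m (2 * h) (2 * k + 1) 0 0 x y) (he : h + k + 1 = m + e) (hj : j < h) :
    ind (R 0 (2 * j)) + ind (R (2 * h) (2 * j)) + ind (R (2 * h + 2 * k) (2 * j)) +
      ind (R 0 (2 * j + 1)) + ind ((0 ≤ j ∧ j < 1) ∨ (h - e ≤ j ∧ j < h)) ≤ 2 + 1 := by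
  have hn := F.num
  have hf := F.far
  have hb := F.big
  have A := F.a1
  have B := F.a2
  have cyc : R (2 * h) (2 * j) → R (2 * h + 2 * k) (2 * j) → _ := fun e1 e2 =>
    ((B.sg y (2 * h + 2 * k) (by omega)).jn (Sg.ot R (2 * j)) (Ar.out e2) (by omega)).inn (B.sg
        (2 * h) (y - 1) (by omega)) e1 (by omega)
  have l4 := ind_le (R 0 (2 * j + 1))
  refine save (ind4 fun e1 e2 e3 e4 => ?_) ?_
  · have j0 : j ≠ 0 := fun q => F.irr 0 (by simpa [q] using e1)
    have := F.noS _ _ (((A.sg 0 (2 * j - 1) (by omega)).rev.out (A.sg (2 * j + 1) (2 * h - 1)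
        (by omega)) e4 (by omega)).hasS
      ((Sg.ot R (2 * j)).inn (B.sg (2 * h) (2 * h + 2 * k) (by omega)) e2 (by omega)) (Ar.out e1)
          (by omega))
    omega
  rintro (q | q)
  · obtain rfl : j = 0 := by omega
    have := ind_eq_zero (F.irr 0)
    have := ind2 fun e2 e3 => by
      have := F.noS _ _ ((A.sg 1 (2 * h - 1) (by omega)).hasS (cyc e2 e3) F.lk (by omega))
      omega
    simp only [Nat.mul_zero] at *
    omega
  · have := ind_eq_zero (p := R 0 (2 * j + 1)) fun e4 => by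
      rcases le_or_gt x (2 * j + 1) with z | z
      · have := F.noS _ _ ((B.sg (2 * h) (2 * h + 2 * k) (by omega)).hasS
          ((A.sg x (2 * j + 1) (by omega)).inn (A.sg 0 (x - 1) (by omega)) e4
              (by omega)) F.lk.symm (by omega))
        omega
      · omega
    have := ind2 (p := R 0 (2 * j)) (q := R (2 * h) (2 * j)) fun e1 e2 => by
      have := F.noP _ (((B.sg (2 * h) (2 * h + 2 * k) (by omega)).rev.out (Sg.ot R (2 * j)) e2
          (by omega)).inn
        (A.sg 0 (2 * j - 1) (by omega)) e1 (by omega)).hasP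
      omega
    have := ind_le (R (2 * h + 2 * k) (2 * j))
    omega

/-- A cycle through all but one source `w` of the odd path, `2 m + 1` vertices in all. -/
theorem Hos.cy2 (F : HF R m (2 * h) (2 * k + 1) 0 0 x y) (he : h + k = m) {i : ℕ}
    (hi : 1 ≤ i ∧ i < k ∧ y ≠ 2 * h + 2 * i) {l : ℕ} (hl : l + 1 = 2 * h + 2 * i)
    (ea : R (2 * h) (2 * h + 2 * i + 1)) (eb : R (2 * h + 2 * k) l) : False := by
  have hn := F.num
  have hf := F.far
  have A := F.a1
  have B := F.a2
  have P := A.sg 0 (2 * h - 1) (by omega)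
  have W := B.sg (2 * h) (2 * h + 2 * k) (by omega)
  have Q := (B.sg (2 * h + 2 * i) (2 * h + 2 * k) (by omega)).out (B.sg (2 * h) l
      (by omega)).rev eb (by omega)
  have d1 := F.rows.1.1 rfl
  have d2 := (Q.row F.cl P F.lk.symm (by omega)).1 (by omega)
  obtain ⟨r, rfl⟩ : ∃ r, k = i + r := ⟨k - i, by omega⟩
  rw [od_sum, sum_range_add, sum_par, sum_par', sum_range_add _ i r,
    show i + r + 1 = i + 1 + r by omega, sum_range_add _ (i + 1) r, sum_range_succ] at d1 d2
  rw [ind_eq_zero (F.irr _)] at d2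
  have z0 := ind_eq_zero (p := R 0 (2 * h + 2 * i)) fun e => by
    rcases lt_or_gt_of_ne hi.2.2 with q | q
    · have := F.noS _ _ ((P.rev.out (Sg.ot R (2 * h + 2 * i)) e (by omega)).hasS (((B.sg y l
        (by omega)).inn
        (B.sg (2 * h + 2 * i + 1) (2 * h + 2 * (i + r)) (by omega)).rev eb (by omega)).inn (B.sg
            (2 * h) (y - 1) (by omega)) ea (by omega)) F.lk (by omega))
      omega
    · have := F.noS _ _ ((P.rev.out (Sg.ot R (2 * h + 2 * i)) e (by omega)).hasS
        (((B.sg (2 * h + 2 * i + 1) y (by omega)).rev.inn (B.sg (2 * h) l (by omega)) ea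
            (by omega)).inn
        (B.sg (y + 1) (2 * h + 2 * (i + r)) (by omega)).rev eb (by omega)) F.lk (by omega))
      omega
  have z1 := sum_zero (q := fun j => R 0 (2 * h + (2 * j + 1))) (k := i) fun j hj q => by
    have := F.noS _ _ (W.hasS P (Ar.inn q) (by omega)); omega
  have z2 := sum_zero (q := fun j => R 0 (2 * h + (2 * (i + j) + 1))) (k := r) fun j hj q => by
    have := F.noS _ _ (W.hasS P (Ar.inn q) (by omega)); omega
  have z3 := sum_zero (q := fun j => R (2 * h + 2 * i) (2 * j + 1)) (k := h) fun j hj q => by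
    have := F.noS _ _ (P.hasS Q (Ar.inn q) (by omega)); omega
  have s1 := sum_le_mul (h := h) (c := 2) (f := fun j => ind (R 0 (2 * j + 1)) + ind (R 0 (2 * j)) +
      ind (R (2 * h + 2 * i) (2 * j)) + ind (h - 1 ≤ j ∧ j < h)) fun j hj => by
    have j0 : R 0 (2 * j) → j ≠ 0 := fun e q => F.irr 0 (by simpa [q] using e)
    rcases ind_cases (h - 1 ≤ j ∧ j < h) with v | v
    · have := ind_eq_zero (p := R 0 (2 * j + 1)) fun e4 => by
        have := F.noS _ _ (W.hasS ((A.sg x (2 * j + 1) (by omega)).inn (A.sg 0 (x - 1)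
            (by omega)) e4 (by omega)) F.lk.symm (by omega))
        omega
      have := ind2 (p := R 0 (2 * j)) (q := R (2 * h + 2 * i) (2 * j)) fun e1 e2 => by
        have := j0 e1
        have := F.noP _ ((Q.rev.out (Sg.ot R (2 * j)) e2 (by omega)).inn (A.sg 0 (2 * j - 1)
            (by omega)) e1 (by omega)).hasP
        omega
      omega
    · have := ind3 (p := R 0 (2 * j + 1)) (q := R 0 (2 * j)) (r := R (2 * h + 2 * i) (2 * j))
        fun e1 e2 e3 => by
          have := j0 e2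
          have := F.noS _ _ (((A.sg 0 (2 * j - 1) (by omega)).rev.out (A.sg (2 * j + 1)
              (2 * h - 1) (by omega)) e1 (by omega)).hasS
            ((Sg.ot R (2 * j)).inn Q e3 (by omega)) (Ar.out e2) (by omega))
          omega
      omega
  have s2 := sum_le_mul (h := i) (c := 2) (f := fun j => ind (R 0 (2 * h + 2 * j)) +
      ind (R (2 * h + 2 * i) (2 * h + 2 * j)) + ind (R (2 * h + 2 * i) (2 * h + (2 * j + 1))))
    fun j hj => ind3 fun e1 e2 e3 => by
      have q := ((((P.rev.out (Sg.ot R (2 * h + 2 * j)) e1 (by omega)).inn (Sg.os R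
          (2 * h + 2 * i)) e2 (by omega)).out
        (B.sg (2 * h + (2 * j + 1)) l (by omega)) e3 (by omega)).inn
        (B.sg (2 * h + 2 * i + 1) (2 * h + 2 * (i + r)) (by omega)).rev eb (by omega))
      by_cases z : j = 0
      · have := F.noP _ q.hasP; omega
      · have := F.noP _ (q.inn (B.sg (2 * h) (2 * h + 2 * j - 1) (by omega)) ea
          (by omega)).hasP; omega
  have s3 := sum_le_mul (h := r) (c := 2) (f := fun j => ind (R 0 (2 * h + 2 * (i + 1 + j))) +
      ind (R (2 * h + 2 * i) (2 * h + 2 * (i + 1 + j))) +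
      ind (R (2 * h + 2 * i) (2 * h + (2 * (i + j) + 1))))
    fun j hj => ind3 fun e1 e2 e3 => by
      have q := ((((P.rev.out (Sg.ot R (2 * h + 2 * (i + 1 + j))) e1 (by omega)).inn
        (Sg.os R (2 * h + 2 * i)) e2 (by omega)).out
        (B.sg (2 * h + 2 * i + 1) (2 * h + (2 * (i + j) + 1)) (by omega)).rev e3 (by omega)).inn
            (B.sg (2 * h) l (by omega)) ea (by omega))
      by_cases z : j + 1 = r
      · have := F.noP _ q.hasP; omega
      · have := F.noP _ (q.inn
          (B.sg (2 * h + 2 * (i + 1 + j) + 1) (2 * h + 2 * (i + r)) (by omega)).rev eb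
              (by omega)).hasP
        omega
  simp only [sum_add_distrib] at s1 s2 s3
  rw [sum_win le_rfl] at s1
  omega

/-- Cells of the odd path: the source `w` between the sinks `l` and `w + 1`. -/
theorem Hos.cellO (F : HF R m (2 * h) (2 * k + 1) 0 0 x y) (he : h + k + 1 = m + e) {w l : ℕ}
    {a b : Prop} (hw : w % 2 = 0 ∧ 2 * h ≤ w ∧ w ≤ 2 * h + 2 * k) (ha : a → w < 2 * h + 2 * k)
    (hl : b → 2 * h < w ∧ l + 1 = w) :
    ind (a ∧ R (2 * h) (w + 1)) + ind (b ∧ R (2 * h + 2 * k) l) + ind (R (2 * h) w) +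
      ind (R (2 * h + 2 * k) w) + ind (R 0 w) +
      ind ((w < y ∧ y + 2 ≤ w + 2 * e ∨ w = 2 * h) ∨
        (y < w ∧ w + 2 ≤ y + 2 * e ∨ w = 2 * h + 2 * k)) ≤ 2 + 1 := by
  have hn := F.num
  have hf := F.far
  have hb := F.big
  have A := F.a1
  have B := F.a2
  have P := A.sg 0 (2 * h - 1) (by omega)
  have c0 : R (2 * h) w → 2 * h < w := fun q => by
    have : w ≠ 2 * h := fun z => F.irr _ (z ▸ q)
    omega
  have d0 : R (2 * h + 2 * k) w → w < 2 * h + 2 * k := fun q => by
    have : w ≠ 2 * h + 2 * k := fun z => F.irr _ (z ▸ q)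
    omega
  have AB : a ∧ R (2 * h) (w + 1) → b ∧ R (2 * h + 2 * k) l → False := by
    rintro ⟨a1, e1⟩ ⟨b1, e2⟩
    have := ha a1
    have := hl b1
    by_cases q : y = w
    · subst q
      have := F.noS _ _ (P.hasS ((B.sg (2 * h) y (by omega)).rev.out (B.sg (y + 1) (2 * h + 2 * k)
          (by omega)) e1 (by omega)) F.lk (by omega))
      omega
    by_cases z : e = 1
    · obtain ⟨i, rfl⟩ : ∃ i, w = 2 * h + 2 * i := ⟨(w - 2 * h) / 2, by omega⟩
      exact Hos.cy2 F (by omega) (i := i) (by omega) this.2 e1 e2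
    rcases lt_or_gt_of_ne q with q | q
    · have := F.noS _ _ (P.hasS (((B.sg y l (by omega)).inn (B.sg (w + 1) (2 * h + 2 * k)
        (by omega)).rev e2 (by omega)).inn
        (B.sg (2 * h) (y - 1) (by omega)) e1 (by omega)) F.lk (by omega))
      omega
    · have := F.noS _ _ (P.hasS (((B.sg (w + 1) y (by omega)).rev.inn (B.sg (2 * h) l
        (by omega)) e1 (by omega)).inn
        (B.sg (y + 1) (2 * h + 2 * k) (by omega)).rev e2 (by omega)) F.lk (by omega))
      omega
  have ECB : R 0 w → R (2 * h) w → b ∧ R (2 * h + 2 * k) l → False := by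
    rintro e1 e2 ⟨b1, e3⟩
    have := hl b1
    have q := (P.rev.out (Sg.ot R w) e1 (by omega)).inn (B.sg (2 * h) l (by omega)) e2 (by omega)
    by_cases z : w = 2 * h + 2 * k
    · have := F.noP _ q.hasP; omega
    · have := F.noP _ (q.inn (B.sg (w + 1) (2 * h + 2 * k) (by omega)).rev e3
        (by omega)).hasP; omega
  have EDA : R 0 w → R (2 * h + 2 * k) w → a ∧ R (2 * h) (w + 1) → False := by
    rintro e1 e2 ⟨a1, e3⟩
    have := ha a1
    have q := (P.rev.out (Sg.ot R w) e1 (by omega)).inn (B.sg (w + 1) (2 * h + 2 * k)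
        (by omega)).rev e2 (by omega)
    by_cases z : w = 2 * h
    · have := F.noP _ q.hasP; omega
    · have := F.noP _ (q.inn (B.sg (2 * h) (w - 1) (by omega)) e3 (by omega)).hasP; omega
  refine save (cell3 AB ECB EDA) ?_
  rintro ((q | q) | q | q)
  rotate_left
  · exact cell2 AB EDA (fun e1 _ => by have := c0 e1; omega) (fun e1 _ => by have := c0 e1; omega)
      fun ⟨b1, _⟩ _ => by have := hl b1; omega
  rotate_left
  · have := cell2 (fun u v => AB v u) (fun u v z => ECB u v z) (D := R (2 * h) w)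
      (C := R (2 * h + 2 * k) w) (fun e1 _ => by have := d0 e1; omega)
      (fun e1 _ => by have := d0 e1; omega) fun ⟨a1, _⟩ _ => by have := ha a1; omega
    omega
  · refine cell2 AB EDA (fun e1 e2 => ?_) (fun e1 e2 => ?_) fun ⟨b1, e1⟩ e2 => ?_
    · have := c0 e1
      have := F.noS _ _ (P.hasS (((B.sg y (2 * h + 2 * k) (by omega)).jn (Sg.ot R w) (Ar.out e2)
          (by omega)).inn
        (B.sg (2 * h) (w - 1) (by omega)) e1 (by omega)) F.lk (by omega))
      omega
    · have := c0 e1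
      have := F.noS _ _ (((P.rev.out (Sg.ot R w) e2 (by omega)).inn (B.sg (2 * h) (w - 1)
          (by omega)) e1 (by omega)).hasS
        (B.sg y (2 * h + 2 * k) (by omega)) F.lk (by omega))
      omega
    · have := hl b1
      have := F.noS _ _ ((P.rev.out (Sg.ot R w) e2 (by omega)).hasS
        ((B.sg y (2 * h + 2 * k) (by omega)).out (B.sg (2 * h) l (by omega)).rev e1
            (by omega)) F.lk (by omega))
      omega
  · have := cell2 (fun u v => AB v u) (fun u v z => ECB u v z) (D := R (2 * h) w)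
      (C := R (2 * h + 2 * k) w) (fun e2 e1 => by
        have := d0 e2
        have := F.noS _ _ (P.hasS (((B.sg (2 * h) y (by omega)).rev.jn (Sg.ot R w) (Ar.out e1)
            (by omega)).inn
          (B.sg (w + 1) (2 * h + 2 * k) (by omega)).rev e2 (by omega)) F.lk (by omega))
        omega) (fun e1 e2 => by
        have := d0 e1
        have := F.noS _ _ (((P.rev.out (Sg.ot R w) e2 (by omega)).inn
          (B.sg (w + 1) (2 * h + 2 * k) (by omega)).rev e1 (by omega)).hasS (B.sg (2 * h) y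
              (by omega)).rev F.lk (by omega))
        omega) (fun ⟨a1, e1⟩ e2 => by
        have := ha a1
        have := F.noS _ _ ((P.rev.out (Sg.ot R w) e2 (by omega)).hasS
          ((B.sg (2 * h) y (by omega)).rev.out (B.sg (w + 1) (2 * h + 2 * k) (by omega)) e1
              (by omega)) F.lk (by omega))
        omega)
    omega

theorem Hos.main (F : HF R m (2 * h) (2 * k + 1) 0 0 x y)
    (d1 : m ≤ od R (range (2 * h + (2 * k + 1))) 0)
    (d2 : m ≤ od R (range (2 * h + (2 * k + 1))) (2 * h))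
    (d3 : m ≤ od R (range (2 * h + (2 * k + 1))) (2 * h + 2 * k)) : False := by
  have hn := F.num
  have hf := F.far
  have hb := F.big
  have A := F.a1
  have B := F.a2
  have P := A.sg 0 (2 * h - 1) (by omega)
  have W := B.sg (2 * h) (2 * h + 2 * k) (by omega)
  obtain ⟨e, he⟩ : ∃ e, h + k + 1 = m + e := ⟨h + k + 1 - m, by omega⟩
  rw [od_sum, sum_range_add, sum_par, sum_par'] at d1 d2 d3
  have z1 := sum_zero (q := fun j => R 0 (2 * h + (2 * j + 1))) (k := k) fun j hj q => by
    have := F.noS _ _ (W.hasS P (Ar.inn q) (by omega)); omega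
  have z2 := sum_zero (q := fun j => R (2 * h) (2 * j + 1)) (k := h) fun j hj q => by
    have := F.noS _ _ (P.hasS W (Ar.inn q) (by omega)); omega
  have z3 := sum_zero (q := fun j => R (2 * h + 2 * k) (2 * j + 1)) (k := h) fun j hj q => by
    have := F.noS _ _ (P.hasS W.rev (Ar.inn q) (by omega)); omega
  have s1 := sum_le_mul fun j hj => Hos.cellF (j := j) F he hj
  have s2 := sum_le_mul (h := k + 1) fun j hj => Hos.cellO F he (w := 2 * h + 2 * j)
    (l := 2 * h + (2 * (j - 1) + 1)) (a := j < k) (b := 1 ≤ j) (by omega) (by omega) (by omega)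
  have w1 : ∑ j ∈ range h, ind ((0 ≤ j ∧ j < 1) ∨ (h - e ≤ j ∧ j < h)) = 1 + e := by
    rw [sum_congr rfl fun j _ => ind_or (by omega), sum_add_distrib, sum_win (by omega),
      sum_win le_rfl]
    omega
  have w2 : 2 * e ≤ ∑ j ∈ range (k + 1),
      ind ((2 * h + 2 * j < y ∧ y + 2 ≤ 2 * h + 2 * j + 2 * e ∨ 2 * h + 2 * j = 2 * h) ∨
      (y < 2 * h + 2 * j ∧ 2 * h + 2 * j + 2 ≤ y + 2 * e ∨ 2 * h + 2 * j = 2 * h + 2 * k)) := by
    have u1 := sum_win (lo := (y - 2 * h + 3) / 2 - e) (hi := (y - 2 * h + 1) / 2) (h := k + 1)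
      (by omega)
    have u2 := sum_win (lo := (y - 2 * h) / 2 + 1) (hi := (y - 2 * h) / 2 + e) (h := k + 1)
      (by omega)
    have u3 := sum_win (lo := 0) (hi := 1) (h := k + 1) (by omega)
    have u4 := sum_win (lo := k) (hi := k + 1) (h := k + 1) (by omega)
    refine le_trans (by omega)
      ((add_le_add (add_le_add u1.ge u3.ge) (add_le_add u2.ge u4.ge)).trans ?_)
    simp only [← sum_add_distrib]
    refine sum_le_sum fun j _ => ?_
    rw [← ind_or (by omega), ← ind_or (by omega), ← ind_or (by omega)]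
    exact ind_mono (by omega)
  simp only [sum_add_distrib] at s1 s2
  have v1 := sum_last (fun j => R (2 * h) (2 * h + (2 * j + 1))) k
  have v2 := sum_first (fun j => R (2 * h + 2 * k) (2 * h + (2 * j + 1))) k
  simp only [← add_assoc] at *
  omega

theorem h_os (F : HF R m p t 0 0 x y) (hp : p % 2 = 0) (ht : t % 2 = 1) : False := by
  have d1 := F.rows.1.1 rfl
  have d2 := F.rows.2.1 hp
  have d3 := F.rows.2.2.1 (by omega)
  obtain ⟨h, rfl⟩ : ∃ h, p = 2 * h := ⟨p / 2, by omega⟩
  obtain ⟨k, rfl⟩ : ∃ k, t = 2 * k + 1 := ⟨t / 2, by omega⟩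
  exact Hos.main F d1 d2 d3

end Pool.Agent.Lib.MP_04ab3e_co.X
end

-- part Pool.Agent.Lib.MP_04ab3e_co.X.Hst
section

/-! No spider: two linked even paths. -/

namespace Pool.Agent.Lib.MP_04ab3e_co.X

open Finset

variable {R : ℕ → ℕ → Prop} {m p t x y h k d a a' b b' : ℕ}

/-- The count on the path `a, …, a'`; the other path is `b, …, b'`. -/
theorem Hst.side (hi : Irr R) (A : Alt R 0 a a') (B : Alt R 0 b b') (lk : Ar R (x % 2 = 0) x y)
    (h1 : a % 2 = 0 ∧ b % 2 = 0 ∧ a' + 1 = a + 2 * h ∧ b' + 1 = b + 2 * k ∧ (a' < b ∨ b' < a) ∧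
      (x % 2 = 0 ↔ ¬ y % 2 = 0) ∧ a + 2 * d ≤ x ∧ x + 2 * d ≤ a' ∧ b < y ∧ y < b' ∧
      h + k = m + d ∧ 1 ≤ d)
    (noP : ∀ n, HasP R n → n < 2 * m) (noS : ∀ n k, HasS R n k → n + k ≤ 2 * m)
    (hT : ¬ HasO R (2 * h + 2 * k) false) (hS : ¬ HasO R (2 * h + 2 * k) true) :
    ∑ i ∈ range (2 * h), ind (R a (a + i)) + ∑ i ∈ range (2 * h), ind (R b (a + i)) +
      ∑ i ∈ range (2 * h), ind (R (a + i) a') + ∑ i ∈ range (2 * h), ind (R (a + i) b') +
      (2 * d + 1) ≤ 4 * h := by
  have P := A.sg a a' (by omega)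
  have W := B.sg b b' (by omega)
  have z1 := sum_zero (q := fun j => R b (a + (2 * j + 1))) (k := h) fun j hj q => by
    have := noS _ _ (P.hasS W (Ar.inn q) (by omega)); omega
  have z2 := sum_zero (q := fun j => R (a + 2 * j) b') (k := h) fun j hj q => by
    have := noS _ _ (P.hasS W.rev (Ar.out q) (by omega)); omega
  have s := sum_le_mul (h := h) (c := 4) (f := fun j => ind (R a (a + 2 * j)) +
      ind (R b (a + 2 * j)) + (ind (R (a + (2 * j + 1)) a') + ind (R (a + (2 * j + 1)) b')) +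
      (ind (R a (a + (2 * j + 1))) + ind (R (a + 2 * j) a')) + (ind (0 ≤ j ∧ j < 1) +
      ind (0 ≤ j ∧ j < d) + ind (h - d ≤ j ∧ j < h))) fun j hj => by
    have j0 : R a (a + 2 * j) → j ≠ 0 := fun e q => hi a (by simpa [q] using e)
    have j1 : R (a + (2 * j + 1)) a' → a + (2 * j + 1) ≠ a' := fun e q => hi a' (by rwa [q] at e)
    have o := ind2 (p := R a (a + (2 * j + 1))) (q := R (a + 2 * j) a') fun e1 e2 => by
      rcases le_or_gt x (a + 2 * j) with q | q
      · have := noS _ _ (W.hasS (((A.sg x (a + 2 * j) (by omega)).out (A.sg (a + (2 * j + 1)) a'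
          (by omega)).rev e2 (by omega)).inn
          (A.sg a (x - 1) (by omega)) e1 (by omega)) lk.symm (by omega))
        omega
      · have := noS _ _ (W.hasS (((A.sg (a + (2 * j + 1)) x (by omega)).rev.inn (A.sg a
          (a + 2 * j) (by omega)) e1 (by omega)).out
          (A.sg (x + 1) a' (by omega)).rev e2 (by omega)) lk.symm (by omega))
        omega
    have f1 : R a (a + 2 * j) → R b (a + 2 * j) → j ≠ 0 → _ := fun e1 e2 _ =>
      (W.rev.out (Sg.ot R (a + 2 * j)) e2 (by omega)).inn (A.sg a (a + 2 * j - 1) (by omega)) e1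
          (by omega)
    have f2 : R (a + (2 * j + 1)) a' → R (a + (2 * j + 1)) b' → a + (2 * j + 1) ≠ a' → _ :=
      fun e1 e2 _ => (W.inn (Sg.os R (a + (2 * j + 1))) e2 (by omega)).out (A.sg (a +
          (2 * j + 2)) a' (by omega)).rev e1 (by omega)
    have l1 : a + 2 * j < x → ind (R a (a + 2 * j)) + ind (R b (a + 2 * j)) ≤ 1 := fun q =>
      ind2 fun e1 e2 => hT (by
        have := j0 e1
        convert (A.sg (a + (2 * j + 1)) a' (by omega)).hasT (f1 e1 e2 this) lk
            (by omega) using 1; omega)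
    have l2 : h - d ≤ j → ind (R a (a + 2 * j)) + ind (R b (a + 2 * j)) ≤ 1 := fun q =>
      ind2 fun e1 e2 => by
        have := noP _ (f1 e1 e2 (j0 e1)).hasP; omega
    have l3 : x ≤ a + 2 * j →
        ind (R (a + (2 * j + 1)) a') + ind (R (a + (2 * j + 1)) b') ≤ 1 := fun q =>
      ind2 fun e1 e2 => hS (by
        have := j1 e1
        convert (A.sg a (a + 2 * j) (by omega)).hasSS (f2 e1 e2 this) lk (by omega) using 1; omega)
    have l4 : j < d → ind (R (a + (2 * j + 1)) a') + ind (R (a + (2 * j + 1)) b') ≤ 1 := fun q =>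
      ind2 fun e1 e2 => by
        have := noP _ (f2 e1 e2 (j1 e1)).hasP; omega
    have l5 : j = 0 → ind (R a (a + 2 * j)) + ind (R b (a + 2 * j)) = 0 := fun q => by
      rw [ind_eq_zero fun e => j0 e q, ind_eq_zero fun e => hT (by
        convert (A.sg (a + (2 * j + 1)) a' (by omega)).hasT (W.rev.out (Sg.ot R (a + 2 * j)) e
            (by omega)) lk (by omega) using 1
        omega)]
    have := ind_le (R a (a + 2 * j))
    have := ind_le (R b (a + 2 * j))
    have := ind_le (R (a + (2 * j + 1)) a')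
    have := ind_le (R (a + (2 * j + 1)) b')
    rcases ind_cases (0 ≤ j ∧ j < 1) with v | v <;> rcases ind_cases (0 ≤ j ∧ j < d) with v' | v' <;>
      rcases ind_cases (h - d ≤ j ∧ j < h) with v'' | v'' <;> omega
  simp only [sum_add_distrib] at s
  rw [sum_win (by omega), sum_win (by omega), sum_win le_rfl] at s
  simp only [sum_par]
  omega

theorem h_st (F : HF R m p t 0 0 x y) (hp : p % 2 = 0) (ht : t % 2 = 0)
    (hT : ¬ HasO R (p + t) false) (hS : ¬ HasO R (p + t) true) : False := by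
  have hn' := F.num
  have d1 := F.rows.1.1 rfl
  have d2 := F.rows.1.2.2 (by omega)
  have d3 := F.rows.2.1 hp
  have d4 := F.rows.2.2.2 (by omega)
  obtain ⟨h, rfl⟩ : ∃ h, p = 2 * h := ⟨p / 2, by omega⟩
  obtain ⟨k, rfl⟩ : ∃ k, t = 2 * k := ⟨t / 2, by omega⟩
  have hn := F.num
  have hf := F.far
  have hb := F.big
  obtain ⟨d, hd⟩ : ∃ d, h + k = m + d := ⟨h + k - m, by omega⟩
  have s1 := Hst.side (d := d) (h := h) (k := k) F.irr F.a1 F.a2 F.lk (by omega) F.noP F.noS hT hS
  have s2 := Hst.side (d := d) (h := k) (k := h) (x := y) (y := x) F.irr F.a2 F.a1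
    ⟨fun q => F.lk.2 (by omega), fun q => F.lk.1 (by omega)⟩ (by omega) F.noP F.noS
    (by rwa [add_comm]) (by rwa [add_comm])
  rw [od_sum, sum_range_add] at d1 d3
  rw [id_sum, sum_range_add] at d2 d4
  simp only [zero_add] at s1
  omega

end Pool.Agent.Lib.MP_04ab3e_co.X
end

-- part Pool.Agent.Lib.MP_04ab3e_co.X.Hss
section

/-! No spider: two linked paths with four source ends. -/

namespace Pool.Agent.Lib.MP_04ab3e_co.X

open Finset

variable {R : ℕ → ℕ → Prop} {m p t x y h k d a a' b b' r r' : ℕ}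

theorem Hss.cell4 {A B C D E G : Prop} (h1 : E → C → B → False) (h2 : E → D → A → False)
    (h3 : G → C → B → False) : ind A + ind B + ind C + ind D + ind E + ind G ≤ 4 := by
  by_cases A <;> by_cases B <;> by_cases C <;> by_cases D <;> by_cases E <;> by_cases G <;>
    simp_all [ind]

theorem Hss.cell3 {A B C D E G : Prop} (h0 : ¬ B) (h2 : E → D → A → False) (h3 : C → D → False)
    (h4 : C → E → False) (h5 : C → G → False) :
    ind A + ind B + ind C + ind D + ind E + ind G ≤ 3 := by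
  by_cases A <;> by_cases B <;> by_cases C <;> by_cases D <;> by_cases E <;> by_cases G <;>
    simp_all [ind]

theorem Hss.cell2 {A B C D E G : Prop} (h0 : ¬ B) (h1 : ¬ C) (h2 : E → D → False)
    (h3 : G → D → False) (h4 : E → G → False) :
    ind A + ind B + ind C + ind D + ind E + ind G ≤ 2 := by
  by_cases A <;> by_cases B <;> by_cases C <;> by_cases D <;> by_cases E <;> by_cases G <;>
    simp_all [ind]

/-- One cell: the source `w` of the path `a, …, a'` between the sinks `l` and `w + 1`. -/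
theorem Hss.cell (hi : Irr R) (A : Alt R r a a') (B : Alt R r' b b')
    (lk : Ar R (x % 2 = r) x y)
    (h1 : r < 2 ∧ r' < 2 ∧ a % 2 = r ∧ a' % 2 = r ∧ b % 2 = r' ∧ b' % 2 = r' ∧ (a' < b ∨ b' < a) ∧
      (x % 2 = r ↔ ¬ y % 2 = r') ∧ a + 2 * d ≤ x ∧ x + 2 * d ≤ a' ∧ b < y ∧ y < b' ∧
      a' + b' + 2 = a + b + 2 * m + 2 * d ∧ 1 ≤ d)
    (noP : ∀ n, HasP R n → n < 2 * m) (noS : ∀ n k, HasS R n k → n + k ≤ 2 * m) {w l : ℕ}
    {α β : Prop} (hw : w % 2 = r ∧ a ≤ w ∧ w ≤ a') (ha : α → w < a') (hl : β → a < w ∧ l + 1 = w) :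
    ind (α ∧ R a (w + 1)) + ind (β ∧ R a' l) + ind (R a w) + ind (R a' w) + ind (R b w) +
      ind (R b' w) + (ind (w < x ∧ x < w + 2 * d ∨ x < w ∧ w < x + 2 * d) +
        2 * ind (w = a ∨ w = a')) ≤ 4 := by
  have W := B.sg b b' (by omega)
  have c0 : R a w → a < w := fun q => by
    have : w ≠ a := fun z => hi _ (z ▸ q)
    omega
  have d0 : R a' w → w < a' := fun q => by
    have : w ≠ a' := fun z => hi _ (z ▸ q)
    omega
  have T1 : R b w → _ := fun e => W.rev.out (Sg.ot R w) e (by omega)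
  have T2 : R b' w → _ := fun e => W.out (Sg.ot R w) e (by omega)
  have cyc : R b w → R b' w → _ := fun e1 e2 =>
    ((B.sg y b' (by omega)).jn (Sg.ot R w) (Ar.out e2) (by omega)).inn (B.sg b (y - 1)
        (by omega)) e1 (by omega)
  have ECB : R b w → R a w → β ∧ R a' l → False := by
    rintro e1 e2 ⟨b1, e3⟩
    have := hl b1
    have q := (T1 e1).inn (A.sg a l (by omega)) e2 (by omega)
    by_cases z : w = a'
    · have := noP _ q.hasP; omega
    · have := noP _ (q.inn (A.sg (w + 1) a' (by omega)).rev e3 (by omega)).hasP; omega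
  have GCB : R b' w → R a w → β ∧ R a' l → False := by
    rintro e1 e2 ⟨b1, e3⟩
    have := hl b1
    have q := (T2 e1).inn (A.sg a l (by omega)) e2 (by omega)
    by_cases z : w = a'
    · have := noP _ q.hasP; omega
    · have := noP _ (q.inn (A.sg (w + 1) a' (by omega)).rev e3 (by omega)).hasP; omega
  have EDA : R b w → R a' w → α ∧ R a (w + 1) → False := by
    rintro e1 e2 ⟨a1, e3⟩
    have := ha a1
    have q := (T1 e1).inn (A.sg (w + 1) a' (by omega)).rev e2 (by omega)
    by_cases z : w = a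
    · have := noP _ q.hasP; omega
    · have := noP _ (q.inn (A.sg a (w - 1) (by omega)) e3 (by omega)).hasP; omega
  have lk' : Ar R (y % 2 = r') y x := ⟨fun q => lk.2 (by omega), fun q => lk.1 (by omega)⟩
  rcases ind_cases (w = a ∨ w = a') with ⟨v | v, v1⟩ | ⟨v, v1⟩
  · have := Hss.cell2 (A := α ∧ R a (w + 1)) (B := β ∧ R a' l) (C := R a w) (D := R a' w)
      (E := R b w) (G := R b' w) (fun q => by have := hl q.1; omega)
      (fun q => by have := c0 q; omega)
      (fun e1 e2 => by have := noP _ ((T1 e1).inn (A.sg (w + 1) a' (by omega)).rev e2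
          (by omega)).hasP; omega)
      (fun e1 e2 => by have := noP _ ((T2 e1).inn (A.sg (w + 1) a' (by omega)).rev e2
          (by omega)).hasP; omega)
      (fun e1 e2 => by have := noS _ _ ((A.sg (w + 1) a' (by omega)).hasS (cyc e1 e2) lk
          (by omega)); omega)
    rw [ind_eq_zero (p := w < x ∧ x < w + 2 * d ∨ x < w ∧ w < x + 2 * d) (by omega)]
    omega
  · have := Hss.cell2 (B := α ∧ R a (w + 1)) (A := β ∧ R a' l) (D := R a w) (C := R a' w)
      (E := R b w) (G := R b' w) (fun q => by have := ha q.1; omega)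
      (fun q => by have := d0 q; omega)
      (fun e1 e2 => by have := noP _ ((T1 e1).inn (A.sg a (w - 1) (by omega)) e2
          (by omega)).hasP; omega)
      (fun e1 e2 => by have := noP _ ((T2 e1).inn (A.sg a (w - 1) (by omega)) e2
          (by omega)).hasP; omega)
      (fun e1 e2 => by have := noS _ _ ((A.sg a (w - 1) (by omega)).hasS (cyc e1 e2) lk
          (by omega)); omega)
    rw [ind_eq_zero (p := w < x ∧ x < w + 2 * d ∨ x < w ∧ w < x + 2 * d) (by omega)]
    omega
  rcases ind_cases (w < x ∧ x < w + 2 * d ∨ x < w ∧ w < x + 2 * d) with ⟨u | u, u1⟩ | ⟨u, u1⟩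
  · have := Hss.cell3 (A := α ∧ R a (w + 1)) (B := β ∧ R a' l) (C := R a w) (G := R b' w)
      (fun ⟨b1, e⟩ => by
        have := hl b1
        have := noS _ _ (W.hasS ((A.sg x a' (by omega)).out (A.sg a l (by omega)).rev e
            (by omega)) lk' (by omega))
        omega) EDA
      (fun e1 e2 => by
        have := noS _ _ (W.hasS (((A.sg x a' (by omega)).out (Sg.ot R w) e2 (by omega)).inn
            (A.sg a (w - 1) (by omega)) e1 (by omega)) lk' (by omega))
        omega)
      (fun e1 e2 => by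
        have := noS _ _ (((T1 e2).inn (A.sg a (w - 1) (by omega)) e1 (by omega)).hasS (A.sg x a'
            (by omega)) lk' (by omega))
        omega)
      (fun e1 e2 => by
        have := noS _ _ (((T2 e2).inn (A.sg a (w - 1) (by omega)) e1 (by omega)).hasS (A.sg x a'
            (by omega)) lk' (by omega))
        omega)
    omega
  · have := Hss.cell3 (B := α ∧ R a (w + 1)) (A := β ∧ R a' l) (C := R a' w) (G := R b' w)
      (fun ⟨a1, e⟩ => by
        have := ha a1
        have := noS _ _ (W.hasS ((A.sg a x (by omega)).rev.out (A.sg (w + 1) a' (by omega)) e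
            (by omega)) lk' (by omega))
        omega) ECB
      (fun e1 e2 => by
        have := noS _ _ (W.hasS (((A.sg a x (by omega)).rev.out (Sg.ot R w) e2 (by omega)).inn
          (A.sg (w + 1) a' (by omega)).rev e1 (by omega)) lk' (by omega))
        omega)
      (fun e1 e2 => by
        have := noS _ _ (((T1 e2).inn (A.sg (w + 1) a' (by omega)).rev e1 (by omega)).hasS
            (A.sg a x (by omega)).rev lk' (by omega))
        omega)
      (fun e1 e2 => by
        have := noS _ _ (((T2 e2).inn (A.sg (w + 1) a' (by omega)).rev e1 (by omega)).hasS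
            (A.sg a x (by omega)).rev lk' (by omega))
        omega)
    omega
  · have := Hss.cell4 ECB EDA GCB
    omega

/-- The count on the path `a, …, a + 2 h`. -/
theorem Hss.side (hi : Irr R) (A : Alt R r a a') (B : Alt R r' b b')
    (lk : Ar R (x % 2 = r) x y) (e : a' = a + 2 * h)
    (h1 : r < 2 ∧ r' < 2 ∧ a % 2 = r ∧ a' % 2 = r ∧ b % 2 = r' ∧ b' % 2 = r' ∧ (a' < b ∨ b' < a) ∧
      (x % 2 = r ↔ ¬ y % 2 = r') ∧ a + 2 * d ≤ x ∧ x + 2 * d ≤ a' ∧ b < y ∧ y < b' ∧
      a' + b' + 2 = a + b + 2 * m + 2 * d ∧ 1 ≤ d)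
    (noP : ∀ n, HasP R n → n < 2 * m) (noS : ∀ n k, HasS R n k → n + k ≤ 2 * m) :
    ∑ i ∈ range (2 * h + 1), ind (R a (a + i)) + ∑ i ∈ range (2 * h + 1), ind (R a' (a + i)) +
      ∑ i ∈ range (2 * h + 1), ind (R b (a + i)) + ∑ i ∈ range (2 * h + 1), ind (R b' (a + i)) +
      2 * d + 2 * ((x - a) % 2) ≤ 4 * h + 2 := by
  have P := A.sg a a' (by omega)
  have W := B.sg b b' (by omega)
  have z1 := sum_zero (q := fun j => R b (a + (2 * j + 1))) (k := h) fun j hj q => by
    have := noS _ _ (P.hasS W (Ar.inn q) (by omega)); omega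
  have z2 := sum_zero (q := fun j => R b' (a + (2 * j + 1))) (k := h) fun j hj q => by
    have := noS _ _ (P.hasS W.rev (Ar.inn q) (by omega)); omega
  have s := sum_le_mul (h := h + 1) fun j hj => Hss.cell hi A B lk h1 noP noS (w := a + 2 * j)
    (l := a + (2 * (j - 1) + 1)) (α := j < h) (β := 1 ≤ j) (by omega) (by omega) (by omega)
  have w1 : 2 * d + 2 * ((x - a) % 2) ≤ 2 + ∑ j ∈ range (h + 1),
      ind (a + 2 * j < x ∧ x < a + 2 * j + 2 * d ∨ x < a + 2 * j ∧ a + 2 * j < x + 2 * d) := by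
    have u1 := sum_win (lo := (x - a) / 2 + 1 - d) (hi := (x - a + 1) / 2) (h := h + 1) (by omega)
    have u2 := sum_win (lo := (x - a) / 2 + 1) (hi := (x - a + 1) / 2 + d) (h := h + 1) (by omega)
    refine le_trans (by omega) (Nat.add_le_add_left ((add_le_add u1.ge u2.ge).trans ?_) 2)
    rw [← sum_add_distrib]
    refine sum_le_sum fun j _ => ?_
    rw [← ind_or (by omega)]
    exact ind_mono (by omega)
  have w2 : 2 ≤ ∑ j ∈ range (h + 1), ind (a + 2 * j = a ∨ a + 2 * j = a') := by
    have u3 := sum_win (lo := 0) (hi := 1) (h := h + 1) (by omega)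
    have u4 := sum_win (lo := h) (hi := h + 1) (h := h + 1) (by omega)
    refine le_trans (by omega) ((add_le_add u3.ge u4.ge).trans ?_)
    rw [← sum_add_distrib]
    refine sum_le_sum fun j _ => ?_
    rw [← ind_or (by omega)]
    exact ind_mono (by omega)
  simp only [sum_add_distrib, ← mul_sum] at s
  have v1 := sum_last (fun j => R a (a + (2 * j + 1))) h
  have v2 := sum_first (fun j => R a' (a + (2 * j + 1))) h
  simp only [sum_par']
  simp only [← add_assoc] at *
  omega

theorem h_ss (F : HF R m p t 0 1 x y) (hp : p % 2 = 1) (ht : t % 2 = 1) : False := by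
  have d1 := F.rows.1.1 rfl
  have d2 := F.rows.1.2.1 (by omega)
  have d3 := F.rows.2.1 hp
  have d4 := F.rows.2.2.1 (by omega)
  obtain ⟨h, rfl⟩ : ∃ h, p = 2 * h + 1 := ⟨p / 2, by omega⟩
  obtain ⟨k, rfl⟩ : ∃ k, t = 2 * k + 1 := ⟨t / 2, by omega⟩
  have hn := F.num
  have hf := F.far
  have hb := F.big
  obtain ⟨d, hd⟩ : ∃ d, h + k + 1 = m + d := ⟨h + k + 1 - m, by omega⟩
  have s1 := Hss.side (d := d) (h := h) F.irr F.a1 F.a2 F.lk (by omega) (by omega) F.noP F.noS
  have s2 := Hss.side (d := d) (h := k) (x := y) (y := x) F.irr F.a2 F.a1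
    ⟨fun q => F.lk.2 (by omega), fun q => F.lk.1 (by omega)⟩ (by omega) (by omega) F.noP F.noS
  rw [od_sum, sum_range_add] at d1 d2 d3 d4
  simp only [zero_add] at s1
  omega

end Pool.Agent.Lib.MP_04ab3e_co.X
end

-- part Pool.Agent.Lib.MP_04ab3e_co.X.Hot
section

/-! No spider: a path with two source ends linked to a path with two sink ends. -/

namespace Pool.Agent.Lib.MP_04ab3e_co.X

open Finset

variable {R : ℕ → ℕ → Prop} {m p t x y h k : ℕ}

/-- No Ore pair on the first path. -/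
theorem Hot.ore (F : HF R m (2 * h + 1) (2 * k + 1) 0 0 x y)
    (hT : ¬ HasO R (2 * h + 1 + (2 * k + 1)) false) {i : ℕ} (hi : i < 2 * h) (e1 : R 0 (i + 1))
    (e2 : R (2 * h) i) : False := by
  have hn := F.num
  have hf := F.far
  have hb := F.big
  have A := F.a1
  have W := F.a2.sg (2 * h + 1) (2 * h + 1 + (2 * k + 1) - 1) (by omega)
  rcases Nat.mod_two_eq_zero_or_one i with q | q
  · by_cases hx : i = x
    · subst hx
      have := F.noS _ _ (W.hasS (((A.sg 0 i (by omega)).rev.out (A.sg (i + 1) (2 * h)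
          (by omega)) e1 (by omega))) F.lk.symm (by omega))
      omega
    by_cases h0 : i = 0
    · subst h0
      exact hT (by
        convert ((A.sg 1 (2 * h) (by omega)).out (Sg.ot R 0) e2 (by omega)).hasT W F.lk
            (by omega) using 1; omega)
    · exact hT (by
        convert (((A.sg 0 (i - 1) (by omega)).rev.out (A.sg (i + 1) (2 * h) (by omega)) e1
            (by omega)).out (Sg.ot R i) e2 (by omega)).hasT W
          F.lk (by omega) using 1; omega)
  · by_cases hx : i + 1 = x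
    · subst hx
      have := F.noS _ _ (W.hasS (((A.sg (i + 1) (2 * h) (by omega)).out (A.sg 0 i
          (by omega)).rev e2 (by omega))) F.lk.symm (by omega))
      omega
    by_cases h0 : i + 1 = 2 * h
    · exact hT (by
        convert ((A.sg 0 i (by omega)).rev.out (Sg.ot R (i + 1)) e1 (by omega)).hasT W F.lk
            (by omega) using 1; omega)
    · exact hT (by
        convert (((A.sg (i + 2) (2 * h) (by omega)).out (A.sg 0 i (by omega)).rev e2
            (by omega)).out (Sg.ot R (i + 1)) e1 (by omega)).hasT W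
          F.lk (by omega) using 1; omega)

theorem Hot.main (F : HF R m (2 * h + 1) (2 * k + 1) 0 0 x y)
    (hT : ¬ HasO R (2 * h + 1 + (2 * k + 1)) false)
    (d1 : m ≤ od R (range (2 * h + 1 + (2 * k + 1))) 0)
    (d2 : m ≤ od R (range (2 * h + 1 + (2 * k + 1))) (2 * h)) : False := by
  have hn := F.num
  have hf := F.far
  have hb := F.big
  have A := F.a1
  have B := F.a2
  have W := B.sg (2 * h + 1) (2 * h + 1 + (2 * k + 1) - 1) (by omega)
  obtain ⟨d, hd⟩ : ∃ d, h + k + 1 = m + d := ⟨h + k + 1 - m, by omega⟩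
  rw [od_sum, sum_range_add] at d1 d2
  rw [sum_range_succ', sum_par', ind_eq_zero (F.irr 0)] at d1
  rw [sum_range_succ, sum_par', ind_eq_zero (F.irr _)] at d2
  have s1 := sum_le_mul (f := fun i => ind (R 0 (i + 1)) + ind (R (2 * h) i)) (h := 2 * h) (c := 1)
    fun i hi => ind2 (Hot.ore F hT hi)
  have s2 := sum_le_mul (f := fun j => ind (R 0 (2 * h + 1 + 2 * j)) +
      ind (R (2 * h) (2 * h + 1 + 2 * j))) (h := k + 1) (c := 0) fun j hj => by
    rw [ind_eq_zero fun e => ?_, ind_eq_zero fun e => ?_]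
    · have := F.noS _ _ (W.hasS (A.sg 0 (2 * h) (by omega)).rev (Ar.inn e) (by omega)); omega
    · have := F.noS _ _ (W.hasS (A.sg 0 (2 * h) (by omega)) (Ar.inn e) (by omega)); omega
  have cyc : ∀ w, R 0 w → R (2 * h) w → 2 * h < w → _ := fun w e1 e2 hw =>
    ((A.sg x (2 * h) (by omega)).out (Sg.ot R w) e2 (by omega)).inn (A.sg 0 (x - 1) (by omega)) e1
        (by omega)
  have s3 := sum_le_mul (f := fun j => ind (R 0 (2 * h + 1 + (2 * j + 1))) +
      ind (R (2 * h) (2 * h + 1 + (2 * j + 1))) + (ind (0 ≤ j ∧ j < d) + ind (k - d ≤ j ∧ j < k)))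
      (h := k) (c := 2) fun j hj => by
    have u1 := ind3 (p := R 0 (2 * h + 1 + (2 * j + 1)))
      (q := R (2 * h) (2 * h + 1 + (2 * j + 1))) (r := 0 ≤ j ∧ j < d) fun e1 e2 e3 => by
      have := F.noS _ _ ((B.sg (2 * h + 1 + (2 * j + 2)) (2 * h + 1 + (2 * k + 1) - 1)
          (by omega)).hasS
        (cyc _ e1 e2 (by omega)) F.lk.symm (by omega))
      omega
    have u2 := ind3 (p := R 0 (2 * h + 1 + (2 * j + 1)))
      (q := R (2 * h) (2 * h + 1 + (2 * j + 1))) (r := k - d ≤ j ∧ j < k) fun e1 e2 e3 => by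
      have := F.noS _ _ ((B.sg (2 * h + 1) (2 * h + 1 + 2 * j) (by omega)).hasS
        (cyc _ e1 e2 (by omega)) F.lk.symm (by omega))
      omega
    rcases ind_cases (0 ≤ j ∧ j < d) with v | v <;>
      rcases ind_cases (k - d ≤ j ∧ j < k) with v' | v' <;> omega
  simp only [sum_add_distrib] at s1 s2 s3
  rw [sum_win (by omega), sum_win le_rfl] at s3
  omega

theorem h_ot (F : HF R m p t 0 0 x y) (hp : p % 2 = 1) (ht : t % 2 = 1)
    (hT : ¬ HasO R (p + t) false) : False := by
  have d1 := F.rows.1.1 rfl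
  have d2 := F.rows.1.2.1 (by omega)
  obtain ⟨h, rfl⟩ : ∃ h, p = 2 * h + 1 := ⟨p / 2, by omega⟩
  obtain ⟨k, rfl⟩ : ∃ k, t = 2 * k + 1 := ⟨t / 2, by omega⟩
  exact Hot.main F hT d1 d2

end Pool.Agent.Lib.MP_04ab3e_co.X
end

-- part Pool.Agent.Lib.MP_04ab3e_co.X.Hc
section

/-! A closed linked pair on more than `2 m` vertices gives a long path or a large spider. -/

namespace Pool.Agent.Lib.MP_04ab3e_co.X

open Finset

variable {V : Type} [DecidableEq V] {R : V → V → Prop} {σ : V → Bool} {U W : Finset V}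
  {a b c d : V} {m : ℕ}

/-- The hypotheses that do not depend on the pair. -/
structure HG (R : V → V → Prop) (V0 : Finset V) (m : ℕ) : Prop where
  irr : Irr R
  cl : CL R V0 m
  big : 2 * m + 1 ≤ V0.card
  noP : ∀ n, HasP R n → n < 2 * m
  noS : ∀ n k, HasS R n k → n + k ≤ 2 * m

theorem HG.dual {V0 : Finset V} (G : HG R V0 m) : HG (flip R) V0 m :=
  ⟨G.irr.dual, G.cl.dual, G.big, fun n h => G.noP n h.dual, fun n k h => G.noS n k h.dual⟩

theorem HG.frame (G : HG R (U ∪ W) m) (h : LP R σ U W a b c d) {r2 : ℕ} (hr : r2 < 2)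
    (ha : σ a = true) (hc : σ c = true ↔ U.card % 2 = r2) :
    ∃ (f : ℕ → V) (x y : ℕ), Inj f (U.card + W.card) ∧
      HF (Pb R f (U.card + W.card)) m U.card W.card 0 r2 x y := by
  obtain ⟨u, hu, w, hw, e⟩ := h.lk
  obtain ⟨f, x, y, k1, k2, k3, -⟩ := LP.number G.irr h.h1 h.h2 h.dj hu hw e rfl rfl
    (r1 := 0) (by omega) hr (by simp [ha]) hc
  exact ⟨f, x, y, k1, k2, by rw [← card_union_of_disjoint h.dj]; exact G.big,
    fun n q => G.noP n (q.pb k1), fun n k q => G.noS n k (q.pb k1), CL.pb k1 (k3 ▸ G.cl)⟩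

theorem HP.card_par (h : HP (RA R σ) U a b) :
    (U.card + 1 + (σ a).toNat + (σ b).toNat) % 2 = 0 := by
  have := h.parity
  have := card_src_add_snk σ U
  omega

theorem HG.ss {V0 : Finset V} (G : HG R V0 m) (hc : ∀ σ U W a b c d, LP R σ U W a b c d →
    (U ∪ W).card = V0.card → CL R (U ∪ W) m) : ¬ HasO R V0.card true := by
  rintro ⟨σ, U, W, a, b, c, d, h, e, e1, e2, e3, e4⟩
  have G' : HG R (U ∪ W) m := ⟨G.irr, hc _ _ _ _ _ _ _ h e, e ▸ G.big, G.noP, G.noS⟩
  have p1 := h.h1.card_par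
  have p2 := h.h2.card_par
  simp only [e1, e2, e3, e4, Bool.toNat_true] at p1 p2
  obtain ⟨f, x, y, -, F⟩ := G'.frame h (r2 := 1) (by omega) e1 (iff_of_true e3 (by omega))
  exact h_ss F (by omega) (by omega)

theorem HG.ot (G : HG R (U ∪ W) m) (h : LP R σ U W a b c d) (hT : ¬ HasO R (U ∪ W).card false)
    (e1 : σ a = true) (e2 : σ b = true) (e3 : σ c = false) (e4 : σ d = false) : False := by
  have p1 := h.h1.card_par
  have p2 := h.h2.card_par
  simp only [e1, e2, e3, e4, Bool.toNat_true, Bool.toNat_false] at p1 p2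
  obtain ⟨f, x, y, k, F⟩ := G.frame h (r2 := 0) (by omega) e1
    (iff_of_false (by simp [e3]) (by omega))
  exact h_ot F (by omega) (by omega) fun q => hT (by
    rw [card_union_of_disjoint h.dj]; exact q.pb k)

theorem HG.st (G : HG R (U ∪ W) m) (h : LP R σ U W a b c d) (hT : ¬ HasO R (U ∪ W).card false)
    (hS : ¬ HasO R (U ∪ W).card true)
    (e1 : σ a = true) (e2 : σ b = false) (e3 : σ c = true) (e4 : σ d = false) : False := by
  have p1 := h.h1.card_par
  have p2 := h.h2.card_par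
  simp only [e1, e2, e3, e4, Bool.toNat_true, Bool.toNat_false] at p1 p2
  obtain ⟨f, x, y, k, F⟩ := G.frame h (r2 := 0) (by omega) e1 (iff_of_true e3 (by omega))
  rw [card_union_of_disjoint h.dj] at hT hS
  exact h_st F (by omega) (by omega) (fun q => hT (q.pb k)) fun q => hS (q.pb k)

theorem HG.os (G : HG R (U ∪ W) m) (h : LP R σ U W a b c d)
    (e1 : σ a = true) (e2 : σ b = false) (e3 : σ c = true) (e4 : σ d = true) : False := by
  have p1 := h.h1.card_par
  have p2 := h.h2.card_par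
  simp only [e1, e2, e3, e4, Bool.toNat_true, Bool.toNat_false] at p1 p2
  obtain ⟨f, x, y, -, F⟩ := G.frame h (r2 := 0) (by omega) e1 (iff_of_true e3 (by omega))
  exact h_os F (by omega) (by omega)

/-- The first path is even. -/
theorem HG.even (G : HG R (U ∪ W) m) (h : LP R σ U W a b c d) (hT : ¬ HasO R (U ∪ W).card false)
    (hS : ¬ HasO R (U ∪ W).card true) (e1 : σ a = true) (e2 : σ b = false) : False := by
  cases e3 : σ c <;> cases e4 : σ d
  · exact G.dual.os h.dual.rev1 (by simp [e2]) (by simp [e1]) (by simp [e3]) (by simp [e4])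
  · exact G.st h.rev2 hT hS e1 e2 e4 e3
  · exact G.st h hT hS e1 e2 e3 e4
  · exact G.os h e1 e2 e3 e4

theorem h_case' [Fintype V] {N : ℕ} (hi : Irr R) (hdeg : MinDeg R m) (hN : HasL R N)
    (hmax : ∀ k, HasL R k → k ≤ N) (hb : 2 * m + 1 ≤ N) (noP : ∀ n, HasP R n → n < 2 * m)
    (noS : ∀ n k, HasS R n k → n + k ≤ 2 * m) : False := by
  obtain ⟨σ, U, W, a, b, c, d, h, rfl⟩ := hN
  have G : HG R (U ∪ W) m := ⟨hi, cl_of_max hdeg hmax, hb, noP, noS⟩
  have G' : HG R (W ∪ U) m := union_comm U W ▸ G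
  have hS := G.ss fun _ _ _ _ _ _ _ _ e => cl_of_max hdeg (e ▸ hmax)
  have hT : ¬ HasO R (U ∪ W).card false := fun q =>
    G.dual.ss (fun _ _ _ _ _ _ _ _ e => (cl_of_max hdeg (e ▸ hmax)).dual) q.dual
  have hS' : ¬ HasO R (W ∪ U).card true := union_comm U W ▸ hS
  have hT' : ¬ HasO R (W ∪ U).card false := union_comm U W ▸ hT
  cases e1 : σ a <;> cases e2 : σ b
  · cases e3 : σ c <;> cases e4 : σ d
    · exact hT ⟨σ, U, W, a, b, c, d, h, rfl, e1, e2, e3, e4⟩
    · exact G'.even h.swap.rev1 hT' hS' e4 e3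
    · exact G'.even h.swap hT' hS' e3 e4
    · exact G'.ot h.swap hT' e3 e4 e1 e2
  · exact G.even h.rev1 hT hS e2 e1
  · exact G.even h hT hS e1 e2
  · cases e3 : σ c <;> cases e4 : σ d
    · exact G.ot h hT e1 e2 e3 e4
    · exact G'.even h.swap.rev1 hT' hS' e4 e3
    · exact G'.even h.swap hT' hS' e3 e4
    · exact hS ⟨σ, U, W, a, b, c, d, h, rfl, e1, e2, e3, e4⟩

theorem h_case [Fintype V] (hi : Irr R) (hdeg : MinDeg R m) (hP : ∀ n, HasP R n → n < 2 * m)
    (hS : ∀ n k, HasS R n k → n + k < 2 * m + 1) {N : ℕ} (hN : HasL R N)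
    (hmax : ∀ k, HasL R k → k ≤ N) (h3 : 2 * m + 1 ≤ N) : False :=
  h_case' hi hdeg hN hmax h3 hP fun n k q => Nat.lt_succ_iff.1 (hS n k q)

end Pool.Agent.Lib.MP_04ab3e_co.X
end
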