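import Pool.Agent.Lib.MP_04ab3e_co.X.AllEnds

-- part Pool.Agent.Lib.MP_04ab3e_co.X.Tight
section

/-! Two linked paths whose four ends are sources: the tight count. -/

namespace Pool.Agent.Lib.MP_04ab3e_co.X

open Finset

variable {V : Type} [DecidableEq V]

variable {R : V → V → Prop} {σ : V → Bool} {U W V0 : Finset V} {m : ℕ}

/-- A cover of `V0` by two disjoint paths. -/
structure TgC (R : V → V → Prop) (σ : V → Bool) (V0 U W : Finset V) (a b c d : V) : Prop where
  h1 : HP (RA R σ) U a b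
  h2 : HP (RA R σ) W c d
  dj : Disjoint U W
  un : U ∪ W = V0

/-- Every end of a cover is a source that misses few sources. -/
def TgH (R : V → V → Prop) (σ : V → Bool) (V0 : Finset V) : Prop :=
  ∀ U W a b c d, TgC R σ V0 U W a b c d →
    σ a = true ∧ (mis R (src σ V0) a).card ≤ xd R σ V0 a

open Classical in
/-- The ends of covers. -/
noncomputable def tgRows (R : V → V → Prop) (σ : V → Bool) (V0 : Finset V) : Finset V :=
  V0.filter (fun s => ∃ U W b c d, TgC R σ V0 U W s b c d)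

theorem TgC.swap {A B D C : V} (h : TgC R σ V0 U W A B D C) : TgC R σ V0 W U D C A B :=
  ⟨h.h2, h.h1, h.dj.symm, by rw [union_comm, h.un]⟩

theorem TgC.rev1 {A B D C : V} (h : TgC R σ V0 U W A B D C) : TgC R σ V0 U W B A D C :=
  ⟨h.h1.rev, h.h2, h.dj, h.un⟩

theorem TgC.rev2 {A B D C : V} (h : TgC R σ V0 U W A B D C) : TgC R σ V0 U W A B C D :=
  ⟨h.h1, h.h2.rev, h.dj, h.un⟩

theorem TgC.mem {A B D C : V} (h : TgC R σ V0 U W A B D C) : A ∈ V0 :=
  h.un ▸ mem_union_left _ h.h1.mem_left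

theorem TgC.ne {A B D C : V} (h : TgC R σ V0 U W A B D C) : A ≠ D := fun e =>
  disjoint_left.1 h.dj h.h1.mem_left (e ▸ h.h2.mem_left)

theorem mem_tgRows {s : V} :
    s ∈ tgRows R σ V0 ↔ ∃ U W b c d, TgC R σ V0 U W s b c d := by
  simp only [tgRows, mem_filter]
  exact ⟨fun h => h.2, fun ⟨U, W, b, c, d, h⟩ => ⟨h.mem, U, W, b, c, d, h⟩⟩

theorem TgC.row {A B D C : V} (h : TgC R σ V0 U W A B D C) : A ∈ tgRows R σ V0 :=
  mem_tgRows.2 ⟨_, _, _, _, _, h⟩

theorem tg_H (hi : Irr R) (hcl : CL R V0 m) (hm : V0.card ≤ 2 * m)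
    {a a' b b' : V} (h : LP R σ U W a a' b b') (hu : U ∪ W = V0) (ha : σ a = true)
    (ha' : σ a' = true) (hb : σ b = true) (hb' : σ b' = true) : TgH R σ V0 := by
  have c1 := h.h1.card_SS ha ha'
  have c2 := h.h2.card_SS hb hb'
  have c3 := card_src_union (σ := σ) h.dj
  have c4 := card_snk_union (σ := σ) h.dj
  rw [hu] at c3 c4
  have c5 := card_src_add_snk σ V0
  intro U' W' A B D C q
  have d1 := q.h1.parity
  have d2 := q.h2.parity
  have d3 := card_src_union (σ := σ) q.dj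
  have d4 := card_snk_union (σ := σ) q.dj
  rw [q.un] at d3 d4
  have e1 := Bool.toNat_le (σ B)
  have e2 := Bool.toNat_le (σ D)
  have e3 := Bool.toNat_le (σ C)
  have hA : σ A = true := by
    cases e : σ A
    · rw [e] at d1
      simp only [Bool.toNat_false] at d1
      omega
    · rfl
  refine ⟨hA, ?_⟩
  have l := h.recover q.h1 q.h2 q.dj (by rw [q.un, hu])
  have g := hcl _ _ _ _ _ _ _ l q.un
  rw [deg_src hA] at g
  have r := row_eq hi hA q.mem
  omega

theorem tg_src (hH : TgH R σ V0) {s : V} (hs : s ∈ tgRows R σ V0) : s ∈ src σ V0 := by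
  obtain ⟨U, W, b, c, d, q⟩ := mem_tgRows.1 hs
  exact mem_src.2 ⟨q.mem, (hH _ _ _ _ _ _ q).1⟩

theorem tg_row (hH : TgH R σ V0) {s : V} (hs : s ∈ tgRows R σ V0) :
    (mis R (tgRows R σ V0) s).card ≤ xd R σ V0 s := by
  obtain ⟨U, W, b, c, d, q⟩ := mem_tgRows.1 hs
  exact (card_le_card (mis_mono fun _ hv => tg_src hH hv)).trans (hH _ _ _ _ _ _ q).2

theorem tg_pos (hH : TgH R σ V0) {A s : V} (hA : A ∈ tgRows R σ V0)
    (hs : s ∈ col R (tgRows R σ V0) A) : 0 < xd R σ V0 s := by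
  obtain ⟨h1, h2, h3⟩ := mem_col.1 hs
  have := tg_row hH h1
  have : 0 < (mis R (tgRows R σ V0) s).card := card_pos.2 ⟨A, mem_mis.2 ⟨hA, h2, h3⟩⟩
  omega

/-- A path with the extra edge splits into a cover. -/
theorem tg_split (hnw : NW R V0) {A D r s : V} (h : HP (Dum (RA R σ) A D) V0 r s) :
    ∃ U W, TgC R σ V0 U W r A D s ∨ TgC R σ V0 U W s A D r := by
  rcases h.dum_split with q | ⟨U1, U2, p4, p5, p | p⟩
  · exact absurd q (hnw _ _ _)
  · exact ⟨U1, U2, Or.inl ⟨p.1, p.2, p4, p5⟩⟩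
  · exact ⟨U2, U1, Or.inr ⟨p.2.rev, p.1.rev, p4.symm, by rw [union_comm, p5]⟩⟩

/-- A single vertex path is missed by the ends of the other path. -/
theorem tg_win1 (hnw : NW R V0) (hH : TgH R σ V0) {A D C : V} (h : TgC R σ V0 U W A A D C) :
    ¬ R C A := by
  intro e
  have h1 := h.h1.eq_single
  have h2 := h.un
  have h3 := h.dj
  rw [h1] at h2 h3
  have hA : A ∉ W := by simpa using h3
  have := h.h2.snoc_snk (hH _ _ _ _ _ _ h.swap.rev1).1 hA e
  exact hnw _ _ _ (this.cast (by rw [← h2]; simp))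

/-- The far ends of the two paths do not both hit `A`. -/
theorem tg_win2 (hnw : NW R V0) (hH : TgH R σ V0) {A B D C : V} (h : TgC R σ V0 U W B A D C)
    (hne : B ≠ A) : ¬ (R B A ∧ R C A) := by
  rintro ⟨e1, e2⟩
  obtain ⟨t, -, p⟩ := h.h1.init hne
  have hA : A ∉ W := fun q => disjoint_left.1 h.dj h.h1.mem_right q
  have := p.rev.join_snk h.h2.rev (h.dj.mono_left (erase_subset _ _)) (hH _ _ _ _ _ _ h).1
    (hH _ _ _ _ _ _ h.swap.rev1).1 (notMem_erase _ _) hA e1 e2
  refine hnw _ _ _ (this.cast ?_)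
  rw [← insert_union, insert_erase h.h1.mem_right, h.un]

/-- Some set of partners in the graph with the extra edge misses `A`. -/
theorem tg_part (hnw : NW R V0) (hH : TgH R σ V0) {A B D C : V} (h : TgC R σ V0 U W A B D C) :
    ∃ r, (prt (Dum (RA R σ) A D) V0 r).Nonempty ∧
      prt (Dum (RA R σ) A D) V0 r ⊆ col R (tgRows R σ V0) A := by
  have sy := Dum.sy (RA.sy R σ) A D
  have base : HP (Dum (RA R σ) A D) V0 B C :=
    ((h.h1.rev.dum A D).append (h.h2.dum A D) h.dj (Or.inr (Or.inl ⟨rfl, rfl⟩))).cast h.un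
  have row : ∀ r s, HP (Dum (RA R σ) A D) V0 r s → s ∈ tgRows R σ V0 := by
    intro r s q
    obtain ⟨U1, U2, p | p⟩ := tg_split hnw q
    · exact p.swap.rev1.row
    · exact p.row
  by_cases e : ∃ s, HP (Dum (RA R σ) A D) V0 A s
  · obtain ⟨s, hs⟩ := e
    refine ⟨A, ⟨s, mem_prt.2 hs⟩, fun t ht => ?_⟩
    have q := mem_prt.1 ht
    obtain ⟨U1, U2, p | p⟩ := tg_split hnw q
    · exact mem_col.2 ⟨row _ _ q, p.rev2.ne, tg_win1 hnw hH p⟩
    · exact absurd rfl p.rev1.rev2.ne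
  · have n1 : ∀ r s, HP (Dum (RA R σ) A D) V0 r s → r ≠ A := by
      rintro r s q rfl
      exact e ⟨s, q⟩
    have n2 : ∀ r s, HP (Dum (RA R σ) A D) V0 r s → ¬ (R r A ∧ R s A) := by
      intro r s q
      obtain ⟨U1, U2, p | p⟩ := tg_split hnw q
      · exact tg_win2 hnw hH p (n1 _ _ q)
      · exact fun z => tg_win2 hnw hH p (n1 _ _ (q.symm sy)) z.symm
    have key : ∀ r s, HP (Dum (RA R σ) A D) V0 r s →
        (∀ s, HP (Dum (RA R σ) A D) V0 r s → ¬ R s A) →
        ∃ r, (prt (Dum (RA R σ) A D) V0 r).Nonempty ∧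
          prt (Dum (RA R σ) A D) V0 r ⊆ col R (tgRows R σ V0) A := by
      intro r s q1 q2
      refine ⟨r, ⟨s, mem_prt.2 q1⟩, fun t ht => ?_⟩
      have q := mem_prt.1 ht
      exact mem_col.2 ⟨row _ _ q, (n1 _ _ (q.symm sy)).symm, q2 t q⟩
    by_cases e' : ∃ r s, HP (Dum (RA R σ) A D) V0 r s ∧ R r A
    · obtain ⟨r, s, q1, q2⟩ := e'
      exact key r s q1 fun t ht z => n2 r t ht ⟨q2, z⟩
    · exact key B C base fun t ht z => e' ⟨t, B, ht.symm sy, z⟩

theorem tg_posa (hH : TgH R σ V0) {A B D C : V} (h : TgC R σ V0 U W A B D C) {r s : V}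
    (hs : s ∈ prt (Dum (RA R σ) A D) V0 r) :
    xd R σ V0 s ≤ (prt (Dum (RA R σ) A D) V0 r).card ∧
      (s = D → xd R σ V0 s < (prt (Dum (RA R σ) A D) V0 r).card) := by
  have p := posa (Dum.sy (RA.sy R σ) A D) (mem_prt.1 hs) (by
    rintro (q | ⟨q1, q2⟩ | ⟨q1, q2⟩)
    · exact RA.irr R σ s q
    · exact h.ne (q1.symm.trans q2)
    · exact h.ne (q2.symm.trans q1))
  have sub : nb (RA R σ) V0 s ⊆ nb (Dum (RA R σ) A D) V0 s := fun t ht =>
    mem_nb.2 ⟨(mem_nb.1 ht).1, Or.inl (mem_nb.1 ht).2⟩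
  refine ⟨(card_le_card sub).trans p, ?_⟩
  intro e
  subst e
  have n : A ∉ nb (RA R σ) V0 s := by
    intro q
    have q1 := ((mem_nb.1 q).2.of_src (hH _ _ _ _ _ _ h.swap).1).1
    rw [(hH _ _ _ _ _ _ h).1] at q1
    exact absurd q1 (by simp)
  have := card_le_card (insert_subset (mem_nb.2 ⟨h.mem, Or.inr (Or.inr ⟨rfl, rfl⟩)⟩) sub)
  rw [card_insert_of_notMem n] at this
  unfold xd
  omega

theorem tg_ge (hnw : NW R V0) (hH : TgH R σ V0) {A : V} (hA : A ∈ tgRows R σ V0) :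
    1 ≤ wt (xd R σ V0) (col R (tgRows R σ V0) A) := by
  obtain ⟨U, W, B, D, C, h⟩ := mem_tgRows.1 hA
  obtain ⟨r, p1, p2⟩ := tg_part hnw hH h
  exact (one_le_wt _ p1 fun s hs => ⟨tg_pos hH hA (p2 hs), (tg_posa hH h hs).1⟩).trans
    (wt_mono _ p2)

theorem tg_le (hnw : NW R V0) (hH : TgH R σ V0) {A : V} (hA : A ∈ tgRows R σ V0) :
    wt (xd R σ V0) (col R (tgRows R σ V0) A) ≤ 1 := by
  by_contra hn
  have h1 : ∑ _c ∈ tgRows R σ V0, (1 : ℚ) <
      ∑ c ∈ tgRows R σ V0, wt (xd R σ V0) (col R (tgRows R σ V0) c) :=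
    sum_lt_sum (fun c hc => tg_ge hnw hH hc) ⟨A, hA, not_le.1 hn⟩
  rw [sum_wt_col] at h1
  refine absurd h1 (not_lt.2 (sum_le_sum fun s hs => ?_))
  exact div_le_one_of_le₀ (by exact_mod_cast tg_row hH hs) (by positivity)

/-- Ends of different paths hit each other. -/
theorem tg_cross (hnw : NW R V0) (hH : TgH R σ V0) {A B D C : V} (h : TgC R σ V0 U W A B D C) :
    R D A := by
  by_contra hn
  have hD : D ∈ col R (tgRows R σ V0) A := mem_col.2 ⟨h.swap.row, h.ne, hn⟩
  obtain ⟨r, p1, p2⟩ := tg_part hnw hH h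
  have q : ∀ s ∈ prt (Dum (RA R σ) A D) V0 r,
      0 < xd R σ V0 s ∧ xd R σ V0 s ≤ (prt (Dum (RA R σ) A D) V0 r).card :=
    fun s hs => ⟨tg_pos hH h.row (p2 hs), (tg_posa hH h hs).1⟩
  have u := tg_le hnw hH h.row
  by_cases e : D ∈ prt (Dum (RA R σ) A D) V0 r
  · have v1 := one_lt_wt _ q e ((tg_posa hH h e).2 rfl)
    have v2 := wt_mono (xd R σ V0) p2
    linarith
  · have v1 := one_le_wt _ p1 q
    have v2 := wt_lt (xd R σ V0) p2 hD e (tg_pos hH h.row hD)
    linarith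

theorem tg_ne (hnw : NW R V0) (hH : TgH R σ V0) {A B D C : V} (h : TgC R σ V0 U W A B D C) :
    A ≠ B := by
  rintro rfl
  exact tg_win1 hnw hH h (tg_cross hnw hH h.rev2)

theorem tg_miss (hnw : NW R V0) (hH : TgH R σ V0) {A B D C : V} (h : TgC R σ V0 U W A B D C) :
    ¬ R B A := fun e =>
  tg_win2 hnw hH h.rev1 (tg_ne hnw hH h).symm ⟨e, tg_cross hnw hH h.rev2⟩

theorem tg_nonb (hnw : NW R V0) (hH : TgH R σ V0) {A B D C : V} (h : TgC R σ V0 U W A B D C) :
    ∀ t ∈ W, ¬ RA R σ A t := by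
  intro t ht e
  have t1 := (e.of_src (hH _ _ _ _ _ _ h).1).1
  have tD : t ≠ D := by
    rintro rfl
    rw [(hH _ _ _ _ _ _ h.swap).1] at t1
    exact absurd t1 (by simp)
  obtain ⟨W1, W2, p, p1, p2, -, p4, p5⟩ := h.h2.split' ht tD
  have dj := h.dj
  rw [← p5, disjoint_union_right] at dj
  have c : TgC R σ V0 (U ∪ W2) W1 B C D p :=
    ⟨h.h1.rev.append p2 dj.2 e, p1, disjoint_union_left.2 ⟨dj.1, p4.symm⟩, by
      rw [union_assoc, union_comm W2, p5, h.un]⟩
  exact tg_miss hnw hH c (tg_cross hnw hH h.rev1.rev2)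

theorem tg_xd (hnw : NW R V0) (hH : TgH R σ V0) {A B D C : V} (h : TgC R σ V0 U W A B D C) :
    xd R σ V0 A = xd R σ U A := by
  have := xd_union (R := R) (σ := σ) (a := A) h.dj
  rw [h.un, xd_eq_zero (tg_nonb hnw hH h)] at this
  omega

/-- The facts that follow from the tight count. -/
theorem tight_facts (hi : Irr R) (hnw : NW R V0) (hcl : CL R V0 m) (hm : V0.card ≤ 2 * m)
    {a a' b b' : V} (h : LP R σ U W a a' b b') (hu : U ∪ W = V0) (ha : σ a = true)
    (ha' : σ a' = true) (hb : σ b = true) (hb' : σ b' = true) :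
    R b a ∧ a ≠ a' ∧ ¬ R a' a ∧ (∀ t ∈ W, ¬ RA R σ a t) ∧
      (mis R (src σ V0) a).card ≤ xd R σ U a ∧
      (∀ s ∈ ends (RA R σ) U, s ≠ a → ¬ R s a → HP (RA R σ) U a s) ∧
      ((∀ s ∈ ends (RA R σ) U, s ≠ a → ¬ R s a) →
        ∀ s ∈ ends (RA R σ) U, s ≠ a → xd R σ U s + 1 = (ends (RA R σ) U).card) := by
  have hH := tg_H hi hcl hm h hu ha ha' hb hb'
  have c : TgC R σ V0 U W a a' b b' := ⟨h.h1, h.h2, h.dj, hu⟩
  have cov : ∀ s t, HP (RA R σ) U s t → TgC R σ V0 U W s t b b' :=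
    fun s t q => ⟨q, h.h2, h.dj, hu⟩
  have sub : prt (RA R σ) U a ⊆ col R (tgRows R σ V0) a := fun s hs => by
    have q := cov _ _ (mem_prt.1 hs)
    exact mem_col.2 ⟨q.rev1.row, tg_ne hnw hH q, tg_miss hnw hH q⟩
  have bd : ∀ s ∈ prt (RA R σ) U a,
      0 < xd R σ V0 s ∧ xd R σ V0 s ≤ (prt (RA R σ) U a).card := fun s hs => by
    refine ⟨tg_pos hH c.row (sub hs), ?_⟩
    rw [tg_xd hnw hH (cov _ _ (mem_prt.1 hs)).rev1]
    exact posa_xd (mem_prt.1 hs)
  have u := tg_le hnw hH c.row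
  have i6 : ∀ s ∈ ends (RA R σ) U, s ≠ a → ¬ R s a → HP (RA R σ) U a s := by
    intro s hs h1 h2
    obtain ⟨t, ht⟩ := mem_ends.1 hs
    have hs' : s ∈ col R (tgRows R σ V0) a := mem_col.2 ⟨(cov _ _ ht).row, h1.symm, h2⟩
    by_contra hn
    have v1 := one_le_wt _ ⟨a', mem_prt.2 h.h1⟩ bd
    have v2 := wt_lt (xd R σ V0) sub hs' (fun q => hn (mem_prt.1 q)) (tg_pos hH c.row hs')
    linarith
  refine ⟨tg_cross hnw hH c, tg_ne hnw hH c, tg_miss hnw hH c, tg_nonb hnw hH c, ?_, i6, ?_⟩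
  · rw [← tg_xd hnw hH c]
    exact (hH _ _ _ _ _ _ c).2
  · intro hall s hs h1
    have e : prt (RA R σ) U a = (ends (RA R σ) U).erase a := by
      ext t
      rw [mem_erase]
      constructor
      · intro ht
        exact ⟨(mem_col.1 (sub ht)).2.1.symm, prt_subset_ends (RA.sy R σ) a ht⟩
      · intro ht
        exact mem_prt.2 (i6 t ht.2 ht.1 (hall t ht.2 ht.1))
    have ea : a ∈ ends (RA R σ) U := mem_ends.2 ⟨a', h.h1⟩
    have hp : s ∈ prt (RA R σ) U a := mem_prt.2 (i6 s hs h1 (hall s hs h1))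
    have k1 := (bd s hp).2
    have k2 : ¬ xd R σ V0 s < (prt (RA R σ) U a).card := fun q => by
      have v1 := one_lt_wt _ bd hp q
      have v2 := wt_mono (xd R σ V0) sub
      linarith
    have k3 := tg_xd hnw hH (cov _ _ (mem_prt.1 hp)).rev1
    have k4 := card_erase_of_mem ea
    have k5 := card_pos.2 ⟨a, ea⟩
    rw [← e] at k4
    omega

end Pool.Agent.Lib.MP_04ab3e_co.X
end

-- part Pool.Agent.Lib.MP_04ab3e_co.X.SS
section

/-! Two linked paths whose four ends are sources span a path. -/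

namespace Pool.Agent.Lib.MP_04ab3e_co.X

open Finset

variable {V : Type} [DecidableEq V]

variable {R : V → V → Prop} {σ : V → Bool} {U W V0 : Finset V} {m : ℕ}

/-- The standing assumptions. -/
structure SSx (R : V → V → Prop) (V0 : Finset V) (m : ℕ) : Prop where
  hi : Irr R
  hnw : NW R V0
  hcl : CL R V0 m
  hm : V0.card ≤ 2 * m

/-- A linked cover by two paths whose four ends are sources. -/
structure SSc (R : V → V → Prop) (V0 : Finset V) (σ : V → Bool) (U W : Finset V) (a a' b b' : V) :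
    Prop where
  lp : LP R σ U W a a' b b'
  hu : U ∪ W = V0
  ha : σ a = true
  ha' : σ a' = true
  hb : σ b = true
  hb' : σ b' = true

section aux

variable {a a' b b' : V}

theorem SSx.dual (c : SSx R V0 m) : SSx (flip R) V0 m := ⟨c.hi.dual, c.hnw.dual, c.hcl.dual, c.hm⟩

theorem SSc.swap (h : SSc R V0 σ U W a a' b b') : SSc R V0 σ W U b b' a a' :=
  ⟨h.lp.swap, by rw [union_comm, h.hu], h.hb, h.hb', h.ha, h.ha'⟩

theorem SSc.rev1 (h : SSc R V0 σ U W a a' b b') : SSc R V0 σ U W a' a b b' :=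
  ⟨h.lp.rev1, h.hu, h.ha', h.ha, h.hb, h.hb'⟩

theorem SSc.rev2 (h : SSc R V0 σ U W a a' b b') : SSc R V0 σ U W a a' b' b :=
  ⟨h.lp.rev2, h.hu, h.ha, h.ha', h.hb', h.hb⟩

theorem SSc.re (h : SSc R V0 σ U W a a' b b') {r : V} (hr : r ∈ ends (RA R σ) U) :
    ∃ r', SSc R V0 σ U W r r' b b' := by
  obtain ⟨r', k⟩ := mem_ends.1 hr
  have := k.SS_of_card (h.lp.h1.card_SS h.ha h.ha')
  exact ⟨r', ⟨k, h.lp.h2, h.lp.dj, h.lp.lk⟩, h.hu, this.1, this.2, h.hb, h.hb'⟩

theorem SSc.ne (h : SSc R V0 σ U W a a' b b') {x y : V} (hx : x ∈ U) (hy : y ∈ W) : x ≠ y :=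
  fun e => disjoint_left.1 h.lp.dj hx (e ▸ hy)

theorem SSx.tf (c : SSx R V0 m) (h : SSc R V0 σ U W a a' b b') :
    R b a ∧ a ≠ a' ∧ ¬ R a' a ∧ (∀ t ∈ W, ¬ RA R σ a t) ∧
      (mis R (src σ V0) a).card ≤ xd R σ U a ∧
      (∀ s ∈ ends (RA R σ) U, s ≠ a → ¬ R s a → HP (RA R σ) U a s) ∧
      ((∀ s ∈ ends (RA R σ) U, s ≠ a → ¬ R s a) →
        ∀ s ∈ ends (RA R σ) U, s ≠ a → xd R σ U s + 1 = (ends (RA R σ) U).card) :=
  tight_facts c.hi c.hnw c.hcl c.hm h.lp h.hu h.ha h.ha' h.hb h.hb'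

/-- Flip the first ends of both paths and exchange them. -/
theorem ss_flip (c : SSx R V0 m) (h : SSc R V0 σ U W a a' b b') {t u : V}
    (p1 : HP (RA R σ) (U.erase a) t a') (p2 : HP (RA R σ) (W.erase b) u b') (ht : σ t = false)
    (hu : σ u = false) : ∃ τ, SSc (flip R) V0 (neg τ) (insert a (W.erase b))
      (insert b (U.erase a)) a u b t ∧ τ a = false ∧ ∀ v, v ≠ a → v ≠ b → τ v = σ v := by
  have haU := h.lp.h1.mem_left
  have hbW := h.lp.h2.mem_left
  obtain ⟨τ, ea, eb, e0⟩ : ∃ τ : V → Bool, τ a = false ∧ τ b = false ∧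
      ∀ v, v ≠ a → v ≠ b → τ v = σ v :=
    ⟨fun v => if v = a ∨ v = b then false else σ v, by simp, by simp, fun v h1 h2 => by simp [h1, h2]⟩
  have eU : ∀ v ∈ U.erase a, τ v = σ v := fun v hv =>
    e0 v (ne_of_mem_erase hv) (h.ne (mem_of_mem_erase hv) hbW)
  have eW : ∀ v ∈ W.erase b, τ v = σ v := fun v hv =>
    e0 v (h.ne haU (mem_of_mem_erase hv)).symm (ne_of_mem_erase hv)
  have n1 : b ∉ U.erase a := fun q => h.ne (mem_of_mem_erase q) hbW rfl
  have n2 : a ∉ W.erase b := fun q => h.ne haU (mem_of_mem_erase q) rfl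
  have q1 := (p1.congr eU).snoc n1
    (RA.mk ((eU _ p1.mem_right).trans h.ha') eb (c.tf h.rev1.swap).1)
  have q2 := (p2.congr eW).snoc n2 (RA.mk ((eW _ p2.mem_right).trans h.hb') ea (c.tf h.rev2).1)
  obtain ⟨x, hx, y, hy, e⟩ := h.lp.lk
  have hx' : x ∈ U.erase a := mem_erase.2 ⟨fun q => (c.tf h).2.2.2.1 y hy (q ▸ e), hx⟩
  have hy' : y ∈ W.erase b :=
    mem_erase.2 ⟨fun q => (c.tf h.swap).2.2.2.1 x hx (q ▸ RA.sy R σ _ _ e), hy⟩
  refine ⟨τ, ⟨LP.dual ⟨q2.rev, q1.rev, ?_, y, mem_insert_of_mem hy', x, mem_insert_of_mem hx',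
    (RA.sy R σ _ _ e).congr (eW y hy') (eU x hx')⟩, ?_, neg_true.2 ea,
    neg_true.2 ((eW _ p2.mem_left).trans hu), neg_true.2 eb,
    neg_true.2 ((eU _ p1.mem_left).trans ht)⟩, ea, e0⟩
  · simp only [disjoint_insert_left, disjoint_insert_right, mem_insert, notMem_erase, or_false,
      not_false_eq_true, true_and]
    exact ⟨(h.ne haU hbW).symm, h.lp.dj.symm.mono (erase_subset _ _) (erase_subset _ _)⟩
  · rw [← h.hu, insert_union, union_insert, ← insert_union, insert_erase hbW, ← union_insert,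
      insert_erase haU, union_comm]

/-- An end is missed by all sources of its path. -/
theorem ss_f3 (c : SSx R V0 m) (h : SSc R V0 σ U W a a' b b') {s : V} (hs : s ∈ U)
    (e : σ s = true) (hsa : s ≠ a) : ¬ R s a := fun q => by
  obtain ⟨t, t1, t2⟩ := h.lp.h1.tail (c.tf h).2.1
  obtain ⟨u, u1, u2⟩ := h.lp.h2.tail (c.tf h.swap).2.1
  obtain ⟨τ, k, k1, k2⟩ := ss_flip c h t2 u2 (t1.of_src h.ha).1 (u1.of_src h.hb).1
  refine (c.dual.tf k).2.2.2.1 s (mem_insert_of_mem (mem_erase.2 ⟨hsa, hs⟩)) ?_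
  rw [RA_dual]
  exact RA.mk' k1 ((k2 s hsa (h.ne hs h.lp.h2.mem_left)).trans e) q

/-- If an end has two role neighbours then every source is an end. -/
theorem ss_k1 (c : SSx R V0 m) (h : SSc R V0 σ U W a a' b b') (h2 : 2 ≤ xd R σ U a) :
    ∀ s ∈ U, σ s = true → s ∈ ends (RA R σ) U := by
  have f3 : ∀ {r r'}, SSc R V0 σ U W r r' b b' → ∀ s ∈ ends (RA R σ) U, s ≠ r → ¬ R s r :=
    fun k s hs => ss_f3 c k (ends_subset hs) (ends_src h.lp.h1 h.ha h.ha' hs)
  have hx : ∀ s ∈ ends (RA R σ) U, xd R σ U s + 1 = (ends (RA R σ) U).card := fun s hs => by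
    obtain ⟨r, k⟩ := h.re hs
    exact (c.tf k.rev1).2.2.2.2.2.2 (f3 k.rev1) s hs (c.tf k).2.1
  refine all_ends h.lp.h1 h.ha h.ha' (fun r hr s hs e => ?_) hx
    (by have := hx a (mem_ends.2 ⟨_, h.lp.h1⟩); omega)
  obtain ⟨r', k⟩ := h.re hr
  exact (c.tf k).2.2.2.2.2.1 s hs e (f3 k s hs e)

theorem ss_main (c : SSx R V0 m) (h : SSc R V0 σ U W a a' b b') {x y : V} (hx : x ∈ U)
    (hy : y ∈ W) (e : RA R σ x y) (hs : σ x = true) : False := by
  have n : ∀ {v w : V}, σ v = false → σ w = true → v ≠ w := fun h1 h2 q => by simp [q, h2] at h1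
  have hyf := (e.of_src hs).1
  have hbb := (c.tf h.swap).2.1
  obtain ⟨t, t1, t2⟩ := h.lp.h1.tail (c.tf h).2.1
  obtain ⟨u, u1, u2⟩ := h.lp.h2.tail hbb
  have ht := (t1.of_src h.ha).1
  have hu := (u1.of_src h.hb).1
  obtain ⟨w, w1, w2⟩ := u2.init (n hu h.hb')
  have hw := (w1.to_src h.hb').1
  have w3 : HP (RA R σ) (W.erase b') w b :=
    (w2.rev.snoc (fun q => notMem_erase _ _ (mem_of_mem_erase q)) (RA.sy R σ _ _ u1)).cast (by
      rw [erase_right_comm, insert_erase (mem_erase.2 ⟨hbb, h.lp.h2.mem_left⟩)])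
  obtain ⟨τ, k, -, k2⟩ := ss_flip c h t2 u2 ht hu
  obtain ⟨τ', k', -, -⟩ := ss_flip c h.rev2 t2 w3 ht hw
  have k3 : ∀ {v}, σ v = false → neg τ v = true := fun hv =>
    neg_true.2 ((k2 _ (n hv h.ha) (n hv h.hb)).trans hv)
  have hxa : x ≠ a := fun q => (c.tf h).2.2.2.1 y hy (q ▸ e)
  have ny : y ∉ ends (RA (flip R) (neg τ)) (insert a (W.erase b)) := fun q => by
    obtain ⟨r, k⟩ := k.re q
    refine (c.dual.tf k).2.2.2.1 x (mem_insert_of_mem (mem_erase.2 ⟨hxa, hx⟩)) ?_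
    rw [RA_dual]
    exact (RA.sy R σ _ _ e).congr (k2 y (n hyf h.ha) (n hyf h.hb))
      (k2 x hxa (h.ne hx h.lp.h2.mem_left))
  have h1 : xd (flip R) (neg τ) (insert a (W.erase b)) a ≤ 1 := by_contra fun q =>
    ny (ss_k1 c.dual k (by omega) y (mem_insert_of_mem (mem_erase.2 ⟨n hyf h.hb, hy⟩)) (k3 hyf))
  have k4 : ∀ {v}, v ∈ W → σ v = false → ¬ R v a → v ∈ mis (flip R) (src (neg τ) V0) a :=
    fun h1 h2 h3 => mem_mis.2 ⟨mem_src.2 ⟨h.hu ▸ mem_union_right _ h1, k3 h2⟩, n h2 h.ha, h3⟩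
  obtain rfl : u = w := card_le_one.1 ((c.dual.tf k).2.2.2.2.1.trans h1) u
    (k4 (mem_of_mem_erase u2.mem_left) hu (c.dual.tf k.rev1).2.2.1) w
    (k4 (mem_of_mem_erase w3.mem_left) hw (c.dual.tf k'.rev1).2.2.1)
  have h2 : y ∈ (W.erase b).erase b' := mem_erase.2 ⟨n hyf h.hb', mem_erase.2 ⟨n hyf h.hb, hy⟩⟩
  rw [w2.eq_single, mem_singleton] at h2
  exact ny (h2 ▸ mem_ends.2 ⟨a, k.lp.h1.rev⟩)

end aux

theorem ss_ss (hi : Irr R) (hcl : CL R V0 m) (hm : V0.card ≤ 2 * m)
    {a a' b b' : V} (h : LP R σ U W a a' b b') (hu : U ∪ W = V0) (ha : σ a = true)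
    (ha' : σ a' = true) (hb : σ b = true) (hb' : σ b' = true) : ¬ NW R V0 := by
  intro hnw
  have c : SSx R V0 m := ⟨hi, hnw, hcl, hm⟩
  have k : SSc R V0 σ U W a a' b b' := ⟨h, hu, ha, ha', hb, hb'⟩
  obtain ⟨x, hx, y, hy, e⟩ := h.lk
  cases hs : σ x
  · exact ss_main c k.swap hy hx (RA.sy R σ _ _ e) (e.of_snk hs).1
  · exact ss_main c k hx hy e hs

/-- Dual form. -/
theorem tt_tt (hi : Irr R) (hcl : CL R V0 m) (hm : V0.card ≤ 2 * m)
    {a a' b b' : V} (h : LP R σ U W a a' b b') (hu : U ∪ W = V0) (ha : σ a = false)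
    (ha' : σ a' = false) (hb : σ b = false) (hb' : σ b' = false) : ¬ NW R V0 := fun hnw =>
  ss_ss (R := flip R) hi.dual hcl.dual hm h.dual hu (by simpa using ha) (by simpa using ha')
    (by simpa using hb) (by simpa using hb') hnw.dual

end Pool.Agent.Lib.MP_04ab3e_co.X
end

-- part Pool.Agent.Lib.MP_04ab3e_co.X.Even
section

/-! Balanced linked pairs span a path. -/

namespace Pool.Agent.Lib.MP_04ab3e_co.X

open Finset

variable {V : Type} [DecidableEq V]

variable {R : V → V → Prop} {σ : V → Bool} {U W V0 : Finset V} {m : ℕ}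

/-- Count of sources and sinks in a cover by two paths. -/
theorem even_par {a b c d : V} (h : LP R σ U W a b c d) (hu : U ∪ W = V0) :
    (src σ V0).card + 2 =
      (snk σ V0).card + ((σ a).toNat + (σ b).toNat + (σ c).toNat + (σ d).toNat) := by
  subst hu
  have h1 := h.h1.parity
  have h2 := h.h2.parity
  rw [card_src_union h.dj, card_snk_union h.dj]
  omega

theorem even_row_src (hi : Irr R) (hcl : CL R V0 m) (hm : V0.card ≤ 2 * m) {a b c d : V}
    (h : LP R σ U W a b c d) (hu : U ∪ W = V0)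
    (hbal : (src σ V0).card = (snk σ V0).card) (ha : σ a = true) :
    (mis R (src σ V0) a).card + 1 ≤ xd R σ V0 a := by
  have h1 := hcl _ _ _ _ _ _ _ h hu
  rw [deg_src ha] at h1
  have h2 := row_eq hi ha (U := V0) (hu ▸ mem_union_left _ h.h1.mem_left)
  have h3 := card_src_add_snk σ V0
  omega

theorem even_row_snk (hi : Irr R) (hcl : CL R V0 m) (hm : V0.card ≤ 2 * m) {a b c d : V}
    (h : LP R σ U W a b c d) (hu : U ∪ W = V0)
    (hbal : (src σ V0).card = (snk σ V0).card) (ha : σ a = false) :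
    (mis (flip R) (snk σ V0) a).card + 1 ≤ xd R σ V0 a := by
  have := even_row_src (R := flip R) (σ := neg σ) hi.dual hcl.dual hm h.dual hu
    (by simpa using hbal.symm) (by simpa using ha)
  simpa using this

omit [DecidableEq V] in
theorem even_ne {a b : V} (ha : σ a = true) (hb : σ b = false) : a ≠ b := by
  rintro rfl
  rw [ha] at hb
  exact absurd hb (by simp)

/-- Types source-source and sink-sink, no end of the second set has a role neighbour in the
first. -/
theorem even_L0 (hi : Irr R) (hcl : CL R V0 m) (hm : V0.card ≤ 2 * m) {a a' y y' : V}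
    (h : LP R σ U W a a' y y') (hu : U ∪ W = V0) (ha : σ a = true) (ha' : σ a' = true)
    (hy : σ y = false) (hy' : σ y' = false)
    (hno : ∀ z ∈ ends (RA R σ) W, ∀ s ∈ U, ¬ RA R σ z s) : ¬ NW R V0 := by
  have hbal : (src σ V0).card = (snk σ V0).card := by
    have := even_par h hu
    rw [ha, ha', hy, hy'] at this
    simpa using this
  obtain ⟨g, t, g1, g2, g3, g4, g5⟩ := moe_flip' hi h.h2 hy hy' (by
    intro z hz
    obtain ⟨z', hz'⟩ := mem_ends.1 hz
    have hzs : σ z = false := (hz'.TT_of_card (h.h2.card_TT hy hy')).1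
    have hl : LP R σ W U z z' a a' := ⟨hz', h.h1, h.dj.symm, h.swap.lk⟩
    have h1 := even_row_snk hi hcl hm hl (by rw [union_comm, hu]) hbal hzs
    rw [← hu, xd_union h.dj, xd_eq_zero (hno z hz)] at h1
    have h2 : mis (flip R) (snk σ W) z ⊆ mis (flip R) (snk σ (U ∪ W)) z :=
      mis_mono (by rw [snk_union]; exact subset_union_right)
    have := card_le_card h2
    omega)
  have hgW : g ∈ W := ends_subset g1
  have hgU : g ∉ U := fun q => disjoint_left.1 h.dj q hgW
  have hne : ∀ v ∈ U, v ≠ g := fun v hv q => hgU (q ▸ hv)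
  obtain ⟨x, hx, w, hw, e⟩ := h.lk
  have hwg : w ≠ g := fun q => hno g g1 x hx (q ▸ RA.sy R σ _ _ e)
  have hl : LP R (Function.update σ g true) U W a a' t g :=
    ⟨h.h1.upd hgU true, g5, h.dj, x, hx, w, hw, e.upd (hne x hx) hwg true⟩
  refine ss_ss hi hcl hm hl hu ?_ ?_ ?_ (by simp)
  · rw [Function.update_of_ne (hne a h.h1.mem_left), ha]
  · rw [Function.update_of_ne (hne a' h.h1.mem_right), ha']
  · rw [Function.update_of_ne (even_ne g3 g2), g3]

/-- Move the sink end `z` of the second path to the sink end `y` of the first. -/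
theorem even_move (hi : Irr R) (hcl : CL R V0 m) (hm : V0.card ≤ 2 * m) {A y p z u w : V}
    (h1 : HP (RA R σ) U A y) (h2 : HP (RA R σ) W p z) (hd : Disjoint U W) (hu : U ∪ W = V0)
    (hA : σ A = true) (hy : σ y = false) (hp : σ p = true) (hz : σ z = false) (e : R z y)
    (huU : u ∈ U) (hwW : w ∈ W) (hwz : w ≠ z) (huw : RA R σ u w) : ¬ NW R V0 := by
  have hzW := h2.mem_right
  have hzU : z ∉ U := fun q => disjoint_left.1 hd q hzW
  have hne : ∀ v ∈ U, v ≠ z := fun v hv q => hzU (q ▸ hv)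
  obtain ⟨z', q1, q2⟩ := h2.init (even_ne hp hz)
  have hz' : σ z' = true := (q1.to_snk hz).1
  have hl : LP R (Function.update σ z true) (insert z U) (W.erase z) A z p z' := by
    refine ⟨h1.snoc_src hy hzU e, q2.upd (notMem_erase _ _) true, ?_, u, mem_insert_of_mem huU, w,
      mem_erase.2 ⟨hwz, hwW⟩, huw.upd (hne u huU) hwz true⟩
    rw [disjoint_insert_left]
    exact ⟨notMem_erase _ _, hd.mono_right (erase_subset _ _)⟩
  refine ss_ss hi hcl hm hl ?_ ?_ (by simp) ?_ ?_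
  · rw [← hu, insert_union, ← union_insert, insert_erase hzW]
  · rw [Function.update_of_ne (even_ne hA hz), hA]
  · rw [Function.update_of_ne (even_ne hp hz), hp]
  · rw [Function.update_of_ne (even_ne hz' hz), hz']

/-- Two source-sink paths, all links start at the source end `A` of the first. -/
theorem even_L1 (hi : Irr R) (hcl : CL R V0 m) (hm : V0.card ≤ 2 * m) {A y p z : V}
    (h : LP R σ U W A y p z) (hu : U ∪ W = V0) (hA : σ A = true) (hy : σ y = false)
    (hp : σ p = true) (hz : σ z = false)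
    (hno : ∀ u ∈ U, u ≠ A → ∀ w ∈ W, ¬ RA R σ u w) : ¬ NW R V0 := by
  intro hnw
  have hbal : (src σ V0).card = (snk σ V0).card := by
    have := even_par h hu
    rw [hA, hy, hp, hz] at this
    simpa using this
  obtain ⟨x, hx, t0, ht0, e⟩ := h.lk
  have hxA : x = A := by
    by_contra q
    exact hno x hx q t0 ht0 e
  subst hxA
  have cU := h.h1.card_ST hA hy
  have cW := h.h2.card_ST hp hz
  -- the source end sees no end of the second set
  have hsee : ∀ z' p', HP (RA R σ) W z' p' → ¬ RA R σ x z' := fun z' p' q e' =>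
    hnw σ y p' ((h.h1.rev.append q h.dj e').cast hu)
  have hP : ∀ y1, HP (RA R σ) U x y1 → σ y1 = false := fun y1 q => by
    simpa [hA] using q.ST_of_card cU
  -- no arcs between sink ends
  have hE : ∀ z' p' y1, HP (RA R σ) W z' p' → σ z' = false → HP (RA R σ) U x y1 →
      ¬ R z' y1 ∧ ¬ R y1 z' := by
    intro z' p' y1 q1 q2 q3
    have hp' : σ p' = true := by simpa [q2] using q1.ST_of_card cW
    have hy1 := hP y1 q3
    constructor
    · intro e'
      exact even_move hi hcl hm q3 q1.rev h.dj hu hA hy1 hp' q2 e' hx ht0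
        (fun q => hsee z' p' q1 (q ▸ e)) e hnw
    · intro e'
      exact even_move hi hcl hm q1.rev q3 h.dj.symm (by rw [union_comm, hu]) hp' q2 hA hy1 e' ht0 hx
        (even_ne hA hy1) (RA.sy R σ _ _ e) hnw
  have hUV : U ⊆ V0 := hu ▸ subset_union_left
  have hWV : W ⊆ V0 := hu ▸ subset_union_right
  have r1 := even_row_snk hi hcl hm h.rev1 hu hbal hy
  have r2 := even_row_snk hi hcl hm h.swap.rev1 (by rw [union_comm, hu]) hbal hz
  have s1 : prt (RA R σ) W p ⊆ mis (flip R) (snk σ V0) y := by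
    intro v hv
    have q := mem_prt.1 hv
    have hv' : σ v = false := by simpa [hp] using q.ST_of_card cW
    refine mem_mis.2 ⟨mem_snk.2 ⟨hWV q.mem_right, hv'⟩, ?_, (hE v p y q.rev hv' h.h1).1⟩
    exact fun e' => disjoint_left.1 h.dj h.h1.mem_right (e' ▸ q.mem_right)
  have s2 : prt (RA R σ) U x ⊆ mis (flip R) (snk σ V0) z := by
    intro v hv
    have q := mem_prt.1 hv
    refine mem_mis.2 ⟨mem_snk.2 ⟨hUV q.mem_right, hP v q⟩, ?_, (hE z p v h.h2.rev hz q).2⟩
    exact fun e' => disjoint_left.1 h.dj q.mem_right (e' ▸ h.h2.mem_right)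
  have t1 : xd R σ V0 y = xd R σ U y := by
    rw [← hu, xd_union h.dj,
      xd_eq_zero (U := W) (hno y h.h1.mem_right (even_ne hA hy).symm), add_zero]
  have t2 : xd R σ V0 z = xd R σ W z := by
    rw [← hu, xd_union h.dj, xd_eq_zero (U := U), zero_add]
    intro v hv e'
    by_cases q : v = x
    · exact hsee z p h.h2.rev (q ▸ RA.sy R σ _ _ e')
    · exact hno v hv q z h.h2.mem_right (RA.sy R σ _ _ e')
  have u1 := posa_xd h.h1
  have u2 := posa_xd h.h2
  have := card_le_card s1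
  have := card_le_card s2
  omega

/-- First type of partner: the covers `r .. A` and `y .. p`. -/
theorem even_first (hi : Irr R) (hcl : CL R V0 m) (hm : V0.card ≤ 2 * m) {r A y p : V}
    (h : LP R σ U W r A y p) (hu : U ∪ W = V0) (hr : σ r = false) (hA : σ A = true)
    (hy : σ y = false) (hp : σ p = true) (e : R p A) : ¬ NW R V0 := by
  have hAU := h.h1.mem_right
  have hAW : A ∉ W := fun q => disjoint_left.1 h.dj hAU q
  have hne : ∀ v ∈ W, v ≠ A := fun v hv q => hAW (q ▸ hv)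
  by_cases hl : ∀ u ∈ U, u ≠ A → ∀ w ∈ W, ¬ RA R σ u w
  · exact even_L1 hi hcl hm h.rev1.rev2 hu hA hr hp hy hl
  · push Not at hl
    obtain ⟨u, hu1, hu2, w, hw, e'⟩ := hl
    obtain ⟨t, q1, q2⟩ := h.h1.init (even_ne hA hr).symm
    have ht : σ t = false := (q1.to_src hA).1
    have hl : LP R (Function.update σ A false) (insert A W) (U.erase A) y A r t := by
      refine ⟨h.h2.snoc_snk hp hAW e, q2.upd (notMem_erase _ _) false, ?_, w, mem_insert_of_mem hw,
        u, mem_erase.2 ⟨hu2, hu1⟩, (RA.sy R σ _ _ e').upd (hne w hw) hu2 false⟩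
      rw [disjoint_insert_left]
      exact ⟨notMem_erase _ _, h.dj.symm.mono_right (erase_subset _ _)⟩
    refine tt_tt hi hcl hm hl ?_ ?_ (by simp) ?_ ?_
    · rw [← hu, insert_union, ← union_insert, insert_erase hAU, union_comm]
    · rw [Function.update_of_ne (even_ne hA hy).symm, hy]
    · rw [Function.update_of_ne (even_ne hA hr).symm, hr]
    · rw [Function.update_of_ne (even_ne hA ht).symm, ht]

/-- Second type of partner: the covers `r .. y` and `A .. p`. -/
theorem even_second (hi : Irr R) (hcl : CL R V0 m) (hm : V0.card ≤ 2 * m) {r A y p : V}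
    (h : LP R σ U W r y A p) (hu : U ∪ W = V0) (hr : σ r = false) (hA : σ A = true)
    (hy : σ y = false) (hp : σ p = true) (e : A = p ∨ R p A) : ¬ NW R V0 := by
  intro hnw
  refine even_L0 hi hcl hm h.swap (by rw [union_comm, hu]) hA hp hr hy ?_ hnw
  intro z hz s hs e'
  obtain ⟨z', q⟩ := mem_ends.1 hz
  obtain ⟨z1, z2⟩ := q.TT_of_card (h.h1.card_TT hr hy)
  by_cases hsA : s = A
  · subst hsA
    exact hnw σ z' p ((q.rev.append h.h2 h.dj e').cast hu)
  · have hAp : A ≠ p := by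
      rintro rfl
      rw [h.h2.eq_single, mem_singleton] at hs
      exact hsA hs
    obtain ⟨t, t1, -, t3⟩ := h.h2.flip_end hp hAp (e.resolve_left hAp)
    have ht : σ t = false := (t1.of_src hA).1
    have hAU : A ∉ U := fun q' => disjoint_left.1 h.dj q' h.h2.mem_left
    have hl : LP R (Function.update σ A false) U W z z' t A :=
      ⟨q.upd hAU false, t3, h.dj, z, q.mem_left, s, hs, e'.upd (even_ne hA z1).symm hsA false⟩
    refine tt_tt hi hcl hm hl hu ?_ ?_ ?_ (by simp) hnw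
    · rw [Function.update_of_ne (even_ne hA z1).symm, z1]
    · rw [Function.update_of_ne (even_ne hA z2).symm, z2]
    · rw [Function.update_of_ne (even_ne hA ht).symm, ht]

open Classical in
/-- Source ends of linked pairs that cover `V0`. -/
noncomputable def evenRows (R : V → V → Prop) (σ : V → Bool) (V0 : Finset V) : Finset V :=
  V0.filter (fun s => σ s = true ∧ ∃ U W b c d, LP R σ U W s b c d ∧ U ∪ W = V0)

theorem mem_evenRows {s : V} :
    s ∈ evenRows R σ V0 ↔ σ s = true ∧ ∃ U W b c d, LP R σ U W s b c d ∧ U ∪ W = V0 := by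
  simp only [evenRows, mem_filter]
  exact ⟨fun h => h.2, fun ⟨h1, U, W, b, c, d, h2, h3⟩ =>
    ⟨h3 ▸ mem_union_left _ h2.h1.mem_left, h1, U, W, b, c, d, h2, h3⟩⟩

/-- The column of a source end weighs at least one. -/
theorem even_col (hi : Irr R) (hcl : CL R V0 m) (hm : V0.card ≤ 2 * m) (hnw : NW R V0)
    {a b c d : V} (h : LP R σ U W a b c d) (hu : U ∪ W = V0)
    (hbal : (src σ V0).card = (snk σ V0).card) {A y r p : V} (hA : σ A = true) (hy : σ y = false)
    (hr : σ r = false) (hG : HP (Dum (RA R σ) A y) V0 r p) :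
    1 ≤ wt (xd R σ V0) (col R (evenRows R σ V0) A) := by
  have key : ∀ s, HP (Dum (RA R σ) A y) V0 r s → s ∈ col R (evenRows R σ V0) A := by
    intro s hs
    rcases hs.dum_split with q | ⟨U1, U2, q1, q2, q | q⟩
    · exact absurd q (hnw σ r s)
    · have hl := h.recover q.1 q.2 q1 (q2.trans hu.symm)
      have hs' : σ s = true := by
        have := even_par hl q2
        rw [hr, hA, hy, hbal] at this
        cases e : σ s
        · simp [e] at this
        · rfl
      refine mem_col.2 ⟨mem_evenRows.2 ⟨hs', U2, U1, y, r, A, hl.swap.rev1, by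
        rw [union_comm, q2]⟩, ?_, fun e => even_first hi hcl hm hl q2 hr hA hy hs' e hnw⟩
      exact fun e => disjoint_left.1 q1 q.1.mem_right (e ▸ q.2.mem_right)
    · have hl := h.recover q.1 q.2 q1 (q2.trans hu.symm)
      have hs' : σ s = true := by
        have := even_par hl q2
        rw [hr, hA, hy, hbal] at this
        cases e : σ s
        · simp [e] at this
        · rfl
      exact mem_col.2 ⟨mem_evenRows.2 ⟨hs', U2, U1, A, r, y, hl.swap.rev1, by
        rw [union_comm, q2]⟩, fun e => even_second hi hcl hm hl q2 hr hA hy hs' (Or.inl e) hnw,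
        fun e => even_second hi hcl hm hl q2 hr hA hy hs' (Or.inr e) hnw⟩
  refine (one_le_wt _ (P := prt (Dum (RA R σ) A y) V0 r) ⟨p, mem_prt.2 hG⟩ fun s hs => ?_).trans
    (wt_mono _ fun s hs => key s (mem_prt.1 hs))
  have hs1 := mem_prt.1 hs
  obtain ⟨hs2, U', W', b', c', d', hl, hu'⟩ := mem_evenRows.1 (mem_col.1 (key s hs1)).1
  have r1 := even_row_src hi hcl hm hl hu' hbal hs2
  refine ⟨by omega, le_trans ?_ (posa (Dum.sy (RA.sy R σ) A y) hs1 ?_)⟩
  · exact card_le_card fun v hv => mem_nb.2 ⟨(mem_nb.1 hv).1, Or.inl (mem_nb.1 hv).2⟩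
  · rintro (q | ⟨q1, q2⟩ | ⟨q1, q2⟩)
    · exact RA.irr R σ s q
    · exact even_ne hA hy (q1.symm.trans q2)
    · exact even_ne hA hy (q2.symm.trans q1)

/-- A linked pair with as many sources as sinks. -/
theorem even_bal (hi : Irr R) (hcl : CL R V0 m) (hm : V0.card ≤ 2 * m) {a b c d : V}
    (h : LP R σ U W a b c d) (hu : U ∪ W = V0)
    (hbal : (src σ V0).card = (snk σ V0).card) : ¬ NW R V0 := by
  intro hnw
  have hu' : W ∪ U = V0 := by rw [union_comm, hu]
  have hrow : ∀ s ∈ evenRows R σ V0,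
      (mis R (evenRows R σ V0) s).card + 1 ≤ xd R σ V0 s := by
    intro s hs
    obtain ⟨hs2, U', W', b', c', d', hl, hv⟩ := mem_evenRows.1 hs
    have r1 := even_row_src hi hcl hm hl hv hbal hs2
    have : mis R (evenRows R σ V0) s ⊆ mis R (src σ V0) s := mis_mono fun v hv =>
      mem_src.2 ⟨by classical exact (mem_filter.1 hv).1, (mem_evenRows.1 hv).1⟩
    have := card_le_card this
    omega
  obtain ⟨s, hs⟩ : ∃ s, s ∈ evenRows R σ V0 := by
    have hp := even_par h hu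
    cases ea : σ a
    · cases eb : σ b
      · cases ec : σ c
        · cases ed : σ d <;> simp [ea, eb, ec, ed, hbal] at hp
        · exact ⟨c, mem_evenRows.2 ⟨ec, _, _, _, _, _, h.swap, hu'⟩⟩
      · exact ⟨b, mem_evenRows.2 ⟨eb, _, _, _, _, _, h.rev1, hu⟩⟩
    · exact ⟨a, mem_evenRows.2 ⟨ea, _, _, _, _, _, h, hu⟩⟩
  have hc := count_le R (xd R σ V0) (evenRows R σ V0) (evenRows R σ V0) 1 ?_ hrow
  · have := wt_lt (xd R σ V0) (empty_subset _) hs (notMem_empty s) (by have := hrow s hs; omega)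
    have h0 : wt (xd R σ V0) (∅ : Finset V) = 0 := by simp [wt]
    rw [h0] at this
    push_cast at hc
    linarith
  · intro A hA
    obtain ⟨hA', U', W', B, c', d', hl, hv⟩ := mem_evenRows.1 hA
    have hp := even_par hl hv
    have hv' : W' ∪ U' = V0 := by rw [union_comm, hv]
    cases eB : σ B <;> cases ec : σ c' <;> cases ed : σ d' <;>
      simp [hA', eB, ec, ed, hbal] at hp
    · exact even_col hi hcl hm hnw h hu hbal hA' ec eB
        (((hl.h1.rev.dum A c').append (hl.h2.dum A c') hl.dj (Or.inr (Or.inl ⟨rfl, rfl⟩))).cast hv)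
    · exact even_col hi hcl hm hnw h hu hbal hA' ed eB
        (((hl.h1.rev.dum A d').append (hl.h2.rev.dum A d') hl.dj
          (Or.inr (Or.inl ⟨rfl, rfl⟩))).cast hv)
    · exact even_col hi hcl hm hnw h hu hbal hA' ed ec
        (((hl.h2.dum A d').append (hl.h1.dum A d') hl.dj.symm
          (Or.inr (Or.inr ⟨rfl, rfl⟩))).cast hv')

end Pool.Agent.Lib.MP_04ab3e_co.X
end

-- part Pool.Agent.Lib.MP_04ab3e_co.X.ZLem
section

/-! A cycle linked to an odd path: every vertex of the cycle carries a link. -/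

namespace Pool.Agent.Lib.MP_04ab3e_co.X

open Finset

variable {V : Type} [DecidableEq V]

variable {R : V → V → Prop} {σ : V → Bool} {C W V0 : Finset V} {m : ℕ}

/-- An end of a path of `W` has no role neighbour on the cycle. -/
theorem zl_noedge (hnw : NW R V0) (hd : Disjoint C W) (hu : C ∪ W = V0) {a b g s v : V}
    (hC : HP (RA R σ) C a b) (hcyc : RA R σ b a) (hW : HP (RA R σ) W g s) (hv : v ∈ C) :
    ¬ RA R σ g v := fun e => by
  obtain ⟨v', h1, -⟩ := hC.rotate hcyc hv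
  exact hnw σ _ _ ((hW.rev.append h1 hd.symm e).cast (by rw [union_comm, hu]))

theorem zl_bal {a b : V} (hC : HP (RA R σ) C a b) (hcyc : RA R σ b a) :
    (src σ C).card = (snk σ C).card := by
  cases ha : σ a
  · exact hC.card_TS ha (hcyc.to_snk ha).1
  · exact hC.card_ST ha (hcyc.to_src ha).1

theorem zl_card (hm : V0.card + 1 ≤ 2 * m) (hd : Disjoint C W) (hu : C ∪ W = V0) {a b A B : V}
    (hC : HP (RA R σ) C a b) (hcyc : RA R σ b a) (hW : HP (RA R σ) W A B) (hA : σ A = true)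
    (hB : σ B = true) : (src σ C).card + (src σ W).card ≤ m := by
  have h1 := zl_bal hC hcyc
  have h2 := hW.card_SS hA hB
  have h3 := card_src_add_snk σ C
  have h4 := card_src_add_snk σ W
  rw [← hu, card_union_of_disjoint hd] at hm
  omega

/-- The row bound for the ends of `W`. -/
theorem zl_row (hi : Irr R) (hnw : NW R V0) (hcl : CL R V0 m) (hm : V0.card + 1 ≤ 2 * m)
    (hd : Disjoint C W) (hu : C ∪ W = V0) {a b A B : V}
    (hC : HP (RA R σ) C a b) (hcyc : RA R σ b a)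
    (hW : HP (RA R σ) W A B) (hA : σ A = true) (hB : σ B = true) (hl : Lk (RA R σ) C W)
    {s : V} (hs : s ∈ ends (RA R σ) W) :
    (mis R (src σ W) s).card + (mis R (src σ C) s).card + 1 ≤ xd R σ W s := by
  have h1 := ends_src hW hA hB hs
  obtain ⟨s', h2⟩ := mem_ends.1 hs
  have h3 := hcl σ W C s s' a b ⟨h2, hC, hd.symm, hl.symm (RA.sy R σ)⟩ (by rw [union_comm, hu])
  have h4 : od R (snk σ C) s = 0 := od_eq_zero fun v hv e =>
    zl_noedge hnw hd hu hC hcyc h2 (mem_snk.1 hv).1 (RA.mk h1 (mem_snk.1 hv).2 e)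
  have h5 := od_add_mis (R := R) (U := src σ C) (a := s) fun q =>
    disjoint_left.1 hd (mem_src.1 q).1 h2.mem_left
  have h6 := row_eq hi h1 h2.mem_left
  have h7 := zl_card hm hd hu hC hcyc hW hA hB
  rw [deg_src h1, ← hu, od_union hd, od_split (U := C) σ] at h3
  omega

/-- Propagation step. `W` has a Hamilton path between two sources, the sink `β` of the cycle `C`
has a role neighbour in `W`, and `α` is the other end of a Hamilton path of `C` from `β`. -/
theorem zstep (hi : Irr R) (hnw : NW R V0) (hcl : CL R V0 m) (hm : V0.card + 1 ≤ 2 * m)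
    (hd : Disjoint C W) (hu : C ∪ W = V0) {a b A B α β : V}
    (hC : HP (RA R σ) C a b) (hcyc : RA R σ b a)
    (hW : HP (RA R σ) W A B) (hA : σ A = true) (hB : σ B = true)
    (hβ : σ β = false) (hH : HP (RA R σ) C β α) (hl : ∃ q ∈ W, RA R σ β q) :
    ∃ t ∈ W, RA R σ α t := by
  obtain ⟨q0, hq0, hq⟩ := hl
  have hlk : Lk (RA R σ) C W := ⟨β, hH.mem_left, q0, hq0, hq⟩
  have hα : σ α = true := by rw [hH.ST_of_card (zl_bal hC hcyc), hβ]; rfl
  obtain ⟨f, hf⟩ := hH.succF
  have hne : ∀ t ∈ nb (RA R σ) C α, t ≠ α := fun t ht e =>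
    RA.irr R σ α (e ▸ (mem_nb.1 ht).2)
  have hZ : ∀ z ∈ (nb (RA R σ) C α).image f,
      z ∈ src σ C ∧ ∃ e, HP (RA R σ) (C.erase z) β e := by
    intro z hz
    obtain ⟨t, ht, rfl⟩ := mem_image.1 hz
    obtain ⟨h1, h2⟩ := mem_nb.1 ht
    obtain ⟨-, U1, U2, p1, p2, p3, p4, p5⟩ := hf.2 t h1 (hne t ht)
    have n1 : f t ∉ U1 := fun q => disjoint_left.1 p4 q p2.mem_left
    refine ⟨mem_src.2 ⟨p5 ▸ mem_union_right _ p2.mem_left, (p3.of_snk (h2.of_src hα).1).1⟩, ?_⟩
    rw [← p5, erase_union_distrib, erase_eq_of_notMem n1]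
    by_cases e : f t = α
    · rw [e] at p2 ⊢
      exact ⟨t, p1.cast (by rw [p2.eq_single]; simp)⟩
    · obtain ⟨u, -, q2⟩ := p2.tail e
      exact ⟨u, p1.append q2.rev (p4.mono_right (erase_subset _ _)) (RA.sy R σ _ _ h2)⟩
  have hcard : ((nb (RA R σ) C α).image f).card = xd R σ C α :=
    card_image_of_injOn fun x hx y hy e =>
      hf.1 (mem_coe.2 (mem_erase.2 ⟨hne x hx, (mem_nb.1 hx).1⟩))
        (mem_coe.2 (mem_erase.2 ⟨hne y hy, (mem_nb.1 hy).1⟩)) e
  have hmoe := moe hW hA hB ((nb (RA R σ) C α).image f)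
    (hd.mono_left fun z hz => (mem_src.1 (hZ z hz).1).1) (fun z hz A' B' h e => ?_) fun s hs => ?_
  rotate_left
  · obtain ⟨h1, e', h2⟩ := hZ z hz
    have h3 := (mem_src.1 h1).1
    have h4 : z ∉ W := disjoint_left.1 hd h3
    obtain ⟨h5, h6⟩ := h.SS_of_card (hW.card_SS hA hB)
    have n1 : A' ≠ z := fun q => h4 (q ▸ h.mem_left)
    obtain ⟨q', p, -⟩ := (h.snoc_snk h6 h4 e.2).rotate
      (RA.mk' (by simp) (by rw [Function.update_of_ne n1, h5]) e.1) (mem_insert_of_mem hq0)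
    refine hnw _ _ _ ((p.rev.append (h2.upd (notMem_erase _ _) false) ?_
      ((RA.sy R σ _ _ hq).upd (fun q : q0 = z => h4 (q ▸ hq0))
        (mem_erase.1 h2.mem_left).1 false)).cast ?_)
    · rw [disjoint_insert_left]
      exact ⟨notMem_erase _ _, hd.symm.mono_right (erase_subset _ _)⟩
    · rw [insert_union, union_comm, ← insert_union, insert_erase h3, hu]
  · have h1 := zl_row hi hnw hcl hm hd hu hC hcyc hW hA hB hlk hs
    have h2 : (mis R ((nb (RA R σ) C α).image f) s).card ≤ (mis R (src σ C) s).card :=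
      card_le_card fun v hv => mem_mis.2 ⟨(hZ v (mem_mis.1 hv).1).1, (mem_mis.1 hv).2⟩
    omega
  have hgs : good R σ W ⊆ src σ W := fun g hg =>
    mem_src.2 ⟨ends_subset (good_subset hg), ends_src hW hA hB (good_subset hg)⟩
  have hg : od R (src σ W) α ≤ (src σ W \ good R σ W).card := od_le_of_subset fun g h1 e => by
    refine mem_sdiff.2 ⟨h1, fun hg => ?_⟩
    obtain ⟨s, h2, h3⟩ := mem_good.1 hg
    obtain ⟨t, -, -, p⟩ := h2.flip_end (h2.SS_of_card (hW.card_SS hA hB)).2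
      (fun q => hi s (q ▸ h3)) h3
    have n1 : g ∉ C := disjoint_right.1 hd h2.mem_left
    have n2 : α ≠ g := fun q => n1 (q ▸ hH.mem_right)
    exact hnw _ _ _ (((hH.upd n1 false).append p.rev hd
      (RA.mk (by rw [Function.update_of_ne n2, hα]) (by simp) e)).cast hu)
  by_contra hn
  have h1 : od R (snk σ W) α = 0 := od_eq_zero fun v hv e =>
    hn ⟨v, (mem_snk.1 hv).1, RA.mk hα (mem_snk.1 hv).2 e⟩
  have h2 := hcl σ C W α β A B ⟨hH.rev, hW, hd, hlk⟩ hu
  have h3 := row_eq hi hα hH.mem_right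
  have h4 := zl_card hm hd hu hC hcyc hW hA hB
  have h5 := card_le_card hgs
  rw [card_sdiff_of_subset hgs] at hg
  rw [deg_src hα, ← hu, od_union hd, od_split (U := W) σ] at h2
  omega

/-- The cycle lemma. -/
theorem zlemma (hi : Irr R) (hnw : NW R V0) (hcl : CL R V0 m) (hm : V0.card + 1 ≤ 2 * m)
    (hd : Disjoint C W) (hu : C ∪ W = V0) {a b y y' : V}
    (hC : HP (RA R σ) C a b) (hcyc : RA R σ b a)
    (hW : HP (RA R σ) W y y') (hy : σ y = false) (hy' : σ y' = false)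
    (hl : Lk (RA R σ) C W) : ∀ v ∈ C, ∃ w ∈ W, RA R σ v w := by
  have hC' : HP (RA (flip R) (neg σ)) C a b := by simpa using hC
  have hcyc' : RA (flip R) (neg σ) b a := by simpa using hcyc
  have hW' : HP (RA (flip R) (neg σ)) W y y' := by simpa using hW
  obtain ⟨g, t, g1, g2, g3, -, g4⟩ := moe_flip' hi hW hy hy' fun s hs => by
    have := zl_row hi.dual hnw.dual hcl.dual hm hd hu hC' hcyc' hW' (by simpa using hy)
      (by simpa using hy') (by simpa using hl) (s := s) (by simpa using hs)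
    simp only [src_neg, xd_dual] at this
    omega
  obtain ⟨g', g5⟩ := mem_ends.1 g1
  have n1 : g ∉ C := disjoint_right.1 hd g5.mem_left
  have n2 : ∀ v ∈ C, v ≠ g := fun v hv q => n1 (q ▸ hv)
  have n3 : t ≠ g := fun q => by rw [q, g2] at g3; exact Bool.false_ne_true g3
  have hC1 := hC.upd n1 true
  have hcyc1 := hcyc.upd (n2 b hC.mem_right) (n2 a hC.mem_left) true
  have step : ∀ u v, HP (RA R σ) C u v → (∃ w ∈ W, RA R σ u w) → ∃ w ∈ W, RA R σ v w := by
    rintro u v h ⟨w, hw, e⟩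
    cases hu' : σ u
    · have n4 : w ≠ g := fun q =>
        zl_noedge hnw hd hu hC hcyc g5 h.mem_left (q ▸ RA.sy R σ _ _ e)
      obtain ⟨w', hw', e'⟩ := zstep hi hnw hcl hm hd hu hC1 hcyc1 g4
        (by rw [Function.update_of_ne n3, g3]) (by simp)
        (by rw [Function.update_of_ne (n2 u h.mem_left), hu']) (h.upd n1 true)
        ⟨w, hw, e.upd (n2 u h.mem_left) n4 true⟩
      have n5 : w' ≠ g := fun q =>
        zl_noedge hnw hd hu hC1 hcyc1 g4.rev h.mem_right (RA.sy R _ _ _ (by rwa [q] at e'))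
      exact ⟨w', hw', e'.congr (Function.update_of_ne (n2 v h.mem_right) _ _).symm
        (Function.update_of_ne n5 _ _).symm⟩
    · simpa using zstep hi.dual hnw.dual hcl.dual hm hd hu hC' hcyc' hW' (by simpa using hy)
        (by simpa using hy') (β := u) (α := v) (by simpa using hu') (by simpa using h)
        ⟨w, hw, by simpa using e⟩
  intro v hv
  by_contra hn
  obtain ⟨u, h1, h2⟩ := hl
  obtain ⟨v', p, e⟩ := hC.rotate hcyc hv
  by_cases h3 : u = v'
  · exact hn (step _ _ p.rev (h3 ▸ h2))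
  obtain ⟨U1, U2, u', p1, p2, p3, p4, p5⟩ := p.split h1 h3
  rcases p1.first (fun x => ∃ w ∈ W, RA R σ x w) h2 with
    q | ⟨U3, U4, x, f, q1, q2, q3, q4, q5, q6, q7⟩
  · exact hn q
  subst q5
  rw [disjoint_union_left] at p4
  refine q7 x q1.mem_right (step f x (((q2.append p2 p4.2 p3).append q1 ?_ e).cast ?_) q6)
  · rw [disjoint_union_left]
    exact ⟨q4.symm, p4.1.symm⟩
  · rw [← p5, union_comm, union_assoc]

end Pool.Agent.Lib.MP_04ab3e_co.X
end

-- part Pool.Agent.Lib.MP_04ab3e_co.X.T1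
section

/-! A linked pair of odd size spans a path. -/

namespace Pool.Agent.Lib.MP_04ab3e_co.X

open Finset

variable {V : Type} [DecidableEq V]

variable {R : V → V → Prop} {σ : V → Bool} {U W V0 : Finset V} {m : ℕ}

/-- A state: a path from a sink `y` to a source `p` on `F` and a path between two sources on `O`. -/
structure St (R : V → V → Prop) (σ : V → Bool) (V0 F O : Finset V) (y p A B : V) : Prop where
  hF : HP (RA R σ) F y p
  hO : HP (RA R σ) O A B
  dj : Disjoint F O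
  un : F ∪ O = V0
  sy : σ y = false
  sp : σ p = true
  sA : σ A = true
  sB : σ B = true

/-- `A` is an end of the second path of a state. -/
def OEnd (R : V → V → Prop) (σ : V → Bool) (V0 : Finset V) (A : V) : Prop :=
  ∃ F O y p B, St R σ V0 F O y p A B

/-- `p` is the source end of the first path of a state. -/
def FEnd (R : V → V → Prop) (σ : V → Bool) (V0 : Finset V) (p : V) : Prop :=
  ∃ F O y A B, St R σ V0 F O y p A B

open Classical in
/-- All source ends of states. -/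
noncomputable def rows1 (R : V → V → Prop) (σ : V → Bool) (V0 : Finset V) : Finset V :=
  V0.filter (fun s => OEnd R σ V0 s ∨ FEnd R σ V0 s)

variable {F O : Finset V} {y p A B : V}

theorem St.rev (h : St R σ V0 F O y p A B) : St R σ V0 F O y p B A :=
  ⟨h.hF, h.hO.rev, h.dj, h.un, h.sy, h.sp, h.sB, h.sA⟩

theorem St.subF (h : St R σ V0 F O y p A B) : F ⊆ V0 := h.un ▸ subset_union_left

theorem St.subO (h : St R σ V0 F O y p A B) : O ⊆ V0 := h.un ▸ subset_union_right

theorem St.memA (h : St R σ V0 F O y p A B) : A ∈ rows1 R σ V0 := by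
  classical
  exact mem_filter.2 ⟨h.subO h.hO.mem_left, Or.inl ⟨F, O, y, p, B, h⟩⟩

theorem St.memp (h : St R σ V0 F O y p A B) : p ∈ rows1 R σ V0 := by
  classical
  exact mem_filter.2 ⟨h.subF h.hF.mem_right, Or.inr ⟨F, O, y, A, B, h⟩⟩

theorem St.card (h : St R σ V0 F O y p A B) : (src σ V0).card = (snk σ V0).card + 1 := by
  rw [← h.un, card_src_union h.dj, card_snk_union h.dj, h.hF.card_TS h.sy h.sp,
    h.hO.card_SS h.sA h.sB]
  omega

theorem St.win1 (h : St R σ V0 F O y p A A) (e : R p A) : ¬ NW R V0 := fun hnw => by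
  have hO := h.hO.eq_single
  have hA : A ∉ F := fun q => disjoint_left.1 h.dj q h.hO.mem_left
  refine hnw _ _ _ ((h.hF.snoc_snk h.sp hA e).cast ?_)
  rw [← h.un, hO, union_comm]; rfl

theorem St.win2 (h : St R σ V0 F O y p A B) (hAB : A ≠ B) (e : R p A) (e' : R B A) :
    ¬ NW R V0 := fun hnw => by
  have hA : A ∉ F := fun q => disjoint_left.1 h.dj q h.hO.mem_left
  obtain ⟨t, -, h2⟩ := h.hO.tail hAB
  refine hnw _ _ _ ((h.hF.join_snk h2.rev (h.dj.mono_right (erase_subset _ _)) h.sp h.sB hA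
    (notMem_erase _ _) e e').cast ?_)
  rw [← h.un, ← union_insert, insert_erase h.hO.mem_left]

/-- The partners of `r` in an auxiliary graph lie in the column `c`. -/
theorem col_of_prt {G : V → V → Prop} (hs : Sy G) {r s0 c : V} {Rw : Finset V} {x : V → ℕ}
    (h : HP G V0 r s0)
    (hp : ∀ s, HP G V0 r s → s ∈ col R Rw c ∧ ¬ G s s ∧ 0 < x s ∧ x s ≤ (nb G V0 s).card) :
    1 ≤ wt x (col R Rw c) := by
  refine (one_le_wt x ⟨s0, mem_prt.2 h⟩ fun t ht => ?_).trans
    (wt_mono _ fun t ht => (hp t (mem_prt.1 ht)).1)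
  obtain ⟨-, h1, h2, h3⟩ := hp t (mem_prt.1 ht)
  exact ⟨h2, h3.trans (posa hs (mem_prt.1 ht) h1)⟩

theorem xd_le_nb_dum (A D s : V) : xd R σ V0 s ≤ (nb (Dum (RA R σ) A D) V0 s).card :=
  card_le_card fun _ ht => mem_nb.2 ⟨(mem_nb.1 ht).1, Or.inl (mem_nb.1 ht).2⟩

theorem dum_state (hnw : NW R V0) (hS : (src σ V0).card = (snk σ V0).card + 1)
    (hA : σ A = true) (hy : σ y = false) {s s' : V} (h : HP (Dum (RA R σ) A y) V0 s s') :
    (∃ F O, St R σ V0 F O y s' A s) ∨ ∃ F O, St R σ V0 F O y s A s' := by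
  rcases h.dum_split with q | ⟨U1, U2, hd, hu, ⟨q1, q2⟩ | ⟨q1, q2⟩⟩
  · exact absurd q (hnw _ _ _)
  · have p1 := q1.parity
    have p2 := q2.parity
    rw [← hu, card_src_union hd, card_snk_union hd] at hS
    rw [hA] at p1; rw [hy] at p2
    have : σ s = true ∧ σ s' = true := by
      cases e1 : σ s <;> cases e2 : σ s' <;> simp [e1, e2] at p1 p2 ⊢ <;> omega
    exact Or.inl ⟨U2, U1, q2, q1.rev, hd.symm, by rw [union_comm, hu], hy, this.2, hA, this.1⟩
  · have p1 := q1.parity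
    have p2 := q2.parity
    rw [← hu, card_src_union hd, card_snk_union hd] at hS
    rw [hy] at p1; rw [hA] at p2
    have : σ s = true ∧ σ s' = true := by
      cases e1 : σ s <;> cases e2 : σ s' <;> simp [e1, e2] at p1 p2 ⊢ <;> omega
    exact Or.inr ⟨U1, U2, q1.rev, q2, hd, hu, hy, this.1, hA, this.2⟩

/-- The column of an end of the second path weighs at least one. -/
theorem St.col_O (h : St R σ V0 F O y p A B) (hnw : NW R V0)
    (hx : ∀ s ∈ rows1 R σ V0, 0 < xd R σ V0 s) :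
    1 ≤ wt (xd R σ V0) (col R (rows1 R σ V0) A) := by
  have hs := Dum.sy (RA.sy R σ) A y
  have hAy : A ≠ y := fun e => by have := h.sA; rw [e, h.sy] at this; simp at this
  have hirr : ∀ s, ¬ Dum (RA R σ) A y s s := by
    rintro s (q | ⟨q1, q2⟩ | ⟨q1, q2⟩)
    · exact RA.irr R σ s q
    · exact hAy (q1.symm.trans q2)
    · exact hAy (q2.symm.trans q1)
  have hrow : ∀ s s', HP (Dum (RA R σ) A y) V0 s s' → s' ∈ rows1 R σ V0 := by
    intro s s' q
    rcases dum_state hnw h.card h.sA h.sy q with ⟨F', O', q⟩ | ⟨F', O', q⟩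
    · exact q.memp
    · exact q.rev.memA
  have fin : ∀ r s0, HP (Dum (RA R σ) A y) V0 r s0 →
      (∀ s, HP (Dum (RA R σ) A y) V0 r s → A ≠ s ∧ ¬ R s A) →
      1 ≤ wt (xd R σ V0) (col R (rows1 R σ V0) A) := fun r s0 q hq =>
    col_of_prt hs q fun s q' => ⟨mem_col.2 ⟨hrow r s q', hq s q'⟩, hirr s, hx s (hrow r s q'),
      xd_le_nb_dum A y s⟩
  by_cases e : ∃ s, HP (Dum (RA R σ) A y) V0 A s
  · obtain ⟨s0, q⟩ := e
    refine fin A s0 q fun s q' => ?_
    rcases dum_state hnw h.card h.sA h.sy q' with ⟨F', O', q⟩ | ⟨F', O', q⟩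
    · exact ⟨fun e => disjoint_left.1 q.dj q.hF.mem_right (e ▸ q.hO.mem_left),
        fun e => q.win1 e hnw⟩
    · exact absurd q.hO.mem_left (disjoint_left.1 q.dj q.hF.mem_right)
  · have hne : ∀ r s, HP (Dum (RA R σ) A y) V0 r s → A ≠ s := fun r s q e' => by
      have q' := q.symm hs
      rw [← e'] at q'
      exact e ⟨r, q'⟩
    have hcov : ∀ r s, HP (Dum (RA R σ) A y) V0 r s → R r A → ¬ R s A := by
      intro r s q e1 e2
      rcases dum_state hnw h.card h.sA h.sy q with ⟨F', O', q'⟩ | ⟨F', O', q'⟩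
      · exact q'.win2 (hne _ _ (q.symm hs)) e2 e1 hnw
      · exact q'.win2 (hne _ _ q) e1 e2 hnw
    have base : HP (Dum (RA R σ) A y) V0 B p :=
      ((h.hO.rev.dum A y).append (h.hF.dum A y) h.dj.symm (Or.inr (Or.inl ⟨rfl, rfl⟩))).cast
        (by rw [union_comm, h.un])
    by_cases e' : ∃ r s, HP (Dum (RA R σ) A y) V0 r s ∧ R r A
    · obtain ⟨r, s, q1, q2⟩ := e'
      exact fin r s q1 fun t q => ⟨hne _ _ q, hcov r t q q2⟩
    · exact fin B p base fun t q => ⟨hne _ _ q, fun q' => e' ⟨t, B, q.symm hs, q'⟩⟩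

/-- If `p` is never an end of a second path, the ends of `O` have no role neighbour on `F`. -/
theorem St.closed (h : St R σ V0 F O y p A B) (hp : ¬ OEnd R σ V0 p) {s : V}
    (hs : s ∈ ends (RA R σ) O) : ∀ t ∈ F, ¬ RA R σ s t := by
  intro t ht e
  obtain ⟨s', q⟩ := mem_ends.1 hs
  obtain ⟨e1, e2⟩ := q.SS_of_card (h.hO.card_SS h.sA h.sB)
  have hσ := (e.of_src e1).1
  have htp : t ≠ p := fun q => by rw [q, h.sp] at hσ; simp at hσ
  obtain ⟨U1, U2, t', p1, p2, p3, p4, p5⟩ := h.hF.split ht htp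
  have hd := h.dj
  rw [← p5, disjoint_union_left] at hd
  refine hp ⟨U1 ∪ O, U2, y, s', t', p1.append q hd.1 (RA.sy R σ _ _ e), p2.rev, ?_, ?_, h.sy, e2,
    h.sp, (p3.of_snk hσ).1⟩
  · rw [disjoint_union_left]; exact ⟨p4, hd.2.symm⟩
  · rw [← h.un, ← p5, union_right_comm]

/-- No role edge from a source of `O` to `F`, and none from `F` minus `p` to `O`. -/
def Cut (R : V → V → Prop) (σ : V → Bool) (F O : Finset V) (p : V) : Prop :=
  ∀ u ∈ O, ∀ w ∈ F, w ≠ p → ¬ RA R σ u w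

theorem St.cut (h : St R σ V0 F O y p A B) (hi : Irr R) (hnw : NW R V0) (hcl : CL R V0 m)
    (hm : V0.card + 1 ≤ 2 * m) (hc : ∀ t ∈ F, ¬ RA R σ A t) (e1 : R A p) (e2 : R B p) :
    Cut R σ F O p := by
  intro u hu w hw hwp e
  have hpO : p ∉ O := disjoint_left.1 h.dj h.hF.mem_right
  have hyp : y ≠ p := fun q => by have := h.sp; rw [← q, h.sy] at this; simp at this
  have hne : ∀ v ∈ O, v ≠ p := fun v hv q => hpO (q ▸ hv)
  obtain ⟨t, q1, q2⟩ := h.hF.init hyp
  have hC := h.hO.snoc_snk h.sB hpO e2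
  have hd : Disjoint (insert p O) (F.erase p) := by
    rw [disjoint_insert_left]
    exact ⟨notMem_erase _ _, h.dj.symm.mono_right (erase_subset _ _)⟩
  have hu' : insert p O ∪ F.erase p = V0 := by
    rw [insert_union, ← union_insert, insert_erase h.hF.mem_right, union_comm, h.un]
  have htp : t ≠ p := ne_of_mem_erase q2.mem_right
  have := zlemma hi hnw hcl hm hd hu' hC
    (RA.mk' (by simp) (by rw [Function.update_of_ne (hne A h.hO.mem_left), h.sA]) e1)
    (q2.upd (notMem_erase _ _) false) (by rw [Function.update_of_ne hyp, h.sy])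
    (by rw [Function.update_of_ne htp, (q1.to_src h.sp).1])
    ⟨u, mem_insert_of_mem hu, w, mem_erase.2 ⟨hwp, hw⟩, e.upd (hne u hu) hwp false⟩
    A (mem_insert_of_mem h.hO.mem_left)
  obtain ⟨w', hw', e'⟩ := this
  refine hc w' (mem_of_mem_erase hw') (e'.congr ?_ ?_)
  · rw [Function.update_of_ne (hne A h.hO.mem_left)]
  · rw [Function.update_of_ne (ne_of_mem_erase hw')]

theorem hall_xd {a b : V} (h : HP (RA R σ) U a b) {Z N : Finset V} (hb : b ∉ Z)
    (hN : ∀ s ∈ Z, ∀ t, RA R σ s t → t ∈ U → t ∈ N) : (Z ∩ U).card ≤ (N ∩ U).card := by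
  refine (h.hall (Z ∩ U) inter_subset_right (fun q => hb (mem_inter.1 q).1)).trans
    (card_le_card fun t ht => ?_)
  simp only [mem_filter, mem_inter] at ht ⊢
  obtain ⟨h1, s, h2, h3⟩ := ht
  exact ⟨hN s h2.1 t h3 h1, h1⟩

theorem card_inter_union {Z : Finset V} (hd : Disjoint U W) :
    (Z ∩ (U ∪ W)).card = (Z ∩ U).card + (Z ∩ W).card := by
  rw [inter_union_distrib_left,
    card_union_of_disjoint (hd.mono inter_subset_right inter_subset_right)]

/-- After a cut every second path lies in `O`. -/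
theorem St.subset_of_cut (h : St R σ V0 F O y p A B) (hc : Cut R σ F O p) {F' O' : Finset V}
    {y' p' A' B' : V} (h' : St R σ V0 F' O' y' p' A' B') : O' ⊆ O := by
  have hN : ∀ s ∈ src σ O, ∀ t, RA R σ s t → t ∈ V0 → t ∈ snk σ O := by
    intro s hs t e ht
    obtain ⟨h1, h2⟩ := mem_src.1 hs
    have h3 := (e.of_src h2).1
    rw [← h.un] at ht
    rcases mem_union.1 ht with q | q
    · exact absurd e (hc s h1 t q fun q' => by rw [q', h.sp] at h3; simp at h3)
    · exact mem_snk.2 ⟨q, h3⟩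
  have hsrc : ∀ v ∈ O', σ v = true → v ∈ O := by
    intro v hv hσ
    by_contra hn
    have hvZ : v ∉ src σ O := fun q => hn (mem_src.1 q).1
    have snkZ : ∀ t, σ t = false → t ∉ src σ O := fun t e q => by
      have := (mem_src.1 q).2; simp_all
    have c1 := hall_xd h'.hF.rev (snkZ _ h'.sy) fun s hs t e ht => hN s hs t e (h'.subF ht)
    have c2 : (src σ O ∩ O').card ≤ (snk σ O ∩ O').card := by
      by_cases e : v = B'
      · exact hall_xd h'.hO (e ▸ hvZ) fun s hs t e ht => hN s hs t e (h'.subO ht)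
      · obtain ⟨U1, U2, v', p1, p2, p3, p4, p5⟩ := h'.hO.split hv e
        have d1 := hall_xd p1 hvZ fun s hs t e ht =>
          hN s hs t e (h'.subO (p5 ▸ mem_union_left _ ht))
        have d2 := hall_xd p2.rev (snkZ _ (p3.of_src hσ).1) fun s hs t e ht =>
          hN s hs t e (h'.subO (p5 ▸ mem_union_right _ ht))
        rw [← p5, card_inter_union p4, card_inter_union p4]; omega
    have c3 := card_inter_union (Z := src σ O) h'.dj
    have c4 := card_inter_union (Z := snk σ O) h'.dj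
    have i1 : src σ O ∩ V0 = src σ O := inter_eq_left.2 ((filter_subset _ _).trans h.subO)
    have i2 : snk σ O ∩ V0 = snk σ O := inter_eq_left.2 ((filter_subset _ _).trans h.subO)
    rw [h'.un] at c3 c4
    rw [i1] at c3; rw [i2] at c4
    have := h.hO.card_SS h.sA h.sB
    omega
  intro v hv
  cases hσ : σ v
  · have hvB : v ≠ B' := fun q => by rw [q, h'.sB] at hσ; simp at hσ
    obtain ⟨U1, U2, v', p1, p2, p3, p4, p5⟩ := h'.hO.split hv hvB
    have hv' := (p3.of_snk hσ).1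
    have := hsrc v' (p5 ▸ mem_union_right _ p2.mem_left) hv'
    exact (mem_snk.1 (hN v' (mem_src.2 ⟨this, hv'⟩) v (RA.sy R σ _ _ p3) (h'.subO hv))).1
  · exact hsrc v hv hσ

/-- Linked pair of types source-source and sink-source. -/
theorem t1_src (hi : Irr R) (hcl : CL R V0 m) (hm : V0.card + 1 ≤ 2 * m) {A B y p : V}
    (h : LP R σ U W A B y p) (hu : U ∪ W = V0) (hA : σ A = true) (hB : σ B = true)
    (hy : σ y = false) (hp : σ p = true) : ¬ NW R V0 := by
  classical
  intro hnw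
  have h0 : St R σ V0 W U y p A B :=
    ⟨h.h2, h.h1, h.dj.symm, by rw [union_comm, hu], hy, hp, hA, hB⟩
  have hlp : ∀ {F O y p A B}, St R σ V0 F O y p A B → LP R σ O F A B y p := fun q =>
    h.recover q.hO q.hF q.dj.symm (by rw [union_comm, q.un, hu])
  have hrow : ∀ s ∈ rows1 R σ V0, (mis R (src σ V0) s).card + 1 ≤ xd R σ V0 s := by
    intro s hs
    have key : σ s = true ∧ m ≤ deg R σ V0 s := by
      rcases (mem_filter.1 hs).2 with ⟨F, O, y, p, B, q⟩ | ⟨F, O, y, A, B, q⟩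
      · exact ⟨q.sA, hcl _ _ _ _ _ _ _ (hlp q) (by rw [union_comm, q.un])⟩
      · exact ⟨q.sp, hcl _ _ _ _ _ _ _ (hlp q).swap.rev1 q.un⟩
    have h1 := row_eq hi key.1 (mem_filter.1 hs).1
    have h2 := key.2
    rw [deg_src key.1] at h2
    have h3 := card_src_add_snk σ V0
    have h4 := h0.card
    omega
  have hsub : rows1 R σ V0 ⊆ src σ V0 := by
    intro s hs
    refine mem_src.2 ⟨(mem_filter.1 hs).1, ?_⟩
    rcases (mem_filter.1 hs).2 with ⟨F, O, y, p, B, q⟩ | ⟨F, O, y, A, B, q⟩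
    · exact q.sA
    · exact q.sp
  have hx : ∀ s ∈ rows1 R σ V0, 0 < xd R σ V0 s := fun s hs => by have := hrow s hs; omega
  have hbad : ∀ c ∈ rows1 R σ V0, ¬ 1 ≤ wt (xd R σ V0) (col R (rows1 R σ V0) c) →
      ∃ F O y A B, St R σ V0 F O y c A B ∧ Cut R σ F O c := by
    intro c hc hw
    have hO : ¬ OEnd R σ V0 c := fun ⟨F, O, y, p, B, q⟩ => hw (q.col_O hnw hx)
    obtain ⟨F, O, y, A, B, q⟩ := (mem_filter.1 hc).2.resolve_left hO
    have hst : ∀ A' B', HP (RA R σ) O A' B' → St R σ V0 F O y c A' B' := fun A' B' q' =>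
      ⟨q.hF, q', q.dj, q.un, q.sy, q.sp, (q'.SS_of_card (q.hO.card_SS q.sA q.sB)).1,
        (q'.SS_of_card (q.hO.card_SS q.sA q.sB)).2⟩
    have hE : ∀ s ∈ ends (RA R σ) O, s ∈ rows1 R σ V0 ∧ xd R σ V0 s = xd R σ O s := by
      intro s hs
      obtain ⟨s', q'⟩ := mem_ends.1 hs
      refine ⟨(hst s s' q').memA, ?_⟩
      rw [← q.un, xd_union q.dj, xd_eq_zero (q.closed hO hs), zero_add]
    by_cases e : ∃ A' B', HP (RA R σ) O A' B' ∧ R A' c ∧ R B' c
    · obtain ⟨A', B', q1, q2, q3⟩ := e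
      exact ⟨F, O, y, A', B', hst _ _ q1,
        (hst _ _ q1).cut hi hnw hcl hm (q.closed hO (mem_ends.2 ⟨B', q1⟩)) q2 q3⟩
    · exfalso
      apply hw
      have := one_le_col_of_cover q.hO (c := c)
        (fun q' => disjoint_left.1 q.dj q.hF.mem_right (ends_subset q'))
        (fun s hs => (hE s hs).2 ▸ hx s (hE s hs).1) (fun A' B' q1 q2 => e ⟨A', B', q1, q2⟩)
      refine this.trans (le_trans (le_of_eq ?_)
        (wt_mono _ (P := col R (ends (RA R σ) O) c) fun s hs => ?_))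
      · exact sum_congr rfl fun s hs => by rw [(hE s (mem_col.1 hs).1).2]
      · exact mem_col.2 ⟨(hE s (mem_col.1 hs).1).1, (mem_col.1 hs).2⟩
  have huniq : ∀ c ∈ rows1 R σ V0, ¬ 1 ≤ wt (xd R σ V0) (col R (rows1 R σ V0) c) →
      ∀ c' ∈ rows1 R σ V0, ¬ 1 ≤ wt (xd R σ V0) (col R (rows1 R σ V0) c') → c = c' := by
    intro c hc hw c' hc' hw'
    by_contra hne
    obtain ⟨F, O, y, A, B, q, k⟩ := hbad c hc hw
    obtain ⟨F', O', y', A', B', q', k'⟩ := hbad c' hc' hw'
    have eO : O' = O := Subset.antisymm (q.subset_of_cut k q') (q'.subset_of_cut k' q)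
    subst eO
    obtain ⟨u, hu, w, hw, e⟩ := (hlp q).lk
    by_cases ew : w = c
    · have : w ∈ F' ∪ O' := q'.un ▸ q.subF hw
      exact k' u hu w ((mem_union.1 this).resolve_right (disjoint_left.1 q.dj hw))
        (ew ▸ hne) e
    · exact k u hu w hw ew e
  set Cs := (rows1 R σ V0).filter (fun c => 1 ≤ wt (xd R σ V0) (col R (rows1 R σ V0) c)) with hCs
  have c1 := count_le R (xd R σ V0) (rows1 R σ V0) Cs 1 (fun c hc => (mem_filter.1 hc).2)
    (fun s hs => le_trans (by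
      have hC : Cs ⊆ src σ V0 := (filter_subset _ _).trans hsub
      have := card_le_card (mis_mono (R := R) (a := s) hC)
      omega) (hrow s hs))
  have c2 := card_filter_add_card_filter_not (s := rows1 R σ V0)
    (fun c => 1 ≤ wt (xd R σ V0) (col R (rows1 R σ V0) c))
  have c3 : ((rows1 R σ V0).filter
      (fun c => ¬ 1 ≤ wt (xd R σ V0) (col R (rows1 R σ V0) c))).card ≤ 1 :=
    card_le_one.2 fun a ha b hb => huniq a (mem_filter.1 ha).1 (mem_filter.1 ha).2 b
      (mem_filter.1 hb).1 (mem_filter.1 hb).2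
  have c4 : 1 < wt (xd R σ V0) (rows1 R σ V0) :=
    (h0.col_O hnw hx).trans_lt (wt_lt _ (fun s hs => (mem_col.1 hs).1) h0.memA
      (fun q => (mem_col.1 q).2.1 rfl) (hx A h0.memA))
  have c5 : ((rows1 R σ V0).card : ℚ) ≤ Cs.card + 1 := by
    have : (rows1 R σ V0).card ≤ Cs.card + 1 := by rw [hCs]; omega
    exact_mod_cast this
  push_cast at c1
  linarith

end Pool.Agent.Lib.MP_04ab3e_co.X
end

-- part Pool.Agent.Lib.MP_04ab3e_co.X.HB
section

/-! A linked pair on at most 2 m vertices with closed ends spans a path. -/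

namespace Pool.Agent.Lib.MP_04ab3e_co.X

open Finset

variable {V : Type} [DecidableEq V]

variable {R : V → V → Prop} {σ : V → Bool} {U W V0 : Finset V} {m : ℕ}

/-- Dual form of `t1_src`. -/
theorem t1_snk (hi : Irr R) (hcl : CL R V0 m) (hm : V0.card + 1 ≤ 2 * m) {A B y p : V}
    (h : LP R σ U W A B y p) (hu : U ∪ W = V0) (hA : σ A = false) (hB : σ B = false)
    (hy : σ y = true) (hp : σ p = false) : ¬ NW R V0 := fun hnw =>
  t1_src (R := flip R) hi.dual hcl.dual hm h.dual hu (by simpa using hA) (by simpa using hB)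
    (by simpa using hy) (by simpa using hp) hnw.dual

theorem hb (hi : Irr R) (hcl : CL R V0 m) (hm : V0.card ≤ 2 * m) {a b c d : V}
    (h : LP R σ U W a b c d) (hu : U ∪ W = V0) : ∃ τ x y, HP (RA R τ) V0 x y := by
  by_contra hn
  have hnw : NW R V0 := fun τ x y q => hn ⟨τ, x, y, q⟩
  have p1 := h.h1.parity
  have p2 := h.h2.parity
  have p3 := card_src_union (σ := σ) h.dj
  have p4 := card_snk_union (σ := σ) h.dj
  have p5 := card_src_add_snk σ V0
  have hu' : W ∪ U = V0 := (union_comm _ _).trans hu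
  rw [hu] at p3 p4
  by_cases hbal : (src σ V0).card = (snk σ V0).card
  · exact even_bal hi hcl hm h hu hbal hnw
  cases ea : σ a <;> cases eb : σ b <;> cases ec : σ c <;> cases ed : σ d <;>
    simp only [ea, eb, ec, ed, Bool.toNat_true, Bool.toNat_false] at p1 p2 <;>
    first
    | omega
    | exact ss_ss hi hcl hm h hu ea eb ec ed hnw
    | exact tt_tt hi hcl hm h hu ea eb ec ed hnw
    | exact t1_src hi hcl (by omega) h hu ea eb ec ed hnw
    | exact t1_src hi hcl (by omega) h.rev2 hu ea eb ed ec hnw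
    | exact t1_src hi hcl (by omega) h.swap hu' ec ed ea eb hnw
    | exact t1_src hi hcl (by omega) h.swap.rev2 hu' ec ed eb ea hnw
    | exact t1_snk hi hcl (by omega) h hu ea eb ec ed hnw
    | exact t1_snk hi hcl (by omega) h.rev2 hu ea eb ed ec hnw
    | exact t1_snk hi hcl (by omega) h.swap hu' ec ed ea eb hnw
    | exact t1_snk hi hcl (by omega) h.swap.rev2 hu' ec ed eb ea hnw

end Pool.Agent.Lib.MP_04ab3e_co.X
end
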