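import Pool.Agent.Lib.MP_04ab3e_co.X.AllEnds

/-! Two unlinked paths can be replaced by a linked pair. -/

namespace Pool.Agent.Lib.MP_04ab3e_co.X

open Finset

variable {V : Type} [DecidableEq V]

variable {R : V → V → Prop} {σ : V → Bool} {U W : Finset V}

/-- A source end of `U` that is hit by a source end of `W` and by another source of `U`. -/
theorem unlink_move (hd : Disjoint U W) {z g s : V} (hz : z ∈ src σ (ends (RA R σ) U))
    (hg : g ∈ src σ (ends (RA R σ) W)) (hs : s ∈ src σ U) (hsz : z ≠ s) (e1 : R g z)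
    (e2 : R s z) : ∃ τ U' W' a' b' c' d', LP R τ U' W' a' b' c' d' ∧ U' ∪ W' = U ∪ W := by
  obtain ⟨z', p1⟩ := mem_ends.1 (mem_src.1 hz).1
  obtain ⟨g', p2⟩ := mem_ends.1 (mem_src.1 hg).1
  obtain ⟨hsU, hσ⟩ := mem_src.1 hs
  have hzW : z ∉ W := disjoint_left.1 hd p1.mem_left
  have hne : z ≠ z' := by
    rintro rfl
    rw [p1.eq_single, mem_singleton] at hsU
    exact hsz hsU.symm
  obtain ⟨t, -, p3⟩ := p1.tail hne
  refine ⟨Function.update σ z false, U.erase z, insert z W, t, z', g', z,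
    ⟨p3.upd (notMem_erase _ _) _, p2.rev.snoc_snk (mem_src.1 hg).2 hzW e1, ?_,
      s, mem_erase.2 ⟨hsz.symm, hsU⟩, z, mem_insert_self _ _,
      RA.mk (by rw [Function.update_of_ne hsz.symm, hσ]) (by simp) e2⟩, ?_⟩
  · rw [disjoint_insert_right]
    exact ⟨notMem_erase _ _, hd.mono_left (erase_subset _ _)⟩
  · rw [union_insert, ← insert_union, insert_erase p1.mem_left]

open Classical in
/-- The count in one row. -/
theorem unlink_row (hd : Disjoint U W) {E E' : Finset V} (hE : E ⊆ src σ U) (hE' : E' ⊆ src σ W)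
    (h : ∀ z ∈ E, ∀ g ∈ E', ∀ s ∈ src σ U, z ≠ s → R g z → ¬ R s z) {s : V} (hs : s ∈ E) :
    (E'.filter fun z => ∀ g ∈ E, ¬ R g z).card + E.card ≤
      (mis R (src σ (U ∪ W)) s).card + (E.filter fun z => ∀ g ∈ E', ¬ R g z).card + 1 := by
  have hd' : Disjoint E' E := disjoint_left.2 fun x h1 h2 =>
    disjoint_left.1 hd (mem_src.1 (hE h2)).1 (mem_src.1 (hE' h1)).1
  rw [← card_union_of_disjoint (hd'.mono_left (filter_subset _ _))]
  refine (card_le_card (t := insert s (mis R (src σ (U ∪ W)) s ∪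
    E.filter fun z => ∀ g ∈ E', ¬ R g z)) fun z hz => ?_).trans
      ((card_insert_le _ _).trans (Nat.add_le_add_right (card_union_le _ _) 1))
  by_cases e : z = s
  · exact e ▸ mem_insert_self _ _
  refine mem_insert_of_mem ?_
  rw [src_union]
  rcases mem_union.1 hz with q | q
  · obtain ⟨q1, q2⟩ := mem_filter.1 q
    exact mem_union_left _ (mem_mis.2 ⟨mem_union_right _ (hE' q1), e, q2 s hs⟩)
  · by_cases q' : ∀ g ∈ E', ¬ R g z
    · exact mem_union_right _ (mem_filter.2 ⟨q, q'⟩)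
    · push Not at q'
      obtain ⟨g, hg, r⟩ := q'
      exact mem_union_left _ (mem_mis.2 ⟨mem_union_left _ (hE q), e, h z q g hg s (hE hs) e r⟩)

/-- `E1` and `E2` are the sources that are ends of Hamilton paths of `U` and of `W`. -/
theorem unlink (hd : Disjoint U W) {a b c d : V} (h1 : HP (RA R σ) U a b)
    (h2 : HP (RA R σ) W c d) (ha : σ a = true) (hc : σ c = true)
    (hr1 : ∀ s ∈ src σ (ends (RA R σ) U),
      (mis R (src σ (U ∪ W)) s).card + 2 ≤ (src σ (ends (RA R σ) U)).card)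
    (hr2 : ∀ s ∈ src σ (ends (RA R σ) W),
      (mis R (src σ (U ∪ W)) s).card + 1 ≤ (src σ (ends (RA R σ) W)).card) :
    (∃ τ x y, HP (RA R τ) (U ∪ W) x y) ∨
      ∃ τ U' W' a' b' c' d', LP R τ U' W' a' b' c' d' ∧ U' ∪ W' = U ∪ W := by
  right
  by_contra hn
  have hs : ∀ Z : Finset V, src σ (ends (RA R σ) Z) ⊆ src σ Z := fun Z =>
    filter_subset_filter _ ends_subset
  have ma : a ∈ src σ (ends (RA R σ) U) := mem_src.2 ⟨mem_ends.2 ⟨b, h1⟩, ha⟩
  have mc : c ∈ src σ (ends (RA R σ) W) := mem_src.2 ⟨mem_ends.2 ⟨d, h2⟩, hc⟩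
  have r1 := unlink_row hd (hs U) (hs W)
    (fun z hz g hg s hs e e1 e2 => hn (unlink_move hd hz hg hs e e1 e2)) ma
  have r2 := unlink_row hd.symm (hs W) (hs U)
    (fun z hz g hg s hs e e1 e2 => hn (union_comm W U ▸ unlink_move hd.symm hz hg hs e e1 e2)) mc
  have r3 := hr1 a ma
  have r4 := hr2 c mc
  rw [union_comm W U] at r2
  omega

/-- Rotation bound for the source ends: `b` is the other end of a path from the source `a`. -/
theorem xd_le_src_ends {a b s : V} (h1 : HP (RA R σ) U a b) (ha : σ a = true)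
    (hs : s ∈ src σ (ends (RA R σ) U)) :
    xd R σ U s + (σ b).toNat ≤ (src σ (ends (RA R σ) U)).card := by
  obtain ⟨hs1, hs2⟩ := mem_src.1 hs
  obtain ⟨t, ht⟩ := mem_ends.1 hs1
  have e := h1.same_type ht
  rw [ha, hs2] at e
  have hsub : prt (RA R σ) U t ⊆ src σ (ends (RA R σ) U) := fun p hp => by
    refine mem_src.2 ⟨prt_subset_ends (RA.sy R σ) t hp, ?_⟩
    have := ht.same_type (mem_prt.1 hp)
    rw [hs2] at this
    cases q : σ p
    · simp [q] at this
    · rfl
  have hx := posa_xd ht.rev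
  cases hb : σ b
  · simpa using hx.trans (card_le_card hsub)
  · have hσ : σ t = true := by
      cases q : σ t
      · simp [q, hb] at e
      · rfl
    by_cases q : t ∈ prt (RA R σ) U t
    · have hU := (mem_prt.1 q).eq_single
      rw [xd_eq_zero fun v hv => by
        have h3 := ht.mem_left
        rw [hU, mem_singleton] at hv h3
        rw [hv, h3]
        exact RA.irr R σ t]
      simpa using card_pos.2 ⟨s, hs⟩
    · have := card_le_card (insert_subset (mem_src.2 ⟨mem_ends.2 ⟨s, ht.rev⟩, hσ⟩) hsub)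
      rw [card_insert_of_notMem q] at this
      simp only [Bool.toNat_true]
      omega

/-- Degree form: two paths with source ends `a`, `c`; `k` and `k'` are lower bounds for the
out-degrees of the source ends of `U` and of `W` into `U ∪ W`. -/
theorem unlink_deg (hi : Irr R) (hd : Disjoint U W) {a b c d : V} (h1 : HP (RA R σ) U a b)
    (h2 : HP (RA R σ) W c d) (ha : σ a = true) (hc : σ c = true) {k k' : ℕ}
    (hr1 : ∀ s ∈ src σ (ends (RA R σ) U), k ≤ od R (U ∪ W) s)
    (hr2 : ∀ s ∈ src σ (ends (RA R σ) W), k' ≤ od R (U ∪ W) s)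
    (hk : (src σ (U ∪ W)).card + 1 ≤ k + (σ b).toNat)
    (hk' : (src σ (U ∪ W)).card ≤ k' + (σ d).toNat) :
    (∃ τ x y, HP (RA R τ) (U ∪ W) x y) ∨
      ∃ τ U' W' a' b' c' d', LP R τ U' W' a' b' c' d' ∧ U' ∪ W' = U ∪ W := by
  by_cases hl : Lk (RA R σ) U W
  · exact Or.inr ⟨σ, U, W, a, b, c, d, ⟨h1, h2, hd, hl⟩, rfl⟩
  refine unlink hd h1 h2 ha hc (fun s hs => ?_) fun s hs => ?_
  · have hU := ends_subset (mem_src.1 hs).1
    have e1 := row_eq (R := R) hi (mem_src.1 hs).2 (mem_union_left W hU)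
    have e2 := xd_le_src_ends h1 ha hs
    have e3 := hr1 s hs
    rw [xd_union hd, xd_eq_zero (U := W) fun v hv q => hl ⟨s, hU, v, hv, q⟩] at e1
    omega
  · have hW := ends_subset (mem_src.1 hs).1
    have e1 := row_eq (R := R) hi (mem_src.1 hs).2 (mem_union_right U hW)
    have e2 := xd_le_src_ends h2 hc hs
    have e3 := hr2 s hs
    rw [xd_union hd, xd_eq_zero (U := U) fun v hv q => hl ⟨v, hv, s, hW, RA.sy R σ _ _ q⟩] at e1
    omega

end Pool.Agent.Lib.MP_04ab3e_co.X
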