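import Pool.Agent.Lib.MP_04ab3e_co.X.Win
import Pool.Agent.Lib.MP_04ab3e_co.X.AllEnds
import Pool.Agent.Lib.MP_04ab3e_co.X.HB
import Pool.Agent.Lib.MP_04ab3e_co.X.Unlink

-- part Pool.Agent.Lib.MP_04ab3e_co.X.I1
section

/-! Insertion of a vertex into a path on `2 m - 1` vertices. -/

namespace Pool.Agent.Lib.MP_04ab3e_co.X

open Finset

section index

variable {R : ℕ → ℕ → Prop} {P S : ℕ → Prop} {n g a b c e w : ℕ}

/-- A path between two sinks and three more vertices. -/
theorem I1.pat (D : Sg R P S n b c) (hb : ¬ S b) (hc : ¬ S c)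
    (hD : ∀ v, P v → v ≠ a ∧ v ≠ e ∧ v ≠ w) (h1 : a ≠ e) (h2 : a ≠ w) (h3 : e ≠ w)
    (hP : ∀ k, HasP R k → k < n + 3) (e1 : R e a) (e2 : R e b) : ¬ R w a ∧ ¬ R w c := by
  constructor
  · intro e3
    have := hP _ ((((Sg.os R w).out (Sg.ot R a) e3 (by omega)).inn (Sg.os R e) e1
      (by omega)).out D e2 fun v =>
      ⟨Or.inr rfl, hb, fun q => by
        have q1 := hD v q.2
        have q2 := q.1
        beta_reduce at q2
        omega⟩).hasP
    omega
  · intro e3
    have := hP _ ((((Sg.ot R a).inn (Sg.os R e) e1 (by omega)).out D e2 fun v =>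
      ⟨Or.inr rfl, hb, fun q => by
        have q1 := hD v q.2
        have q2 := q.1
        beta_reduce at q2
        omega⟩).inn (Sg.os R w) e3 fun v => ⟨fun q => by
          rcases q with q | q
          · have q1 : c ≠ e := by
              obtain ⟨σ, U, k1, -, k2, -⟩ := D
              exact (hD c ((k2 c).2 k1.mem_right)).2.1
            omega
          · exact hc q, rfl, fun q => by
        have q2 := q.2
        beta_reduce at q2
        rcases q.1 with q1 | q1
        · omega
        · have := hD v q1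
          omega⟩).hasP
    omega

/-- The cell of a source `a` on a cycle with neighbours `b`, `c`, seen from `e` and `w`. -/
theorem I1.cyc (D : Sg R P S n b c) (hP : ∀ k, HasP R k → k < n + 3) (a e w : ℕ)
    (hs : ∀ v, ¬ S b ∧ ¬ S c ∧ a ≠ e ∧ a ≠ w ∧ e ≠ w ∧ (P v → v ≠ a ∧ v ≠ e ∧ v ≠ w)) :
    2 * ind (R e a) + 2 * ind (R w a) + ind (R e b) + ind (R w b) + ind (R e c) + ind (R w c)
      ≤ 4 := by
  obtain ⟨hb, hc, h1, h2, h3, -⟩ := hs 0
  have hD := fun v => (hs v).2.2.2.2.2
  have hD' : ∀ v, P v → v ≠ a ∧ v ≠ w ∧ v ≠ e := fun v q =>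
    ⟨(hD v q).1, (hD v q).2.2, (hD v q).2.1⟩
  have q1 := I1.pat D hb hc hD h1 h2 h3 hP
  have q2 := I1.pat D.rev hc hb hD h1 h2 h3 hP
  have q3 := I1.pat D hb hc hD' h2 h1 h3.symm hP
  have q4 := I1.pat D.rev hc hb hD' h2 h1 h3.symm hP
  by_cases u1 : R e a <;> by_cases u2 : R w a <;> by_cases u3 : R e b <;> by_cases u4 : R w b <;>
    by_cases u5 : R e c <;> by_cases u6 : R w c <;> simp_all [ind]

/-- The out-degree as a sum over cells. -/
theorem I1.rw (R : ℕ → ℕ → Prop) (g v : ℕ) : od R (range (2 * g + 2)) v =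
    ∑ j ∈ range (g + 1), ind (R v (2 * j)) + ∑ j ∈ range g, ind (R v (2 * j + 1)) +
      ind (R v (2 * g + 1)) := by
  rw [od_sum, sum_range_succ, sum_par']

/-- An Ore pair at the source `2 i`. -/
theorem I1.ore (hi : Irr R) (A : Alt R 0 0 (2 * g)) (hP : ∀ n, HasP R n → n < 2 * g + 2)
    {i : ℕ} (h1 : 1 ≤ i) (h2 : i < g) (eA : R 0 (2 * i + 1)) (eB : R (2 * g) (2 * (i - 1) + 1))
    (hu : g + 1 ≤ od R (range (2 * g + 2)) (2 * i))
    (he : g + 1 ≤ od R (range (2 * g + 2)) (2 * g + 1)) : False := by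
  obtain ⟨i, rfl⟩ : ∃ j, i = j + 1 := ⟨i - 1, by omega⟩
  rw [Nat.add_sub_cancel] at eB
  have eu : R (2 * (i + 1)) (2 * (i + 1) + 1) := (A.ar (2 * (i + 1)) (2 * (i + 1) + 1)
      (by omega)).1 (by omega)
  have Q1 := ((A.sg 0 (2 * i + 1) (by omega)).rev.out (A.sg (2 * (i + 1) + 1) (2 * g)
      (by omega)) eA (by omega))
  have Q2 := (((Sg.ot R (2 * (i + 1) + 1)).inn (A.sg 0 (2 * i + 1) (by omega)) eA (by omega)).inn
    (A.sg (2 * (i + 1) + 2) (2 * g) (by omega)).rev eB (by omega))
  have m1 : ¬ R (2 * (i + 1)) (2 * g + 1) := fun q => by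
    have := hP _ (((Sg.ot R (2 * g + 1)).inn (Sg.os R (2 * (i + 1))) q (by omega)).out Q2 eu
        (by omega)).hasP
    omega
  rw [I1.rw, ind_eq_zero m1] at hu
  rw [I1.rw, ind_eq_zero (hi _)] at he
  have s1 := sum_le_mul (f := fun j => 2 * ind (R (2 * g + 1) (2 * j)) +
      2 * ind (R (2 * (i + 1)) (2 * j)) + ind (j < g ∧ R (2 * g + 1) (2 * j + 1)) +
      ind (j < g ∧ R (2 * (i + 1)) (2 * j + 1)) + ind (1 ≤ j ∧ R (2 * g + 1) (2 * (j - 1) + 1)) +
      ind (1 ≤ j ∧ R (2 * (i + 1)) (2 * (j - 1) + 1)) + ind (0 ≤ j ∧ j < 1)) (h := g + 1) (c := 4)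
    fun j hj => by
      have t1 := ind_mono (And.right : j < g ∧ R (2 * g + 1) (2 * j + 1) → _)
      have t2 := ind_mono (And.right : j < g ∧ R (2 * (i + 1)) (2 * j + 1) → _)
      have t3 := ind_mono (And.right : 1 ≤ j ∧ R (2 * g + 1) (2 * (j - 1) + 1) → _)
      have t4 := ind_mono (And.right : 1 ≤ j ∧ R (2 * (i + 1)) (2 * (j - 1) + 1) → _)
      rcases Nat.eq_zero_or_pos j with rfl | j0
      · have := I1.cyc ((A.sg (2 * 0 + 1) (2 * i + 1) (by omega)).inn
          (A.sg (2 * (i + 1) + 1) (2 * g) (by omega)).rev eB (by omega))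
              (fun k q => by have := hP k q; omega)
          (2 * 0) (2 * g + 1) (2 * (i + 1)) (by omega)
        rw [ind_eq_one eu] at this
        rw [ind_eq_zero (p := 1 ≤ 0 ∧ R (2 * g + 1) _) (by simp),
          ind_eq_zero (p := 1 ≤ 0 ∧ R (2 * (i + 1)) _) (by simp)]
        have := ind_le (0 ≤ 0 ∧ 0 < 1)
        omega
      rw [ind_eq_zero (p := 0 ≤ j ∧ j < 1) (by omega)]
      obtain ⟨j, rfl⟩ : ∃ k, j = k + 1 := ⟨j - 1, by omega⟩
      rw [Nat.add_sub_cancel] at t3 t4 ⊢
      rcases lt_trichotomy j i with q | rfl | q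
      · have := I1.cyc (((A.sg (2 * (j + 1) + 1) (2 * i + 1) (by omega)).inn
          (A.sg (2 * (i + 1) + 1) (2 * g) (by omega)).rev eB (by omega)).inn (A.sg 0 (2 * j + 1)
              (by omega)) eA (by omega))
          (fun k q => by have := hP k q; omega) (2 * (j + 1)) (2 * g + 1) (2 * (i + 1))
          (by omega)
        omega
      · have u1 := ind2 (p := R (2 * g + 1) (2 * (j + 1))) (q := R (2 * g + 1) (2 * (j + 1) + 1))
          fun e1 e2 => by
            have := hP _ (((Sg.ot R (2 * (j + 1))).inn (Sg.os R (2 * g + 1)) e1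
                (by omega)).out Q2 e2 (by omega)).hasP
            omega
        have u2 := ind2 (p := R (2 * g + 1) (2 * (j + 1))) (q := R (2 * g + 1) (2 * j + 1))
          fun e1 e2 => by
            have := hP _ (((Sg.ot R (2 * (j + 1))).inn (Sg.os R (2 * g + 1)) e1
                (by omega)).out Q1 e2 (by omega)).hasP
            omega
        have u3 := ind_eq_zero (hi (2 * (j + 1)))
        have u4 := ind_le (R (2 * (j + 1)) (2 * (j + 1) + 1))
        have u5 := ind_le (R (2 * (j + 1)) (2 * j + 1))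
        omega
      by_cases q' : j + 1 = g
      · subst q'
        have := I1.cyc ((A.sg 0 (2 * i + 1) (by omega)).rev.out (A.sg (2 * (i + 1) + 1)
            (2 * j + 1) (by omega)) eA (by omega))
          (fun k q => by have := hP k q; omega) (2 * (j + 1)) (2 * (j + 1) + 1) (2 * (i + 1))
          (by omega)
        rw [ind_eq_zero (p := j + 1 < j + 1 ∧ R (2 * (j + 1) + 1) _) (by simp),
          ind_eq_zero (p := j + 1 < j + 1 ∧ R (2 * (i + 1)) _) (by simp)]
        omega
      · have := I1.cyc (((A.sg (2 * (j + 1) + 1) (2 * g) (by omega)).out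
          (A.sg 0 (2 * i + 1) (by omega)).rev eB (by omega)).out (A.sg (2 * (i + 1) + 1)
              (2 * j + 1) (by omega)) eA (by omega))
          (fun k q => by have := hP k q; omega) (2 * (j + 1)) (2 * g + 1) (2 * (i + 1))
          (by omega)
        omega
  simp only [sum_add_distrib, ← mul_sum] at s1
  rw [sum_win (by omega), sum_last fun j => R (2 * g + 1) (2 * j + 1),
    sum_last fun j => R (2 * (i + 1)) (2 * j + 1), sum_first fun j => R (2 * g + 1) (2 * j + 1),
    sum_first fun j => R (2 * (i + 1)) (2 * j + 1)] at s1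
  omega

theorem I1.main (hi : Irr R) (A : Alt R 0 0 (2 * g)) (hP : ∀ n, HasP R n → n < 2 * g + 2)
    (hcl : ∀ P S n a b, Sg R P S n a b → n = 2 * g + 1 → S a → a < 2 * g + 2 →
      g + 1 ≤ od R (range (2 * g + 2)) a)
    (he : g + 1 ≤ od R (range (2 * g + 2)) (2 * g + 1)) : False := by
  have Q := A.sg 0 (2 * g) (by omega)
  have hx := hcl _ _ _ _ _ Q (by omega) (by omega) (by omega)
  have hs := hcl _ _ _ _ _ Q.rev (by omega) (by omega) (by omega)
  have he' := he
  have m1 : ¬ R 0 (2 * g + 1) := fun q => by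
    have := hP _ (Q.rev.out (Sg.ot R (2 * g + 1)) q (by omega)).hasP
    omega
  have m2 : ¬ R (2 * g) (2 * g + 1) := fun q => by
    have := hP _ (Q.out (Sg.ot R (2 * g + 1)) q (by omega)).hasP
    omega
  rw [I1.rw, ind_eq_zero m1] at hx
  rw [I1.rw, ind_eq_zero m2] at hs
  rw [I1.rw, ind_eq_zero (hi _)] at he'
  have s1 := sum_le_mul (f := fun j => ind (j < g ∧ R 0 (2 * j + 1)) +
      ind (1 ≤ j ∧ R (2 * g) (2 * (j - 1) + 1)) + ind (R 0 (2 * j)) + ind (R (2 * g) (2 * j)) +
      ind (R (2 * g + 1) (2 * j)) + ind (j < g ∧ R (2 * g + 1) (2 * j + 1)) +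
      ind (g ≤ j ∧ j < g + 1)) (h := g + 1) (c := 3)
    fun j hj => by
      have AB : j < g ∧ R 0 (2 * j + 1) → 1 ≤ j ∧ R (2 * g) (2 * (j - 1) + 1) → False :=
        fun e1 e2 => by
          have h1 := e1.1
          have h2 := e2.1
          have Z := (((Sg.os R (2 * j)).jn (Sg.ot R (2 * j + 1)) (A.ar (2 * j) (2 * j + 1)
              (by omega)) (by omega)).inn
            (A.sg 0 (2 * (j - 1) + 1) (by omega)) e1.2 (by omega)).inn (A.sg (2 * j + 2) (2 * g)
                (by omega)).rev e2.2 (by omega)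
          exact I1.ore hi A hP h2 h1 e1.2 e2.2
            (hcl _ _ _ _ _ Z (by omega) (by omega) (by omega)) he
      have ECB : R (2 * g + 1) (2 * j) → R 0 (2 * j) → 1 ≤ j ∧ R (2 * g) (2 * (j - 1) + 1) →
          False := fun e1 e2 e3 => by
        have h1 := e3.1
        have Z := ((Sg.os R (2 * g + 1)).out (Sg.ot R (2 * j)) e1 (by omega)).inn
          (A.sg 0 (2 * (j - 1) + 1) (by omega)) e2 (by omega)
        by_cases q : j = g
        · have := hP _ Z.hasP
          omega
        · have := hP _ (Z.inn (A.sg (2 * j + 1) (2 * g) (by omega)).rev e3.2 (by omega)).hasP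
          omega
      have EDA : R (2 * g + 1) (2 * j) → R (2 * g) (2 * j) → j < g ∧ R 0 (2 * j + 1) → False :=
        fun e1 e2 e3 => by
          have h1 := e3.1
          have Z := ((Sg.os R (2 * g + 1)).out (Sg.ot R (2 * j)) e1 (by omega)).inn
            (A.sg (2 * j + 1) (2 * g) (by omega)).rev e2 (by omega)
          by_cases q : j = 0
          · have := hP _ Z.hasP
            omega
          · have := hP _ (Z.inn (A.sg 0 (2 * j - 1) (by omega)) e3.2 (by omega)).hasP
            omega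
      by_cases q : j = g
      · subst q
        have := ind3 ECB
        rw [ind_eq_zero (p := j < j ∧ R 0 _) (by simp),
          ind_eq_zero (p := j < j ∧ R (2 * j + 1) _) (by simp), ind_eq_zero (hi _)]
        have := ind_le (j ≤ j ∧ j < j + 1)
        omega
      rw [ind_eq_zero (p := g ≤ j ∧ j < g + 1) (by omega), add_zero]
      rcases ind_cases (j < g ∧ R (2 * g + 1) (2 * j + 1)) with u | u
      · obtain ⟨⟨h1, eP⟩, u⟩ := u
        have := cell2 (C := R 0 (2 * j)) AB EDA (fun e1 e2 => by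
            have h0 : j ≠ 0 := fun z => hi 0 (by simpa [z] using e1)
            have := hP _ ((((A.sg 0 (2 * j - 1) (by omega)).rev.out (Sg.ot R (2 * j)) e1
                (by omega)).inn
              (A.sg (2 * j + 1) (2 * g) (by omega)).rev e2 (by omega)).inn (Sg.os R
                  (2 * g + 1)) eP (by omega)).hasP
            omega)
          (fun e1 e2 => by
            have h0 : j ≠ 0 := fun z => hi 0 (by simpa [z] using e1)
            have := hP _ ((((A.sg 0 (2 * j - 1) (by omega)).rev.out (Sg.ot R (2 * j)) e1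
                (by omega)).inn
              (Sg.os R (2 * g + 1)) e2 (by omega)).out (A.sg (2 * j + 1) (2 * g) (by omega)) eP
                  (by omega)).hasP
            omega)
          (fun e1 e2 => by
            have h0 := e1.1
            have := hP _ ((((A.sg 0 (2 * (j - 1) + 1) (by omega)).inn (A.sg (2 * j + 1) (2 * g)
                (by omega)).rev
              e1.2 (by omega)).inn (Sg.os R (2 * g + 1)) eP (by omega)).out (Sg.ot R (2 * j)) e2
                  (by omega)).hasP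
            omega)
        omega
      · have := cell3 AB ECB EDA
        omega
  simp only [sum_add_distrib] at s1
  rw [sum_win le_rfl, sum_last fun j => R 0 (2 * j + 1),
    sum_last fun j => R (2 * g + 1) (2 * j + 1), sum_first fun j => R (2 * g) (2 * j + 1)] at s1
  omega

end index

variable {V : Type} [DecidableEq V]

variable {R : V → V → Prop} {σ : V → Bool} {U C : Finset V} {a b r e v : V} {m : ℕ}

/-- A source end of a path on `2 m - 1` vertices has all its out-neighbours on the path. -/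
theorem I1.closed [Fintype V] (hdeg : MinDeg R m) (hP : ∀ n, HasP R n → n < 2 * m)
    (h : HP (RA R σ) U a b) (ha : σ a = true) (hU : U.card + 1 = 2 * m) : m ≤ od R U a := by
  rw [od_eq_of_closed]
  · exact (hdeg a).1
  · intro y hy
    by_contra q
    have := hP _ (h.rev.snoc_snk ha q hy).hasP
    rw [card_insert_of_notMem q] at this
    omega

/-- Insertion: a vertex off a path on `2 m - 1` vertices with two source ends has fewer than `m`
out-neighbours on the path. -/
theorem od_lt_of_ss [Fintype V] (hi : Irr R) (hdeg : MinDeg R m)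
    (hP : ∀ n, HasP R n → n < 2 * m) (h : HP (RA R σ) U a b) (ha : σ a = true)
    (hU : U.card + 1 = 2 * m) (hc : e ∉ U) : od R (insert e U) e < m := by
  by_contra hn
  obtain ⟨g, rfl⟩ : ∃ g, m = g + 1 := ⟨m - 1, by omega⟩
  have hac : a ≠ e := fun q => hc (q ▸ h.mem_left)
  obtain ⟨f, k1, k2, -, -, k3, -, k4, -⟩ := number2 (p := 2 * g + 1) (t := 1) (r1 := 0) (r2 := 1)
    (h.upd hc true) (HP.single e) (by simpa using hc) (by omega) (card_singleton e) (by omega)
    (by omega) (by simp [Function.update_of_ne hac, ha]) (by simp)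
  refine I1.main (R := Pb R f (2 * g + 2)) (g := g) hi.pb k4 (fun n q => hP n (q.pb k1)) ?_ ?_
  · rintro P S n x y ⟨τ, Z, q1, q2, -, q3⟩ rfl q4 q5
    obtain ⟨z1, z2, z3⟩ := q1.pb k1
    rw [od_pb k1 q5]
    refine (I1.closed hdeg hP z1 (by rw [pf_eq k1 τ q5]; exact ((q3 x).1 q4).2) (by omega)).trans
      (od_mono (image_subset_image fun v hv => mem_range.2 (z3 ⟨x, q1.mem_left, q5⟩ v hv)))
  · rw [od_pb k1 (by omega), k2, k3, union_comm, ← insert_eq]
    omega

theorem I1.src [Fintype V] (hi : Irr R) (hdeg : MinDeg R m) (hP : ∀ n, HasP R n → n < 2 * m)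
    (h : Spd R σ U {e} a b r e e) (hU : U.card + 1 = 2 * m)
    (hT : ∀ k, HasS R U.card k → k ≤ 1) (hc : σ e = true) : False := by
  have hcU : e ∉ U := disjoint_right.1 h.dj h.h2.mem_left
  have hcl : m ≤ od R (insert e U) e := by
    rw [od_eq_of_closed]
    · exact (hdeg e).1
    · intro y hy
      by_contra q
      rw [mem_insert, not_or] at q
      have q1 : y ∉ ({e} : Finset V) := by simpa using q.1
      have q2 : r ≠ y := fun z => q.2 (z ▸ h.hr)
      have := hT _ (Spd.hasS ⟨h.h1.upd q.2 false, h.h2.snoc_snk hc q1 hy,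
        by simp [q.2, hcU], h.hr, h.lk.upd q2 (Ne.symm q.1) false⟩)
      rw [card_insert_of_notMem q1, card_singleton] at this
      omega
  cases ha : σ a
  · have hb : σ b = false := by
      have h1 := h.h1.parity
      have h2 := card_src_add_snk σ U
      cases hb : σ b
      · rfl
      · simp [ha, hb] at h1; omega
    obtain ⟨g, t, -, -, p3, p4, p5⟩ := moe_deg' hi h.h1 ha hb fun s hs => by
      obtain ⟨s', q⟩ := mem_ends.1 hs
      have := I1.closed (R := flip R) (σ := neg σ) hdeg.dual (fun n z => hP n z.dual)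
        (by simpa using q) (by simpa using (q.TT_of_card (h.h1.card_TT ha hb)).1) hU
      omega
    exact absurd (od_lt_of_ss hi hdeg hP p5.rev (by simp) hU hcU) (by omega)
  · exact absurd (od_lt_of_ss hi hdeg hP h.h1 ha hU hcU) (by omega)

theorem i1 [Fintype V] (hi : Irr R) (hdeg : MinDeg R m) (hP : ∀ n, HasP R n → n < 2 * m)
    (h : Spd R σ U {e} a b r e e) (hU : U.card + 1 = 2 * m)
    (hT : ∀ k, HasS R U.card k → k ≤ 1) : False := by
  cases hc : σ e
  · exact I1.src hi.dual hdeg.dual (fun n z => hP n z.dual) h.dual hU (fun k z => hT k z.dual)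
      (by simpa using hc)
  · exact I1.src hi hdeg hP h hU hT hc

end Pool.Agent.Lib.MP_04ab3e_co.X
end

-- part Pool.Agent.Lib.MP_04ab3e_co.X.T3
section

/-! No linked pair is larger than the longest path. -/

namespace Pool.Agent.Lib.MP_04ab3e_co.X

open Finset

variable {V : Type} [DecidableEq V]

variable [Fintype V] {R : V → V → Prop} {σ : V → Bool} {X : Finset V} {m : ℕ}

/-- `u` has an in-neighbour outside `X`. -/
def LkIn (R : V → V → Prop) (X : Finset V) (u : V) : Prop := ∃ y, y ∉ X ∧ R y u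

/-- `w` has an out-neighbour outside `X`. -/
def LkOut (R : V → V → Prop) (X : Finset V) (w : V) : Prop := ∃ y, y ∉ X ∧ R w y

section aux
variable {τ : V → Bool} {U W : Finset V} {a b c d : V}

open Classical in
/-- The vertices of `Y` with an out-neighbour outside `X`. -/
noncomputable def t3lo (R : V → V → Prop) (X Y : Finset V) : Finset V := Y.filter (LkOut R X)

omit [DecidableEq V] [Fintype V] in
theorem mem_t3lo {Y : Finset V} {u : V} : u ∈ t3lo R X Y ↔ u ∈ Y ∧ LkOut R X u := by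
  simp [t3lo]

omit [Fintype V] in
theorem t3_src (hmax : ∀ k, HasL R k → k ≤ X.card) (h : HP (RA R τ) X a b) {s : V} (hs : s ∈ X)
    (e : τ s = true) : ¬ LkOut R X s := by
  rintro ⟨y, hy, q⟩
  have := hmax _ ⟨_, _, _, _, _, _, _, h.hang_snk hs e hy q, rfl⟩
  rw [← insert_eq, card_insert_of_notMem hy] at this
  omega

omit [Fintype V] in
theorem t3_snk (hmax : ∀ k, HasL R k → k ≤ X.card) (h : HP (RA R τ) X a b) {s : V} (hs : s ∈ X)
    (e : τ s = false) : ¬ LkOut (flip R) X s := by
  rintro ⟨y, hy, q⟩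
  have := hmax _ ⟨_, _, _, _, _, _, _, h.hang_src hs e hy q, rfl⟩
  rw [← insert_eq, card_insert_of_notMem hy] at this
  omega

theorem t3_od (hdeg : MinDeg R m) {s : V} (h : ¬ LkOut R X s) : m ≤ od R X s := by
  rw [od_eq_of_closed fun y q => by_contra fun hy => h ⟨y, hy, q⟩]
  exact (hdeg s).1

theorem t3_od1 (hdeg : MinDeg R m) {s : V} (h : ¬ LkOut R X s) (w : V) :
    m - 1 ≤ od R (X.erase w) s := by
  have := t3_od hdeg h
  have := od_erase_le (R := R) (U := X) (a := s) w
  omega

omit [Fintype V] in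
theorem t3_full_src (hmax : ∀ k, HasL R k → k ≤ X.card) (h : LP R τ U W a b c d)
    (hc : (U ∪ W).card = X.card) (ha : τ a = true) {y : V} (e : R a y) : y ∈ U ∪ W := by
  by_contra q
  have := hmax _ ⟨_, _, _, _, _, _, _, h.extend_src ha q e, rfl⟩
  rw [card_insert_union q] at this
  omega

omit [Fintype V] in
theorem t3_full_snk (hmax : ∀ k, HasL R k → k ≤ X.card) (h : LP R τ U W a b c d)
    (hc : (U ∪ W).card = X.card) (ha : τ a = false) {y : V} (e : R y a) : y ∈ U ∪ W := by
  by_contra q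
  have := hmax _ ⟨_, _, _, _, _, _, _, h.extend_snk ha q e, rfl⟩
  rw [card_insert_union q] at this
  omega

theorem t3_cl1 (hi : Irr R) (hdeg : MinDeg R m) (hmax : ∀ k, HasL R k → k ≤ X.card)
    (hW : (t3lo R X X).card + 1 ≤ m) (h : LP R τ U W a b c d) (hs : U ∪ W ⊆ X)
    (hc : (U ∪ W).card + 1 = X.card) (ha : τ a = true) : ¬ LkOut R X a := by
  rintro ⟨y, hy, e⟩
  have hy' : y ∉ U ∪ W := fun q => hy (hs q)
  have h1 : od (flip R) univ y ≤ (t3lo R X X).card := od_le_of_subset fun u _ q => by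
    have := t3_full_snk hmax (h.extend_src ha hy' e) (by rw [card_insert_union hy', hc]) (by simp) q
    rw [insert_union, mem_insert] at this
    exact mem_t3lo.2 ⟨hs (this.resolve_left fun r => hi y (r ▸ q)), y, hy, q⟩
  have := (hdeg y).2
  omega

theorem t3_cl2 (hi : Irr R) (hdeg : MinDeg R m) (hmax : ∀ k, HasL R k → k ≤ X.card)
    (hW : (t3lo R X X).card + 1 ≤ m) (h : LP R τ U W a b c d) (hs : U ∪ W ⊆ X)
    (hU : (t3lo (flip R) X (U ∪ W)).card + 2 ≤ m)
    (hc : (U ∪ W).card + 2 = X.card) (ha : τ a = true) : ¬ LkOut R X a := by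
  rintro ⟨y, hy, e⟩
  have hy' : y ∉ U ∪ W := fun q => hy (hs q)
  obtain ⟨z, -, hz, ez⟩ := exists_of_lt_od (R := flip R) (U := univ) (a := y) (W := t3lo R X X)
    (by have := (hdeg y).2; omega)
  have hzX : z ∉ X := fun q => hz (mem_t3lo.2 ⟨q, y, hy, ez⟩)
  have hz' : z ∉ insert y U ∪ W := by
    rw [insert_union, mem_insert, not_or]
    exact ⟨fun r => hi y (r ▸ ez), fun q => hzX (hs q)⟩
  have h1 : od R univ z ≤ (insert y (t3lo (flip R) X (U ∪ W))).card := od_le_of_subset
    fun u _ q => by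
      have := t3_full_src hmax ((h.extend_src ha hy' e).extend_snk (by simp) hz' ez)
        (by rw [card_insert_union hz', card_insert_union hy', hc]) (by simp) q
      rw [insert_union, insert_union, mem_insert, mem_insert] at this
      rcases this with rfl | rfl | r
      · exact absurd q (hi _)
      · exact mem_insert_self _ _
      · exact mem_insert_of_mem (mem_t3lo.2 ⟨r, z, hzX, q⟩)
  have := (hdeg z).1
  have := card_insert_le y (t3lo (flip R) X (U ∪ W))
  omega

omit [Fintype V] in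
theorem t3_end (hi : Irr R) (h : HP (RA R σ) U a b)
    (hrow : 2 ≤ U.card → ∀ s ∈ U, σ s = false → U.card + 1 ≤ 2 * od (flip R) U s) :
    ∃ τ x y, HP (RA R τ) U x y ∧ τ y = true := by
  by_cases e : a = b
  · subst e
    exact ⟨fun _ => true, a, a, h.eq_single ▸ HP.single a, rfl⟩
  cases hb : σ b
  · cases ha : σ a
    · obtain ⟨g, t, -, -, -, -, q⟩ := moe_deg' hi h ha hb fun s hs => by
        obtain ⟨t, ht⟩ := mem_ends.1 hs
        exact hrow (h.two_le e) s ht.mem_left (ht.TT_of_card (h.card_TT ha hb)).1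
      exact ⟨_, t, g, q, by simp⟩
    · exact ⟨σ, b, a, h.rev, ha⟩
  · exact ⟨σ, a, b, h, hb⟩

omit [Fintype V] in
theorem t3_half (h : HP (RA R τ) U a b) (hb : τ b = true) : 2 * (snk τ U).card ≤ U.card := by
  have h1 := h.parity
  have h2 := card_src_add_snk τ U
  rw [hb, Bool.toNat_true] at h1
  omega

omit [Fintype V] in
theorem t3_bal (h : HP (RA R τ) U a b) :
    2 * (snk τ U).card ≤ U.card + 1 ∧ 2 * (src τ U).card ≤ U.card + 1 := by
  have h1 := h.parity
  have h2 := card_src_add_snk τ U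
  have := Bool.toNat_le (τ a)
  have := Bool.toNat_le (τ b)
  omega

theorem t3_lo (hi : Irr R) (hdeg : MinDeg R m) (h : HP (RA R σ) X a b) (hm : X.card + 1 ≤ 2 * m)
    (hmax : ∀ k, HasL R k → k ≤ X.card) : (t3lo R X X).card + 1 ≤ m := by
  obtain ⟨τ, x, y, q, hy⟩ := t3_end hi h fun _ s hs e => by
    have := t3_od hdeg.dual (t3_snk hmax h hs e)
    omega
  have h1 := t3_half q hy
  have h2 : (t3lo R X X).card ≤ (snk τ X).card := card_le_card fun u hu => by
    obtain ⟨k1, k2⟩ := mem_t3lo.1 hu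
    exact mem_snk.2 ⟨k1, Bool.eq_false_iff.2 fun r => t3_src hmax q k1 r k2⟩
  omega

omit [Fintype V] in
theorem t3_unl (hi : Irr R) {V0 : Finset V} (hcl : CL R V0 m) (hm : V0.card ≤ 2 * m)
    (hd : Disjoint U W) (hu : U ∪ W = V0) (h1 : HP (RA R σ) U a b)
    (h2 : HP (RA R σ) W c d) (ha : σ a = true) (hc : σ c = true) {k k' : ℕ}
    (hr1 : ∀ s t, HP (RA R σ) U s t → σ s = true → k ≤ od R V0 s)
    (hr2 : ∀ s t, HP (RA R σ) W s t → σ s = true → k' ≤ od R V0 s)
    (hk : (src σ V0).card + 1 ≤ k + (σ b).toNat) (hk' : (src σ V0).card ≤ k') :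
    ∃ τ x y, HP (RA R τ) V0 x y := by
  subst hu
  rcases unlink_deg hi hd h1 h2 ha hc (k := k) (k' := k')
    (fun s hs => (mem_ends.1 (mem_src.1 hs).1).elim fun t ht => hr1 s t ht (mem_src.1 hs).2)
    (fun s hs => (mem_ends.1 (mem_src.1 hs).1).elim fun t ht => hr2 s t ht (mem_src.1 hs).2) hk
    (hk'.trans (Nat.le_add_right _ _)) with q | ⟨τ, U', W', a', b', c', d', q, e⟩
  · exact q
  · exact hb hi hcl hm q e

omit [Fintype V] in
theorem t3_unl' (hi : Irr R) {V0 : Finset V} (hcl : CL R V0 m) (hm : V0.card ≤ 2 * m)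
    (hd : Disjoint U W) (hu : U ∪ W = V0) (h1 : HP (RA R σ) U a b)
    (h2 : HP (RA R σ) W c d) (ha : σ a = false) (hc : σ c = false) {k k' : ℕ}
    (hr1 : ∀ s t, HP (RA R σ) U s t → σ s = false → k ≤ od (flip R) V0 s)
    (hr2 : ∀ s t, HP (RA R σ) W s t → σ s = false → k' ≤ od (flip R) V0 s)
    (hk : (snk σ V0).card + 1 ≤ k + (!σ b).toNat) (hk' : (snk σ V0).card ≤ k') :
    ∃ τ x y, HP (RA R τ) V0 x y := by
  obtain ⟨τ, x, y, q⟩ := t3_unl (R := flip R) (σ := neg σ) (a := a) (b := b) (c := c) (d := d)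
    (k := k) (k' := k') hi.dual hcl.dual hm hd hu (by simpa using h1) (by simpa using h2)
    (by simpa using ha) (by simpa using hc) (by simpa using hr1) (by simpa using hr2)
    (by rw [src_neg]; exact hk) (by simpa using hk')
  exact ⟨neg τ, x, y, RA_dual' R τ ▸ q⟩

omit [Fintype V] in
theorem t3_join (h1 : HP (RA R σ) U a b) (h2 : HP (RA R σ) W c d) (hd : Disjoint U W)
    (hb : σ b = false) (hc : σ c = false) {w : V} (hw : w ∉ U) (hw' : w ∉ W) (e1 : R w b)
    (e2 : R w c) : HP (RA R (Function.update σ w true)) (insert w (U ∪ W)) a d := by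
  have hcw : c ≠ w := fun q => hw' (q ▸ h2.mem_left)
  have := (h1.snoc_src hb hw e1).append (h2.upd hw' true) (by simp [hw', hd])
    (RA.mk (by simp) (by rw [Function.update_of_ne hcw, hc]) e2)
  exact this.cast (by simp)

omit [Fintype V] in
theorem t3_snk_erase {w : V} (hw : w ∈ U) (e : σ w = false) :
    (snk σ (U.erase w)).card + 1 = (snk σ U).card ∧ src σ (U.erase w) = src σ U := by
  refine ⟨?_, ?_⟩
  · rw [snk, filter_erase]
    exact card_erase_add_one (mem_snk.2 ⟨hw, e⟩)
  · rw [src, filter_erase]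
    exact erase_eq_of_notMem fun q => by simpa [e] using (mem_src.1 q).2

/-- A path on `X` without a vertex that has an out-neighbour outside. -/
theorem t3_one (hi : Irr R) (hdeg : MinDeg R m) (h : HP (RA R σ) X a b) (hm : X.card + 1 ≤ 2 * m)
    (hmax : ∀ k, HasL R k → k ≤ X.card) (h2 : 2 ≤ X.card) {w : V} (hw : w ∈ X)
    (hw' : LkOut R X w) (hcl : CL R (X.erase w) (m - 1)) :
    ∃ τ x y, HP (RA R τ) (X.erase w) x y := by
  obtain ⟨τ', x, y, q', hy'⟩ := t3_end (R := flip R) (σ := neg σ) (U := X) (a := a) (b := b) hi.dual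
    (by simpa using h) fun _ s hs e => by
      have := t3_od hdeg (t3_src hmax h hs (by simpa using e))
      change _ ≤ 2 * od R X s
      omega
  obtain ⟨τ, q, hy⟩ : ∃ τ, HP (RA R τ) X x y ∧ τ y = false :=
    ⟨neg τ', RA_dual' R τ' ▸ q', by simpa using hy'⟩
  have hxy := q.ne_of_two_le h2
  by_cases e1 : w = y
  · subst e1
    obtain ⟨t, -, r⟩ := q.init hxy
    exact ⟨_, _, _, r⟩
  by_cases e2 : w = x
  · subst e2
    obtain ⟨t, -, r⟩ := q.tail hxy
    exact ⟨_, _, _, r⟩
  have hτ : τ w = false := Bool.eq_false_iff.2 fun r => t3_src hmax q hw r hw'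
  obtain ⟨U1, U2, p1, p2, r1, r2, r3, r4, r5, r6⟩ := q.remove hw e2 e1
  have hc := card_erase_add_one hw
  have s1 : ∀ s ∈ U1, s ∈ X := fun s hs => mem_of_mem_erase (r6 ▸ mem_union_left _ hs)
  have s2 : ∀ s ∈ U2, s ∈ X := fun s hs => mem_of_mem_erase (r6 ▸ mem_union_right _ hs)
  have k1 := (r3.to_snk hτ).1
  have k2 := (r4.of_snk hτ).1
  have k3 := t3_snk_erase hw hτ
  have k4 := card_src_add_snk τ X
  cases hx : τ x
  · have k5 := q.card_TT hx hy
    have n : w ∉ U1 ∪ U2 := r6 ▸ notMem_erase _ _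
    rw [mem_union, not_or] at n
    have d1 : ∀ s ∈ X, τ s = false → ¬ R w s → m ≤ od (flip R) (X.erase w) s := fun s hs e r => by
      rw [od_erase_eq (R := flip R) r]
      exact t3_od hdeg.dual (t3_snk hmax q hs e)
    by_cases n1 : ∃ s t, HP (RA R τ) U1 s t ∧ τ s = false ∧ R w s
    · obtain ⟨s, t, f1, f2, f3⟩ := n1
      refine t3_unl' hi hcl (by omega) r5.symm (by rw [union_comm, r6]) r2.rev r1 hy hx (k := m)
        (k' := m - 1) (fun s' t' g1 g2 => d1 s' (s2 _ g1.mem_left) g2 fun g3 => ?_)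
        (fun s' t' g1 g2 => t3_od1 hdeg.dual (t3_snk hmax q (s1 _ g1.mem_left) g2) w)
        (by omega) (by omega)
      have := t3_join f1.rev g1 r5 f2 g2 n.1 n.2 f3 g3
      rw [r6, insert_erase hw] at this
      exact t3_src hmax this hw (by simp) hw'
    · exact t3_unl' hi hcl (by omega) r5 r6 r1 r2.rev hx hy (k := m) (k' := m - 1)
        (fun s' t' g1 g2 => d1 s' (s1 _ g1.mem_left) g2 fun g3 => n1 ⟨s', t', g1, g2, g3⟩)
        (fun s' t' g1 g2 => t3_od1 hdeg.dual (t3_snk hmax q (s2 _ g1.mem_left) g2) w)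
        (by omega) (by omega)
  · have k5 := q.card_ST hx hy
    exact t3_unl hi hcl (by omega) r5 r6 r1 r2 hx k2 (k := m - 1) (k' := m - 1)
      (fun s' t' g1 g2 => t3_od1 hdeg (t3_src hmax q (s1 _ g1.mem_left) g2) w)
      (fun s' t' g1 g2 => t3_od1 hdeg (t3_src hmax q (s2 _ g1.mem_left) g2) w)
      (by rw [k1, k3.2, Bool.toNat_true]; omega) (by rw [k3.2]; omega)

end aux

/-- Main case: an arc from `w`, which has an out-neighbour outside, to `v`, which has no
in-neighbour outside. -/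
theorem t3_main (hi : Irr R) (hdeg : MinDeg R m) {a b : V} (h : HP (RA R σ) X a b)
    (hm : X.card + 1 ≤ 2 * m) (hmax : ∀ k, HasL R k → k ≤ X.card) {w v : V} (hw : w ∈ X)
    (hv : v ∈ X) (e : R w v) (hw' : LkOut R X w) (hv' : ¬ LkIn R X v) : False := by
  have hmax' : ∀ k, HasL (flip R) k → k ≤ X.card := fun k hk => hmax k hk.dual
  have hW := t3_lo hi hdeg h hm hmax
  have hU := t3_lo (R := flip R) (σ := neg σ) (a := a) (b := b) hi.dual hdeg.dual
    (by simpa using h) hm hmax'
  have hvw : v ≠ w := fun q => hi w (q ▸ e)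
  have hτ : σ w = false := Bool.eq_false_iff.2 fun r => t3_src hmax h hw r hw'
  have hwU : ¬ LkOut (flip R) X w := t3_snk hmax h hw hτ
  have hl : m + 1 ≤ X.card := by
    have := t3_od hdeg.dual hwU
    have := od_add_mis' hi.dual hw
    omega
  have hc := card_erase_add_one hw
  have hv1 : v ∈ X.erase w := mem_erase.2 ⟨hvw, hv⟩
  have hc' := card_erase_add_one hv1
  have c1 : ∀ τ U W a b c d, LP R τ U W a b c d → U ∪ W = X.erase w →
      (τ a = true → ¬ LkOut R X a) ∧ (τ a = false → ¬ LkOut (flip R) X a) :=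
    fun τ U W a b c d q r => ⟨t3_cl1 hi hdeg hmax hW q (r ▸ erase_subset _ _) (r ▸ hc), fun ha =>
      t3_cl1 hi.dual hdeg.dual hmax' hU q.dual (r ▸ erase_subset _ _) (r ▸ hc) (by simpa using ha)⟩
  have cl1 : CL R (X.erase w) (m - 1) := fun τ U W a b c d q r => by
    cases ha : τ a
    · rw [deg_snk ha]
      exact t3_od1 hdeg.dual ((c1 _ _ _ _ _ _ _ q r).2 ha) w
    · rw [deg_src ha]
      exact t3_od1 hdeg ((c1 _ _ _ _ _ _ _ q r).1 ha) w
  obtain ⟨τ, x, y, H⟩ := t3_one hi hdeg h hm hmax (by omega) hw hw' cl1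
  have hW1 : w ∈ t3lo R X X := mem_t3lo.2 ⟨hw, hw'⟩
  obtain ⟨ρ, hρ, eρ⟩ := hw'
  have hρw : ρ ≠ w := fun q => hρ (q ▸ hw)
  have H1 : ∀ s ∈ X.erase w, τ s = false → ¬ LkOut (flip R) X s := fun s hs r => by
    obtain ⟨U1, U2, b', c', d', q1, q2⟩ := H.lp_of_mem (by omega) hs
    exact (c1 _ _ _ _ _ _ _ q1 q2).2 r
  have H2 : ∀ s ∈ X.erase w, τ s = false → ¬ R w s := fun s hs r q => by
    have n : ρ ∉ {w} ∪ X.erase w := by simp [hρ, hρw]
    have := hmax _ ⟨_, _, _, _, _, _, _,
      (H.hang_src hs r (notMem_erase _ _) q).extend_src (by simp) n eρ, rfl⟩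
    rw [card_insert_union n, ← insert_eq, insert_erase hw] at this
    omega
  have hτv : τ v = true := by
    by_contra r
    exact H2 v hv1 (Bool.eq_false_iff.2 r) e
  have hb := t3_bal H
  have hU2 : (t3lo (flip R) X X).card + 2 ≤ m := by
    have k1 : (t3lo (flip R) X X).card ≤ ((src τ (X.erase w)).erase v).card :=
      card_le_card fun u hu => by
        obtain ⟨k1, k2⟩ := mem_t3lo.1 hu
        have k3 : u ∈ X.erase w := mem_erase.2 ⟨fun r => hwU (r ▸ k2), k1⟩
        refine mem_erase.2 ⟨fun r => hv' (r ▸ k2), mem_src.2 ⟨k3, ?_⟩⟩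
        by_contra r
        exact H1 u k3 (Bool.eq_false_iff.2 r) k2
    have k2 := card_erase_add_one (mem_src.2 ⟨hv1, hτv⟩)
    omega
  have sY : (X.erase w).erase v ⊆ X := (erase_subset _ _).trans (erase_subset _ _)
  have nw : w ∉ (X.erase w).erase v := by simp
  have nv : v ∉ (X.erase w).erase v := by simp
  have nρ : ρ ∉ (X.erase w).erase v := fun q => hρ (sY q)
  have hρv : ρ ≠ v := fun q => hρ (q ▸ hv)
  have cl2 : CL R ((X.erase w).erase v) (m - 1) := fun τ U W a b c d q r => by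
    have n1 : w ∉ U ∪ W := r ▸ nw
    cases ha : τ a
    · have k1 : ¬ LkOut (flip R) X a := t3_cl2 hi.dual hdeg.dual hmax' hU q.dual (r ▸ sY) (by
        have k2 : (t3lo R X (U ∪ W)).card ≤ ((t3lo R X X).erase w).card := card_le_card fun u hu =>
          mem_erase.2 ⟨fun t => n1 (t ▸ (mem_t3lo.1 hu).1),
            mem_t3lo.2 ⟨sY (r ▸ (mem_t3lo.1 hu).1), (mem_t3lo.1 hu).2⟩⟩
        have k3 := card_erase_add_one hW1
        change (t3lo R X (U ∪ W)).card + 2 ≤ m
        omega) (by rw [r]; omega) (by simpa using ha)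
      have k2 : ¬ R w a := fun t => by
        have n2 : ρ ∉ insert w U ∪ W := by
          rw [insert_union, r, mem_insert, not_or]
          exact ⟨hρw, nρ⟩
        have k3 : od (flip R) univ ρ ≤ (t3lo R X X).card := od_le_of_subset fun u _ t' => by
          have := t3_full_snk hmax ((q.extend_snk ha n1 t).extend_src (by simp) n2 eρ)
            (by rw [card_insert_union n2, card_insert_union n1, r]; omega) (by simp) t'
          rw [insert_union, insert_union, r, mem_insert, mem_insert] at this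
          refine mem_t3lo.2 ⟨?_, ρ, hρ, t'⟩
          rcases this with rfl | rfl | t''
          · exact absurd t' (hi _)
          · exact hw
          · exact sY t''
        have := (hdeg ρ).2
        omega
      have k3 := t3_od hdeg.dual k1
      have k4 := od_erase_le (R := flip R) (U := X.erase w) (a := a) v
      rw [od_erase_eq (R := flip R) k2] at k4
      rw [deg_snk ha]
      omega
    · have k1 : ¬ LkOut R X a := t3_cl2 hi hdeg hmax hW q (r ▸ sY) (by
        have k2 : (t3lo (flip R) X (U ∪ W)).card ≤ (t3lo (flip R) X X).card :=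
          card_le_card fun u hu => mem_t3lo.2 ⟨sY (r ▸ (mem_t3lo.1 hu).1), (mem_t3lo.1 hu).2⟩
        omega) (by rw [r]; omega) ha
      have k2 : ¬ R a v := fun t => by
        have n0 : v ∉ U ∪ W := r ▸ nv
        have n2 : w ∉ insert v U ∪ W := by
          rw [insert_union, mem_insert, not_or]
          exact ⟨hvw.symm, n1⟩
        have n3 : ρ ∉ insert w (insert v U) ∪ W := by
          rw [insert_union, insert_union, r, mem_insert, mem_insert, not_or, not_or]
          exact ⟨hρw, hρv, nρ⟩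
        have := hmax _ ⟨_, _, _, _, _, _, _,
          ((q.extend_src ha n0 t).extend_snk (by simp) n2 e).extend_src (by simp) n3 eρ, rfl⟩
        rw [card_insert_union n3, card_insert_union n2, card_insert_union n0, r] at this
        omega
      rw [deg_src ha, od_erase_eq k2]
      exact t3_od1 hdeg k1 w
  obtain ⟨τ2, x2, y2, G⟩ : ∃ τ x y, HP (RA R τ) ((X.erase w).erase v) x y := by
    have hxy := H.ne_of_two_le (by omega)
    by_cases e1 : v = y
    · subst e1
      obtain ⟨t, -, r⟩ := H.init hxy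
      exact ⟨_, _, _, r⟩
    by_cases e2 : v = x
    · subst e2
      obtain ⟨t, -, r⟩ := H.tail hxy
      exact ⟨_, _, _, r⟩
    obtain ⟨U1, U2, p1, p2, r1, r2, r3, r4, r5, r6⟩ := H.remove hv1 e2 e1
    have k1 := (r3.to_src hτv).1
    have k2 := (r4.of_src hτv).1
    have k3 := (t3_snk_erase (σ := neg τ) hv1 (by simpa using hτv)).2
    rw [src_neg, src_neg] at k3
    have d1 : ∀ s ∈ U1 ∪ U2, τ s = false → m - 1 ≤ od (flip R) ((X.erase w).erase v) s :=
      fun s hs r => by
        have f1 := mem_of_mem_erase (r6 ▸ hs)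
        have f2 := t3_od hdeg.dual (H1 s f1 r)
        have f3 := od_erase_le (R := flip R) (U := X.erase w) (a := s) v
        rw [od_erase_eq (R := flip R) (H2 s f1 r)] at f3
        omega
    cases hy : τ y
    · exact t3_unl' hi cl2 (by omega) r5.symm (by rw [union_comm, r6]) r2 r1.rev k2 k1
        (fun s t g1 => d1 s (mem_union_right _ g1.mem_left))
        (fun s t g1 => d1 s (mem_union_left _ g1.mem_left))
        (by rw [hy, k3]; simp; omega) (by rw [k3]; omega)
    · refine t3_unl' hi cl2 (by omega) r5 r6 r1.rev r2 k1 k2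
        (fun s t g1 => d1 s (mem_union_left _ g1.mem_left))
        (fun s t g1 => d1 s (mem_union_right _ g1.mem_left)) ?_ (by rw [k3]; omega)
      have f1 := H.parity
      rw [hy] at f1
      rw [k3]
      cases hx : τ x <;> simp [hx] at f1 ⊢ <;> omega
  obtain ⟨τ3, x3, y3, G', hy3⟩ := t3_end hi G fun h2 s hs r => by
    have := cl2.of_path G h2 hs
    rw [deg_snk r] at this
    omega
  have k1 := t3_half G' hy3
  have k2 := t3_od1 hdeg.dual (show ¬ LkOut (flip R) X v from hv') w
  rw [← od_erase_eq (R := flip R) (v := v) (hi v)] at k2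
  obtain ⟨g, g1, g2, g3⟩ := exists_of_lt_od (R := flip R) (U := (X.erase w).erase v) (a := v)
    (W := snk τ3 ((X.erase w).erase v)) (by omega)
  have g4 : τ3 g = true := by
    by_contra r
    exact g2 (mem_snk.2 ⟨g1, Bool.eq_false_iff.2 r⟩)
  have n2 : w ∉ {v} ∪ (X.erase w).erase v := by simp [hvw.symm]
  have n3 : ρ ∉ insert w {v} ∪ (X.erase w).erase v := by simp [hρw, hρv, hρ]
  have := hmax _ ⟨_, _, _, _, _, _, _,
    ((G'.hang_snk g1 g4 nv g3).extend_snk (by simp) n2 e).extend_src (by simp) n3 eρ, rfl⟩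
  rw [card_insert_union n3, card_insert_union n2, ← insert_eq, card_insert_of_notMem nv] at this
  omega

theorem t3 (hi : Irr R) (hdeg : MinDeg R m) (hac : AC R) {a b : V} (h : HP (RA R σ) X a b)
    (hm : X.card + 1 ≤ 2 * m) (hmax : ∀ k, HasL R k → k ≤ X.card) (hX : X ≠ univ) : False := by
  have arc : ∀ w ∈ X, ∀ v ∈ X, R w v → (LkOut R X w ↔ LkOut (flip R) X v) := fun w hw v hv e =>
    ⟨fun q => by_contra fun r => t3_main hi hdeg h hm hmax hw hv e q r, fun q => by_contra fun r =>
      t3_main (R := flip R) (σ := neg σ) (a := a) (b := b) hi.dual hdeg.dual (by simpa using h) hm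
        (fun k hk => hmax k hk.dual) hv hw e q r⟩
  by_cases n : ∃ x ∈ X, ¬ LkOut R X x ∧ ¬ LkOut (flip R) X x
  · obtain ⟨x, hx, n1, n2⟩ := n
    obtain ⟨y, hy⟩ : ∃ y, y ∉ X := by
      by_contra! k
      exact hX (eq_univ_iff_forall.2 k)
    obtain ⟨τ, U, q⟩ := hac x y fun r => hy (r ▸ hx)
    obtain ⟨u, -, v, -, ⟨p1, p2, p3⟩, p4, p5⟩ := q.cross (RA.sy R τ)
      (fun u => u ∈ X ∧ (τ u = true → ¬ LkOut R X u) ∧ (τ u = false → ¬ LkOut (flip R) X u))
      q.mem_left q.mem_right ⟨hx, fun _ => n1, fun _ => n2⟩ fun r => hy r.1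
    rcases p5 with ⟨e1, e2, e3⟩ | ⟨e1, e2, e3⟩
    · have hv : v ∈ X := by_contra fun r => p2 e1 ⟨v, r, e3⟩
      exact p4 ⟨hv, fun r => by simp [e2] at r, fun _ r => p2 e1 ((arc u p1 v hv e3).2 r)⟩
    · have hv : v ∈ X := by_contra fun r => p3 e1 ⟨v, r, e3⟩
      exact p4 ⟨hv, fun _ r => p3 e1 ((arc v hv u p1 e3).1 r), fun r => by simp [e2] at r⟩
  have k1 : ∀ s ∈ X, σ s = true → m ≤ (snk σ X).card := fun s hs e =>
    (t3_od hdeg (t3_src hmax h hs e)).trans (od_le_of_subset fun v hv q => mem_snk.2 ⟨hv,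
      Bool.eq_false_iff.2 fun r => n ⟨v, hv, t3_src hmax h hv r, fun t =>
        t3_src hmax h hs e ((arc s hs v hv q).2 t)⟩⟩)
  have k2 : ∀ s ∈ X, σ s = false → m ≤ (src σ X).card := fun s hs e =>
    (t3_od hdeg.dual (t3_snk hmax h hs e)).trans (od_le_of_subset fun v hv q => mem_src.2 ⟨hv,
      by_contra fun r => n ⟨v, hv, fun t => t3_snk hmax h hs e ((arc v hv s hs q).1 t),
        t3_snk hmax h hv (Bool.eq_false_iff.2 r)⟩⟩)
  have k3 := card_src_add_snk σ X
  cases ha : σ a
  · have k4 := k2 a h.mem_left ha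
    obtain ⟨s, hs⟩ := card_pos.1 (show 0 < (src σ X).card by omega)
    have := k1 s (mem_src.1 hs).1 (mem_src.1 hs).2
    omega
  · have k4 := k1 a h.mem_left ha
    obtain ⟨s, hs⟩ := card_pos.1 (show 0 < (snk σ X).card by omega)
    have := k2 s (mem_snk.1 hs).1 (mem_snk.1 hs).2
    omega

end Pool.Agent.Lib.MP_04ab3e_co.X
end
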