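import Pool.Agent.Lib.MP_04ab3e_co.X.HB
import Pool.Agent.Lib.MP_04ab3e_co.X.Unlink
import Pool.Agent.Lib.MP_04ab3e_co.X.T3
import Pool.Agent.Lib.MP_04ab3e_co.X.Evn
import Pool.Agent.Lib.MP_04ab3e_co.X.Hc
import Pool.Agent.Lib.MP_04ab3e_co.Defs
import Pool.Agent.Lib.MP_04ab3e_co.X.AllEnds

-- part Pool.Agent.Lib.MP_04ab3e_co.X.T2
section

/-! A linked pair on more than 2 m vertices. -/

namespace Pool.Agent.Lib.MP_04ab3e_co.X

open Finset

variable {V : Type} [DecidableEq V]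

variable [Fintype V] {R : V → V → Prop} {m : ℕ}

omit [DecidableEq V] [Fintype V] in
theorem exists_max (P : ℕ → Prop) {n B : ℕ} (h : P n) (hB : ∀ k, P k → k ≤ B) :
    ∃ N, P N ∧ ∀ k, P k → k ≤ N := by
  classical
  exact ⟨Nat.findGreatest P B, Nat.findGreatest_spec (hB n h) h,
    fun k hk => Nat.le_findGreatest (hB k hk) hk⟩

theorem HasS.le_card {p t : ℕ} (h : HasS R p t) : p ≤ Fintype.card V ∧ t ≤ Fintype.card V := by
  obtain ⟨σ, U, W, a, b, r, c, d, -, rfl, rfl⟩ := h.spd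
  exact ⟨card_le_univ _, card_le_univ _⟩

/-- No path on `2 m - 1` vertices has a role neighbour outside. -/
theorem no_pendant (hi : Irr R) (hdeg : MinDeg R m) (hP : ∀ n, HasP R n → n < 2 * m) {n k : ℕ}
    (h : HasS R n k) : n + 1 < 2 * m := by
  by_contra hn
  have hn' : n + 1 = 2 * m := by
    obtain ⟨σ, U, W, a, b, r, c, d, q, rfl, rfl⟩ := h.spd
    have := hP _ q.h1.hasP; omega
  obtain ⟨t, ht, hT⟩ := exists_max (HasS R n) h fun k q => q.le_card.2
  obtain ⟨σ, U, W, a, b, r, c, d, q, rfl, rfl⟩ := ht.spd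
  by_cases e : 2 ≤ W.card
  · refine odd_case hi hdeg q ⟨by omega, hP, fun n k q' _ => ?_, hT⟩ ?_
    · obtain ⟨σ', U', W', a', b', r', c', d', q'', rfl, rfl⟩ := q'.spd
      have := hP _ q''.h1.hasP; omega
    · have p1 := q.h1.parity
      have p2 := card_src_add_snk σ U
      cases ea : σ a <;> cases eb : σ b <;> simp only [ea, eb, Bool.toNat_true, Bool.toNat_false]
        at p1 ⊢ <;> omega
  · have hcd : c = d := by
      by_contra z
      exact e (q.h2.two_le z)
    subst hcd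
    have hW := q.h2.eq_single
    subst hW
    exact i1 hi hdeg hP q hn' (by simpa using hT)

theorem t2 (hi : Irr R) (hdeg : MinDeg R m) {l N : ℕ} (hl : HasP R l)
    (hmax : ∀ k, HasP R k → k ≤ l) (h1 : l + 1 ≤ 2 * m) (h2 : 2 * m ≤ l + 2)
    (hN : HasL R N) (h3 : 2 * m + 1 ≤ N) : False := by
  have hP : ∀ n, HasP R n → n < 2 * m := fun n q => by have := hmax n q; omega
  by_cases hS : ∃ n k, HasS R n k ∧ 2 * m + 1 ≤ n + k
  · obtain ⟨n, hn⟩ := hS
    obtain ⟨p, ⟨k, hk⟩, hp⟩ := exists_max (fun n => ∃ k, HasS R n k ∧ 2 * m + 1 ≤ n + k) hn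
      fun n ⟨_, q, _⟩ => q.le_card.1
    obtain ⟨t, ht, hT⟩ := exists_max (HasS R p) hk.1 fun k q => q.le_card.2
    have := hT k hk.1
    obtain ⟨σ, U, W, a, b, r, c, d, q, rfl, rfl⟩ := ht.spd
    have O : Opt R m U.card W.card := ⟨by omega, hP, fun n k q1 q2 => hp n ⟨k, q1, q2⟩, hT⟩
    by_cases e : σ a = σ b
    · exact odd_case hi hdeg q O e
    · exact even_case hi hdeg q O (fun n k q => no_pendant hi hdeg hP q) e
  · obtain ⟨N', hN', hM⟩ := exists_max (HasL R) hN (B := Fintype.card V) fun k q => by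
      obtain ⟨σ, U, W, a, b, c, d, -, rfl⟩ := q
      exact card_le_univ _
    have := hM N hN
    exact h_case hi hdeg hP (fun n k q => by
      by_contra z
      exact hS ⟨n, k, q, by omega⟩) hN' hM (by omega)

end Pool.Agent.Lib.MP_04ab3e_co.X
end

-- part Pool.Agent.Lib.MP_04ab3e_co.X.Core
section

/-! The theorem. -/

namespace Pool.Agent.Lib.MP_04ab3e_co.X

open Finset

variable {V : Type} [DecidableEq V]

theorem Co.exists_max (p : ℕ → Prop) (B : ℕ) {j : ℕ} (h0 : p j) (hb : ∀ k, p k → k ≤ B) :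
    ∃ l, p l ∧ ∀ k, p k → k ≤ l := by
  classical
  exact ⟨Nat.findGreatest p B, Nat.findGreatest_spec (hb j h0) h0,
    fun k hk => Nat.le_findGreatest (hb k hk) hk⟩

theorem core [Fintype V] {R : V → V → Prop} {m n : ℕ} (hi : Irr R) (hdeg : MinDeg R m)
    (hac : AC R) (h1 : 1 ≤ n) (h2 : n ≤ 2 * m) (h3 : n ≤ Fintype.card V) : HasP R n := by
  by_contra hn
  obtain ⟨v⟩ : Nonempty V := Fintype.card_pos_iff.1 (by omega)
  obtain ⟨w, -, -, e⟩ := exists_of_lt_od (R := R) (U := univ) (W := ∅) (a := v)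
    (by have := (hdeg v).1; rw [card_empty]; omega)
  have hw : w ∉ ({v} : Finset V) := fun q => hi v (by rwa [mem_singleton.1 q] at e)
  have p2 : HasP R 2 := ⟨_, _, _, _, (HP.single v).snoc_snk (σ := fun _ => true) rfl hw e, by
    rw [card_insert_of_notMem hw, card_singleton]⟩
  obtain ⟨l, hl, hmax⟩ := Co.exists_max (HasP R) (Fintype.card V) p2
    (by rintro k ⟨σ, U, a, b, -, rfl⟩; exact card_le_univ U)
  obtain ⟨N, hN, hNmax⟩ := Co.exists_max (HasL R) (Fintype.card V) (p2.hasL le_rfl)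
    (by rintro k ⟨σ, U, W, a, b, c, d, -, rfl⟩; exact card_le_univ _)
  have hln : l < n := by
    by_contra q
    obtain ⟨σ, U, a, b, h, rfl⟩ := hl
    obtain ⟨U', a', k1, -, k2⟩ := h.trunc n h1 (not_lt.1 q)
    exact hn ⟨σ, U', a', b, k1, k2⟩
  have hd : MinDeg R (l / 2 + 1) := hdeg.mono (by omega)
  by_cases q : 2 * (l / 2 + 1) + 1 ≤ N
  · exact t2 hi hd hl hmax (by omega) (by omega) hN q
  obtain ⟨σ, U, W, a, b, c, d, h, rfl⟩ := hN
  obtain ⟨τ, x, y, k⟩ := hb hi (cl_of_max hd hNmax) (by omega) h rfl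
  have k1 := hmax _ ⟨τ, _, x, y, k, rfl⟩
  obtain ⟨σ', X, a', b', h', rfl⟩ := hl
  refine t3 hi hd hac h' (by omega) (fun j hj => (hNmax j hj).trans k1) fun q' => ?_
  rw [q', card_univ] at hln
  omega

theorem Co.hp_of_seq (R : V → V → Prop) (m : ℕ) : ∀ (p : Fin (m + 1) → V) (o : Fin m → Bool)
    (β : Bool), Function.Injective p →
    (∀ i : Fin m, (o i = true → R (p i.castSucc) (p i.succ)) ∧
      (o i = false → R (p i.succ) (p i.castSucc))) →
    (∀ i j : Fin m, (j : ℕ) = i + 1 → o j ≠ o i) → (∀ i : Fin m, (i : ℕ) = 0 → o i = β) →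
    ∃ σ U, HP (RA R σ) U (p 0) (p (Fin.last m)) ∧ (∀ x ∈ U, ∃ i, p i = x) ∧ σ (p 0) = β := by
  induction m with
  | zero =>
    intro p o β _ _ _ _
    exact ⟨fun _ => β, {p 0}, HP.single _, fun x hx => ⟨0, (mem_singleton.1 hx).symm⟩, rfl⟩
  | succ m ih =>
    intro p o β h1 h2 h3 h4
    have h0 := h4 0 rfl
    obtain ⟨σ, U, k1, k2, k3⟩ := ih (fun i => p i.succ) (fun i => o i.succ) (!β)
      (h1.comp (Fin.succ_injective _)) (fun i => h2 i.succ)
      (fun i j e => h3 _ _ (by simp only [Fin.val_succ, e])) fun i e => by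
        have := h3 0 i.succ (by simp [e])
        rw [h0] at this
        exact Bool.eq_not_iff.2 this
    have k4 : p 0 ∉ U := fun q => by
      obtain ⟨i, e⟩ := k2 _ q
      exact Fin.succ_ne_zero i (h1 e)
    have k5 : Function.update σ (p 0) β (p (Fin.succ 0)) = !β :=
      (Function.update_of_ne (fun e => Fin.succ_ne_zero 0 (h1 e)) _ _).trans k3
    refine ⟨Function.update σ (p 0) β, insert (p 0) U, HP.cons ?_ k4 (k1.upd k4 β), fun x hx => ?_,
      Function.update_self _ _ _⟩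
    · cases β
      · exact RA.mk' (Function.update_self _ _ _) k5 ((h2 0).2 h0)
      · exact RA.mk (Function.update_self _ _ _) k5 ((h2 0).1 h0)
    · rcases mem_insert.1 hx with rfl | hx
      · exact ⟨0, rfl⟩
      · obtain ⟨i, e⟩ := k2 x hx
        exact ⟨i.succ, e⟩

theorem ac_of_antiConnected (D : Digraph V) (h : AntiConnected D) : AC D.Adj := by
  intro u v huv
  obtain ⟨m, p, ⟨h1, o, h2, h3⟩, rfl, rfl⟩ := h u v huv
  cases m with
  | zero => exact absurd rfl huv
  | succ m =>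
    obtain ⟨σ, U, k, -⟩ := Co.hp_of_seq D.Adj (m + 1) p o (o 0) h1 h2 h3 fun i hi =>
      congrArg o (Fin.ext hi)
    exact ⟨σ, U, k⟩

theorem Co.seq_of_hp {H : V → V → Prop} {U : Finset V} {a b : V} (h : HP H U a b) :
    ∀ k, U.card = k + 1 → ∃ p : Fin (k + 1) → V, p 0 = a ∧ (∀ i, p i ∈ U) ∧
      Function.Injective p ∧ ∀ i : Fin k, H (p i.castSucc) (p i.succ) := by
  induction h with
  | single a =>
    intro k e
    obtain rfl : k = 0 := by simpa using e
    exact ⟨fun _ => a, rfl, fun _ => mem_singleton_self a, fun i j _ => Subsingleton.elim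
      (α := Fin 1) i j, fun i => i.elim0⟩
  | @cons U a a' b h3 h4 h5 ih =>
    intro k e
    rw [card_insert_of_notMem h4] at e
    obtain ⟨k, rfl⟩ : ∃ j, k = j + 1 := ⟨k - 1, by have := h5.nonempty.card_pos; omega⟩
    obtain ⟨p, k1, k2, k3, k4⟩ := ih k (by omega)
    refine ⟨Fin.cons a p, rfl, Fin.cases (mem_insert_self _ _) fun i => mem_insert_of_mem (k2 i),
      Fin.cons_injective_iff.2 ⟨fun ⟨i, q⟩ => h4 (q ▸ k2 i), k3⟩, Fin.cases ?_ fun i => k4 i⟩
    rw [← k1] at h3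
    exact h3

theorem antiPath_of_hasP (D : Digraph V) (k : ℕ) (h : HasP D.Adj (k + 1)) :
    ∃ p : Fin (k + 1) → V, IsAntiPath D k p := by
  obtain ⟨σ, U, a, b, h, e⟩ := h
  obtain ⟨p, -, -, h1, h2⟩ := Co.seq_of_hp h k e
  refine ⟨p, h1, fun i => σ (p i.castSucc), fun i =>
    ⟨fun q => ((h2 i).of_src q).2, fun q => ((h2 i).of_snk q).2⟩, fun i j q => ?_⟩
  simp only [show j.castSucc = i.succ from Fin.ext q]
  rcases h2 i with ⟨k1, k2, -⟩ | ⟨k1, k2, -⟩ <;> simp [k1, k2]

omit [DecidableEq V] in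
theorem exact_bound (k : ℕ) [Fintype V] (D : Digraph V) (hloop : ∀ v, ¬ D.Adj v v)
    (hconn : AntiConnected D) (hn : k + 1 ≤ Fintype.card V)
    (hdeg : ∀ v, k < 2 * {w | D.Adj v w}.ncard ∧ k < 2 * {w | D.Adj w v}.ncard) :
    ∃ p : Fin (k + 1) → V, IsAntiPath D k p := by
  classical
  have e : ∀ (R : V → V → Prop) (v : V), od R univ v = {w | R v w}.ncard := fun R v => by
    rw [od, ← Set.ncard_coe_finset]
    simp
  refine antiPath_of_hasP D k (core (m := k / 2 + 1) hloop (fun v => ?_)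
    (ac_of_antiConnected D hconn) (by omega) (by omega) hn)
  obtain ⟨h1, h2⟩ := hdeg v
  rw [e, e]
  exact ⟨by omega, (by omega : k / 2 + 1 ≤ {w | D.Adj w v}.ncard)⟩

end Pool.Agent.Lib.MP_04ab3e_co.X
end

-- part Pool.Agent.Lib.MP_04ab3e_co.X.Both
section

/-! Both types of antidirected paths. -/

namespace Pool.Agent.Lib.MP_04ab3e_co.X

open Finset

variable {V : Type} [DecidableEq V]

/-- A path on an even number of vertices has an end in each role. -/
theorem Bo.even {R : V → V → Prop} {n : ℕ} (h : HasP R n) (hn : n % 2 = 0) (β : Bool) :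
    ∃ σ U a b, HP (RA R σ) U a b ∧ U.card = n ∧ σ a = β := by
  obtain ⟨σ, U, a, b, h, e⟩ := h
  have h1 := h.parity
  have h2 := card_src_add_snk σ U
  by_cases q : σ a = β
  · exact ⟨σ, U, a, b, h, e, q⟩
  · refine ⟨σ, U, b, a, h.rev, e, ?_⟩
    cases ha : σ a <;> cases hb : σ b <;> cases β <;> simp_all <;> omega

theorem core_both [Fintype V] {R : V → V → Prop} {m n : ℕ} (hi : Irr R) (hdeg : MinDeg R m)
    (hac : AC R) (h1 : 1 ≤ n) (h2 : n ≤ 2 * m) (h3 : n ≤ Fintype.card V) (β : Bool) :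
    ∃ σ U a b, HP (RA R σ) U a b ∧ U.card = n ∧ σ a = β := by
  rcases Nat.mod_two_eq_zero_or_one n with q | q
  · exact Bo.even (core hi hdeg hac h1 h2 h3) q β
  by_cases q' : n + 1 ≤ Fintype.card V
  · obtain ⟨σ, U, a, b, h, e, k⟩ :=
      Bo.even (core (n := n + 1) hi hdeg hac (by omega) (by omega) q') (by omega) β
    obtain ⟨b', -, p⟩ := h.init (h.ne_of_two_le (by omega))
    exact ⟨σ, _, a, b', p, by rw [card_erase_of_mem h.mem_right]; omega, k⟩
  obtain ⟨σ, U, a, b, h, e⟩ := core hi hdeg hac h1 h2 h3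
  have hU : U = univ := eq_univ_of_card U (by omega)
  have k1 := h.parity
  have k2 := card_src_add_snk σ U
  by_cases k : σ a = β
  · exact ⟨σ, U, a, b, h, e, k⟩
  cases β
  · have ha : σ a = true := by simpa using k
    have hb : σ b = true := by
      cases hb : σ b
      · simp [ha, hb] at k1; omega
      · rfl
    obtain ⟨g, t, -, -, -, -, p⟩ := moe_deg hi h ha hb fun s _ => by
      have := (hdeg s).1
      rw [← hU] at this
      omega
    exact ⟨_, U, g, t, p.rev, e, by simp⟩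
  · have ha : σ a = false := by simpa using k
    have hb : σ b = false := by
      cases hb : σ b
      · rfl
      · simp [ha, hb] at k1; omega
    obtain ⟨g, t, -, -, -, -, p⟩ := moe_deg' hi h ha hb fun s _ => by
      have := (hdeg s).2
      rw [← hU] at this
      omega
    exact ⟨_, U, g, t, p.rev, e, by simp⟩

omit [DecidableEq V] in
/-- Every alternating orientation of the path with `k` edges occurs. -/
theorem exact_both (k : ℕ) [Fintype V] (D : Digraph V) (hloop : ∀ v, ¬ D.Adj v v)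
    (hconn : AntiConnected D) (hn : k + 1 ≤ Fintype.card V)
    (hdeg : ∀ v, k < 2 * {w | D.Adj v w}.ncard ∧ k < 2 * {w | D.Adj w v}.ncard)
    (o : Fin k → Bool) (ho : ∀ i j : Fin k, (j : ℕ) = i + 1 → o j ≠ o i) :
    ∃ p : Fin (k + 1) → V, Function.Injective p ∧
      ∀ i : Fin k, (o i = true → D.Adj (p i.castSucc) (p i.succ)) ∧
        (o i = false → D.Adj (p i.succ) (p i.castSucc)) := by
  classical
  have e : ∀ (R : V → V → Prop) (v : V), od R univ v = {w | R v w}.ncard := fun R v => by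
    rw [od, ← Set.ncard_coe_finset]
    simp
  obtain ⟨σ, U, a, b, h, hU, ha⟩ := core_both (R := D.Adj) (m := k / 2 + 1) (n := k + 1) hloop
    (fun v => by
      obtain ⟨h1, h2⟩ := hdeg v
      rw [e, e]
      exact ⟨by omega, (by omega : k / 2 + 1 ≤ {w | D.Adj w v}.ncard)⟩)
    (ac_of_antiConnected D hconn) (by omega) (by omega) hn (if q : 0 < k then o ⟨0, q⟩ else true)
  obtain ⟨p, p0, -, h1, h2⟩ := Co.seq_of_hp h k hU
  have key : ∀ j (q : j < k), σ (p (Fin.castSucc ⟨j, q⟩)) = o ⟨j, q⟩ := by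
    intro j
    induction j with
    | zero =>
      intro q
      rw [dif_pos q, ← p0] at ha
      exact ha
    | succ j ih =>
      intro q
      have u1 := ih (by omega)
      have u2 := ho ⟨j, by omega⟩ ⟨j + 1, q⟩ rfl
      have u3 : Fin.castSucc (⟨j + 1, q⟩ : Fin k) = Fin.succ ⟨j, by omega⟩ := rfl
      rw [u3]
      rcases h2 ⟨j, by omega⟩ with ⟨k1, k2, -⟩ | ⟨k1, k2, -⟩
      · rw [k2]; rw [← u1, k1] at u2; simpa using u2
      · rw [k2]; rw [← u1, k1] at u2; simpa using u2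
  refine ⟨p, h1, fun i => ?_⟩
  rw [← key i.1 i.2]
  exact ⟨fun q => ((h2 i).of_src q).2, fun q => ((h2 i).of_snk q).2⟩

end Pool.Agent.Lib.MP_04ab3e_co.X
end
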