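import Pool.Agent.Lib.MP_04ab3e_co.X.Cell

/-! The spider count: the arcs into the tail. -/

namespace Pool.Agent.Lib.MP_04ab3e_co.X

open Finset

variable {R : ℕ → ℕ → Prop} {m p t r2 x h v l w a b n : ℕ} {P S : ℕ → Prop}

/-- A source end `b` of a long path misses the sinks of the tail. -/
theorem SCt.miss (F : SF R m p t 0 r2 x) (U : Sg R P S n a b)
    (hU : ∀ v, P x ∧ (S x ↔ x % 2 = 0) ∧ S b ∧ (P v → v < p) ∧ (S v → v < p)) (he : (p + t - 1) % 2 = r2)
    (hv : p ≤ v ∧ v < p + t ∧ v % 2 ≠ r2) (hn : p ≤ n + 1 ∧ 2 * m + 1 ≤ n + t) : ¬ R b v := by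
  intro e
  have hn := F.num
  have B := F.a2
  have q := U.out (B.sg v (p + t - 1) (by omega)) e fun z => by have := hU z; grind
  by_cases z : v = p
  · have := F.noP _ q.hasP; omega
  · have := F.maxp _ _ (q.hasS (B.sg p (v - 1) (by omega)) F.lk fun z => by
      have := hU z; grind) (by omega)
    omega

/-- A source end of a long path and the end of the tail have no common out-neighbour there. -/
theorem SCt.both (F : SF R m p t 0 r2 x) (U : Sg R P S n a b)
    (hU : ∀ v, P x ∧ (S x ↔ x % 2 = 0) ∧ S b ∧ (P v → v < p) ∧ (S v → v < p)) (he : (p + t - 1) % 2 = r2)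
    (hv : p ≤ v ∧ v < p + t ∧ v % 2 = r2) (hn : p ≤ n + 1 ∧ 2 * m + 1 ≤ n + t) (e1 : R b v)
    (e2 : R (p + t - 1) v) : False := by
  have hn := F.num
  have B := F.a2
  have v0 : v ≠ p + t - 1 := fun z => F.irr _ (z ▸ e2)
  have q := (U.out (Sg.ot R v) e1 fun z => by have := hU z; grind).inn
    (B.sg (v + 1) (p + t - 1) (by omega)).rev e2 fun z => by have := hU z; grind
  by_cases z : v = p
  · have := F.noP _ q.hasP; omega
  · have := F.maxp _ _ (q.hasS (B.sg p (v - 1) (by omega)) F.lk fun z => by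
      have := hU z; grind) (by omega)
    omega

/-- A source end of a path on `p` vertices misses the end of the tail. -/
theorem SCt.last (F : SF R m p t 0 r2 x) (U : Sg R P S n a b)
    (hU : ∀ v, P x ∧ (S x ↔ x % 2 = 0) ∧ S b ∧ (P v → v < p) ∧ (S v → v < p)) (ht : 2 ≤ t) (hn : n = p) :
    ¬ R b (p + t - 1) := by
  intro e
  have hn := F.num
  have hb := F.big
  have := F.maxp _ _ ((U.out (Sg.ot R _) e fun z => by have := hU z; grind).hasS
    (F.a2.sg p (p + t - 2) (by omega)) F.lk fun z => by have := hU z; grind) (by omega)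
  omega

/-- A source `v` of the tail hit by an end of the path: the end of the tail misses the
neighbour `l` of `v` on the side of the root. -/
theorem SCt.left (F : SF R m p t 0 r2 x) (U : Sg R P S n a b)
    (hU : ∀ v, P x ∧ (S x ↔ x % 2 = 0) ∧ S b ∧ (P v → v < p) ∧ (S v → v < p)) (he : (p + t - 1) % 2 = r2)
    (ht : 2 ≤ t) (hv : p ≤ v ∧ v < p + t ∧ v % 2 = r2) (hl : v = p ∧ l = x ∨ p < v ∧ l + 1 = v)
    (hn : n = p) (e1 : R b v) (e2 : R (p + t - 1) l) : False := by
  have hn := F.num
  have hb := F.big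
  have B := F.a2
  have v0 : v ≠ p + t - 1 := fun z => SCt.last F U hU ht ‹_› (z ▸ e1)
  have q := U.out (Sg.ot R v) e1 fun z => by have := hU z; grind
  have T := (B.sg (v + 1) (p + t - 1) (by omega)).rev
  rcases hl with ⟨h1, rfl⟩ | h1
  · have := F.maxp _ _ (q.hasS T (Ar.inn e2) fun z => by have := hU z; grind) (by omega)
    omega
  · have := F.maxp _ _ (q.hasS ((B.sg p l (by omega)).inn T e2 (by omega)) F.lk fun z => by
      have := hU z; grind) (by omega)
    omega

/-- The weight of a source `v` of the tail. -/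
theorem SCt.cell (F : SF R m p t 0 r2 x) (hp : p + 1 = 2 * h ∨ p = 2 * h)
    (hW : p = 2 * h → ∀ n k, HasS R n k → n + 1 < 2 * m) (he : (p + t - 1) % 2 = r2) (ht : 2 ≤ t)
    (hv : p ≤ v ∧ v < p + t ∧ v % 2 = r2) (hl : v = p ∧ l = x ∨ p < v ∧ l + 1 = v) {c d : Prop}
    (hc : c → v + 1 < p + t ∧ w = v + 1) (hd : d → v + 1 = p + t ∧ ¬ c) {T : ℕ}
    (hT : T = ind (R (p + t - 1) l) + ind (R (p + t - 1) v) + ind (R 0 v) +
      ind (R (2 * h - 2) v) + ind (c ∧ R (2 * h - 2) w)) :
    (p + 1 = 2 * h → T + ind d ≤ 2) ∧ (p = 2 * h → 2 * m + 2 ≤ p + t → T ≤ 2) ∧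
      (p = 2 * h → T + ind d ≤ 3) := by
  have hn := F.num
  have hb := F.big
  have hf := F.far
  have A := F.a1
  have B := F.a2
  have U := (A.sg 0 (p - 1) (by omega)).rev
  have Q := A.sg 0 (2 * h - 2) (by omega)
  have xe := SCt.both F U (by omega) he hv (by omega)
  have xl := SCt.left F U (by omega) he ht hv hl (by omega)
  have de : d → ¬ R (p + t - 1) v := fun z e => F.irr v (by
    rwa [show p + t - 1 = v by have := hd z; omega] at e)
  have dx : d → ¬ R 0 v := fun z e => SCt.last F U (by omega) ht (by omega) (by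
    rwa [show p + t - 1 = v by have := hd z; omega])
  have dc : d → ¬ c := fun z => (hd z).2
  subst hT
  refine ⟨fun z => ?_, fun z z' => ?_, fun z => ?_⟩
  · have se := SCt.both F Q (by omega) he hv (by omega)
    have sl := SCt.left F Q (by omega) he ht hv hl (by omega)
    have sw : c → ¬ R (2 * h - 2) w := fun u =>
      SCt.miss F Q (by omega) he (by have := hc u; omega) (by omega)
    have ds : d → ¬ R (2 * h - 2) v := fun u e => SCt.last F Q (by omega) ht (by omega) (by
      rwa [show p + t - 1 = v by have := hd u; omega])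
    unfold ind
    grind
  · have se := SCt.both F Q (by omega) he hv (by omega)
    have sw : c → ¬ R (2 * h - 2) w := fun u =>
      SCt.miss F Q (by omega) he (by have := hc u; omega) (by omega)
    unfold ind
    grind
  · have k : c → R (p + t - 1) l → R (2 * h - 2) w → False := fun u e1 e2 => by
      obtain ⟨u1, rfl⟩ := hc u
      have T := (B.sg (v + 1) (p + t - 1) (by omega)).rev.inn
        (A.sg (x + 1) (2 * h - 2) (by omega)).rev e2 (by omega)
      have L := B.ar (v + 1) v (by omega)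
      rcases hl with ⟨h1, rfl⟩ | h1
      · have := hW z _ _ (((A.sg 0 l (by omega)).inn T e1 (by omega)).hasS (Sg.os R v) L
          (by omega))
        omega
      · have := hW z _ _ ((((A.sg 0 x (by omega)).jn (B.sg p l (by omega)) F.lk (by omega)).inn T e1
          (by omega)).hasS (Sg.os R v) L (by omega))
        omega
    unfold ind
    grind

/-- The arcs from the three rows into the tail, and the arc from the end of the tail to the root
if the root is a sink. -/
theorem sc_tail (F : SF R m p t 0 r2 x) (hp : p + 1 = 2 * h ∨ p = 2 * h)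
    (hW : p = 2 * h → ∀ n k, HasS R n k → n + 1 < 2 * m) (he : (p + t - 1) % 2 = r2) (ht : 2 ≤ t)
    {T : ℕ} (hT : T = ∑ i ∈ range t, (ind (R 0 (p + i)) + ind (R (2 * h - 2) (p + i)) +
      ind (R (p + t - 1) (p + i))) + ind (x % 2 = 1 ∧ R (p + t - 1) x)) :
    (p + 1 = 2 * h → T + 1 ≤ 2 * ((t + 1) / 2)) ∧
      (p = 2 * h → 2 * m + 2 ≤ p + t → T ≤ 2 * ((t + 1) / 2)) ∧
      (p = 2 * h → T + 1 ≤ 3 * ((t + 1) / 2)) := by
  have hn := F.num
  have hb := F.big
  have hf := F.far
  have A := F.a1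
  have B := F.a2
  have xm : ∀ v, p ≤ v ∧ v < p + t ∧ v % 2 ≠ r2 → ¬ R 0 v := fun v hv =>
    SCt.miss F (A.sg 0 (p - 1) (by omega)).rev (by omega) he hv (by omega)
  have key : ∃ (k : ℕ) (f : ℕ → ℕ), (t + 1) / 2 = k + 1 ∧ T = ∑ j ∈ range (k + 1), f j ∧
      ∀ j < k + 1, (p + 1 = 2 * h → f j + ind (k ≤ j ∧ j < k + 1) ≤ 2) ∧
        (p = 2 * h → 2 * m + 2 ≤ p + t → f j ≤ 2) ∧
        (p = 2 * h → f j + ind (k ≤ j ∧ j < k + 1) ≤ 3) := by
    rcases Nat.even_or_odd' t with ⟨k, q | q⟩
    · obtain ⟨k, rfl⟩ : ∃ k', k = k' + 1 := ⟨k - 1, by omega⟩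
      refine ⟨k, _, by omega, ?_, fun j hj => SCt.cell F hp hW he ht (v := p + (2 * j + 1))
        (l := p + 2 * j) (w := p + 2 * (j + 1)) (c := j < k) (by omega) (by omega) (by omega)
        (by omega) rfl⟩
      have s0 : ¬ R (2 * h - 2) (p + 2 * 0) := fun e => by
        have := F.noP _ ((A.sg 0 (2 * h - 2) (by omega)).out (B.sg _ (p + t - 1) (by omega)) e
          (by omega)).hasP
        omega
      have z1 := sum_zero (q := fun j => R 0 (p + 2 * j)) (k := k + 1) fun j hj =>
        xm _ (by omega)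
      have z2 := sum_last (fun j => R (2 * h - 2) (p + 2 * (j + 1))) k
      have z3 := sum_range_succ' (fun j => ind (R (2 * h - 2) (p + 2 * j))) k
      rw [ind_eq_zero s0] at z3
      rw [hT, ind_eq_zero (p := x % 2 = 1 ∧ _) (fun z => by omega)]
      conv_lhs => rw [q, sum_par, ← q]
      simp only [sum_add_distrib]
      omega
    · refine ⟨k, _, by omega, ?_, fun j hj => SCt.cell F hp hW he ht (v := p + 2 * j)
        (l := if j = 0 then x else p + (2 * (j - 1) + 1)) (w := p + (2 * j + 1)) (c := j < k)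
        (by omega) (by split_ifs <;> omega) (by omega) (by omega) rfl⟩
      have z1 := sum_zero (q := fun j => R 0 (p + (2 * j + 1))) (k := k) fun j hj =>
        xm _ (by omega)
      have z2 := sum_last (fun j => R (2 * h - 2) (p + (2 * j + 1))) k
      have z3 := sum_range_succ'
        (fun j => ind (R (p + t - 1) (if j = 0 then x else p + (2 * (j - 1) + 1)))) k
      simp only [Nat.succ_ne_zero, if_false, if_true, Nat.add_sub_cancel] at z3
      rw [hT, and_iff_right (by omega : x % 2 = 1)]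
      conv_lhs => rw [q, sum_par', ← q]
      simp only [sum_add_distrib]
      omega
  obtain ⟨k, f, e1, e2, e3⟩ := key
  have w := sum_win (lo := k) (hi := k + 1) (h := k + 1) le_rfl
  rw [e1, e2]
  refine ⟨fun z => ?_, fun z z' => sum_le_mul fun j hj => (e3 j hj).2.1 z z', fun z => ?_⟩
  · have := sum_le_mul fun j hj => (e3 j hj).1 z
    rw [sum_add_distrib] at this; omega
  · have := sum_le_mul fun j hj => (e3 j hj).2.2 z
    rw [sum_add_distrib] at this; omega

end Pool.Agent.Lib.MP_04ab3e_co.X
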