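import Pool.Agent.Lib.MP_04ab3e_co.X.AllEnds

-- part Pool.Agent.Lib.MP_04ab3e_co.X.Idx
section

/-! Paths on numbered vertices: cut and paste with linear side conditions, transport, sums. -/

namespace Pool.Agent.Lib.MP_04ab3e_co.X

open Finset

section general

variable {V : Type} [DecidableEq V]

/-- A spider: a path on `p` vertices and a disjoint path on `t` vertices whose first end is
joined to the first path by a role edge. -/
def HasS (R : V → V → Prop) (p t : ℕ) : Prop :=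
  ∃ σ U W a b c d x, HP (RA R σ) U a b ∧ HP (RA R σ) W c d ∧ Disjoint U W ∧ x ∈ U ∧
    RA R σ x c ∧ U.card = p ∧ W.card = t

/-- A linked pair on `n` vertices whose four ends have the role `β`. -/
def HasO (R : V → V → Prop) (n : ℕ) (β : Bool) : Prop :=
  ∃ σ U W a b c d, LP R σ U W a b c d ∧ (U ∪ W).card = n ∧ σ a = β ∧ σ b = β ∧ σ c = β ∧ σ d = β

/-- A path from `a` to `b` on `n` vertices with vertex set `P` and source set `S`. -/
def Sg (R : V → V → Prop) (P S : V → Prop) (n : ℕ) (a b : V) : Prop :=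
  ∃ σ U, HP (RA R σ) U a b ∧ U.card = n ∧ (∀ v, P v ↔ v ∈ U) ∧ ∀ v, S v ↔ v ∈ U ∧ σ v = true

/-- The arc from `x` to `y` if `β` holds, the arc from `y` to `x` otherwise. -/
def Ar (R : V → V → Prop) (β : Prop) (x y : V) : Prop := (β → R x y) ∧ (¬ β → R y x)

variable {R : V → V → Prop} {P S P' S' : V → Prop} {n k : ℕ} {a b c d x y : V} {β : Prop}

omit [DecidableEq V] in
theorem Ar.out (e : R x y) : Ar R (0 = 0) x y := ⟨fun _ => e, fun q => absurd rfl q⟩

omit [DecidableEq V] in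
theorem Ar.inn (e : R y x) : Ar R (0 = 1) x y := ⟨fun q => absurd q (by omega), fun _ => e⟩

omit [DecidableEq V] in
theorem Ar.symm (e : Ar R β x y) : Ar R (¬ β) y x := ⟨e.2, fun q => e.1 (not_not.1 q)⟩

theorem Ar.ra {σ : V → Bool} (e : Ar R β x y) (hx : σ x = true ↔ β) (hy : σ y = true ↔ ¬ β) :
    RA R σ x y := by
  by_cases q : β
  · exact RA.mk (hx.2 q) (Bool.eq_false_iff.2 fun z => hy.1 z q) (e.1 q)
  · exact RA.mk' (Bool.eq_false_iff.2 fun z => q (hx.1 z)) (hy.2 q) (e.2 q)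

theorem Sg.rev (h : Sg R P S n a b) : Sg R P S n b a := by
  obtain ⟨σ, U, h1, h2⟩ := h
  exact ⟨σ, U, h1.rev, h2⟩

theorem Sg.hasP (h : Sg R P S n a b) : HasP R n := by
  obtain ⟨σ, U, h1, h2, -⟩ := h
  exact ⟨σ, U, a, b, h1, h2⟩

/-- Common roles for two disjoint paths. -/
theorem Sg.both (h1 : Sg R P S n a b) (h2 : Sg R P' S' k c d) (hd : ∀ v, ¬ (P v ∧ P' v)) :
    ∃ σ U W, HP (RA R σ) U a b ∧ HP (RA R σ) W c d ∧ Disjoint U W ∧ U.card = n ∧ W.card = k ∧
      (∀ v, P v ↔ v ∈ U) ∧ (∀ v, P' v ↔ v ∈ W) ∧ (∀ v, S v ↔ v ∈ U ∧ σ v = true) ∧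
      ∀ v, S' v ↔ v ∈ W ∧ σ v = true := by
  obtain ⟨σ, U, p1, p2, p3, p4⟩ := h1
  obtain ⟨τ, W, q1, q2, q3, q4⟩ := h2
  have hn : ∀ v ∈ W, v ∉ U := fun v hv hu => hd v ⟨(p3 v).2 hu, (q3 v).2 hv⟩
  refine ⟨fun v => if v ∈ U then σ v else τ v, U, W, p1.congr fun v hv => if_pos hv,
    q1.congr fun v hv => if_neg (hn v hv), disjoint_right.2 hn, p2, q2, p3, q3, fun v => ?_,
    fun v => ?_⟩
  · rw [p4]
    exact and_congr_right fun hv => by simp only [if_pos hv]
  · rw [q4]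
    exact and_congr_right fun hv => by simp only [if_neg (hn v hv)]

theorem Sg.jn' (h1 : Sg R P S n a b) (h2 : Sg R P' S' k c d) (e : Ar R β b c)
    (hs : ∀ v, (S b ↔ β) ∧ (S' c ↔ ¬ β) ∧ ¬ (P v ∧ P' v)) :
    Sg R (fun v => P v ∨ P' v) (fun v => S v ∨ S' v) (n + k) a d := by
  obtain ⟨σ, U, W, p1, p2, p3, p4, p5, p6, p7, p8, p9⟩ := h1.both h2 fun v => (hs v).2.2
  refine ⟨σ, U ∪ W, p1.append p2 p3 (e.ra ?_ ?_), by rw [card_union_of_disjoint p3, p4, p5],
    fun v => by beta_reduce; rw [p6, p7, mem_union],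
    fun v => by beta_reduce; rw [p8, p9, mem_union, or_and_right]⟩
  · rw [← (hs a).1, p8]; exact ⟨fun q => ⟨p1.mem_right, q⟩, fun q => q.2⟩
  · rw [← (hs a).2.1, p9]; exact ⟨fun q => ⟨p2.mem_left, q⟩, fun q => q.2⟩

theorem Sg.lp' (h1 : Sg R P S n a b) (h2 : Sg R P' S' k c d) (e : Ar R β x y)
    (hs : ∀ v, P x ∧ P' y ∧ (S x ↔ β) ∧ (S' y ↔ ¬ β) ∧ ¬ (P v ∧ P' v)) :
    ∃ σ U W, LP R σ U W a b c d ∧ x ∈ U ∧ RA R σ x y ∧ U.card = n ∧ W.card = k ∧
      (∀ v, S v ↔ v ∈ U ∧ σ v = true) ∧ ∀ v, S' v ↔ v ∈ W ∧ σ v = true := by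
  obtain ⟨σ, U, W, p1, p2, p3, p4, p5, p6, p7, p8, p9⟩ := h1.both h2 fun v => (hs v).2.2.2.2
  have hx := (p6 x).1 (hs a).1
  have hy := (p7 y).1 (hs a).2.1
  have q : RA R σ x y := e.ra
    (by rw [← (hs a).2.2.1, p8]; exact ⟨fun q => ⟨hx, q⟩, fun q => q.2⟩)
    (by rw [← (hs a).2.2.2.1, p9]; exact ⟨fun q => ⟨hy, q⟩, fun q => q.2⟩)
  exact ⟨σ, U, W, ⟨p1, p2, p3, x, hx, y, hy, q⟩, hx, q, p4, p5, p8, p9⟩

theorem Sg.hasS' (h1 : Sg R P S n a b) (h2 : Sg R P' S' k c d) (e : Ar R β x c)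
    (hs : ∀ v, P x ∧ P' c ∧ (S x ↔ β) ∧ (S' c ↔ ¬ β) ∧ ¬ (P v ∧ P' v)) : HasS R n k := by
  obtain ⟨σ, U, W, p1, p2, p3, p4, p5, -⟩ := h1.lp' h2 e hs
  exact ⟨σ, U, W, a, b, c, d, x, p1.h1, p1.h2, p1.dj, p2, p3, p4, p5⟩

theorem Sg.hasL' (h1 : Sg R P S n a b) (h2 : Sg R P' S' k c d) (e : Ar R β x y)
    (hs : ∀ v, P x ∧ P' y ∧ (S x ↔ β) ∧ (S' y ↔ ¬ β) ∧ ¬ (P v ∧ P' v)) : HasL R (n + k) := by
  obtain ⟨σ, U, W, p1, -, -, p4, p5, -⟩ := h1.lp' h2 e hs
  exact ⟨σ, U, W, a, b, c, d, p1, by rw [card_union_of_disjoint p1.dj, p4, p5]⟩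

/-- A linked pair whose four ends are sinks. -/
theorem Sg.hasT' (h1 : Sg R P S n a b) (h2 : Sg R P' S' k c d) (e : Ar R β x y)
    (hs : ∀ v, (¬ S a ∧ ¬ S b ∧ ¬ S' c ∧ ¬ S' d) ∧
      P x ∧ P' y ∧ (S x ↔ β) ∧ (S' y ↔ ¬ β) ∧ ¬ (P v ∧ P' v)) : HasO R (n + k) false := by
  obtain ⟨σ, U, W, p1, -, -, p4, p5, p6, p7⟩ := h1.lp' h2 e fun v => (hs v).2
  obtain ⟨q1, q2, q3, q4⟩ := (hs a).1
  exact ⟨σ, U, W, a, b, c, d, p1, by rw [card_union_of_disjoint p1.dj, p4, p5],
    Bool.eq_false_iff.2 fun z => q1 ((p6 a).2 ⟨p1.h1.mem_left, z⟩),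
    Bool.eq_false_iff.2 fun z => q2 ((p6 b).2 ⟨p1.h1.mem_right, z⟩),
    Bool.eq_false_iff.2 fun z => q3 ((p7 c).2 ⟨p1.h2.mem_left, z⟩),
    Bool.eq_false_iff.2 fun z => q4 ((p7 d).2 ⟨p1.h2.mem_right, z⟩)⟩

/-- A linked pair whose four ends are sources. -/
theorem Sg.hasSS' (h1 : Sg R P S n a b) (h2 : Sg R P' S' k c d) (e : Ar R β x y)
    (hs : ∀ v, (S a ∧ S b ∧ S' c ∧ S' d) ∧
      P x ∧ P' y ∧ (S x ↔ β) ∧ (S' y ↔ ¬ β) ∧ ¬ (P v ∧ P' v)) : HasO R (n + k) true := by
  obtain ⟨σ, U, W, p1, -, -, p4, p5, p6, p7⟩ := h1.lp' h2 e fun v => (hs v).2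
  obtain ⟨q1, q2, q3, q4⟩ := (hs a).1
  exact ⟨σ, U, W, a, b, c, d, p1, by rw [card_union_of_disjoint p1.dj, p4, p5],
    ((p6 a).1 q1).2, ((p6 b).1 q2).2, ((p7 c).1 q3).2, ((p7 d).1 q4).2⟩

theorem HasS.dual (h : HasS R n k) : HasS (flip R) n k := by
  obtain ⟨σ, U, W, a, b, c, d, x, h1, h2, h3, h4, h5, h6⟩ := h
  exact ⟨neg σ, U, W, a, b, c, d, x, by simpa using h1, by simpa using h2, h3, h4,
    by simpa using h5, h6⟩

theorem HasO.dual {γ : Bool} (h : HasO R n γ) : HasO (flip R) n (!γ) := by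
  obtain ⟨σ, U, W, a, b, c, d, h1, h2, h3, h4, h5, h6⟩ := h
  exact ⟨neg σ, U, W, a, b, c, d, h1.dual, h2, by simp [neg, h3], by simp [neg, h4],
    by simp [neg, h5], by simp [neg, h6]⟩

end general

section index

variable {R : ℕ → ℕ → Prop} {P S P' S' : ℕ → Prop} {n k a b c d x y lo hi r : ℕ} {β : Prop}

/-- The numbers from `lo` to `hi` form a path; the sources are the numbers of parity `r`. -/
def Alt (R : ℕ → ℕ → Prop) (r lo hi : ℕ) : Prop :=
  ∀ i, lo ≤ i → i < hi → Ar R (i % 2 = r) i (i + 1)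

/-- An edge of the base path. -/
theorem Alt.ar (h : Alt R r lo hi) (x y : ℕ)
    (hs : r < 2 ∧ lo ≤ x ∧ lo ≤ y ∧ x ≤ hi ∧ y ≤ hi ∧ (y = x + 1 ∨ x = y + 1)) :
    Ar R (x % 2 = r) x y := by
  obtain ⟨h0, h1, h2, h3, h4, rfl | rfl⟩ := hs
  · exact h x h1 (by omega)
  · have := h y h2 (by omega)
    exact ⟨fun q => this.2 (by omega), fun q => this.1 (by omega)⟩

/-- A segment of the base path. -/
theorem Alt.sg (h : Alt R r lo hi) (i j : ℕ) (hs : r < 2 ∧ lo ≤ i ∧ i ≤ j ∧ j ≤ hi) :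
    Sg R (fun v => i ≤ v ∧ v ≤ j) (fun v => i ≤ v ∧ v ≤ j ∧ v % 2 = r) (j + 1 - i) i j := by
  obtain ⟨h0, h1, h2, h3⟩ := hs
  refine ⟨fun v => decide (v % 2 = r), Icc i j, ?_, Nat.card_Icc i j, fun v => by rw [mem_Icc],
    fun v => by rw [mem_Icc, decide_eq_true_iff, and_assoc]⟩
  induction j, h2 using Nat.le_induction with
  | base => rw [Icc_self]; exact HP.single i
  | succ j hj ih =>
    refine ((ih (by omega)).snoc (c := j + 1) (by simp) ((h j (by omega) (by omega)).ra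
      decide_eq_true_iff (by rw [decide_eq_true_iff]; omega))).cast ?_
    ext v; simp only [mem_insert, mem_Icc]; omega

/-- A single source. -/
theorem Sg.os (R : ℕ → ℕ → Prop) (a : ℕ) : Sg R (fun v => v = a) (fun v => v = a) 1 a a :=
  ⟨fun _ => true, {a}, HP.single a, card_singleton a, by simp, by simp⟩

/-- A single sink. -/
theorem Sg.ot (R : ℕ → ℕ → Prop) (a : ℕ) : Sg R (fun v => v = a) (fun v => v < 0) 1 a a :=
  ⟨fun _ => false, {a}, HP.single a, card_singleton a, by simp, by simp⟩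

/-- Join two paths by an edge. -/
theorem Sg.jn (h1 : Sg R P S n a b) (h2 : Sg R P' S' k c d) (e : Ar R β b c)
    (hs : ∀ v, (S b ↔ β) ∧ (S' c ↔ ¬ β) ∧ ¬ (P v ∧ P' v)) :
    Sg R (fun v => P v ∨ P' v) (fun v => S v ∨ S' v) (n + k) a d := h1.jn' h2 e hs

/-- Join two paths by an arc from the first to the second. -/
theorem Sg.out (h1 : Sg R P S n a b) (h2 : Sg R P' S' k c d) (e : R b c)
    (hs : ∀ v, S b ∧ ¬ S' c ∧ ¬ (P v ∧ P' v)) :
    Sg R (fun v => P v ∨ P' v) (fun v => S v ∨ S' v) (n + k) a d :=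
  h1.jn' h2 (Ar.out e) fun v => ⟨iff_of_true (hs v).1 rfl,
    iff_of_false (hs v).2.1 (not_not.2 rfl), (hs v).2.2⟩

/-- Join two paths by an arc from the second to the first. -/
theorem Sg.inn (h1 : Sg R P S n a b) (h2 : Sg R P' S' k c d) (e : R c b)
    (hs : ∀ v, ¬ S b ∧ S' c ∧ ¬ (P v ∧ P' v)) :
    Sg R (fun v => P v ∨ P' v) (fun v => S v ∨ S' v) (n + k) a d :=
  h1.jn' h2 (Ar.inn e) fun v => ⟨iff_of_false (hs v).1 (by omega),
    iff_of_true (hs v).2.1 (by omega), (hs v).2.2⟩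

/-- The first path with the second as a tail, joined at the first end `c` of the tail. -/
theorem Sg.hasS (h1 : Sg R P S n a b) (h2 : Sg R P' S' k c d) (e : Ar R β x c)
    (hs : ∀ v, P x ∧ P' c ∧ (S x ↔ β) ∧ (S' c ↔ ¬ β) ∧ ¬ (P v ∧ P' v)) : HasS R n k := h1.hasS' h2 e hs

theorem Sg.hasL (h1 : Sg R P S n a b) (h2 : Sg R P' S' k c d) (e : Ar R β x y)
    (hs : ∀ v, P x ∧ P' y ∧ (S x ↔ β) ∧ (S' y ↔ ¬ β) ∧ ¬ (P v ∧ P' v)) : HasL R (n + k) := h1.hasL' h2 e hs

theorem Sg.hasT (h1 : Sg R P S n a b) (h2 : Sg R P' S' k c d) (e : Ar R β x y)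
    (hs : ∀ v, (¬ S a ∧ ¬ S b ∧ ¬ S' c ∧ ¬ S' d) ∧
      P x ∧ P' y ∧ (S x ↔ β) ∧ (S' y ↔ ¬ β) ∧ ¬ (P v ∧ P' v)) : HasO R (n + k) false := h1.hasT' h2 e hs

theorem Sg.hasSS (h1 : Sg R P S n a b) (h2 : Sg R P' S' k c d) (e : Ar R β x y)
    (hs : ∀ v, (S a ∧ S b ∧ S' c ∧ S' d) ∧
      P x ∧ P' y ∧ (S x ↔ β) ∧ (S' y ↔ ¬ β) ∧ ¬ (P v ∧ P' v)) : HasO R (n + k) true := h1.hasSS' h2 e hs

theorem Alt.dual (h : Alt R r lo hi) (hr : r < 2) : Alt (flip R) (1 - r) lo hi := fun i h1 h2 =>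
  ⟨fun q => (h i h1 h2).2 (by omega), fun q => (h i h1 h2).1 (by omega)⟩

/-- Two numbered linked paths `0, …, p - 1` and `p, …, p + t - 1` with the link `x y`. -/
structure Fr (R : ℕ → ℕ → Prop) (p t r1 r2 x y : ℕ) : Prop where
  irr : Irr R
  a1 : Alt R r1 0 (p - 1)
  a2 : Alt R r2 p (p + t - 1)
  lk : Ar R (x % 2 = r1) x y
  num : r1 < 2 ∧ r2 < 2 ∧ x < p ∧ p ≤ y ∧ y < p + t ∧ (x % 2 = r1 ↔ ¬ y % 2 = r2)

end index

section transport

variable {V : Type} [DecidableEq V] {R : V → V → Prop} {h : ℕ → V} {N n k : ℕ}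

/-- The digraph on the numbers below `N` given by the numbering `h`. -/
def Pb (R : V → V → Prop) (h : ℕ → V) (N : ℕ) (i j : ℕ) : Prop := i < N ∧ j < N ∧ R (h i) (h j)

open Classical in
/-- Roles carried along a numbering. -/
noncomputable def pf (h : ℕ → V) (N : ℕ) (σ : ℕ → Bool) (x : V) : Bool :=
  decide (∃ i < N, h i = x ∧ σ i = true)

/-- The numbering is injective below `N`. -/
def Inj (h : ℕ → V) (N : ℕ) : Prop := ∀ i < N, ∀ j < N, h i = h j → i = j

theorem pf_eq (hi : Inj h N) (σ : ℕ → Bool) {i : ℕ} (q : i < N) : pf h N σ (h i) = σ i := by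
  unfold pf
  rw [Bool.eq_iff_iff, decide_eq_true_iff]
  exact ⟨fun ⟨j, j1, j2, j3⟩ => hi j j1 i q j2 ▸ j3, fun e => ⟨i, q, rfl, e⟩⟩

theorem RA.pb {σ : ℕ → Bool} {i j : ℕ} (hi : Inj h N) (e : RA (Pb R h N) σ i j) :
    i < N ∧ j < N ∧ RA R (pf h N σ) (h i) (h j) := by
  rcases e with ⟨e1, e2, q1, q2, e⟩ | ⟨e1, e2, q1, q2, e⟩
  · exact ⟨q1, q2, RA.mk (by rw [pf_eq hi σ q1, e1]) (by rw [pf_eq hi σ q2, e2]) e⟩
  · exact ⟨q2, q1, RA.mk' (by rw [pf_eq hi σ q2, e1]) (by rw [pf_eq hi σ q1, e2]) e⟩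

theorem HP.pb {σ : ℕ → Bool} {U : Finset ℕ} {a b : ℕ} (hi : Inj h N)
    (p : HP (RA (Pb R h N) σ) U a b) :
    HP (RA R (pf h N σ)) (U.image h) (h a) (h b) ∧ (U.image h).card = U.card ∧
      ((∃ x ∈ U, x < N) → ∀ v ∈ U, v < N) := by
  induction p with
  | single a => exact ⟨by simpa using HP.single _, by simp, by simp⟩
  | @cons U a a' b h3 h4 h5 ih =>
    obtain ⟨q1, q2, q3⟩ := h3.pb hi
    have q4 := ih.2.2 ⟨a', h5.mem_left, q2⟩
    have q5 : h a ∉ U.image h := fun z => by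
      obtain ⟨v, v1, v2⟩ := mem_image.1 z
      exact h4 (hi v (q4 v v1) a q1 v2 ▸ v1)
    rw [image_insert]
    refine ⟨HP.cons q3 q5 ih.1, by rw [card_insert_of_notMem q5, card_insert_of_notMem h4, ih.2.1],
      fun _ v hv => ?_⟩
    rcases mem_insert.1 hv with rfl | hv
    · exact q1
    · exact q4 v hv

theorem LP.pb {σ : ℕ → Bool} {U W : Finset ℕ} {a b c d : ℕ} (hi : Inj h N)
    (p : LP (Pb R h N) σ U W a b c d) :
    LP R (pf h N σ) (U.image h) (W.image h) (h a) (h b) (h c) (h d) ∧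
      (U.image h).card = U.card ∧ (W.image h).card = W.card ∧ (∀ v ∈ U, v < N) ∧
      ∀ v ∈ W, v < N := by
  obtain ⟨x, hx, y, hy, e⟩ := p.lk
  obtain ⟨q1, q2, q3⟩ := e.pb hi
  obtain ⟨u1, u2, u3⟩ := p.h1.pb hi
  obtain ⟨w1, w2, w3⟩ := p.h2.pb hi
  have u4 := u3 ⟨x, hx, q1⟩
  have w4 := w3 ⟨y, hy, q2⟩
  refine ⟨⟨u1, w1, disjoint_left.2 fun z z1 z2 => ?_, h x, mem_image_of_mem h hx, h y,
    mem_image_of_mem h hy, q3⟩, u2, w2, u4, w4⟩
  obtain ⟨i, i1, rfl⟩ := mem_image.1 z1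
  obtain ⟨j, j1, j2⟩ := mem_image.1 z2
  exact disjoint_left.1 p.dj i1 (hi j (w4 j j1) i (u4 i i1) j2 ▸ j1)

theorem HasP.pb (hi : Inj h N) (p : HasP (Pb R h N) n) : HasP R n := by
  obtain ⟨σ, U, a, b, p, e⟩ := p
  exact ⟨_, _, _, _, (p.pb hi).1, (p.pb hi).2.1.trans e⟩

theorem HasS.pb (hi : Inj h N) (p : HasS (Pb R h N) n k) : HasS R n k := by
  obtain ⟨σ, U, W, a, b, c, d, x, p1, p2, p3, p4, p5, p6, p7⟩ := p
  obtain ⟨q1, q2, q3, -⟩ := LP.pb hi ⟨p1, p2, p3, x, p4, c, p2.mem_left, p5⟩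
  exact ⟨_, _, _, _, _, _, _, h x, q1.h1, q1.h2, q1.dj, mem_image_of_mem h p4, (p5.pb hi).2.2,
    q2.trans p6, q3.trans p7⟩

theorem HasL.pb (hi : Inj h N) (p : HasL (Pb R h N) n) : HasL R n := by
  obtain ⟨σ, U, W, a, b, c, d, p, e⟩ := p
  obtain ⟨q1, q2, q3, -⟩ := p.pb hi
  exact ⟨_, _, _, _, _, _, _, q1, by
    rw [card_union_of_disjoint q1.dj, q2, q3, ← card_union_of_disjoint p.dj, e]⟩

theorem HasO.pb {β : Bool} (hi : Inj h N) (p : HasO (Pb R h N) n β) : HasO R n β := by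
  obtain ⟨σ, U, W, a, b, c, d, p, e, e1, e2, e3, e4⟩ := p
  obtain ⟨q1, q2, q3, q4, q5⟩ := p.pb hi
  exact ⟨_, _, _, _, _, _, _, q1, by
    rw [card_union_of_disjoint q1.dj, q2, q3, ← card_union_of_disjoint p.dj, e],
    by rw [pf_eq hi σ (q4 a p.h1.mem_left), e1], by rw [pf_eq hi σ (q4 b p.h1.mem_right), e2],
    by rw [pf_eq hi σ (q5 c p.h2.mem_left), e3], by rw [pf_eq hi σ (q5 d p.h2.mem_right), e4]⟩

omit [DecidableEq V] in
theorem Pb_flip : Pb (flip R) h N = flip (Pb R h N) := by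
  funext i j
  simp only [Pb, flip, eq_iff_iff]
  tauto

omit [DecidableEq V] in
theorem Irr.pb (hi : Irr R) : Irr (Pb R h N) := fun v q => hi (h v) q.2.2

/-- Degrees are carried along. -/
theorem od_pb (hi : Inj h N) {i : ℕ} (q : i < N) :
    od (Pb R h N) (range N) i = od R ((range N).image h) (h i) := by
  classical
  unfold od
  rw [filter_image, card_image_of_injOn]
  · congr 1
    ext j
    simp only [mem_filter, mem_range, Pb]
    tauto
  · intro x hx y hy e
    exact hi x (mem_range.1 (mem_filter.1 hx).1) y (mem_range.1 (mem_filter.1 hy).1) e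

theorem id_pb (hi : Inj h N) {i : ℕ} (q : i < N) :
    od (flip (Pb R h N)) (range N) i = od (flip R) ((range N).image h) (h i) := by
  rw [← Pb_flip, od_pb hi q]

/-- Numbering of one path. -/
theorem HP.number {σ : V → Bool} {U : Finset V} {a b : V} (p : HP (RA R σ) U a b) :
    ∃ f : ℕ → V, Inj f U.card ∧ (range U.card).image f = U ∧ f 0 = a ∧ f (U.card - 1) = b ∧
      ∀ i, i + 1 < U.card → RA R σ (f i) (f (i + 1)) := by
  induction p with
  | single a => exact ⟨fun _ => a, by simp [Inj], by simp, rfl, rfl, by simp⟩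
  | @cons U a a' b h3 h4 h5 ih =>
    obtain ⟨f, f1, f2, f3, f4, f5⟩ := ih
    have hp := h5.nonempty.card_pos
    have hm : ∀ i < U.card, f i ≠ a := fun i q e =>
      h4 (by rw [← f2, ← e]; exact mem_image_of_mem f (mem_range.2 q))
    rw [card_insert_of_notMem h4]
    refine ⟨fun i => if i = 0 then a else f (i - 1), fun i q j q' e => ?_, ?_, by simp, ?_,
      fun i q => ?_⟩
    · beta_reduce at e
      split_ifs at e with e1 e2 e2
      · omega
      · exact absurd e.symm (hm _ (by omega))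
      · exact absurd e (hm _ (by omega))
      · have := f1 _ (by omega) _ (by omega) e; omega
    · ext x
      simp only [mem_image, mem_range, mem_insert]
      constructor
      · rintro ⟨i, q, rfl⟩
        split_ifs with e
        · exact Or.inl rfl
        · exact Or.inr (by rw [← f2]; exact mem_image_of_mem f (mem_range.2 (by omega)))
      · rintro (rfl | q)
        · exact ⟨0, by omega, by simp⟩
        · rw [← f2] at q
          obtain ⟨i, i1, rfl⟩ := mem_image.1 q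
          exact ⟨i + 1, by have := mem_range.1 i1; omega, by simp⟩
    · beta_reduce
      rw [if_neg (by omega), ← f4]; rfl
    · beta_reduce
      rw [if_neg (Nat.succ_ne_zero i), Nat.add_sub_cancel]
      split_ifs with e
      · subst e; rwa [f3]
      · have := f5 (i - 1) (by omega)
        rwa [show i - 1 + 1 = i by omega] at this

theorem alt_of_ra {σ : V → Bool} {lo hi r : ℕ} (hr : r < 2) (hN : hi < N)
    (h0 : σ (h lo) = true ↔ lo % 2 = r) (e : ∀ i, lo ≤ i → i < hi → RA R σ (h i) (h (i + 1))) :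
    Alt (Pb R h N) r lo hi ∧ ∀ i, lo ≤ i → i ≤ hi → (σ (h i) = true ↔ i % 2 = r) := by
  have key : ∀ i, lo ≤ i → i ≤ hi → (σ (h i) = true ↔ i % 2 = r) := by
    intro i h1
    induction i, h1 using Nat.le_induction with
    | base => exact fun _ => h0
    | succ i h1 ih =>
      intro h2
      have q := ih (by omega)
      rcases e i h1 (by omega) with ⟨e1, e2, -⟩ | ⟨e1, e2, -⟩
      · exact iff_of_false (by simp [e2]) (by have := q.1 e1; omega)
      · exact iff_of_true e2 (by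
          have : ¬ i % 2 = r := fun z => by simp [q.2 z] at e1
          omega)
  refine ⟨fun i h1 h2 => ⟨fun q => ⟨by omega, by omega, ?_⟩, fun q => ⟨by omega, by omega, ?_⟩⟩,
    key⟩
  · exact ((e i h1 h2).of_src ((key i h1 (by omega)).2 q)).2
  · exact ((e i h1 h2).of_snk (Bool.eq_false_iff.2 fun z => q ((key i h1 (by omega)).1 z))).2

/-- Numbering of two disjoint paths: `0, …, p - 1` and `p, …, p + t - 1`. -/
theorem number2 {σ : V → Bool} {U W : Finset V} {a b c d : V} (p1 : HP (RA R σ) U a b)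
    (p2 : HP (RA R σ) W c d) (hd : Disjoint U W) {p t r1 r2 : ℕ} (e1 : U.card = p)
    (e2 : W.card = t) (hr1 : r1 < 2) (hr2 : r2 < 2) (ha : σ a = true ↔ r1 = 0)
    (hc : σ c = true ↔ p % 2 = r2) :
    ∃ h : ℕ → V, Inj h (p + t) ∧ (range (p + t)).image h = U ∪ W ∧ h 0 = a ∧ h (p - 1) = b ∧
      h p = c ∧ h (p + t - 1) = d ∧ Alt (Pb R h (p + t)) r1 0 (p - 1) ∧
      Alt (Pb R h (p + t)) r2 p (p + t - 1) ∧
      (∀ x ∈ U, ∃ i < p, h i = x) ∧ (∀ x ∈ W, ∃ i, p ≤ i ∧ i < p + t ∧ h i = x) ∧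
      (∀ i < p, h i ∈ U ∧ (σ (h i) = true ↔ i % 2 = r1)) ∧
      ∀ i, p ≤ i → i < p + t → h i ∈ W ∧ (σ (h i) = true ↔ i % 2 = r2) := by
  obtain ⟨f, f1, f2, f3, f4, f5⟩ := p1.number
  obtain ⟨g, g1, g2, g3, g4, g5⟩ := p2.number
  have hp := p1.nonempty.card_pos
  have ht := p2.nonempty.card_pos
  rw [e1] at f1 f2 f4 f5 hp
  rw [e2] at g1 g2 g4 g5 ht
  set h : ℕ → V := fun i => if i < p then f i else g (i - p) with hh
  have hf : ∀ i < p, h i = f i := fun i q => if_pos q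
  have hg : ∀ i, p ≤ i → h i = g (i - p) := fun i q => if_neg (by omega)
  have mf : ∀ i < p, h i ∈ U := fun i q => by
    rw [hf i q, ← f2]; exact mem_image_of_mem f (mem_range.2 q)
  have mg : ∀ i, p ≤ i → i < p + t → h i ∈ W := fun i q q' => by
    rw [hg i q, ← g2]; exact mem_image_of_mem g (mem_range.2 (by omega))
  have sf : ∀ x ∈ U, ∃ i < p, h i = x := fun x q => by
    rw [← f2] at q
    obtain ⟨i, i1, rfl⟩ := mem_image.1 q
    exact ⟨i, mem_range.1 i1, hf i (mem_range.1 i1)⟩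
  have sg : ∀ x ∈ W, ∃ i, p ≤ i ∧ i < p + t ∧ h i = x := fun x q => by
    rw [← g2] at q
    obtain ⟨i, i1, rfl⟩ := mem_image.1 q
    exact ⟨p + i, by omega, by have := mem_range.1 i1; omega, by
      rw [hg _ (by omega), Nat.add_sub_cancel_left]⟩
  have A := alt_of_ra (R := R) (h := h) (N := p + t) (σ := σ) (lo := 0) (hi := p - 1) hr1
    (by omega) (by rw [hf 0 hp, f3, ha]; omega) fun i _ q => by
      rw [hf i (by omega), hf (i + 1) (by omega)]; exact f5 i (by omega)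
  have B := alt_of_ra (R := R) (h := h) (N := p + t) (σ := σ) (lo := p) (hi := p + t - 1) hr2
    (by omega) (by rw [hg p le_rfl, Nat.sub_self, g3, hc]) fun i q q' => by
      rw [hg i q, hg (i + 1) (by omega), show i + 1 - p = i - p + 1 by omega]
      exact g5 _ (by omega)
  refine ⟨h, fun i q j q' e => ?_, ?_, by rw [hf 0 hp, f3], by rw [hf _ (by omega), f4],
    by rw [hg p le_rfl, Nat.sub_self, g3], by
      rw [hg _ (by omega), show p + t - 1 - p = t - 1 by omega, g4], A.1, B.1, sf, sg,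
    fun i q => ⟨mf i q, A.2 i (by omega) (by omega)⟩,
    fun i q q' => ⟨mg i q q', B.2 i q (by omega)⟩⟩
  · by_cases u : i < p <;> by_cases u' : j < p
    · rw [hf i u, hf j u'] at e; exact f1 i u j u' e
    · exact absurd (e ▸ mf i u) (disjoint_right.1 hd (mg j (by omega) q'))
    · exact absurd (e ▸ mf j u') (disjoint_right.1 hd (mg i (by omega) q))
    · rw [hg i (by omega), hg j (by omega)] at e
      have := g1 _ (by omega) _ (by omega) e; omega
  · ext x
    simp only [mem_image, mem_range, mem_union]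
    constructor
    · rintro ⟨i, q, rfl⟩
      by_cases u : i < p
      · exact Or.inl (mf i u)
      · exact Or.inr (mg i (by omega) q)
    · rintro (q | q)
      · obtain ⟨i, i1, i2⟩ := sf x q; exact ⟨i, by omega, i2⟩
      · obtain ⟨i, -, i1, i2⟩ := sg x q; exact ⟨i, i1, i2⟩

set_option linter.unusedSectionVars false in
/-- A role edge between numbered vertices. -/
theorem RA.ar {σ : V → Bool} {i j : ℕ} {β : Prop} (e : RA R σ (h i) (h j)) (q1 : i < N)
    (q2 : j < N) (hβ : σ (h i) = true ↔ β) :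
    Ar (Pb R h N) β i j ∧ (σ (h j) = true ↔ ¬ β) := by
  rcases e with ⟨e1, e2, e⟩ | ⟨e1, e2, e⟩
  · exact ⟨⟨fun _ => ⟨q1, q2, e⟩, fun z => absurd (hβ.1 e1) z⟩,
      iff_of_false (by simp [e2]) (not_not.2 (hβ.1 e1))⟩
  · have : ¬ β := fun z => by simp [hβ.2 z] at e1
    exact ⟨⟨fun z => absurd z this, fun _ => ⟨q2, q1, e⟩⟩, iff_of_true e2 this⟩

/-- Numbering of a linked pair with a given link. -/
theorem LP.number {σ : V → Bool} {U W : Finset V} {a b c d u w : V} (hi : Irr R)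
    (p1 : HP (RA R σ) U a b) (p2 : HP (RA R σ) W c d) (hd : Disjoint U W) (hu : u ∈ U)
    (hw : w ∈ W) (e : RA R σ u w) {p t r1 r2 : ℕ} (e1 : U.card = p)
    (e2 : W.card = t) (hr1 : r1 < 2) (hr2 : r2 < 2) (ha : σ a = true ↔ r1 = 0)
    (hc : σ c = true ↔ p % 2 = r2) :
    ∃ (h : ℕ → V) (x y : ℕ), Inj h (p + t) ∧ Fr (Pb R h (p + t)) p t r1 r2 x y ∧
      (range (p + t)).image h = U ∪ W ∧ h 0 = a ∧ h (p - 1) = b ∧ h p = c ∧ h (p + t - 1) = d ∧
      h x = u ∧ h y = w ∧ (σ b = true ↔ (p - 1) % 2 = r1) ∧ (σ d = true ↔ (p + t - 1) % 2 = r2) := by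
  obtain ⟨h, k1, k2, k3, k4, k5, k6, k7, k8, k9, k10, k11, k12⟩ :=
    number2 p1 p2 hd e1 e2 hr1 hr2 ha hc
  obtain ⟨x, x1, rfl⟩ := k9 u hu
  obtain ⟨y, y1, y2, rfl⟩ := k10 w hw
  obtain ⟨q1, q2⟩ := e.ar (N := p + t) (by omega) y2 (k11 x x1).2
  have q3 := (k12 y y1 y2).2
  refine ⟨h, x, y, k1, ⟨hi.pb, k7, k8, q1, hr1, hr2, x1, y1, y2, by tauto⟩, k2, k3, k4, k5, k6, rfl,
    rfl, ?_, ?_⟩
  · rw [← k4]; exact (k11 _ (by omega)).2
  · rw [← k6]; exact (k12 _ (by omega) (by omega)).2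

end transport

section sums

open Classical in
/-- Indicator of a proposition. -/
noncomputable def ind (p : Prop) : ℕ := if p then 1 else 0

theorem ind_cases (p : Prop) : (p ∧ ind p = 1) ∨ (¬ p ∧ ind p = 0) := by
  unfold ind; by_cases q : p <;> simp [q]

theorem ind_le (p : Prop) : ind p ≤ 1 := by rcases ind_cases p with q | q <;> omega

theorem ind_eq_zero {p : Prop} (q : ¬ p) : ind p = 0 := by simp [ind, q]

theorem ind_eq_one {p : Prop} (q : p) : ind p = 1 := by simp [ind, q]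

theorem ind2 {p q : Prop} (h : p → q → False) : ind p + ind q ≤ 1 := by
  rcases ind_cases p with u | u <;> rcases ind_cases q with v | v
  · exact (h u.1 v.1).elim
  all_goals omega

theorem ind3 {p q r : Prop} (h : p → q → r → False) : ind p + ind q + ind r ≤ 2 := by
  by_cases u : p
  · have := ind2 (h u); have := ind_le p; omega
  · have := ind_le q; have := ind_le r; have := ind_eq_zero u; omega

theorem ind4 {p q r s : Prop} (h : p → q → r → s → False) : ind p + ind q + ind r + ind s ≤ 3 := by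
  by_cases u : p
  · have := ind3 (h u); have := ind_le p; omega
  · have := ind_le q; have := ind_le r; have := ind_le s; have := ind_eq_zero u; omega

theorem od_sum (R : ℕ → ℕ → Prop) (N a : ℕ) : od R (range N) a = ∑ j ∈ range N, ind (R a j) := by
  unfold od ind
  rw [card_filter]

theorem id_sum (R : ℕ → ℕ → Prop) (N a : ℕ) :
    od (flip R) (range N) a = ∑ j ∈ range N, ind (R j a) := od_sum (flip R) N a

theorem sum_par (f : ℕ → ℕ) (h : ℕ) : ∑ i ∈ range (2 * h), f i =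
    ∑ j ∈ range h, f (2 * j) + ∑ j ∈ range h, f (2 * j + 1) := by
  induction h with
  | zero => simp
  | succ h ih =>
    rw [show 2 * (h + 1) = 2 * h + 1 + 1 by omega, sum_range_succ, sum_range_succ, ih,
      sum_range_succ, sum_range_succ]
    omega

theorem sum_par' (f : ℕ → ℕ) (h : ℕ) : ∑ i ∈ range (2 * h + 1), f i =
    ∑ j ∈ range (h + 1), f (2 * j) + ∑ j ∈ range h, f (2 * j + 1) := by
  rw [sum_range_succ, sum_par, sum_range_succ]; omega

/-- The size of a window. -/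
theorem sum_win {lo hi h : ℕ} (q : hi ≤ h) : ∑ j ∈ range h, ind (lo ≤ j ∧ j < hi) = hi - lo := by
  classical
  have e : (range h).filter (fun j => lo ≤ j ∧ j < hi) = Ico lo hi := by
    ext j; simp only [mem_filter, mem_range, mem_Ico]; omega
  rw [← Nat.card_Ico, ← e, card_filter]
  exact sum_congr rfl fun j _ => by unfold ind; congr

theorem sum_le_mul {f : ℕ → ℕ} {h c : ℕ} (q : ∀ j < h, f j ≤ c) : ∑ j ∈ range h, f j ≤ c * h := by
  have := sum_le_card_nsmul (range h) f c fun j hj => q j (mem_range.1 hj)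
  rwa [card_range, smul_eq_mul, mul_comm] at this

end sums

end Pool.Agent.Lib.MP_04ab3e_co.X
end

-- part Pool.Agent.Lib.MP_04ab3e_co.X.Fr
section

/-! The two frames for the static counts on numbered vertices. -/

namespace Pool.Agent.Lib.MP_04ab3e_co.X

open Finset

/-- The end of a linked pair that covers a closed set has large degree. -/
theorem Sg.row {R : ℕ → ℕ → Prop} {P S P' S' : ℕ → Prop} {n k a b c d x y N m : ℕ} {β : Prop}
    (hc : CL R (range N) m) (h1 : Sg R P S n a b) (h2 : Sg R P' S' k c d) (e : Ar R β x y)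
    (hs : ∀ v, (P v ∨ P' v ↔ v < N) ∧ P x ∧ P' y ∧ (S x ↔ β) ∧ (S' y ↔ ¬ β) ∧ ¬ (P v ∧ P' v)) :
    (S a → m ≤ od R (range N) a) ∧ (¬ S a → m ≤ od (flip R) (range N) a) := by
  obtain ⟨σ, U, W, p1, p2, p3, -, -, p6, p7, p8, p9⟩ := h1.both h2 fun v => (hs v).2.2.2.2.2
  have hx := (p6 x).1 (hs a).2.1
  have hy := (p7 y).1 (hs a).2.2.1
  have q : RA R σ x y := e.ra
    (by rw [← (hs a).2.2.2.1, p8]; exact ⟨fun q => ⟨hx, q⟩, fun q => q.2⟩)
    (by rw [← (hs a).2.2.2.2.1, p9]; exact ⟨fun q => ⟨hy, q⟩, fun q => q.2⟩)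
  have := hc σ U W a b c d ⟨p1, p2, p3, x, hx, y, hy, q⟩ (by
    ext v; rw [mem_union, mem_range, ← p6, ← p7]; exact (hs v).1)
  exact ⟨fun z => by rwa [deg_src ((p8 a).1 z).2] at this, fun z => by
    rwa [deg_snk (Bool.eq_false_iff.2 fun u => z ((p8 a).2 ⟨p1.mem_left, u⟩))] at this⟩

theorem CL.pb {V : Type} [DecidableEq V] {R : V → V → Prop} {h : ℕ → V} {N m : ℕ} (hi : Inj h N)
    (hc : CL R ((range N).image h) m) : CL (Pb R h N) (range N) m := by
  intro σ U W a b c d p e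
  obtain ⟨q1, -, -, q4, -⟩ := p.pb hi
  have ha := q4 a p.h1.mem_left
  have := hc _ _ _ _ _ _ _ q1 (by rw [← image_union, e])
  cases z : σ a
  · rwa [deg_snk (by rw [pf_eq hi σ ha, z]), ← id_pb hi ha, ← deg_snk z] at this
  · rwa [deg_src (by rw [pf_eq hi σ ha, z]), ← od_pb hi ha, ← deg_src z] at this

/-- A closed linked pair on more than `2 m` vertices, no path on `2 m` vertices and no spider on
more than `2 m` vertices. -/
structure HF (R : ℕ → ℕ → Prop) (m p t r1 r2 x y : ℕ) : Prop extends Fr R p t r1 r2 x y where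
  big : 2 * m + 1 ≤ p + t
  noP : ∀ n, HasP R n → n < 2 * m
  noS : ∀ n k, HasS R n k → n + k ≤ 2 * m
  cl : CL R (range (p + t)) m

/-- A spider on more than `2 m` vertices with the longest path, then the longest tail. The root
is `x`, the tail is `p, …, p + t - 1`. -/
structure SF (R : ℕ → ℕ → Prop) (m p t r1 r2 x : ℕ) : Prop extends Fr R p t r1 r2 x p where
  big : 2 * m + 1 ≤ p + t
  noP : ∀ n, HasP R n → n < 2 * m
  maxp : ∀ n k, HasS R n k → 2 * m + 1 ≤ n + k → n ≤ p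
  maxt : ∀ k, HasS R p k → k ≤ t

variable {R : ℕ → ℕ → Prop} {m p t r1 r2 x y : ℕ}

/-- The link vertices are far from the ends. -/
theorem HF.far (F : HF R m p t r1 r2 x y) :
    p + t ≤ 2 * m + x ∧ t + x + 1 ≤ 2 * m ∧ 2 * p + t ≤ 2 * m + y ∧ y + 1 ≤ 2 * m := by
  have hn := F.num
  have q1 := F.noS _ _ ((F.a1.sg 0 (p - 1) (by omega)).hasS (F.a2.sg y (p + t - 1)
      (by omega)) F.lk (by omega))
  have q2 := F.noS _ _ ((F.a1.sg 0 (p - 1) (by omega)).hasS (F.a2.sg p y (by omega)).rev F.lk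
      (by omega))
  have q3 := F.noS _ _ ((F.a2.sg p (p + t - 1) (by omega)).hasS (F.a1.sg x (p - 1)
      (by omega)) F.lk.symm (by omega))
  have q4 := F.noS _ _ ((F.a2.sg p (p + t - 1) (by omega)).hasS (F.a1.sg 0 x
      (by omega)).rev F.lk.symm (by omega))
  omega

/-- The degrees of the four ends. -/
theorem HF.rows (F : HF R m p t r1 r2 x y) :
    ((0 = r1 → m ≤ od R (range (p + t)) 0) ∧
      ((p - 1) % 2 = r1 → m ≤ od R (range (p + t)) (p - 1)) ∧
      ((p - 1) % 2 ≠ r1 → m ≤ od (flip R) (range (p + t)) (p - 1))) ∧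
    (p % 2 = r2 → m ≤ od R (range (p + t)) p) ∧
      ((p + t - 1) % 2 = r2 → m ≤ od R (range (p + t)) (p + t - 1)) ∧
      ((p + t - 1) % 2 ≠ r2 → m ≤ od (flip R) (range (p + t)) (p + t - 1)) := by
  have hn := F.num
  have P := F.a1.sg 0 (p - 1) (by omega)
  have W := F.a2.sg p (p + t - 1) (by omega)
  have q1 := P.row F.cl W F.lk (by omega)
  have q2 := P.rev.row F.cl W F.lk (by omega)
  have q3 := W.row F.cl P F.lk.symm (by omega)
  have q4 := W.rev.row F.cl P F.lk.symm (by omega)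
  exact ⟨⟨fun e => q1.1 (by omega), fun e => q2.1 (by omega), fun e => q2.2 (by omega)⟩,
    fun e => q3.1 (by omega), fun e => q4.1 (by omega), fun e => q4.2 (by omega)⟩

/-- The root has at least `t` vertices on both sides. -/
theorem SF.far (F : SF R m p t r1 r2 x) : 1 ≤ t ∧ p < 2 * m ∧ t ≤ x ∧ x + t < p := by
  have hn := F.num
  have hb := F.big
  have q0 := F.noP _ (F.a1.sg 0 (p - 1) (by omega)).hasP
  have q1 : x ≠ 0 := fun e => by
    have := F.noP _ ((F.a1.sg x (p - 1) (by omega)).rev.jn (F.a2.sg p (p + t - 1) (by omega)) F.lk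
        (by omega)).hasP
    omega
  have q2 : x ≠ p - 1 := fun e => by
    have := F.noP _ ((F.a1.sg 0 x (by omega)).jn (F.a2.sg p (p + t - 1) (by omega)) F.lk
        (by omega)).hasP
    omega
  have q3 := F.maxp _ _ (((F.a1.sg x (p - 1) (by omega)).rev.jn (F.a2.sg p (p + t - 1)
      (by omega)) F.lk (by omega)).hasS
    (F.a1.sg 0 (x - 1) (by omega)).rev (F.a1.ar x (x - 1) (by omega)) (by omega)) (by omega)
  have q4 := F.maxp _ _ (((F.a1.sg 0 x (by omega)).jn (F.a2.sg p (p + t - 1) (by omega)) F.lk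
      (by omega)).hasS
    (F.a1.sg (x + 1) (p - 1) (by omega)) (F.a1.ar x (x + 1) (by omega)) (by omega)) (by omega)
  omega

end Pool.Agent.Lib.MP_04ab3e_co.X
end

-- part Pool.Agent.Lib.MP_04ab3e_co.X.Cell
section

/-! Weights of cells. -/

namespace Pool.Agent.Lib.MP_04ab3e_co.X

open Finset

variable {A B C D E : Prop}

theorem cell3 (h1 : A → B → False) (h2 : E → C → B → False) (h3 : E → D → A → False) :
    ind A + ind B + ind C + ind D + ind E ≤ 3 := by
  by_cases a : A <;> by_cases b : B <;> by_cases c : C <;> by_cases d : D <;> by_cases e : E <;>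
    simp_all [ind]

theorem cell2 (h1 : A → B → False) (h3 : E → D → A → False) (h4 : C → D → False)
    (h5 : C → E → False) (h6 : B → E → False) : ind A + ind B + ind C + ind D + ind E ≤ 2 := by
  by_cases a : A <;> by_cases b : B <;> by_cases c : C <;> by_cases d : D <;> by_cases e : E <;>
    simp_all [ind]

theorem cell1 (h1 : A → B → False) (h2 : A → C → False) (h3 : B → C → False) :
    ind A + ind B + ind C ≤ 1 := by
  by_cases a : A <;> by_cases b : B <;> by_cases c : C <;> simp_all [ind]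

/-- A saving that is earned under a condition. -/
theorem save {n c : ℕ} (h1 : n ≤ c + 1) (h2 : A → n ≤ c) : n + ind A ≤ c + 1 := by
  rcases ind_cases A with q | q
  · have := h2 q.1; omega
  · omega

theorem ind_or (h : A → B → False) : ind (A ∨ B) = ind A + ind B := by
  by_cases a : A <;> by_cases b : B <;> simp_all [ind]

theorem ind_mono (h : A → B) : ind A ≤ ind B := by
  by_cases a : A <;> by_cases b : B <;> simp_all [ind]

theorem sum_last (q : ℕ → Prop) (k : ℕ) :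
    ∑ j ∈ range (k + 1), ind (j < k ∧ q j) = ∑ j ∈ range k, ind (q j) := by
  rw [sum_range_succ, ind_eq_zero (p := k < k ∧ q k) (by simp), add_zero]
  exact sum_congr rfl fun j hj => by rw [and_iff_right (mem_range.1 hj)]

theorem sum_first (q : ℕ → Prop) (k : ℕ) :
    ∑ j ∈ range (k + 1), ind (1 ≤ j ∧ q (j - 1)) = ∑ j ∈ range k, ind (q j) := by
  rw [sum_range_succ', ind_eq_zero (p := 1 ≤ 0 ∧ q (0 - 1)) (by simp), add_zero]
  exact sum_congr rfl fun j _ => by simp

theorem sum_zero {q : ℕ → Prop} {k : ℕ} (h : ∀ j < k, ¬ q j) : ∑ j ∈ range k, ind (q j) = 0 :=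
  sum_eq_zero fun j hj => ind_eq_zero (h j (mem_range.1 hj))

end Pool.Agent.Lib.MP_04ab3e_co.X
end

-- part Pool.Agent.Lib.MP_04ab3e_co.X.Sp
section

/-! Spiders: a path with a tail. -/

namespace Pool.Agent.Lib.MP_04ab3e_co.X

open Finset

variable {V : Type} [DecidableEq V]

/-- A path from `a` to `b` on `U` and a tail from `c` to `d` on `W` that hangs at the root `r`. -/
structure Spd (R : V → V → Prop) (σ : V → Bool) (U W : Finset V) (a b r c d : V) : Prop where
  h1 : HP (RA R σ) U a b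
  h2 : HP (RA R σ) W c d
  dj : Disjoint U W
  hr : r ∈ U
  lk : RA R σ r c

/-- Among the spiders on more than `2 m` vertices the path size `p` is largest, and then the tail
size `t`; there is no path on `2 m` vertices. -/
structure Opt (R : V → V → Prop) (m p t : ℕ) : Prop where
  big : 2 * m + 1 ≤ p + t
  noP : ∀ n, HasP R n → n < 2 * m
  maxp : ∀ n k, HasS R n k → 2 * m + 1 ≤ n + k → n ≤ p
  maxt : ∀ k, HasS R p k → k ≤ t

variable {R : V → V → Prop} {σ τ : V → Bool} {U W : Finset V} {a b r c d : V} {m n p t : ℕ}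

theorem HP.hasP (h : HP (RA R σ) U a b) : HasP R U.card := ⟨σ, U, a, b, h, rfl⟩

theorem Spd.hasS (h : Spd R σ U W a b r c d) : HasS R U.card W.card :=
  ⟨σ, U, W, a, b, c, d, r, h.h1, h.h2, h.dj, h.hr, h.lk, rfl, rfl⟩

theorem HasS.spd (h : HasS R p t) :
    ∃ σ U W a b r c d, Spd R σ U W a b r c d ∧ U.card = p ∧ W.card = t := by
  obtain ⟨σ, U, W, a, b, c, d, x, h1, h2, h3, h4, h5, h6⟩ := h
  exact ⟨σ, U, W, a, b, x, c, d, ⟨h1, h2, h3, h4, h5⟩, h6⟩

theorem Spd.dual (h : Spd R σ U W a b r c d) : Spd (flip R) (neg σ) U W a b r c d :=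
  ⟨by simpa using h.h1, by simpa using h.h2, h.dj, h.hr, by simpa using h.lk⟩

theorem Opt.dual (h : Opt R m p t) : Opt (flip R) m p t :=
  ⟨h.big, fun n q => h.noP n q.dual, fun n k q => h.maxp n k q.dual, fun k q => h.maxt k q.dual⟩

theorem Opt.pb {f : ℕ → V} {N : ℕ} (h : Opt R m p t) (hi : Inj f N) : Opt (Pb R f N) m p t :=
  ⟨h.big, fun n q => h.noP n (q.pb hi), fun n k q => h.maxp n k (q.pb hi),
    fun k q => h.maxt k (q.pb hi)⟩

theorem Spd.rev (h : Spd R σ U W a b r c d) : Spd R σ U W b a r c d :=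
  ⟨h.h1.rev, h.h2, h.dj, h.hr, h.lk⟩

theorem Spd.lp (h : Spd R σ U W a b r c d) : LP R σ U W a b c d :=
  ⟨h.h1, h.h2, h.dj, r, h.hr, c, h.h2.mem_left, h.lk⟩

theorem Spd.congr (h : Spd R σ U W a b r c d) (e : ∀ v ∈ U ∪ W, τ v = σ v) :
    Spd R τ U W a b r c d :=
  ⟨h.h1.congr fun v hv => e v (mem_union_left _ hv),
    h.h2.congr fun v hv => e v (mem_union_right _ hv), h.dj, h.hr,
    h.lk.congr (e r (mem_union_left _ h.hr)) (e c (mem_union_right _ h.h2.mem_left))⟩

/-- Another path off the tail in the same roles. -/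
theorem Spd.change (h : Spd R σ U W a b r c d) {U' : Finset V} {a' b' : V}
    (h' : HP (RA R σ) U' a' b') (hd : Disjoint U' W) (hr : r ∈ U') :
    Spd R σ U' W a' b' r c d := ⟨h', h.h2, hd, hr, h.lk⟩

/-- A new path off the tail that holds the root in its old role gives a spider again. -/
theorem Spd.glue (h : Spd R σ U W a b r c d) {U' : Finset V} {a' b' : V}
    (h' : HP (RA R τ) U' a' b') (hd : Disjoint U' W) (hr : r ∈ U') (e : τ r = σ r) :
    Spd R (fun v => if v ∈ W then σ v else τ v) U' W a' b' r c d := by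
  have hn : ∀ v ∈ U', v ∉ W := fun v hv => disjoint_left.1 hd hv
  refine ⟨h'.congr fun v hv => by simp [hn v hv], h.h2.congr fun v hv => by simp [hv], hd, hr,
    h.lk.congr (by simp [hn r hr, e]) (by simp [h.h2.mem_left])⟩

/-- If the root is an end of the path, the spider is a path. -/
theorem Spd.hasP_of_end (h : Spd R σ U W a r r c d) : HasP R (U.card + W.card) :=
  ⟨σ, _, a, d, h.h1.append h.h2 h.dj h.lk, card_union_of_disjoint h.dj⟩

/-- The root of an optimal spider is not an end. -/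
theorem Spd.root_ne (h : Spd R σ U W a b r c d) (O : Opt R m U.card W.card) : r ≠ a ∧ r ≠ b := by
  have := O.big
  constructor <;> rintro rfl
  · have := O.noP _ h.rev.hasP_of_end; omega
  · have := O.noP _ h.hasP_of_end; omega

/-- No antidirected path has `n` or more vertices. -/
def NoP (R : V → V → Prop) (n : ℕ) : Prop := ∀ σ U a b, HP (RA R σ) U a b → U.card < n

/-- No spider has a path on more than `p` vertices and `n` or more vertices in all. -/
def NoS (R : V → V → Prop) (p n : ℕ) : Prop :=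
  ∀ σ U W a b r c d, Spd R σ U W a b r c d → p < U.card → U.card + W.card < n

/-- Spiders with a path on `p` vertices have tails on at most `t` vertices. -/
def NoT (R : V → V → Prop) (p t : ℕ) : Prop :=
  ∀ σ U W a b r c d, Spd R σ U W a b r c d → U.card = p → W.card ≤ t

theorem NoP.dual (h : NoP R n) : NoP (flip R) n := fun σ U a b q =>
  h (neg σ) U a b (by rw [← RA_dual]; simpa using q)

theorem NoS.dual (h : NoS R p n) : NoS (flip R) p n := fun _ _ _ _ _ _ _ _ q => h _ _ _ _ _ _ _ _ q.dual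

theorem NoT.dual (h : NoT R p t) : NoT (flip R) p t := fun _ _ _ _ _ _ _ _ q => h _ _ _ _ _ _ _ _ q.dual

theorem NoP.mono (h : NoP R n) (e : n ≤ m) : NoP R m := fun σ U a b q => (h σ U a b q).trans_le e

theorem NoS.mono {p' n' : ℕ} (h : NoS R p n) (e1 : p ≤ p') (e2 : n ≤ n') : NoS R p' n' :=
  fun σ U W a b r c d q hp => (h σ U W a b r c d q (by omega)).trans_le e2

theorem NoP.noS (h : NoP R (p + 1)) (n : ℕ) : NoS R p n := fun σ U _ a b _ _ _ q hp => by
  have := h σ U a b q.h1; omega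

theorem Spd.path_of_end (h : Spd R σ U W a r r c d) : HP (RA R σ) (U ∪ W) a d :=
  h.h1.append h.h2 h.dj h.lk

theorem Spd.lt_of_end (h : Spd R σ U W a r r c d) (hP : NoP R n) : U.card + W.card < n := by
  have := hP _ _ _ _ h.path_of_end
  rwa [card_union_of_disjoint h.dj] at this

theorem Opt.np (O : Opt R m p t) : NoP R (2 * m) := fun _ _ _ _ q => O.noP _ q.hasP

theorem Opt.ns (O : Opt R m p t) : NoS R p (2 * m + 1) := fun _ _ _ _ _ _ _ _ q hp => by
  by_contra hn
  have := O.maxp _ _ q.hasS (by omega)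
  omega

theorem Opt.nt (O : Opt R m p t) : NoT R p t := fun _ _ _ _ _ _ _ _ q hp =>
  O.maxt _ (hp ▸ q.hasS)

end Pool.Agent.Lib.MP_04ab3e_co.X
end

-- part Pool.Agent.Lib.MP_04ab3e_co.X.SCa
section

/-! The spider count: cells on the path and on the tail. -/

namespace Pool.Agent.Lib.MP_04ab3e_co.X

open Finset

/-- An optimal spider on numbers. The path is `0, …, 2 h` (even numbers are sources), followed by
the sink `2 h + 1` if `ε = 1`; the root is `x`; the tail is `2 h + 1 + ε, …, e` and its end `e`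
is a source. -/
structure SCF (R : ℕ → ℕ → Prop) (m h ε t r2 x e : ℕ) : Prop where
  fr : Fr R (2 * h + 1 + ε) t 0 r2 x (2 * h + 1 + ε)
  opt : Opt R m (2 * h + 1 + ε) t
  num : ε ≤ 1 ∧ e = 2 * h + ε + t ∧ e % 2 = r2
  pure : ∀ n k, HasS R n k → n + ε < 2 * m

/-- A spider whose path is `0, …, 2 h + ε` (even numbers are sources), with root `x` and tail
`p, …, e`; the last vertex `e` is a source. -/
structure SCG (R : ℕ → ℕ → Prop) (m h ε p e r2 x : ℕ) : Prop where
  irr : Irr R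
  a1 : Alt R 0 0 (2 * h + ε)
  a2 : Alt R r2 p e
  lk : Ar R (x % 2 = 0) x p
  num : r2 < 2 ∧ ε ≤ 1 ∧ p = 2 * h + 1 + ε ∧ x < p ∧ p ≤ e ∧ (x % 2 = 0 ↔ ¬ p % 2 = r2) ∧
    e % 2 = r2 ∧ 2 * m ≤ e
  noP : ∀ n, HasP R n → n < 2 * m
  maxp : ∀ n k, HasS R n k → 2 * m + 1 ≤ n + k → n ≤ p
  hW : ∀ n k, HasS R n k → 2 * m ≤ n + ε → False

variable {R : ℕ → ℕ → Prop} {m h ε p e r2 x u v w : ℕ}

theorem SCF.g {t : ℕ} (F : SCF R m h ε t r2 x e) : SCG R m h ε (2 * h + 1 + ε) e r2 x := by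
  have h1 := F.num
  have h2 := F.fr.num
  have h3 := F.opt.big
  refine ⟨F.fr.irr, ?_, ?_, F.fr.lk, by omega, F.opt.noP, F.opt.maxp, fun n k q z => ?_⟩
  · have := F.fr.a1
    rwa [show 2 * h + 1 + ε - 1 = 2 * h + ε by omega] at this
  · have := F.fr.a2
    rwa [show 2 * h + 1 + ε + t - 1 = e by omega] at this
  · have := F.pure n k q; omega

/-- A path that holds the last source of the first path in its role is short. -/
theorem SCG.pure (F : SCG R m h ε p e r2 x) {P S : ℕ → Prop} {n a b : ℕ} (q : Sg R P S n a b)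
    (hs : P (2 * h) ∧ S (2 * h) ∧ (ε = 1 → ¬ P (2 * h + 1))) : n + ε < 2 * m := by
  have hn := F.num
  by_cases z : ε = 0
  · have := F.noP _ q.hasP; omega
  · by_contra c
    refine F.hW _ _ (q.hasS' (Sg.ot R (2 * h + 1)) (F.a1.ar (2 * h) (2 * h + 1) (by omega))
      fun v => ⟨hs.1, rfl, iff_of_true hs.2.1 (by omega), by omega, ?_⟩) (by omega)
    rintro ⟨q1, rfl⟩
    exact hs.2.2 (by omega) q1

/-- Both legs are long. -/
theorem SCG.far (F : SCG R m h ε p e r2 x) :
    p < 2 * m ∧ e + 1 < 2 * m + x ∧ e + 1 + x < 2 * m + 2 * h := by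
  have hn := F.num
  have A := F.a1
  have W := F.a2.sg p e (by omega)
  have q0 := F.noP _ (A.sg 0 (2 * h + ε) (by omega)).hasP
  have q1 := (A.sg 0 x (by omega)).jn W F.lk (by intro v; omega)
  have q2 := F.noP _ q1.hasP
  have q3 : x < 2 * h := by omega
  have q4 := F.pure ((A.sg x (2 * h) (by omega)).rev.jn W F.lk (by intro v; omega)) (by omega)
  refine ⟨by omega, by omega, ?_⟩
  by_contra c
  exact F.hW _ _ (q1.hasS (A.sg (x + 1) (x + 1) (by omega)) (A.ar x (x + 1) (by omega))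
    (by intro v; omega)) (by omega)

theorem SCG.AB (F : SCG R m h ε p e r2 x) (hu : u % 2 = 0 ∧ 0 < u ∧ u < 2 * h)
    (e1 : R 0 (u + 1)) (e2 : R (2 * h) (u - 1)) : False := by
  have hn := F.num
  have hf := F.far
  have A := F.a1
  have B := F.a2
  have W := B.sg p e (by omega)
  rcases lt_trichotomy x u with q | q | q
  · have := F.pure ((((A.sg 0 (x - 1) (by omega)).rev.out
      (A.sg (u + 1) (2 * h) (by omega)) e1 (by intro v; omega)).out
      (A.sg x (u - 1) (by omega)).rev e2 (by intro v; omega)).jn W F.lk (by intro v; omega))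
      (by omega)
    omega
  · subst q
    have := F.noP _ (((A.sg (x + 1) (2 * h) (by omega)).rev.inn (A.sg 0 x (by omega)) e1
      (by intro v; omega)).jn W F.lk (by intro v; omega)).hasP
    omega
  · have := F.pure ((((A.sg (x + 1) (2 * h) (by omega)).out
      (A.sg 0 (u - 1) (by omega)).rev e2 (by intro v; omega)).out
      (A.sg (u + 1) x (by omega)) e1 (by intro v; omega)).jn W F.lk (by intro v; omega))
      (by omega)
    omega

theorem SCG.ECB (F : SCG R m h ε p e r2 x) (hu : u % 2 = 0 ∧ 0 < u ∧ u ≤ 2 * h)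
    (e1 : R e u) (e2 : R 0 u) (e3 : R (2 * h) (u - 1)) : False := by
  have hn := F.num
  have hf := F.far
  have A := F.a1
  have B := F.a2
  have W := B.sg p e (by omega)
  have q := (W.out (Sg.ot R u) e1 (by intro v; omega)).inn (A.sg 0 (u - 1) (by omega)) e2
    (by intro v; omega)
  by_cases z : u = 2 * h
  · have := F.noP _ q.hasP; omega
  · have := F.noP _ (q.inn (A.sg (u + 1) (2 * h) (by omega)).rev e3 (by intro v; omega)).hasP
    omega

theorem SCG.EDA (F : SCG R m h ε p e r2 x) (hu : u % 2 = 0 ∧ u < 2 * h)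
    (e1 : R e u) (e2 : R (2 * h) u) (e3 : R 0 (u + 1)) : False := by
  have hn := F.num
  have hf := F.far
  have A := F.a1
  have B := F.a2
  have W := B.sg p e (by omega)
  have q := (W.out (Sg.ot R u) e1 (by intro v; omega)).inn
    (A.sg (u + 1) (2 * h) (by omega)).rev e2 (by intro v; omega)
  by_cases z : u = 0
  · have := F.noP _ q.hasP; omega
  · have := F.noP _ (q.inn (A.sg 0 (u - 1) (by omega)) e3 (by intro v; omega)).hasP
    omega

/-- A path through the first path and `e` alone is too long: the rest of the tail hangs at `e`. -/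
theorem SCG.ins (F : SCG R m h ε p e r2 x) {P S : ℕ → Prop} {n a b : ℕ} (q : Sg R P S n a b)
    (hs : ∀ v, P e ∧ S e ∧ (P v → v < p ∨ v = e)) (hp : p < n) : False := by
  have hn := F.num
  have hf := F.far
  have A := F.a1
  have B := F.a2
  have W := B.sg p e (by omega)
  have := F.maxp _ _ (q.hasS' (B.sg p (e - 1) (by omega)).rev (B.ar e (e - 1) (by omega))
    fun v => ⟨(hs v).1, by omega, iff_of_true (hs v).2.1 (by omega), by omega, fun z => by
      have := (hs v).2.2 z.1; omega⟩) (by omega)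
  omega

/-- The weight of the cell of the source `u`. -/
noncomputable def cQ (R : ℕ → ℕ → Prop) (h e x u : ℕ) : ℕ :=
  ind (u < 2 * h ∧ R 0 (u + 1)) + ind (0 < u ∧ R (2 * h) (u - 1)) + ind (R 0 u) +
    ind (R (2 * h) u) + ind (R e u) + ind (u < 2 * h ∧ u + 1 ≠ x ∧ R e (u + 1))

theorem SCG.c3 (F : SCG R m h ε p e r2 x) (hu : u % 2 = 0 ∧ u ≤ 2 * h) : cQ R h e x u ≤ 3 := by
  have hn := F.num
  have hf := F.far
  have A := F.a1
  have B := F.a2
  have W := B.sg p e (by omega)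
  have c0 : R 0 u → 0 < u := fun q => Nat.pos_of_ne_zero fun z => F.irr 0 (z ▸ q)
  have ab : u < 2 * h ∧ R 0 (u + 1) → 0 < u ∧ R (2 * h) (u - 1) → False := fun q1 q2 =>
    F.AB ⟨hu.1, q2.1, q1.1⟩ q1.2 q2.2
  have eda : R e u → R (2 * h) u → u < 2 * h ∧ R 0 (u + 1) → False := fun q1 q2 q3 =>
    F.EDA ⟨hu.1, q3.1⟩ q1 q2 q3.2
  unfold cQ
  rcases ind_cases (u < 2 * h ∧ u + 1 ≠ x ∧ R e (u + 1)) with ⟨⟨u1, u2, e0⟩, z⟩ | ⟨-, z⟩
  · have := cell2 ab eda (C := R 0 u) (fun e1 e2 => by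
      have := c0 e1
      have := F.noP _ ((((A.sg 0 (u - 1) (by omega)).rev.out (Sg.ot R u) e1
        (by intro v; omega)).inn (A.sg (u + 1) (2 * h) (by omega)).rev e2
        (by intro v; omega)).inn W.rev e0 (by intro v; omega)).hasP
      omega) (fun e1 e2 => by
      have := c0 e1
      exact F.ins ((((A.sg 0 (u - 1) (by omega)).rev.out (Sg.ot R u) e1
        (by intro v; omega)).inn (Sg.os R e) e2 (by intro v; omega)).out
        (A.sg (u + 1) (2 * h + ε) (by omega)) e0 (by intro v; omega)) (by intro v; omega)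
        (by omega)) (fun ⟨b1, e1⟩ _ => by
      have := F.pure (((A.sg 0 (u - 1) (by omega)).inn
        (A.sg (u + 1) (2 * h) (by omega)).rev e1 (by intro v; omega)).inn W.rev e0
        (by intro v; omega)) (by omega)
      omega)
    omega
  · have := cell3 ab (fun q1 (q2 : R 0 u) q3 => F.ECB ⟨hu.1, q3.1, hu.2⟩ q1 q2 q3.2) eda
    omega

theorem SCG.c0 (F : SCG R m h ε p e r2 x) : cQ R h e x 0 ≤ 2 := by
  have hn := F.num
  have hf := F.far
  have A := F.a1
  have B := F.a2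
  have W := B.sg p e (by omega)
  have a1 : R 0 1 := (A 0 (by omega) (by omega)).1 (by omega)
  have := cell1 (A := R (2 * h) 0) (B := R e 0) (C := 0 < 2 * h ∧ 0 + 1 ≠ x ∧ R e (0 + 1))
    (fun e1 e2 => F.EDA (u := 0) (by omega) e2 e1 a1) (fun e1 ⟨_, _, e2⟩ => by
      have := F.noP _ ((W.out (A.sg (0 + 1) (2 * h) (by omega)) e2 (by intro v; omega)).out
        (Sg.ot R 0) e1 (by intro v; omega)).hasP
      omega) (fun e1 ⟨_, _, e2⟩ =>
      F.ins (((Sg.ot R 0).inn (Sg.os R e) e1 (by intro v; omega)).out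
        (A.sg (0 + 1) (2 * h + ε) (by omega)) e2 (by intro v; omega)) (by intro v; omega)
        (by omega))
  have := ind_le (0 < 2 * h ∧ R 0 (0 + 1))
  have := ind_eq_zero (p := 0 < 0 ∧ R (2 * h) (0 - 1)) (by simp)
  have := ind_eq_zero (F.irr 0)
  unfold cQ
  omega

theorem SCG.cs (F : SCG R m h ε p e r2 x) : cQ R h e x (2 * h) ≤ 2 := by
  have hn := F.num
  have hf := F.far
  have A := F.a1
  have B := F.a2
  have W := B.sg p e (by omega)
  have a1 : R (2 * h) (2 * h - 1) := (A.ar (2 * h) (2 * h - 1) (by omega)).1 (by omega)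
  have := ind2 (p := R 0 (2 * h)) (q := R e (2 * h)) fun e1 e2 => F.ECB (by omega) e2 e1 a1
  have := ind_le (0 < 2 * h ∧ R (2 * h) (2 * h - 1))
  have := ind_eq_zero (p := 2 * h < 2 * h ∧ R 0 (2 * h + 1)) (by simp)
  have := ind_eq_zero (p := 2 * h < 2 * h ∧ 2 * h + 1 ≠ x ∧ R e (2 * h + 1)) (by simp)
  have := ind_eq_zero (F.irr (2 * h))
  unfold cQ
  omega

theorem SCG.cl (F : SCG R m h ε p e r2 x) (hu : u % 2 = 0 ∧ u < x ∧ 2 * m + x ≤ u + e + 1) :
    cQ R h e x u ≤ 2 := by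
  have hn := F.num
  have hf := F.far
  have A := F.a1
  have B := F.a2
  have W := B.sg p e (by omega)
  have nb : ¬ (0 < u ∧ R (2 * h) (u - 1)) := fun ⟨_, e1⟩ => by
    have := F.pure (((A.sg 0 (u - 1) (by omega)).inn (A.sg x (2 * h) (by omega)).rev e1
      (by intro v; omega)).jn W F.lk (by intro v; omega)) (by omega)
    omega
  have := ind_eq_zero (p := u < 2 * h ∧ u + 1 ≠ x ∧ R e (u + 1)) fun ⟨_, _, e1⟩ => by
    have := F.pure (((A.sg 0 (u + 1) (by omega)).inn W.rev e1 (by intro v; omega)).jn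
      (A.sg x (2 * h) (by omega)) F.lk.symm (by intro v; omega)) (by omega)
    omega
  have := cell2 (A := u < 2 * h ∧ R 0 (u + 1)) (C := R 0 u) (fun _ q => nb q)
    (fun q1 q2 q3 => F.EDA ⟨hu.1, q3.1⟩ q1 q2 q3.2) (fun e1 e2 => by
      have := F.pure ((((A.sg 0 (u - 1) (by omega)).rev.out (Sg.ot R u) e1
        (by intro v; omega)).inn (A.sg x (2 * h) (by omega)).rev e2 (by intro v; omega)).jn W
        F.lk (by intro v; omega)) (by omega)
      omega) (fun e1 e2 => by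
      have := F.pure ((((A.sg 0 (u - 1) (by omega)).rev.out (Sg.ot R u) e1
        (by intro v; omega)).inn W.rev e2 (by intro v; omega)).jn (A.sg x (2 * h) (by omega))
        F.lk.symm (by intro v; omega)) (by omega)
      omega) (fun q _ => nb q)
  unfold cQ
  omega

theorem SCG.cr (F : SCG R m h ε p e r2 x) (hu : u % 2 = 0 ∧ x < u ∧ 2 * m + u ≤ x + e + 1) :
    cQ R h e x u ≤ 2 := by
  have hn := F.num
  have hf := F.far
  have A := F.a1
  have B := F.a2
  have W := B.sg p e (by omega)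
  have na : ¬ (u < 2 * h ∧ R 0 (u + 1)) := fun ⟨_, e1⟩ => by
    have := F.pure (((A.sg (u + 1) (2 * h) (by omega)).rev.inn (A.sg 0 x (by omega)) e1
      (by intro v; omega)).jn W F.lk (by intro v; omega)) (by omega)
    omega
  have := ind_eq_zero (p := u < 2 * h ∧ u + 1 ≠ x ∧ R e (u + 1)) fun ⟨_, _, e1⟩ => by
    have := F.pure (((A.sg (u + 1) (2 * h) (by omega)).rev.inn W.rev e1 (by intro v; omega)).jn
      (A.sg 0 x (by omega)).rev F.lk.symm (by intro v; omega)) (by omega)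
    omega
  have := cell2 (A := 0 < u ∧ R (2 * h) (u - 1)) (C := R (2 * h) u) (fun _ q => na q)
    (fun q1 q2 q3 => F.ECB (by omega) q1 q2 q3.2) (fun e1 e2 => by
      have := F.pure ((((A.sg (u + 1) (2 * h) (by omega)).out (Sg.ot R u) e1
        (by intro v; omega)).inn (A.sg 0 x (by omega)) e2 (by intro v; omega)).jn W
        F.lk (by intro v; omega)) (by omega)
      omega) (fun e1 e2 => by
      have := F.pure ((((A.sg (u + 1) (2 * h) (by omega)).out (Sg.ot R u) e1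
        (by intro v; omega)).inn W.rev e2 (by intro v; omega)).jn (A.sg 0 x (by omega)).rev
        F.lk.symm (by intro v; omega)) (by omega)
      omega) (fun q _ => na q)
  unfold cQ
  omega

/-- The sum over the first path without its last sink. -/
theorem SCG.sumQ (F : SCG R m h ε p e r2 x) :
    ∑ j ∈ range (2 * h + 1), ind (R 0 j) + ∑ j ∈ range (2 * h + 1), ind (R (2 * h) j) +
      ∑ j ∈ range (2 * h + 1), ind (R e j) + 2 * ((e + 1 + x % 2 - 2 * m) / 2) ≤
      3 * h + 1 + ind (x % 2 = 1 ∧ R e x) := by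
  have hn := F.num
  have hf := F.far
  obtain ⟨n, hn'⟩ : ∃ n, n = (e + 1 + x % 2 - 2 * m) / 2 := ⟨_, rfl⟩
  rw [← hn']
  have s1 := sum_le_mul (h := h + 1) (c := 2 + 1) (f := fun j => cQ R h e x (2 * j) +
      ind (((0 ≤ j ∧ j < 1) ∨ (h ≤ j ∧ j < h + 1)) ∨ (((x + 1) / 2 - n ≤ j ∧ j < (x + 1) / 2) ∨
        (x / 2 + 1 ≤ j ∧ j < x / 2 + 1 + n)))) fun j hj => by
    refine save (F.c3 (by omega)) ?_
    rintro ((q | q) | (q | q))
    · obtain rfl : j = 0 := by omega
      exact F.c0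
    · obtain rfl : j = h := by omega
      exact F.cs
    · exact F.cl (by omega)
    · exact F.cr (by omega)
  have w1 : ∑ j ∈ range (h + 1), ind (((0 ≤ j ∧ j < 1) ∨ (h ≤ j ∧ j < h + 1)) ∨
      (((x + 1) / 2 - n ≤ j ∧ j < (x + 1) / 2) ∨ (x / 2 + 1 ≤ j ∧ j < x / 2 + 1 + n))) =
      2 + 2 * n := by
    rw [sum_congr rfl fun j _ => ind_or (by omega), sum_add_distrib,
      sum_congr rfl fun j _ => ind_or (by omega), sum_add_distrib,
      sum_congr rfl fun j _ => ind_or (A := (x + 1) / 2 - n ≤ j ∧ j < (x + 1) / 2) (by omega),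
      sum_add_distrib, sum_win (by omega), sum_win (by omega), sum_win (by omega),
      sum_win (by omega)]
    omega
  have v1 : ∑ j ∈ range (h + 1), ind (2 * j < 2 * h ∧ R 0 (2 * j + 1)) =
      ∑ j ∈ range h, ind (R 0 (2 * j + 1)) := by
    rw [← sum_last (fun j => R 0 (2 * j + 1)) h]
    exact sum_congr rfl fun j _ => by rw [show 2 * j < 2 * h ↔ j < h by omega]
  have v2 : ∑ j ∈ range (h + 1), ind (0 < 2 * j ∧ R (2 * h) (2 * j - 1)) =
      ∑ j ∈ range h, ind (R (2 * h) (2 * j + 1)) := by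
    rw [sum_range_succ', ind_eq_zero (p := 0 < 2 * 0 ∧ _) (by simp), add_zero]
    exact sum_congr rfl fun j _ => by
      rw [and_iff_right (by omega), show 2 * (j + 1) - 1 = 2 * j + 1 by omega]
  have v3 : ∑ j ∈ range h, ind (R e (2 * j + 1)) ≤
      ∑ j ∈ range (h + 1), ind (2 * j < 2 * h ∧ 2 * j + 1 ≠ x ∧ R e (2 * j + 1)) +
        ind (x % 2 = 1 ∧ R e x) := by
    rw [sum_range_succ]
    rcases ind_cases (x % 2 = 1 ∧ R e x) with ⟨-, z⟩ | ⟨q, z⟩
    · have u := sum_win (lo := x / 2) (hi := x / 2 + 1) (h := h + x + 1) (by omega)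
      have u2 : ∑ j ∈ range h, ind (x / 2 ≤ j ∧ j < x / 2 + 1) ≤
          ∑ j ∈ range (h + x + 1), ind (x / 2 ≤ j ∧ j < x / 2 + 1) :=
        sum_le_sum_of_subset (range_mono (by omega))
      have u3 : ∑ j ∈ range h, ind (R e (2 * j + 1)) ≤
          ∑ j ∈ range h, (ind (2 * j < 2 * h ∧ 2 * j + 1 ≠ x ∧ R e (2 * j + 1)) +
            ind (x / 2 ≤ j ∧ j < x / 2 + 1)) := sum_le_sum fun j hj => by
        have := mem_range.1 hj
        by_cases c : 2 * j + 1 = x
        · have := ind_eq_one (p := x / 2 ≤ j ∧ j < x / 2 + 1) (by omega)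
          have := ind_le (R e (2 * j + 1))
          omega
        · have := ind_mono (A := R e (2 * j + 1))
            (B := 2 * j < 2 * h ∧ 2 * j + 1 ≠ x ∧ R e (2 * j + 1)) fun q => ⟨by omega, c, q⟩
          omega
      rw [sum_add_distrib] at u3
      omega
    · have u3 : ∑ j ∈ range h, ind (R e (2 * j + 1)) ≤
          ∑ j ∈ range h, ind (2 * j < 2 * h ∧ 2 * j + 1 ≠ x ∧ R e (2 * j + 1)) :=
        sum_le_sum fun j hj => ind_mono fun c => ⟨by have := mem_range.1 hj; omega,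
          fun z => q ⟨by omega, z ▸ c⟩, c⟩
      omega
  simp only [cQ, sum_add_distrib] at s1
  rw [sum_par', sum_par', sum_par']
  omega

end Pool.Agent.Lib.MP_04ab3e_co.X
end

-- part Pool.Agent.Lib.MP_04ab3e_co.X.Win
section

/-! The ends of an optimal spider: closure and the window on the tail. -/

namespace Pool.Agent.Lib.MP_04ab3e_co.X

open Finset

variable {V : Type} [DecidableEq V]

variable {R : V → V → Prop} {σ : V → Bool} {U W W1 W2 : Finset V} {a b r c d c' d' : V} {m : ℕ}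

/-- Cut a path after `n` vertices. -/
theorem HP.cut_at {H : V → V → Prop} (h : HP H U a b) (n : ℕ) (h1 : 1 ≤ n) (hn : n < U.card) :
    ∃ U1 U2 x y, HP H U1 a x ∧ HP H U2 y b ∧ H x y ∧ Disjoint U1 U2 ∧ U1 ∪ U2 = U ∧
      U1.card = n := by
  induction h generalizing n with
  | single a => simp at hn; omega
  | @cons U a a' b h3 h4 h5 ih =>
    rw [card_insert_of_notMem h4] at hn
    by_cases e : n = 1
    · exact ⟨{a}, U, a, a', HP.single a, h5, h3, disjoint_singleton_left.2 h4, by simp,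
        by simp [e]⟩
    · obtain ⟨U1, U2, x, y, p1, p2, p3, p4, p5, p6⟩ := ih (n - 1) (by omega) (by omega)
      have q1 : a ∉ U1 := fun q => h4 (p5 ▸ mem_union_left _ q)
      have q2 : a ∉ U2 := fun q => h4 (p5 ▸ mem_union_right _ q)
      exact ⟨insert a U1, U2, x, y, HP.cons h3 q1 p1, p2, p3,
        disjoint_insert_left.2 ⟨q2, p4⟩, by rw [insert_union, p5],
        by rw [card_insert_of_notMem q1]; omega⟩

/-- Cut a path after `k` vertices. -/
theorem HP.split_card {H : V → V → Prop} (h : HP H W c d) {k : ℕ} (h1 : 1 ≤ k) (h2 : k < W.card) :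
    ∃ W1 W2 c' d', HP H W1 c c' ∧ HP H W2 d' d ∧ H c' d' ∧ Disjoint W1 W2 ∧ W1 ∪ W2 = W ∧
      W1.card = k := h.cut_at k h1 h2

/-- A new sink at the end `b` of the path, with an initial piece `T` of the tail. -/
theorem Spd.push {T : Finset V} {z v : V} (S : Spd R σ U W a b r c d) (hb : σ b = true)
    (hT : HP (RA R σ) T c z) (hTW : T ⊆ W) (hv : R b v) (h1 : v ∉ U) (h2 : v ∉ T) :
    Spd R (Function.update σ v false) (insert v U) T a v r c z :=
  ⟨S.h1.snoc_snk hb h1 hv, hT.upd h2 _,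
    disjoint_insert_left.2 ⟨h2, S.dj.mono_right hTW⟩, mem_insert_of_mem S.hr,
    S.lk.upd (ne_of_mem_of_not_mem S.hr h1) (ne_of_mem_of_not_mem hT.mem_left h2) _⟩

/-- A source end of the path hits only the path and sources among the first `2 m - p` vertices
`W1` of the tail. -/
theorem window (h : Spd R σ U W a b r c d) (O : Opt R m U.card W.card)
    (w1 : HP (RA R σ) W1 c c') (w2 : HP (RA R σ) W2 d' d) (e : RA R σ c' d')
    (dj : Disjoint W1 W2) (hu : W1 ∪ W2 = W) (hk : U.card + W1.card = 2 * m) (ha : σ a = true)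
    {v : V} (hv : R a v) : v ∈ U ∨ v ∈ src σ W1 := by
  by_contra hn
  obtain ⟨n1, n2⟩ := not_or.1 hn
  have S := h.rev
  have big := O.big
  have s1 : W1 ⊆ W := hu ▸ subset_union_left
  have cv := card_insert_of_notMem n1
  by_cases w : v ∈ W
  swap
  · have := O.maxp _ _ (S.push ha S.h2 (Subset.refl _) hv n1 w).hasS (by omega)
    omega
  cases q : σ v
  · by_cases vc : v = c
    · subst vc
      have := O.noP _ (S.h1.append S.h2 S.dj (RA.mk ha q hv)).hasP
      rw [card_union_of_disjoint S.dj] at this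
      omega
    · obtain ⟨Wa, Wb, v', p1, p2, -, p4, p5⟩ := S.h2.split' w vc
      have da : Disjoint U Wa := S.dj.mono_right (p5 ▸ subset_union_left)
      have db : Disjoint U Wb := S.dj.mono_right (p5 ▸ subset_union_right)
      have c1 := card_union_of_disjoint db
      have c2 := card_union_of_disjoint p4
      have c3 := p2.nonempty.card_pos
      rw [p5] at c2
      have := O.maxp _ _ (Spd.hasS ⟨S.h1.append p2 db (RA.mk ha q hv), p1,
        disjoint_union_left.2 ⟨da, p4.symm⟩, mem_union_left _ S.hr, S.lk⟩) (by omega)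
      omega
  · have v1 : v ∉ W1 := fun z => n2 (mem_src.2 ⟨z, q⟩)
    have v2 : v ∈ W2 := by
      rw [← hu] at w
      exact (mem_union.1 w).resolve_left v1
    by_cases ve : v = d'
    · have := O.maxp _ _ (S.push ha w1 s1 hv n1 v1).hasS (by omega)
      omega
    · obtain ⟨Wa, Wb, v', p1, p2, -, p4, p5⟩ := w2.split' v2 ve
      have sa : Wa ⊆ W2 := p5 ▸ subset_union_left
      have da : Disjoint W1 Wa := dj.mono_right sa
      have c1 := card_union_of_disjoint da
      have := O.maxp _ _ (S.push ha (w1.append p1 da e)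
        (hu ▸ union_subset_union (Subset.refl _) sa) hv n1
        (fun z => (mem_union.1 z).elim v1 fun z => disjoint_left.1 p4 z p2.mem_left)).hasS
        (by omega)
      omega

/-- Dual form of `window`. -/
theorem window' (h : Spd R σ U W a b r c d) (O : Opt R m U.card W.card)
    (w1 : HP (RA R σ) W1 c c') (w2 : HP (RA R σ) W2 d' d) (e : RA R σ c' d')
    (dj : Disjoint W1 W2) (hu : W1 ∪ W2 = W) (hk : U.card + W1.card = 2 * m) (ha : σ a = false)
    {v : V} (hv : R v a) : v ∈ U ∨ v ∈ snk σ W1 := by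
  simpa using window (W1 := W1) (W2 := W2) (c' := c') (d' := d') h.dual O.dual (by simpa using w1)
    (by simpa using w2) (by simpa using e) dj hu hk (by simp [neg, ha]) (v := v) hv

/-- A source end of the path has degree at least `m` into the spider. -/
theorem Spd.deg_end [Fintype V] (hdeg : MinDeg R m) (h : Spd R σ U W a b r c d)
    (O : Opt R m U.card W.card) (ha : σ a = true) : m ≤ od R (U ∪ W) a := by
  rw [od_eq_of_closed fun v hv => ?_]
  · exact (hdeg a).1
  by_contra q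
  rw [mem_union, not_or] at q
  have big := O.big
  have cv := card_insert_of_notMem q.1
  have := O.maxp _ _ (h.rev.push ha h.h2 (Subset.refl _) hv q.1 q.2).hasS (by omega)
  omega

/-- The source end of the tail has degree at least `m` into the spider. -/
theorem Spd.deg_tail [Fintype V] {n : ℕ} (hdeg : MinDeg R n) (h : Spd R σ U W a b r c d)
    (hT : ∀ k, HasS R U.card k → k ≤ W.card) (hd : σ d = true) : n ≤ od R (U ∪ W) d := by
  rw [od_eq_of_closed fun v hv => ?_]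
  · exact (hdeg d).1
  by_contra q
  rw [mem_union, not_or] at q
  have := hT _ (Spd.hasS ⟨h.h1.upd q.1 false, h.h2.snoc_snk hd q.2 hv,
    disjoint_insert_right.2 ⟨q.1, h.dj⟩, h.hr,
    h.lk.upd (ne_of_mem_of_not_mem h.hr q.1) (ne_of_mem_of_not_mem h.h2.mem_left q.2) _⟩)
  rw [card_insert_of_notMem q.2] at this
  omega

/-- A zigzag through sinks in `B` and sources in `Z`. -/
theorem Wn.zig (n : ℕ) : ∀ (τ : V → Bool) (Q B Z : Finset V) (s : V), HP (RA R τ) Q a s →
    τ s = true → Z.card = n → B.card = n + 1 → Disjoint Q B → Disjoint Q Z → Disjoint B Z →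
    (∀ y ∈ B, R s y) → (∀ z ∈ Z, ∀ y ∈ B, R z y) →
    ∃ τ' U' y, HP (RA R τ') U' a y ∧ U'.card = Q.card + 2 * n + 1 := by
  induction n with
  | zero =>
    intro τ Q B Z s h hs _ hB d1 _ _ e _
    obtain ⟨y, hy⟩ := card_pos.1 (by omega : 0 < B.card)
    have q := disjoint_right.1 d1 hy
    exact ⟨_, _, y, h.snoc_snk hs q (e y hy), by rw [card_insert_of_notMem q]⟩
  | succ n ih =>
    intro τ Q B Z s h hs hZ hB d1 d2 d3 e e'
    obtain ⟨y, hy⟩ := card_pos.1 (by omega : 0 < B.card)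
    obtain ⟨z, hz⟩ := card_pos.1 (by omega : 0 < Z.card)
    have q := disjoint_right.1 d1 hy
    have yz : z ≠ y := ne_of_mem_of_not_mem hz (disjoint_left.1 d3 hy)
    have q' : z ∉ insert y Q := by simp [yz, disjoint_right.1 d2 hz]
    obtain ⟨τ', U', y', k1, k2⟩ := ih _ _ (B.erase y) (Z.erase z) z
      ((h.snoc_snk hs q (e y hy)).snoc_src (Function.update_self _ _ _) q' (e' z hz y hy))
      (Function.update_self _ _ _) (by rw [card_erase_of_mem hz]; omega)
      (by rw [card_erase_of_mem hy]; omega)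
      (disjoint_insert_left.2 ⟨fun u => disjoint_right.1 d3 hz (mem_of_mem_erase u),
        disjoint_insert_left.2 ⟨notMem_erase _ _, d1.mono_right (erase_subset _ _)⟩⟩)
      (disjoint_insert_left.2 ⟨notMem_erase _ _, disjoint_insert_left.2
        ⟨fun u => disjoint_left.1 d3 hy (mem_of_mem_erase u), d2.mono_right (erase_subset _ _)⟩⟩)
      (d3.mono (erase_subset _ _) (erase_subset _ _))
      (fun v hv => e' z hz v (mem_of_mem_erase hv))
      (fun u hu v hv => e' u (mem_of_mem_erase hu) v (mem_of_mem_erase hv))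
    rw [card_insert_of_notMem q', card_insert_of_notMem q] at k2
    exact ⟨τ', U', y', k1, by omega⟩

/-- A path whose last source `s` hits all of `B`, and `Z` with one vertex less, complete to `B`. -/
theorem zigzag {s : V} {B Z : Finset V} (h : HP (RA R σ) U a s) (hs : σ s = true)
    (d1 : Disjoint U B) (d2 : Disjoint U Z) (d3 : Disjoint B Z) (hc : B.card = Z.card + 1)
    (e1 : ∀ y ∈ B, R s y) (e2 : ∀ z ∈ Z, ∀ y ∈ B, R z y) :
    HasP R (U.card + B.card + Z.card) := by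
  obtain ⟨τ, U', y, k1, k2⟩ := Wn.zig Z.card σ U B Z s h hs rfl hc d1 d2 d3 e1 e2
  exact ⟨τ, U', a, y, k1, by omega⟩

end Pool.Agent.Lib.MP_04ab3e_co.X
end
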